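import Pool.Agent.TH464.PO.QuadAP
import Pool.Agent.TH464.PO.PolyExact

set_option autoImplicit false

/-!
# The system `m ^ 2 + 1`, `m ^ 2 + 3`
-/

namespace Pool.Agent.Y859.SP

open Polynomial Finset Filter
open Pool.Agent.W123.RP Pool.Agent.H373R2.T7 Pool.Agent.W123.RU Pool.Agent.W123.RU.Poly
open Pool.Agent.TH464.PW Pool.Agent.TH464.PO

/-- the constants -/
def cs (i : Fin 2) : ℤ := if i = 0 then 1 else 3

/-- the system -/
noncomputable def sy : Fin 2 → ℤ[X] := fun i => quad 1 0 (cs i)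

lemma cs_pos (i : Fin 2) : 0 < cs i := by
  unfold cs
  split_ifs <;> norm_num

lemma sy_eval (i : Fin 2) (m : ℤ) : (sy i).eval m = m ^ 2 + cs i := by
  unfold sy
  rw [quad_eval]
  ring

lemma not_sq (c : ℤ) (hc : 0 < c) : ¬ IsSquare ((0 : ℤ) ^ 2 - 4 * 1 * c) := by
  rintro ⟨x, hx⟩
  nlinarith [mul_self_nonneg x]

lemma sy_sys : Sys sy where
  irr := fun i => by
    unfold sy
    refine quad_irr 1 0 (cs i) one_ne_zero ?_ (not_sq _ (cs_pos i))
    rintro p hp ⟨h, -⟩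
    have h1 : p ∣ 1 := by exact_mod_cast h
    exact hp.one_lt.ne' (Nat.dvd_one.1 h1)
  deg := fun i => by
    unfold sy
    rw [quad_deg 1 0 _ one_ne_zero]
    norm_num
  lead := fun i => by
    unfold sy
    rw [quad_lead 1 0 _ one_ne_zero]
    norm_num
  inj := by
    intro i j h
    have h1 := congrArg (Polynomial.eval 0) h
    rw [sy_eval, sy_eval] at h1
    fin_cases i <;> fin_cases j <;> simp [cs] at h1 ⊢
  adm := by
    intro p hp
    by_cases h3 : p = 3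
    · subst h3
      refine ⟨1, fun i hd => ?_⟩
      rw [sy_eval] at hd
      fin_cases i
      · norm_num [cs] at hd
      · norm_num [cs] at hd
    · refine ⟨0, fun i hd => ?_⟩
      rw [sy_eval] at hd
      fin_cases i
      · have h1 : (p : ℤ) ∣ ((1 : ℕ) : ℤ) := by simpa [cs] using hd
        rw [Int.natCast_dvd_natCast] at h1
        exact hp.one_lt.ne' (Nat.dvd_one.1 h1)
      · have h1 : (p : ℤ) ∣ ((3 : ℕ) : ℤ) := by simpa [cs] using hd
        rw [Int.natCast_dvd_natCast] at h1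
        exact h3 ((Nat.prime_dvd_prime_iff_eq hp Nat.prime_three).1 h1)

lemma sy_noTr : NoTr sy := by
  intro i j t ht h
  have h0 := congrArg (Polynomial.eval 0) h
  have h1 := congrArg (Polynomial.eval 1) h
  rw [eval_comp, eval_add, eval_X, eval_C, sy_eval, sy_eval] at h0 h1
  have ht' : (1 : ℤ) ≤ t := by exact_mod_cast ht
  nlinarith

lemma sy_Q (p m : ℕ) (hp : p.Prime) : Q sy p m ↔ p ∣ (m ^ 2 + 1) * (m ^ 2 + 3) := by
  unfold Q
  constructor
  · rintro ⟨i, hi⟩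
    rw [sy_eval] at hi
    fin_cases i
    · have h1 : (p : ℤ) ∣ ((m ^ 2 + 1 : ℕ) : ℤ) := by
        push_cast
        simpa [cs] using hi
      exact (Int.natCast_dvd_natCast.1 h1).mul_right _
    · have h1 : (p : ℤ) ∣ ((m ^ 2 + 3 : ℕ) : ℤ) := by
        push_cast
        simpa [cs] using hi
      exact (Int.natCast_dvd_natCast.1 h1).mul_left _
  · intro h
    rcases hp.dvd_mul.1 h with h1 | h1
    · refine ⟨0, ?_⟩
      rw [sy_eval]
      have h2 : (p : ℤ) ∣ ((m ^ 2 + 1 : ℕ) : ℤ) := Int.natCast_dvd_natCast.2 h1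
      push_cast at h2
      simpa [cs] using h2
    · refine ⟨1, ?_⟩
      rw [sy_eval]
      have h2 : (p : ℤ) ∣ ((m ^ 2 + 3 : ℕ) : ℤ) := Int.natCast_dvd_natCast.2 h1
      push_cast at h2
      simpa [cs] using h2

open Classical in
lemma sy_V (y : ℕ) : Vq (Q sy) y = ∏ p ∈ (Finset.range (y + 1)).filter Nat.Prime,
    (1 - (((Finset.range p).filter
      (fun m : ℕ => p ∣ (m ^ 2 + 1) * (m ^ 2 + 3))).card : ℝ) / p) := by
  unfold Vq
  apply Finset.prod_congr
  · unfold pz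
    ext p
    simp only [mem_filter, mem_Icc, mem_range]
    constructor
    · rintro ⟨h1, h2⟩
      exact ⟨by omega, h2⟩
    · rintro ⟨h1, h2⟩
      exact ⟨⟨h2.one_lt.le, by omega⟩, h2⟩
  · intro p hp
    rw [mem_filter] at hp
    have hpp := hp.2
    unfold nuB
    have : (Finset.range p).filter (fun m : ℕ => Q sy p m) =
        (Finset.range p).filter (fun m : ℕ => p ∣ (m ^ 2 + 1) * (m ^ 2 + 3)) := by
      apply Finset.filter_congr
      intro m _
      exact sy_Q p m hpp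
    rw [this]

/-- both `m ^ 2 + 1` and `m ^ 2 + 3` have at most `2 r` prime factors (with multiplicity), all of
them larger than `X ^ (1 / r)` -/
def Good (r X m : ℕ) : Prop :=
  (m ^ 2 + 1).primeFactorsList.length ≤ 2 * r ∧ (m ^ 2 + 3).primeFactorsList.length ≤ 2 * r ∧
    ∀ p : ℕ, p.Prime → p ∣ (m ^ 2 + 1) * (m ^ 2 + 3) → (X : ℝ) ^ (1 / (r : ℝ)) < (p : ℝ)

lemma sf_Good (r : ℕ) (hr : 1 ≤ r) : ∀ᶠ X : ℕ in atTop, ∀ m : ℕ, m ≤ 3 * X →
    (Sf (Q sy) ⌊(X : ℝ) ^ (1 / (r : ℝ))⌋₊ m ↔ Good r X m) := by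
  filter_upwards [sf_APq 1 0 1 r hr, sf_APq 1 0 3 r hr] with X h1 h3 m hm
  have e1 : (1 * (m : ℤ) ^ 2 + 0 * m + 1) = ((m ^ 2 + 1 : ℕ) : ℤ) := by push_cast; ring
  have e3 : (1 * (m : ℤ) ^ 2 + 0 * m + 3) = ((m ^ 2 + 3 : ℕ) : ℤ) := by push_cast; ring
  have h1' := h1 m hm
  have h3' := h3 m hm
  unfold APq at h1' h3'
  rw [e1, Int.natAbs_natCast] at h1'
  rw [e3, Int.natAbs_natCast] at h3'
  have key : Sf (Q sy) ⌊(X : ℝ) ^ (1 / (r : ℝ))⌋₊ m ↔
      Sf (Q (qs 1 0 1)) ⌊(X : ℝ) ^ (1 / (r : ℝ))⌋₊ m ∧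
      Sf (Q (qs 1 0 3)) ⌊(X : ℝ) ^ (1 / (r : ℝ))⌋₊ m := by
    unfold Sf
    constructor
    · intro h
      constructor
      · intro p hp hq
        apply h p hp
        rw [qs_Q, e1, Int.natCast_dvd_natCast] at hq
        rw [sy_Q p m (mem_pz.1 hp).2]
        exact hq.mul_right _
      · intro p hp hq
        apply h p hp
        rw [qs_Q, e3, Int.natCast_dvd_natCast] at hq
        rw [sy_Q p m (mem_pz.1 hp).2]
        exact hq.mul_left _
    · rintro ⟨g1, g3⟩ p hp hq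
      have hpp := (mem_pz.1 hp).2
      rw [sy_Q p m hpp, hpp.dvd_mul] at hq
      rcases hq with hq | hq
      · apply g1 p hp
        rw [qs_Q, e1, Int.natCast_dvd_natCast]
        exact hq
      · apply g3 p hp
        rw [qs_Q, e3, Int.natCast_dvd_natCast]
        exact hq
  rw [key, h1', h3']
  unfold Good
  constructor
  · rintro ⟨⟨a1, a2⟩, b1, b2⟩
    refine ⟨a1, b1, fun p hp hd => ?_⟩
    rcases hp.dvd_mul.1 hd with h | h
    · exact a2 p hp (Int.natCast_dvd_natCast.2 h)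
    · exact b2 p hp (Int.natCast_dvd_natCast.2 h)
  · rintro ⟨a1, b1, c⟩
    refine ⟨⟨a1, fun p hp hd => c p hp ((Int.natCast_dvd_natCast.1 hd).mul_right _)⟩,
      b1, fun p hp hd => c p hp ((Int.natCast_dvd_natCast.1 hd).mul_left _)⟩

end Pool.Agent.Y859.SP
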