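import Pool.Agent.W182.PW.Main
import Pool.Agent.TH464.PW.Quad

set_option autoImplicit false

/-!
# The polynomial `a m ^ 2 - c` at prime arguments
-/

namespace Pool.Agent.Y859.SP

open Polynomial Finset Filter
open Pool.Agent.TH464.PW Pool.Agent.W182.PW

/-- data for `a m ^ 2 - c` -/
structure QP (a c : ℕ) : Prop where
  ha : 0 < a
  hca : c < a * 2 ^ 2
  cop : a.Coprime c
  sq : ¬ IsSquare ((0 : ℤ) ^ 2 - 4 * (a : ℤ) * (-(c : ℤ)))
  adm : ∀ p : ℕ, p.Prime → ∃ m : ℕ, ¬ p ∣ m ∧ ¬ (p : ℤ) ∣ (a : ℤ) * (m : ℤ) ^ 2 - c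

/-- the polynomial -/
noncomputable def qp (a c : ℕ) : ℤ[X] := quad (a : ℤ) 0 (-(c : ℤ))

lemma qp_eval (a c : ℕ) (m : ℤ) : (qp a c).eval m = (a : ℤ) * m ^ 2 - c := by
  unfold qp
  rw [quad_eval]
  ring

lemma qp_eval_nat {a c : ℕ} (h : QP a c) (p : ℕ) (hp : 2 ≤ p) :
    (qp a c).eval (p : ℤ) = ((a * p ^ 2 - c : ℕ) : ℤ) := by
  rw [qp_eval]
  have h1 : c ≤ a * p ^ 2 :=
    h.hca.le.trans (Nat.mul_le_mul_left a (Nat.pow_le_pow_left hp 2))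
  push_cast [h1]
  ring

lemma qp_cop {a c : ℕ} (h : QP a c) :
    ∀ p : ℕ, p.Prime → ¬ ((p : ℤ) ∣ (a : ℤ) ∧ (p : ℤ) ∣ (0 : ℤ) ∧ (p : ℤ) ∣ -(c : ℤ)) := by
  rintro p hp ⟨h1, -, h2⟩
  rw [Int.dvd_neg] at h2
  rw [Int.natCast_dvd_natCast] at h1 h2
  exact hp.one_lt.ne' (Nat.dvd_one.1 (h.cop ▸ Nat.dvd_gcd h1 h2))

lemma qp_irr {a c : ℕ} (h : QP a c) : Irreducible (qp a c) :=
  quad_irr _ _ _ (by exact_mod_cast h.ha.ne') (qp_cop h) h.sq

lemma qp_deg {a c : ℕ} (h : QP a c) : (qp a c).natDegree = 2 :=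
  quad_deg _ _ _ (by exact_mod_cast h.ha.ne')

lemma qp_lead {a c : ℕ} (h : QP a c) : (qp a c).leadingCoeff = a :=
  quad_lead _ _ _ (by exact_mod_cast h.ha.ne')

lemma qp_ne_X {a c : ℕ} (h : QP a c) : qp a c ≠ X := by
  intro h1
  have h2 := qp_deg h
  rw [h1, natDegree_X] at h2
  omega

lemma prime_almost {a c : ℕ} (h : QP a c) (r : ℕ) (z : ℝ) (p : ℕ) :
    PrimeAlmost (fun _ : Fin 1 => qp a c) r z p ↔
      p.Prime ∧ (a * p ^ 2 - c).primeFactorsList.length ≤ r ∧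
        ∀ q : ℕ, q.Prime → q ∣ a * p ^ 2 - c → z < (q : ℝ) := by
  unfold PrimeAlmost
  constructor
  · rintro ⟨h1, h2⟩
    have h3 := h2 0
    simp only [qp_eval_nat h p h1.two_le, Int.natAbs_natCast] at h3
    exact ⟨h1, h3.1, fun q hq hd => h3.2 q hq (Int.natCast_dvd_natCast.2 hd)⟩
  · rintro ⟨h1, h2, h3⟩
    refine ⟨h1, fun _ => ?_⟩
    simp only [qp_eval_nat h p h1.two_le, Int.natAbs_natCast]
    exact ⟨h2, fun q hq hd => h3 q hq (Int.natCast_dvd_natCast.1 hd)⟩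

open Classical in
/-- regular windows -/
theorem regular {a c : ℕ} (h : QP a c) :
    ∃ (r : ℕ) (c₁ c₂ K κ : ℝ), 0 < c₁ ∧ 0 < c₂ ∧ 0 < K ∧ 0 < κ ∧
    ∀ᶠ x : ℕ in atTop,
      κ * x ≤ (((Finset.Icc 1 x).filter
        (fun n => RegularP (fun _ : Fin 1 => qp a c) (1 + 1) r c₁ c₂ K n)).card : ℝ) := by
  have := main (fun _ : Fin 1 => qp a c) (fun _ => qp_irr h)
    (fun _ => by rw [qp_deg h]; norm_num)
    (fun _ => by rw [qp_lead h]; exact_mod_cast h.ha) (fun _ _ _ => Subsingleton.elim _ _)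
    (fun _ => qp_ne_X h) (fun p hp => by
      obtain ⟨m, h1, h2⟩ := h.adm p hp
      refine ⟨m, h1, fun _ => ?_⟩
      rw [qp_eval]
      exact h2)
  exact this

/-- `8 m ^ 2 - 1` -/
lemma qp8 : QP 8 1 where
  ha := by norm_num
  hca := by norm_num
  cop := by norm_num
  sq := by
    rintro ⟨x, hx⟩
    have h1 : x * x = 32 := by
      have : (0 : ℤ) ^ 2 - 4 * ((8 : ℕ) : ℤ) * (-((1 : ℕ) : ℤ)) = 32 := by norm_num
      rw [← hx, this]
    have h2 : x < 6 := by nlinarith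
    have h3 : -6 < x := by nlinarith
    interval_cases x <;> omega
  adm := by
    intro p hp
    by_cases h7 : p = 7
    · subst h7
      exact ⟨2, by norm_num, by norm_num⟩
    · refine ⟨1, fun h => hp.one_lt.ne' (Nat.dvd_one.1 h), fun h => ?_⟩
      have h1 : (p : ℤ) ∣ ((7 : ℕ) : ℤ) := by
        have : ((8 : ℕ) : ℤ) * ((1 : ℕ) : ℤ) ^ 2 - ((1 : ℕ) : ℤ) = ((7 : ℕ) : ℤ) := by norm_num
        rw [← this]
        exact h
      rw [Int.natCast_dvd_natCast] at h1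
      exact h7 ((Nat.prime_dvd_prime_iff_eq hp (by norm_num)).1 h1)

/-- `m ^ 2 - 2` -/
lemma qp2 : QP 1 2 where
  ha := by norm_num
  hca := by norm_num
  cop := by norm_num
  sq := by
    rintro ⟨x, hx⟩
    have h1 : x * x = 8 := by
      have : (0 : ℤ) ^ 2 - 4 * ((1 : ℕ) : ℤ) * (-((2 : ℕ) : ℤ)) = 8 := by norm_num
      rw [← hx, this]
    have h2 : x < 4 := by nlinarith
    have h3 : -4 < x := by nlinarith
    interval_cases x <;> omega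
  adm := by
    intro p hp
    refine ⟨1, fun h => hp.one_lt.ne' (Nat.dvd_one.1 h), fun h => ?_⟩
    have h1 : (p : ℤ) ∣ ((1 : ℕ) : ℤ) := by
      have : ((1 : ℕ) : ℤ) * ((1 : ℕ) : ℤ) ^ 2 - ((2 : ℕ) : ℤ) = -((1 : ℕ) : ℤ) := by norm_num
      rw [← Int.dvd_neg, ← this]
      exact h
    rw [Int.natCast_dvd_natCast] at h1
    exact hp.one_lt.ne' (Nat.dvd_one.1 h1)

end Pool.Agent.Y859.SP
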