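import Pool.Agent.TH977.PW.Inst
import Pool.Agent.Y859.SP.QuadPrime

set_option autoImplicit false

/-!
# Regular points: the polynomial `a m ^ 2 - c` at prime arguments
-/

namespace Pool.Agent.Y859.SP

open Polynomial Finset Filter
open Pool.Agent.TH464.PW Pool.Agent.W182.PW
open Pool.Agent.TH977.PW (N Irregular)

/-- all prime factors of `n` and of `a n ^ 2 - c` are larger than `n ^ (1 / r)` -/
def Rq (a c r : ℕ) : Set ℕ :=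
  {n | (∀ p : ℕ, p.Prime → p ∣ n → (n : ℝ) ^ (1 / (r : ℝ)) < (p : ℝ)) ∧
    ∀ p : ℕ, p.Prime → p ∣ a * n ^ 2 - c → (n : ℝ) ^ (1 / (r : ℝ)) < (p : ℝ)}

lemma dvd_iff {a c : ℕ} (h : QP a c) (p n : ℕ) (hn : 2 ≤ n) :
    (p : ℤ) ∣ (a : ℤ) * (n : ℤ) ^ 2 + 0 * n + (-(c : ℤ)) ↔ p ∣ a * n ^ 2 - c := by
  have h1 := qp_eval_nat h n hn
  rw [qp_eval] at h1
  have h2 : (a : ℤ) * (n : ℤ) ^ 2 + 0 * n + (-(c : ℤ)) = ((a * n ^ 2 - c : ℕ) : ℤ) := by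
    rw [← h1]
    ring
  rw [h2, Int.natCast_dvd_natCast]

lemma natAbs_eq {a c : ℕ} (h : QP a c) (n : ℕ) (hn : 2 ≤ n) :
    ((a : ℤ) * (n : ℤ) ^ 2 + 0 * n + (-(c : ℤ))).natAbs = a * n ^ 2 - c := by
  have h1 := qp_eval_nat h n hn
  rw [qp_eval] at h1
  have h2 : (a : ℤ) * (n : ℤ) ^ 2 + 0 * n + (-(c : ℤ)) = ((a * n ^ 2 - c : ℕ) : ℤ) := by
    rw [← h1]
    ring
  rw [h2, Int.natAbs_natCast]

/-- for `n ≤ 1` the condition is empty -/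
lemma small_lt (r n p : ℕ) (hr : 2 ≤ r) (hn : n ≤ 1) (hp : p.Prime) :
    (n : ℝ) ^ (1 / (r : ℝ)) < (p : ℝ) := by
  have hp2 : (2 : ℝ) ≤ p := by exact_mod_cast hp.two_le
  have hr1 : (0 : ℝ) < r := by exact_mod_cast (by omega : 0 < r)
  have h1 : (n : ℝ) ^ (1 / (r : ℝ)) ≤ 1 := by
    apply Real.rpow_le_one (Nat.cast_nonneg n) (by exact_mod_cast hn) (by positivity)
  linarith

/-- **regular points** -/
theorem regular_points {a c : ℕ} (h : QP a c) (θ : ℝ) (hθ : 0 < θ) (hθ1 : θ ≤ 1) :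
    ∃ r₀ : ℕ, 2 ≤ r₀ ∧ ∀ r : ℕ, r₀ ≤ r →
      (∀ n : ℕ, n.Prime → (a * n ^ 2 - c).Prime → n ≤ a * n ^ 2 - c → n ∈ Rq a c r) ∧
      (∃ κ : ℝ, 0 < κ ∧ ∀ᶠ X : ℕ in atTop, κ * X / Real.log X ^ 2 ≤
          N {n | n ∈ Rq a c r ∧ n.Prime ∧ (a * n ^ 2 - c).primeFactorsList.length ≤ r} X (2 * X)) ∧
      ∀ ε : ℝ, 0 < ε → ∃ c' : ℝ, 0 < c' ∧ ∀ δ : ℝ, 0 < δ → ∃ B : ℕ,
        ∀ᶠ X : ℕ in atTop, ∀ Y : ℕ, (X : ℝ) ^ θ ≤ Y → 2 * Y ≤ X → ∀ A : Set ℕ, A ⊆ Rq a c r →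
          (N (Irregular A 2 c' δ B X Y) X (X + Y) : ℝ) ≤ ε * Y / Real.log X ^ 2 := by
  obtain ⟨r0, hr0, h0⟩ := Pool.Agent.TH977.PW.final_quad_prime (a : ℤ) 0 (-(c : ℤ))
    (by exact_mod_cast h.ha) (qp_cop h) h.sq
    (fun p hp => by
      obtain ⟨m, h1, h2⟩ := h.adm p hp
      refine ⟨m, h1, fun hd => h2 ?_⟩
      have e : (a : ℤ) * (m : ℤ) ^ 2 - c = (a : ℤ) * (m : ℤ) ^ 2 + 0 * m + (-(c : ℤ)) := by ring
      rw [e]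
      exact hd)
    (fun r => Rq a c r)
    (fun r => {n | n ∈ Rq a c r ∧ n.Prime ∧ (a * n ^ 2 - c).primeFactorsList.length ≤ r})
    (fun r m h2r hm => ⟨hm.1, fun p hp hd => by
      rcases lt_or_ge m 2 with h2 | h2
      · exact small_lt r m p h2r (by omega) hp
      · exact hm.2 p hp ((dvd_iff h p m h2).1 hd)⟩)
    (fun r m h2r hm h1 h2 => ⟨⟨fun p hp hd => Pool.Agent.TH977.PW.rpow_lt_dvd r m p h2r hm hp hd,
      fun p hp hd => h1 p hp ((dvd_iff h p m hm.two_le).2 hd)⟩, hm, by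
        rw [natAbs_eq h m hm.two_le] at h2
        exact h2⟩) θ hθ hθ1
  refine ⟨r0, hr0, fun r hr => ⟨?_, (h0 r hr).1, (h0 r hr).2⟩⟩
  intro n hn hn2 hle
  have h2r : 2 ≤ r := hr0.trans hr
  refine ⟨fun p hp hd => Pool.Agent.TH977.PW.rpow_lt_dvd r n p h2r hn hp hd, fun p hp hd => ?_⟩
  rw [(Nat.prime_dvd_prime_iff_eq hp hn2).1 hd]
  exact Pool.Agent.TH977.PW.rpow_lt_of_le r n _ h2r hn.two_le hle

end Pool.Agent.Y859.SP
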