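import Pool.Agent.Y859.SP.Unif2

set_option autoImplicit false

/-!
# Tuples `n + a i`, uniformly in the shifts
-/

namespace Pool.Agent.Y859.SP.Tup

open Finset Filter
open Pool.Agent.W123.RP Pool.Agent.H373R2.T7 Pool.Agent.W123.RU
open Pool.Agent.TH464.PW Pool.Agent.TH464.PO

variable {k : ℕ}

/-- `p` divides some `m + a i` -/
def QT (a : Fin k → ℕ) (p m : ℕ) : Prop := ∃ i, p ∣ m + a i

/-- admissible tuples -/
def Adm (a : Fin k → ℕ) : Prop := ∀ p : ℕ, p.Prime → ∃ n : ℕ, ∀ i, ¬ p ∣ n + a i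

lemma dvd_mod (p v m : ℕ) : p ∣ m + v ↔ p ∣ m % p + v := by
  rw [← Nat.modEq_zero_iff_dvd, ← Nat.modEq_zero_iff_dvd]
  have h : m + v ≡ m % p + v [MOD p] := (Nat.mod_modEq m p).symm.add_right v
  exact ⟨fun h1 => h.symm.trans h1, fun h1 => h.trans h1⟩

lemma root_unique (v p m m' : ℕ) (hm : m < p) (hm' : m' < p)
    (h : p ∣ m + v) (h' : p ∣ m' + v) : m = m' := by
  have h1 : m + v ≡ m' + v [MOD p] :=
    ((Nat.modEq_zero_iff_dvd).2 h).trans ((Nat.modEq_zero_iff_dvd).2 h').symm
  have h3 : m ≡ m' [MOD p] := Nat.ModEq.add_right_cancel' v h1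
  have h4 := h3
  unfold Nat.ModEq at h4
  rwa [Nat.mod_eq_of_lt hm, Nat.mod_eq_of_lt hm'] at h4

lemma root_exists (v p : ℕ) (hp : p.Prime) : ∃ m : ℕ, m < p ∧ p ∣ m + v := by
  have : Fact p.Prime := ⟨hp⟩
  refine ⟨(-(v : ZMod p)).val, ZMod.val_lt _, ?_⟩
  rw [← ZMod.natCast_eq_zero_iff]
  push_cast
  rw [ZMod.natCast_zmod_val]
  ring

lemma perB_QT (a : Fin k → ℕ) : PerB (QT a) k where
  per := by
    intro p n
    unfold QT
    exact exists_congr (fun i => dvd_mod p (a i) n)
  few := by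
    classical
    intro p hp
    unfold nuB
    have hsub : (range p).filter (fun r => QT a p r) ⊆
        (Finset.univ : Finset (Fin k)).biUnion
          (fun i => (range p).filter (fun r => p ∣ r + a i)) := by
      intro r hr
      rw [mem_filter] at hr
      obtain ⟨h1, i, hi⟩ := hr
      rw [mem_biUnion]
      exact ⟨i, mem_univ _, mem_filter.2 ⟨h1, hi⟩⟩
    refine (card_le_card hsub).trans (card_biUnion_le.trans ?_)
    calc ∑ i : Fin k, ((range p).filter (fun r => p ∣ r + a i)).card ≤ ∑ _i : Fin k, 1 := by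
          apply Finset.sum_le_sum
          intro i _
          rw [card_le_one]
          intro m hm m' hm'
          rw [mem_filter, mem_range] at hm hm'
          exact root_unique _ p m m' hm.1 hm'.1 hm.2 hm'.2
      _ = k := by simp

lemma adm_QT (a : Fin k → ℕ) (h : Adm a) (p : ℕ) (hp : p.Prime) : nuB (QT a) p < p := by
  classical
  obtain ⟨n, hn⟩ := h p hp
  unfold nuB
  have hnot : n % p ∉ (range p).filter (fun r => QT a p r) := by
    rw [mem_filter]
    rintro ⟨-, i, hi⟩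
    exact hn i ((dvd_mod p (a i) n).2 hi)
  calc ((range p).filter (fun r => QT a p r)).card < (range p).card := by
        apply card_lt_card
        refine ⟨filter_subset _ _, fun hsub => hnot (hsub (mem_range.2 (Nat.mod_lt _ hp.pos)))⟩
    _ = p := card_range p

/-- the exceptional differences -/
def DD (a : Fin k → ℕ) : Finset ℕ :=
  (Finset.univ : Finset (Fin k × Fin k × Fin k × Fin k)).image
    (fun x => ((a x.1 : ℤ) - a x.2.1 + a x.2.2.1 - a x.2.2.2).natAbs)

lemma DD_card (a : Fin k → ℕ) : (DD a).card ≤ k ^ 4 := by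
  unfold DD
  refine card_image_le.trans ?_
  simp only [Finset.card_univ, Fintype.card_prod, Fintype.card_fin]
  apply le_of_eq
  ring

lemma mem_DD (a : Fin k → ℕ) (t : ℕ) (i j u v : Fin k)
    (h : (t : ℤ) = (a i : ℤ) - a j + a u - a v) : t ∈ DD a := by
  unfold DD
  rw [mem_image]
  refine ⟨(i, j, u, v), mem_univ _, ?_⟩
  simp only
  rw [← h, Int.natAbs_natCast]

/-- a new value -/
lemma exists_new (hk : 1 ≤ k) (a : Fin k → ℕ) (H : Finset ℕ) (hH : Gd (DD a) H) (b : ℕ)
    (hb : b ∉ H) : ∃ i0 : Fin k, ∀ h ∈ H, ∀ i : Fin k, (b : ℤ) + a i0 - h - a i ≠ 0 := by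
  have : Nonempty (Fin k) := ⟨⟨0, by omega⟩⟩
  obtain ⟨i1, hi1⟩ := Finite.exists_max a
  obtain ⟨i2, hi2⟩ := Finite.exists_min a
  by_contra hcon
  push Not at hcon
  obtain ⟨h1, hh1, i, he1⟩ := hcon i1
  obtain ⟨h2, hh2, j, he2⟩ := hcon i2
  have ha1 := hi1 i
  have ha2 := hi2 j
  have hne1 : h1 ≠ b := fun h => hb (h ▸ hh1)
  have hne2 : h2 ≠ b := fun h => hb (h ▸ hh2)
  have hlt1 : b < h1 := by omega
  have hlt2 : h2 < b := by omega
  refine hH h2 hh2 h1 hh1 (by omega) (mem_DD a _ i1 i j i2 ?_)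
  rw [Nat.cast_sub (by omega)]
  linarith

lemma log_prod_le {ι : Type} (s : Finset ι) (f : ι → ℕ) (X e : ℕ)
    (h0 : ∀ i ∈ s, f i ≠ 0) (h : ∀ i ∈ s, f i ≤ X ^ e) :
    Real.log ((∏ i ∈ s, f i : ℕ) : ℝ) ≤ s.card * e * Real.log X := by
  have h1 : (∏ i ∈ s, f i) ≤ X ^ (e * s.card) := by
    calc (∏ i ∈ s, f i) ≤ ∏ _i ∈ s, X ^ e := Finset.prod_le_prod' h
      _ = X ^ (e * s.card) := by rw [Finset.prod_const, ← pow_mul]
  have h2 : 0 < ∏ i ∈ s, f i := Finset.prod_pos fun i hi => Nat.pos_of_ne_zero (h0 i hi)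
  calc Real.log ((∏ i ∈ s, f i : ℕ) : ℝ) ≤ Real.log ((X ^ (e * s.card) : ℕ) : ℝ) :=
        Real.log_le_log (by exact_mod_cast h2) (by exact_mod_cast h1)
    _ = s.card * e * Real.log X := by
        push_cast
        rw [Real.log_pow]
        push_cast
        ring

lemma ctl_QT (hk : 2 ≤ k) (A : ℕ) : ∀ᶠ X : ℕ in atTop, ∀ a : Fin k → ℕ, Adm a →
    Function.Injective a → (∀ i, a i ≤ X ^ A) →
      CtlX (QT a) k (k ^ 4) (A + 1 + k ^ 2 * (A + 2)) (fun R => R * k * (A + 2) + 1)
        (Real.log X) := by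
  filter_upwards [logpow_rpow (k + 1) 1 1 one_pos one_pos, eventually_ge_atTop 3] with X h1 hX3
  intro a h hinj hA
  have hXr : (3 : ℝ) ≤ X := by exact_mod_cast hX3
  have hL : 0 < Real.log X := Real.log_pos (by linarith)
  have hX0 : 0 < X := by omega
  rw [Real.rpow_one, one_mul] at h1
  have hXA : 1 ≤ X ^ A := Nat.one_le_pow _ _ hX0
  have hpow : X + X ^ A ≤ X ^ (A + 2) := by
    have e : X ^ (A + 2) = X ^ A * (X * X) := by ring
    rw [e]
    have h2 : X ≤ X ^ A * X := Nat.le_mul_of_pos_left _ hXA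
    have h3 : X ^ A * (X * X) = X ^ A * X * X := by ring
    nlinarith
  refine ⟨perB_QT a, adm_QT a h, ?_, DD a, DD_card a, ?_, ?_⟩
  · obtain ⟨i, j, hij⟩ : ∃ i j : Fin k, i ≠ j := by
      refine ⟨⟨0, by omega⟩, ⟨1, by omega⟩, ?_⟩
      intro he
      rw [Fin.mk.injEq] at he
      omega
    have hne : a i ≠ a j := fun he => hij (hinj he)
    refine ⟨((a i : ℤ) - a j).natAbs, by omega, ?_, ?_⟩
    · have hb : ((a i : ℤ) - a j).natAbs ≤ X ^ A := by
        have := hA i
        have := hA j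
        omega
      have hpos : 0 < ((a i : ℤ) - a j).natAbs := by omega
      have h3 : Real.log (((a i : ℤ) - a j).natAbs : ℝ) ≤ Real.log (((X ^ A : ℕ)) : ℝ) :=
        Real.log_le_log (by exact_mod_cast hpos) (by exact_mod_cast hb)
      refine h3.trans ?_
      push_cast
      rw [Real.log_pow]
      apply mul_le_mul_of_nonneg_right _ hL.le
      have : (0 : ℝ) ≤ (k : ℝ) ^ 2 * (A + 2) := by positivity
      linarith
    · intro p hp hd
      classical
      obtain ⟨m, hm, hm2⟩ := root_exists (a i) p hp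
      obtain ⟨m', hm', hm2'⟩ := root_exists (a j) p hp
      have hmm : m ≠ m' := by
        intro he
        apply hd
        rw [← he] at hm2'
        have e1 : (p : ℤ) ∣ (m : ℤ) + a i := by exact_mod_cast Int.natCast_dvd_natCast.2 hm2
        have e2 : (p : ℤ) ∣ (m : ℤ) + a j := by exact_mod_cast Int.natCast_dvd_natCast.2 hm2'
        have e3 : (a i : ℤ) - a j = ((m : ℤ) + a i) - ((m : ℤ) + a j) := by ring
        apply Int.natCast_dvd.1
        rw [e3]
        exact dvd_sub e1 e2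
      unfold nuB
      have hsub : ({m, m'} : Finset ℕ) ⊆ (range p).filter (fun r => QT a p r) := by
        intro x hx
        rw [mem_insert, mem_singleton] at hx
        rw [mem_filter, mem_range]
        rcases hx with hx | hx
        · rw [hx]
          exact ⟨hm, i, hm2⟩
        · rw [hx]
          exact ⟨hm', j, hm2'⟩
      have := card_le_card hsub
      rwa [card_pair hmm] at this
  · intro t ht1 ht2 htD
    have htX : t ≤ X := by
      have : (t : ℝ) ≤ X := ht2.trans h1
      exact_mod_cast this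
    have hne : ∀ x ∈ (Finset.univ : Finset (Fin k × Fin k)),
        ((t : ℤ) + a x.2 - a x.1).natAbs ≠ 0 := by
      intro x _ he
      rw [Int.natAbs_eq_zero] at he
      apply htD
      apply mem_DD a t x.1 x.2 x.1 x.1
      linarith
    refine ⟨∏ x : Fin k × Fin k, ((t : ℤ) + a x.2 - a x.1).natAbs, ?_, ?_, ?_⟩
    · rw [Finset.prod_ne_zero_iff]
      exact hne
    · refine (log_prod_le _ _ X (A + 2) hne ?_).trans ?_
      · intro x _
        have := hA x.1
        have := hA x.2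
        omega
      · apply mul_le_mul_of_nonneg_right _ hL.le
        simp only [Finset.card_univ, Fintype.card_prod, Fintype.card_fin]
        push_cast
        have : (0 : ℝ) ≤ (A : ℝ) + 1 := by positivity
        nlinarith
    · rintro p hp htp ⟨m, ⟨i, hi⟩, ⟨j, hj⟩⟩
      have hE : p ∣ ((t : ℤ) + a j - a i).natAbs := by
        have e1 : (p : ℤ) ∣ (m : ℤ) + a i := by exact_mod_cast Int.natCast_dvd_natCast.2 hi
        have e2 : (p : ℤ) ∣ ((m : ℤ) + t) + a j := by exact_mod_cast Int.natCast_dvd_natCast.2 hj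
        have e3 : (t : ℤ) + a j - a i = (((m : ℤ) + t) + a j) - ((m : ℤ) + a i) := by ring
        apply Int.natCast_dvd.1
        rw [e3]
        exact dvd_sub e2 e1
      exact hE.trans (Finset.dvd_prod_of_mem
        (fun x : Fin k × Fin k => ((t : ℤ) + a x.2 - a x.1).natAbs) (mem_univ (i, j)))
  · intro R H hH hR hG b hb hbH
    obtain ⟨i0, hi0⟩ := exists_new (by omega) a H hG b hbH
    have hle : ∀ n : ℕ, (n : ℝ) ≤ Real.log X ^ (k + 1) → n ≤ X := by
      intro n hn
      have : (n : ℝ) ≤ X := hn.trans h1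
      exact_mod_cast this
    have hne : ∀ x ∈ H ×ˢ (Finset.univ : Finset (Fin k)),
        ((b : ℤ) + a i0 - (x.1 : ℕ) - a x.2).natAbs ≠ 0 := by
      intro x hx
      rw [mem_product] at hx
      rw [Int.natAbs_ne_zero]
      exact hi0 x.1 hx.1 x.2
    refine ⟨∏ x ∈ H ×ˢ (Finset.univ : Finset (Fin k)),
      ((b : ℤ) + a i0 - (x.1 : ℕ) - a x.2).natAbs, ?_, ?_, ?_⟩
    · rw [Finset.prod_ne_zero_iff]
      exact hne
    · refine (log_prod_le _ _ X (A + 2) hne ?_).trans ?_
      · intro x hx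
        rw [mem_product] at hx
        have := hA i0
        have := hA x.2
        have := hle b hb
        have := hle x.1 (hH x.1 hx.1)
        omega
      · apply mul_le_mul_of_nonneg_right _ hL.le
        simp only [Finset.card_product, Finset.card_univ, Fintype.card_fin]
        push_cast
        have hRr : (H.card : ℝ) ≤ R := by exact_mod_cast hR
        have h5 : (H.card : ℝ) * k * (A + 2) ≤ R * k * (A + 2) := by gcongr
        linarith
    · intro p hp hd
      classical
      obtain ⟨m, hm, hm2⟩ := root_exists (b + a i0) p hp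
      unfold nuB
      apply card_lt_card
      refine ⟨?_, ?_⟩
      · intro r hr
        rw [mem_filter] at hr ⊢
        obtain ⟨h2, c, hc, h3⟩ := hr
        exact ⟨h2, c, mem_insert_of_mem hc, h3⟩
      · intro hsub
        have hmem : m ∈ (range p).filter (fun r => QH (QT a) (insert b H) p r) := by
          rw [mem_filter, mem_range]
          refine ⟨hm, b, mem_insert_self _ _, i0, ?_⟩
          rw [add_assoc]
          exact hm2
        have h4 := hsub hmem
        rw [mem_filter] at h4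
        obtain ⟨-, h, hh, i, hi⟩ := h4
        apply hd
        have hE : p ∣ ((b : ℤ) + a i0 - (h : ℕ) - a i).natAbs := by
          have e1 : (p : ℤ) ∣ (m : ℤ) + (b + a i0) := by
            exact_mod_cast Int.natCast_dvd_natCast.2 hm2
          have e2 : (p : ℤ) ∣ ((m : ℤ) + h) + a i := by
            exact_mod_cast Int.natCast_dvd_natCast.2 hi
          have e3 : (b : ℤ) + a i0 - (h : ℕ) - a i = ((m : ℤ) + (b + a i0)) - (((m : ℤ) + h) + a i) := by
            ring
          apply Int.natCast_dvd.1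
          rw [e3]
          exact dvd_sub e1 e2
        exact hE.trans (Finset.dvd_prod_of_mem
          (fun x : ℕ × Fin k => ((b : ℤ) + a i0 - (x.1 : ℕ) - a x.2).natAbs)
          (mem_product.2 ⟨hh, mem_univ i⟩ : (h, i) ∈ H ×ˢ (Finset.univ : Finset (Fin k))))

/-- every `m + a i` has at most `A r` prime factors, all of them larger than `X ^ (1 / r)` -/
def Good (a : Fin k → ℕ) (A r X m : ℕ) : Prop :=
  ∀ i, (m + a i).primeFactorsList.length ≤ A * r ∧
    ∀ p : ℕ, p.Prime → p ∣ m + a i → (X : ℝ) ^ (1 / (r : ℝ)) < (p : ℝ)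

lemma sf_Good (A r : ℕ) (hr : 1 ≤ r) : ∀ᶠ X : ℕ in atTop, ∀ a : Fin k → ℕ,
    (∀ i, a i ≤ X ^ A) → ∀ m : ℕ, m ≤ X ^ A →
    (Sf (QT a) ⌊(X : ℝ) ^ (1 / (r : ℝ))⌋₊ m ↔ Good a A r X m) := by
  have hr0 : (r : ℝ) ≠ 0 := by exact_mod_cast (by omega : r ≠ 0)
  have hrpos : (0 : ℝ) < r := by exact_mod_cast (by omega : 0 < r)
  have hpow1 : Tendsto (fun X : ℕ => (X : ℝ) ^ (1 / (r : ℝ))) atTop atTop :=
    (tendsto_rpow_atTop (by positivity)).comp tendsto_natCast_atTop_atTop
  filter_upwards [hpow1.eventually_ge_atTop 2, eventually_ge_atTop 2] with X hX hX2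
  intro a hA m hm
  have hXpos : (0 : ℝ) < X := by exact_mod_cast (by omega : 0 < X)
  have h1 : ((X : ℝ) ^ (1 / (r : ℝ))) ^ r = X := by
    rw [← Real.rpow_natCast, ← Real.rpow_mul hXpos.le, one_div_mul_cancel hr0, Real.rpow_one]
  have hval : ∀ i, ((m + a i : ℕ) : ℝ) ≤ ((X : ℝ) ^ (1 / (r : ℝ))) ^ (A * r + 1) := by
    intro i
    have h2 : m + a i ≤ 2 * X ^ A := by
      have := hA i
      omega
    have h3 : ((m + a i : ℕ) : ℝ) ≤ 2 * (X : ℝ) ^ A := by exact_mod_cast h2
    refine h3.trans ?_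
    have h4 : ((X : ℝ) ^ (1 / (r : ℝ))) ^ (A * r) = (X : ℝ) ^ A := by
      rw [mul_comm A r, pow_mul, h1]
    rw [pow_succ ((X : ℝ) ^ (1 / (r : ℝ))), h4]
    have h5 : (0 : ℝ) < (X : ℝ) ^ A := by positivity
    nlinarith
  constructor
  · intro hS i
    have h3 : ∀ p : ℕ, p.Prime → p ∣ m + a i → (X : ℝ) ^ (1 / (r : ℝ)) < (p : ℝ) := by
      intro p hp hd
      apply not_mem_pz hp
      intro hmem
      exact hS p hmem ⟨i, hd⟩
    have h4 : m + a i ≠ 0 := by
      intro h0
      have h5 := h3 2 Nat.prime_two (h0 ▸ dvd_zero 2)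
      have h6 : ((2 : ℕ) : ℝ) = 2 := by norm_num
      rw [h6] at h5
      linarith
    exact ⟨length_le _ _ h4 _ h3 (hval i) (by linarith), h3⟩
  · intro hG p hp hq
    obtain ⟨i, hi⟩ := hq
    have hpp := (mem_pz.1 hp).2
    have h2 := (hG i).2 p hpp hi
    have h4 := mem_pz' (by positivity) hp
    linarith

open Classical in
lemma V_QT (a : Fin k → ℕ) (y : ℕ) : Vq (QT a) y =
    ∏ p ∈ (Finset.range (y + 1)).filter Nat.Prime,
      (1 - (((Finset.range p).filter (fun m => ∃ i, p ∣ m + a i)).card : ℝ) / (p : ℝ)) := by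
  unfold Vq
  have h1 : ∀ p ∈ pz y, (1 - (nuB (QT a) p : ℝ) / p) =
      (1 - (((Finset.range p).filter (fun m => ∃ i, p ∣ m + a i)).card : ℝ) / (p : ℝ)) := by
    intro p _
    have h2 : nuB (QT a) p = ((Finset.range p).filter (fun m => ∃ i, p ∣ m + a i)).card := by
      unfold nuB
      exact congrArg Finset.card (Finset.filter_congr (fun _ _ => Iff.rfl))
    rw [h2]
  rw [Finset.prod_congr rfl h1]
  apply Finset.prod_congr _ (fun _ _ => rfl)
  ext p
  simp only [mem_filter, mem_pz, mem_range]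
  constructor
  · rintro ⟨a, b⟩
    exact ⟨by omega, b⟩
  · rintro ⟨a, b⟩
    exact ⟨by omega, b⟩

end Pool.Agent.Y859.SP.Tup
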