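import Pool.Agent.Y859.SP.Cong

set_option autoImplicit false

/-!
# Squarefree congruent multiples of all squarefree numbers
-/

namespace Pool.Agent.Y859.SP.Cg

open Finset Filter
open Pool.Agent.W123.RP Pool.Agent.H373R2.T7 Pool.Agent.W123.RU Pool.Agent.W123.RU.Poly
open Pool.Agent.TH464.PW Pool.Agent.TH464.PO Pool.Agent.Y859.SP

/-- `d` is the area of a right triangle with rational sides -/
def IsCong (d : ℕ) : Prop :=
  ∃ a b c : ℚ, 0 < a ∧ 0 < b ∧ 0 < c ∧ a ^ 2 + b ^ 2 = c ^ 2 ∧ a * b / 2 = (d : ℚ)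

/-- the triangle -/
lemma cong_of (c n m k : ℕ) (hn : 0 < n) (hc : 0 < c)
    (hF0 : ((n : ℤ) ^ 4 - (c : ℤ) ^ 2).natAbs ≠ 0)
    (hF : ((n : ℤ) ^ 4 - (c : ℤ) ^ 2).natAbs = k ^ 2 * m) (d e : ℕ) (he : 0 < e)
    (hcm : c * m = e ^ 2 * d) : IsCong d := by
  have hk : 0 < k := by
    rcases Nat.eq_zero_or_pos k with h | h
    · exfalso
      apply hF0
      rw [hF, h]
      ring
    · exact h
  have hm : 0 < m := by
    rcases Nat.eq_zero_or_pos m with h | h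
    · exfalso
      apply hF0
      rw [hF, h]
      ring
    · exact h
  have hnq : (0 : ℚ) < n := by exact_mod_cast hn
  have hcq : (0 : ℚ) < c := by exact_mod_cast hc
  have hkq : (0 : ℚ) < k := by exact_mod_cast hk
  have hmq : (0 : ℚ) < m := by exact_mod_cast hm
  have heq : (0 : ℚ) < e := by exact_mod_cast he
  have h1 : ((n : ℚ) ^ 4 - (c : ℚ) ^ 2) ^ 2 = ((k : ℚ) ^ 2 * m) ^ 2 := by
    have h2 : ((n : ℤ) ^ 4 - (c : ℤ) ^ 2) ^ 2 = ((k : ℤ) ^ 2 * m) ^ 2 := by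
      rw [← Int.natAbs_sq, hF]
      push_cast
      ring
    exact_mod_cast h2
  have h3 : (c : ℚ) * m = (e : ℚ) ^ 2 * d := by exact_mod_cast hcm
  refine ⟨(k : ℚ) * m / (n * e), 2 * c * n / (k * e), ((n : ℚ) ^ 4 + c ^ 2) / (k * n * e),
    by positivity, by positivity, by positivity, ?_, ?_⟩
  · field_simp
    linear_combination (-1 : ℚ) * h1
  · field_simp
    linear_combination h3

/-- the squarefree part is prime to `B` -/
lemma cop_of (B n m k : ℕ) (hB : Squarefree B) (hm : Squarefree m)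
    (hF : ((n : ℤ) ^ 4 - (B : ℤ) ^ 2).natAbs = k ^ 2 * m) : Nat.Coprime B m := by
  apply Nat.coprime_of_dvd
  intro p hp hpB hpm
  have hpi := Nat.prime_iff_prime_int.1 hp
  have hp0 : (p : ℤ) ≠ 0 := by exact_mod_cast hp.ne_zero
  have hFz : (n : ℤ) ^ 4 - (B : ℤ) ^ 2 = (k : ℤ) ^ 2 * m ∨
      (n : ℤ) ^ 4 - (B : ℤ) ^ 2 = -((k : ℤ) ^ 2 * m) := by
    have h1 := Int.natAbs_eq ((n : ℤ) ^ 4 - (B : ℤ) ^ 2)
    rw [hF] at h1
    push_cast at h1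
    exact h1
  obtain ⟨B', hB'⟩ := hpB
  obtain ⟨m', hm'⟩ := hpm
  have hB'p : ¬ p ∣ B' := by
    intro h
    obtain ⟨b, hb⟩ := h
    have h2 : p * p ∣ B := ⟨b, by rw [hB', hb]; ring⟩
    exact hp.one_lt.ne' (Nat.isUnit_iff.1 (hB p h2))
  have hm'p : ¬ p ∣ m' := by
    intro h
    obtain ⟨b, hb⟩ := h
    have h2 : p * p ∣ m := ⟨b, by rw [hm', hb]; ring⟩
    exact hp.one_lt.ne' (Nat.isUnit_iff.1 (hm p h2))
  have hpn : (p : ℤ) ∣ n := by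
    have h3 : (p : ℤ) ∣ (n : ℤ) ^ 4 := by
      have h4 : (p : ℤ) ∣ (n : ℤ) ^ 4 - (B : ℤ) ^ 2 := by
        rcases hFz with h | h
        · rw [h, hm']
          push_cast
          exact ⟨(k : ℤ) ^ 2 * m', by ring⟩
        · rw [h, hm']
          push_cast
          exact ⟨-((k : ℤ) ^ 2 * m'), by ring⟩
      have h5 : (p : ℤ) ∣ (B : ℤ) ^ 2 := by
        rw [hB']
        push_cast
        exact ⟨p * (B' : ℤ) ^ 2, by ring⟩
      have := dvd_add h4 h5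
      simpa using this
    exact hpi.dvd_of_dvd_pow h3
  obtain ⟨n', hn'⟩ := hpn
  obtain ⟨G, hG⟩ : ∃ G : ℤ, G = p ^ 2 * n' ^ 4 - (B' : ℤ) ^ 2 := ⟨_, rfl⟩
  have hFG : (n : ℤ) ^ 4 - (B : ℤ) ^ 2 = p ^ 2 * G := by
    rw [hG, hn', hB']
    push_cast
    ring
  have hGp : ¬ (p : ℤ) ∣ G := by
    intro h
    have h6 : (p : ℤ) ∣ (B' : ℤ) ^ 2 := by
      have h7 : (p : ℤ) ∣ p ^ 2 * n' ^ 4 := ⟨p * n' ^ 4, by ring⟩
      have := dvd_sub h7 h
      rw [hG] at this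
      simpa using this
    have h8 := hpi.dvd_of_dvd_pow h6
    exact hB'p (by exact_mod_cast h8)
  have hkp : (p : ℤ) ∣ k := by
    have h9 : (p : ℤ) ∣ (k : ℤ) ^ 2 * m' := by
      have h10 : (p : ℤ) * (p * G) = p * ((k : ℤ) ^ 2 * m') ∨
          (p : ℤ) * (p * G) = p * (-((k : ℤ) ^ 2 * m')) := by
        rcases hFz with h | h
        · left
          rw [hFG, hm'] at h
          push_cast at h
          linear_combination h
        · right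
          rw [hFG, hm'] at h
          push_cast at h
          linear_combination h
      rcases h10 with h | h
      · have := mul_left_cancel₀ hp0 h
        exact ⟨G, this.symm⟩
      · have := mul_left_cancel₀ hp0 h
        exact ⟨-G, by linear_combination this⟩
    rcases hpi.dvd_mul.1 h9 with h | h
    · exact hpi.dvd_of_dvd_pow h
    · exact absurd (by exact_mod_cast h) hm'p
  obtain ⟨k', hk'⟩ := hkp
  apply hGp
  rcases hFz with h | h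
  · rw [hFG, hm', hk'] at h
    push_cast at h
    have h11 : (p : ℤ) ^ 2 * G = p ^ 2 * (p * (k' ^ 2 * m')) := by linear_combination h
    exact ⟨_, mul_left_cancel₀ (pow_ne_zero 2 hp0) h11⟩
  · rw [hFG, hm', hk'] at h
    push_cast at h
    have h11 : (p : ℤ) ^ 2 * G = p ^ 2 * (p * (-(k' ^ 2 * m'))) := by linear_combination h
    exact ⟨_, mul_left_cancel₀ (pow_ne_zero 2 hp0) h11⟩

lemma odd_sq (x : ℤ) (hx : ¬ (2 : ℤ) ∣ x) : ∃ t : ℤ, x ^ 2 = 8 * t + 1 := by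
  have h1 : x % 2 = 1 := by omega
  obtain ⟨a, ha⟩ : ∃ a, x = 2 * a + 1 := ⟨x / 2, by omega⟩
  have h2 : (2 : ℤ) ∣ a * (a + 1) := (Int.even_mul_succ_self a).two_dvd
  obtain ⟨b, hb⟩ := h2
  exact ⟨b, by rw [ha]; linear_combination 4 * hb⟩

/-- the class modulo `8` -/
lemma mod8_of (B n m k : ℕ) (σ : ℤ) (hB : ¬ 4 ∣ B) (hodd : ¬ (2 : ℤ) ∣ (n : ℤ) ^ 4 - (B : ℤ) ^ 2)
    (hσ1 : σ = 1 ∨ σ = -1)
    (hσ : σ * ((n : ℤ) ^ 4 - (B : ℤ) ^ 2) = (k : ℤ) ^ 2 * m) :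
    (Odd B → ((B : ℤ) * m) ≡ -σ * B [ZMOD 8]) ∧ (Even B → ((B : ℤ) * m) ≡ σ * B [ZMOD 8]) := by
  have hk : ¬ (2 : ℤ) ∣ (k : ℤ) := by
    rintro ⟨k', hk'⟩
    apply hodd
    have h1 : (2 : ℤ) ∣ σ * ((n : ℤ) ^ 4 - (B : ℤ) ^ 2) := by
      rw [hσ, hk']
      exact ⟨2 * k' ^ 2 * m, by ring⟩
    rcases hσ1 with h | h
    · rw [h, one_mul] at h1
      exact h1
    · rw [h, neg_one_mul, dvd_neg] at h1
      exact h1
  obtain ⟨t, ht⟩ := odd_sq k hk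
  constructor
  · intro hBo
    have hB2 : ¬ (2 : ℤ) ∣ (B : ℤ) := by
      intro h
      have h1 : 2 ∣ B := by exact_mod_cast h
      exact (Nat.not_even_iff_odd.2 hBo) (even_iff_two_dvd.2 h1)
    obtain ⟨u, hu⟩ := odd_sq B hB2
    have hn : (2 : ℤ) ∣ (n : ℤ) := by
      by_contra hn
      obtain ⟨w, hw⟩ := odd_sq n hn
      apply hodd
      have e : (n : ℤ) ^ 4 = (8 * w + 1) ^ 2 := by rw [← hw]; ring
      rw [e, hu]
      exact ⟨32 * w ^ 2 + 8 * w - 4 * u, by ring⟩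
    obtain ⟨c, hc⟩ := hn
    rw [hc, hu, ht] at hσ
    apply Int.modEq_iff_dvd.2
    refine ⟨-(B : ℤ) * (σ * (2 * c ^ 4 - u) - t * m), ?_⟩
    linear_combination (B : ℤ) * hσ
  · intro hBe
    obtain ⟨b, hb⟩ := even_iff_two_dvd.1 hBe
    have hb2 : ¬ (2 : ℤ) ∣ (b : ℤ) := by
      intro h
      have h1 : 2 ∣ b := by exact_mod_cast h
      obtain ⟨b', hb'⟩ := h1
      apply hB
      exact ⟨b', by rw [hb, hb']; ring⟩
    obtain ⟨u, hu⟩ := odd_sq b hb2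
    have hn : ¬ (2 : ℤ) ∣ (n : ℤ) := by
      rintro ⟨c, hc⟩
      apply hodd
      rw [hc, hb]
      push_cast
      exact ⟨8 * c ^ 4 - 2 * b ^ 2, by ring⟩
    obtain ⟨w, hw⟩ := odd_sq n hn
    have e : (n : ℤ) ^ 4 = (8 * w + 1) ^ 2 := by rw [← hw]; ring
    have e2 : (B : ℤ) ^ 2 = 4 * (8 * u + 1) := by
      rw [← hu, hb]
      push_cast
      ring
    rw [e, e2, ht] at hσ
    have hBz : (B : ℤ) = 2 * b := by
      rw [hb]
      push_cast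
      ring
    apply Int.modEq_iff_dvd.2
    rw [hBz]
    refine ⟨-(b : ℤ) * (2 * σ * (8 * w ^ 2 + 2 * w - 4 * u) - 2 * t * m) + b * σ, ?_⟩
    linear_combination (2 * (b : ℤ)) * hσ

/-- the triangle, second form -/
lemma cong_of' (c n e d : ℕ) (hn : 0 < n) (hc : 0 < c)
    (hF0 : ((n : ℤ) ^ 4 - (c : ℤ) ^ 2).natAbs ≠ 0)
    (hcm : c * ((n : ℤ) ^ 4 - (c : ℤ) ^ 2).natAbs = e ^ 2 * d) : IsCong d := by
  obtain ⟨F, hF⟩ : ∃ F : ℕ, F = ((n : ℤ) ^ 4 - (c : ℤ) ^ 2).natAbs := ⟨_, rfl⟩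
  rw [← hF] at hF0 hcm
  have hFpos : 0 < F := Nat.pos_of_ne_zero hF0
  have he : 0 < e := by
    rcases Nat.eq_zero_or_pos e with h | h
    · exfalso
      rw [h] at hcm
      have : 0 < c * F := Nat.mul_pos hc hFpos
      omega
    · exact h
  have hnq : (0 : ℚ) < n := by exact_mod_cast hn
  have hcq : (0 : ℚ) < c := by exact_mod_cast hc
  have hFq : (0 : ℚ) < F := by exact_mod_cast hFpos
  have heq : (0 : ℚ) < e := by exact_mod_cast he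
  have h1 : ((n : ℚ) ^ 4 - (c : ℚ) ^ 2) ^ 2 = (F : ℚ) ^ 2 := by
    have h2 : ((n : ℤ) ^ 4 - (c : ℤ) ^ 2) ^ 2 = (F : ℤ) ^ 2 := by
      rw [← Int.natAbs_sq, ← hF]
    exact_mod_cast h2
  have h3 : (c : ℚ) * F = (e : ℚ) ^ 2 * d := by exact_mod_cast hcm
  refine ⟨(F : ℚ) / (n * e), 2 * c * n / e, ((n : ℚ) ^ 4 + c ^ 2) / (n * e),
    by positivity, by positivity, by positivity, ?_, ?_⟩
  · field_simp
    linear_combination (-1 : ℚ) * h1
  · field_simp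
    linear_combination h3

lemma Ck_one_zero : Ck 1 0 = 1 := by
  unfold Ck
  simp [pw]

open Classical in
/-- a good `n` just above or just below the square root of `B` -/
lemma side (θ : ℝ) (hθ : 0 < θ) (hθ1 : θ ≤ 1 / 4) : ∃ r : ℕ, 1 ≤ r ∧ ∀ᶠ B : ℕ in atTop,
    Squarefree B → ∀ σ : ℤ, (σ = 1 ∨ σ = -1) → ∃ n : ℕ, 0 < n ∧ Good B 1 r B n ∧
      0 < σ * ((n : ℤ) ^ 4 - (B : ℤ) ^ 2) ∧
      (((n : ℤ) ^ 4 - (B : ℤ) ^ 2).natAbs : ℝ) ≤ (B : ℝ) ^ (3 / 2 + 2 * θ) := by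
  obtain ⟨v, hv, h⟩ := gap_cf
  obtain ⟨r0, h0⟩ := h 1 θ hθ 1 0 (1 / 2) (by norm_num)
  refine ⟨max r0 1, le_max_right _ _, ?_⟩
  have hpow : Tendsto (fun X : ℕ => (X : ℝ) ^ θ) atTop atTop :=
    (tendsto_rpow_atTop hθ).comp tendsto_natCast_atTop_atTop
  have hpow4 : Tendsto (fun X : ℕ => (X : ℝ) ^ (1 / 4 : ℝ)) atTop atTop :=
    (tendsto_rpow_atTop (by norm_num)).comp tendsto_natCast_atTop_atTop
  filter_upwards [h0 (max r0 1) (le_max_left _ _), hpow.eventually_ge_atTop 30,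
    hpow4.eventually_ge_atTop 4, eventually_ge_atTop 16] with B hB hB30 hB4 hB16
  intro hsq σ hσ
  have hBr : (16 : ℝ) ≤ B := by exact_mod_cast hB16
  have hB0 : (0 : ℝ) < B := by linarith
  have hnsq : ¬ IsSquare B := by
    rintro ⟨b, hb⟩
    have h1 : IsUnit b := hsq b ⟨1, by rw [hb]; ring⟩
    rw [Nat.isUnit_iff] at h1
    rw [h1] at hb
    omega
  obtain ⟨hV, hN⟩ := hB B hnsq (by simp)
  obtain ⟨V, hVd⟩ : ∃ V : ℝ, V = Vq (Q (cf B)) ⌊(B : ℝ) ^ (1 / ((max r0 1 : ℕ) : ℝ))⌋₊ := ⟨_, rfl⟩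
  rw [← hVd] at hV
  have hL0 : 0 < Real.log B := Real.log_pos (by linarith)
  have hV0 : 0 < V := lt_of_lt_of_le (by positivity) hV
  obtain ⟨S, hS⟩ : ∃ S : ℕ, S = Nat.sqrt B := ⟨_, rfl⟩
  have hS1 : S * S ≤ B := by rw [hS]; exact Nat.sqrt_le B
  have hS2 : B < (S + 1) * (S + 1) := by rw [hS]; exact Nat.lt_succ_sqrt B
  obtain ⟨Y, hYd⟩ : ∃ Y : ℕ, Y = ⌈(B : ℝ) ^ θ⌉₊ := ⟨_, rfl⟩
  have hY1 : (B : ℝ) ^ θ ≤ Y := by rw [hYd]; exact Nat.le_ceil _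
  have hY2 : (Y : ℝ) ≤ 2 * (B : ℝ) ^ θ := by
    rw [hYd]
    have := Nat.ceil_lt_add_one (a := (B : ℝ) ^ θ) (by positivity)
    linarith
  have hYpos : (0 : ℝ) < Y := by linarith
  -- `Y ≤ S`
  have hhalf : (B : ℝ) ^ (1 / 4 : ℝ) * (B : ℝ) ^ (1 / 4 : ℝ) = (B : ℝ) ^ (1 / 2 : ℝ) := by
    rw [← Real.rpow_add hB0]
    norm_num
  have hhalf2 : (B : ℝ) ^ (1 / 2 : ℝ) * (B : ℝ) ^ (1 / 2 : ℝ) = B := by
    rw [← Real.rpow_add hB0]
    norm_num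
  have hh0 : (0 : ℝ) < (B : ℝ) ^ (1 / 2 : ℝ) := by positivity
  have hq0 : (0 : ℝ) < (B : ℝ) ^ (1 / 4 : ℝ) := by positivity
  have hθ4 : (B : ℝ) ^ θ ≤ (B : ℝ) ^ (1 / 4 : ℝ) :=
    Real.rpow_le_rpow_of_exponent_le (by linarith) hθ1
  have hSr : (B : ℝ) ^ (1 / 2 : ℝ) < S + 1 := by
    have h3 : (B : ℝ) < ((S : ℝ) + 1) * ((S : ℝ) + 1) := by exact_mod_cast hS2
    have h4 : (0 : ℝ) ≤ S := Nat.cast_nonneg S
    nlinarith
  have hSr2 : (S : ℝ) ≤ (B : ℝ) ^ (1 / 2 : ℝ) := by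
    have h3 : (S : ℝ) * S ≤ B := by exact_mod_cast hS1
    have h4 : (0 : ℝ) ≤ S := Nat.cast_nonneg S
    nlinarith
  have hYS : Y ≤ S := by
    have h5 : (Y : ℝ) < S + 1 := by nlinarith
    have h6 : (Y : ℝ) < ((S + 1 : ℕ) : ℝ) := by push_cast; exact h5
    have := Nat.cast_lt.1 h6
    omega
  have hSB : S + Y ≤ B := by nlinarith
  -- good integers in intervals
  have key : ∀ Z : ℕ, Z + Y ≤ B → ∃ n : ℕ, Z < n ∧ n ≤ Z + Y ∧ Good B 1 (max r0 1) B n := by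
    intro Z hZ
    have h6 := hN Z Y hY1 (by simpa using hZ) 1 0 (Or.inl le_rfl)
    rw [← hVd] at h6
    have h7 : ((0 : ℕ) : ℝ) * V = 0 := by push_cast; ring
    rw [h7, Ck_one_zero, mul_one] at h6
    have h8 := (abs_le.1 h6).1
    have h9 : (0 : ℝ) < Near B 1 (max r0 1) B 1 0 Z Y := by
      have : 0 < (Y : ℝ) * V := by positivity
      linarith
    have h10 : 0 < Near B 1 (max r0 1) B 1 0 Z Y := by exact_mod_cast h9
    unfold Near at h10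
    obtain ⟨n, hn⟩ := card_pos.1 h10
    rw [mem_filter, mem_Ioc] at hn
    exact ⟨n, hn.1.1, hn.1.2, hn.2.1⟩
  -- the size of the value
  have fin : ∀ n : ℕ, ((n : ℤ) ^ 2 - (B : ℤ)).natAbs ≤ 2 * S * Y + Y ^ 2 →
      (((n : ℤ) ^ 4 - (B : ℤ) ^ 2).natAbs : ℝ) ≤ (B : ℝ) ^ (3 / 2 + 2 * θ) := by
    intro n hn
    have g1 : ((n : ℤ) ^ 4 - (B : ℤ) ^ 2).natAbs =
        ((n : ℤ) ^ 2 - (B : ℤ)).natAbs * ((n : ℤ) ^ 2 + (B : ℤ)).natAbs := by
      rw [← Int.natAbs_mul]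
      congr 1
      ring
    have g2 : ((n : ℤ) ^ 2 + (B : ℤ)).natAbs ≤ 2 * B + (2 * S * Y + Y ^ 2) := by
      have g3 : (n : ℤ) ^ 2 - (B : ℤ) ≤ ((2 * S * Y + Y ^ 2 : ℕ) : ℤ) := by
        have := Int.le_natAbs (a := (n : ℤ) ^ 2 - (B : ℤ))
        omega
      have g4 : (0 : ℤ) ≤ (n : ℤ) ^ 2 := sq_nonneg _
      omega
    have g5 : 2 * S * Y + Y ^ 2 ≤ 3 * (S * Y) := by nlinarith
    have g6 : S * Y ≤ B := by nlinarith
    have g7 : ((n : ℤ) ^ 4 - (B : ℤ) ^ 2).natAbs ≤ 3 * (S * Y) * (5 * B) := by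
      rw [g1]
      exact Nat.mul_le_mul (hn.trans g5) (g2.trans (by omega))
    have g8 : (((n : ℤ) ^ 4 - (B : ℤ) ^ 2).natAbs : ℝ) ≤ 3 * ((S : ℝ) * Y) * (5 * B) := by
      exact_mod_cast g7
    refine g8.trans ?_
    have g9 : (B : ℝ) ^ (3 / 2 + 2 * θ) =
        (B : ℝ) * (B : ℝ) ^ (1 / 2 : ℝ) * ((B : ℝ) ^ θ * (B : ℝ) ^ θ) := by
      rw [← Real.rpow_add hB0 θ θ]
      nth_rewrite 2 [← Real.rpow_one (B : ℝ)]
      rw [← Real.rpow_add hB0, ← Real.rpow_add hB0]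
      congr 1
      ring
    rw [g9]
    have hS0 : (0 : ℝ) ≤ S := Nat.cast_nonneg S
    have g10 : (S : ℝ) * Y ≤ (B : ℝ) ^ (1 / 2 : ℝ) * (2 * (B : ℝ) ^ θ) :=
      mul_le_mul hSr2 hY2 hYpos.le hh0.le
    calc 3 * ((S : ℝ) * Y) * (5 * B)
        ≤ 3 * ((B : ℝ) ^ (1 / 2 : ℝ) * (2 * (B : ℝ) ^ θ)) * (5 * B) := by gcongr
      _ = (B : ℝ) * (B : ℝ) ^ (1 / 2 : ℝ) * (30 * (B : ℝ) ^ θ) := by ring
      _ ≤ (B : ℝ) * (B : ℝ) ^ (1 / 2 : ℝ) * ((B : ℝ) ^ θ * (B : ℝ) ^ θ) := by gcongr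
  have hBz : (0 : ℤ) < B := by exact_mod_cast (by omega : 0 < B)
  rcases hσ with rfl | rfl
  · obtain ⟨n, hn1, hn2, hg⟩ := key S hSB
    have h11 : B < n * n := lt_of_lt_of_le hS2 (Nat.mul_le_mul hn1 hn1)
    have h12 : (B : ℤ) < (n : ℤ) ^ 2 := by
      have : ((B : ℕ) : ℤ) < ((n * n : ℕ) : ℤ) := by exact_mod_cast h11
      push_cast at this
      nlinarith
    refine ⟨n, by omega, hg, ?_, fin n ?_⟩
    · have e : (n : ℤ) ^ 4 - (B : ℤ) ^ 2 = ((n : ℤ) ^ 2 - B) * ((n : ℤ) ^ 2 + B) := by ring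
      rw [one_mul, e]
      exact mul_pos (by linarith) (by linarith)
    · have h13 : n * n ≤ (S + Y) * (S + Y) := Nat.mul_le_mul hn2 hn2
      have h14 : ((n : ℤ) ^ 2 - (B : ℤ)) ≤ ((2 * S * Y + Y ^ 2 : ℕ) : ℤ) := by
        have h15 : (n : ℤ) * n ≤ (S + Y) * (S + Y) := by exact_mod_cast h13
        have h16 : (S : ℤ) * S ≤ B := by exact_mod_cast hS1
        push_cast
        nlinarith
      omega
  · obtain ⟨n, hn1, hn2, hg⟩ := key (S - Y) (by omega)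
    have hn3 : n ≤ S := by omega
    have h11 : n * n < B := by
      rcases lt_or_eq_of_le ((Nat.mul_le_mul hn3 hn3).trans hS1) with h | h
      · exact h
      · exact absurd ⟨n, h.symm⟩ hnsq
    have h12 : (n : ℤ) ^ 2 < (B : ℤ) := by
      have : ((n * n : ℕ) : ℤ) < ((B : ℕ) : ℤ) := by exact_mod_cast h11
      push_cast at this
      nlinarith
    refine ⟨n, by omega, hg, ?_, fin n ?_⟩
    · have e : -1 * ((n : ℤ) ^ 4 - (B : ℤ) ^ 2) = ((B : ℤ) - (n : ℤ) ^ 2) * ((n : ℤ) ^ 2 + B) := by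
        ring
      rw [e]
      have : (0 : ℤ) ≤ (n : ℤ) ^ 2 := sq_nonneg _
      exact mul_pos (by linarith) (by linarith)
    · have h14 : (B : ℤ) - (n : ℤ) ^ 2 ≤ ((2 * S * Y + Y ^ 2 : ℕ) : ℤ) := by
        have h15 : S - Y + 1 ≤ n := hn1
        have h16 : (B : ℤ) < (S + 1) * (S + 1) := by exact_mod_cast hS2
        have h17 : (S : ℤ) - Y + 1 ≤ n := by
          have : ((S - Y + 1 : ℕ) : ℤ) ≤ (n : ℤ) := by exact_mod_cast h15
          push_cast [Nat.cast_sub hYS] at this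
          exact this
        have h18 : (0 : ℤ) ≤ (S : ℤ) - Y := by
          have : (Y : ℤ) ≤ S := by exact_mod_cast hYS
          linarith
        have h19 : ((S : ℤ) - Y + 1) * ((S : ℤ) - Y + 1) ≤ (n : ℤ) * n :=
          mul_le_mul h17 h17 (by linarith) (by linarith)
        push_cast
        have h20 : (0 : ℤ) ≤ (Y : ℤ) := by positivity
        nlinarith
      omega

/-- squarefree congruent multiples of all large squarefree numbers -/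
theorem multiples (ε : ℝ) (hε : 0 < ε) : ∃ R B0 : ℕ, 1 ≤ R ∧ ∀ B : ℕ, B0 ≤ B → Squarefree B →
    ∀ s : ℤ, (s = 1 ∨ s = -1) → ∃ m : ℕ, Squarefree (B * m) ∧
      (m : ℝ) ≤ (B : ℝ) ^ (3 / 2 + ε) ∧ m.primeFactorsList.length ≤ R ∧
      (∀ p : ℕ, p.Prime → p ∣ m → (B : ℝ) ^ (1 / (R : ℝ)) < (p : ℝ)) ∧
      (((B * m : ℕ) : ℤ) ≡ s * B [ZMOD 8]) ∧ IsCong (B * m) := by
  obtain ⟨r, hr, h⟩ := side (min ε (1 / 2) / 2) (by positivity)
    (by have := min_le_right ε (1 / 2 : ℝ); linarith)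
  have hr0 : (r : ℝ) ≠ 0 := by exact_mod_cast (by omega : r ≠ 0)
  have hrpos : (0 : ℝ) < r := by exact_mod_cast (by omega : 0 < r)
  have hpow : Tendsto (fun X : ℕ => (X : ℝ) ^ (1 / (r : ℝ))) atTop atTop :=
    (tendsto_rpow_atTop (by positivity)).comp tendsto_natCast_atTop_atTop
  have hev := (h.and (hpow.eventually_ge_atTop 2)).and (eventually_ge_atTop 2)
  rw [eventually_atTop] at hev
  obtain ⟨B0, hB0⟩ := hev
  refine ⟨4 * r, B0, by omega, ?_⟩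
  intro B hB hsq s hs
  obtain ⟨⟨h1, h2⟩, h3⟩ := hB0 B hB
  have hBr : (1 : ℝ) ≤ B := by exact_mod_cast (by omega : 1 ≤ B)
  have h4B : ¬ 4 ∣ B := by
    rintro ⟨b, hb⟩
    have := hsq 2 ⟨b, by omega⟩
    rw [Nat.isUnit_iff] at this
    omega
  -- common part
  have main : ∀ σ : ℤ, (σ = 1 ∨ σ = -1) → ∃ m : ℕ, Squarefree (B * m) ∧
      (m : ℝ) ≤ (B : ℝ) ^ (3 / 2 + ε) ∧ m.primeFactorsList.length ≤ 4 * r ∧
      (∀ p : ℕ, p.Prime → p ∣ m → (B : ℝ) ^ (1 / ((4 * r : ℕ) : ℝ)) < (p : ℝ)) ∧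
      ((Odd B → ((B : ℤ) * m) ≡ -σ * B [ZMOD 8]) ∧ (Even B → ((B : ℤ) * m) ≡ σ * B [ZMOD 8])) ∧
      IsCong (B * m) := by
    intro σ hσ
    obtain ⟨n, hn, hG, hpos, hsize⟩ := h1 hsq σ hσ
    obtain ⟨F, hFd⟩ : ∃ F : ℕ, F = ((n : ℤ) ^ 4 - (B : ℤ) ^ 2).natAbs := ⟨_, rfl⟩
    have hF0 : F ≠ 0 := by
      intro h0
      rw [hFd, Int.natAbs_eq_zero] at h0
      rw [h0, mul_zero] at hpos
      exact lt_irrefl _ hpos
    have hFz : σ * ((n : ℤ) ^ 4 - (B : ℤ) ^ 2) = F := by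
      rw [hFd]
      rcases hσ with rfl | rfl
      · rw [one_mul] at hpos ⊢
        exact (Int.natAbs_of_nonneg hpos.le).symm
      · rw [neg_one_mul] at hpos ⊢
        rw [← Int.natAbs_neg]
        exact (Int.natAbs_of_nonneg hpos.le).symm
    obtain ⟨m, k, hkm, hmsq⟩ := Nat.sq_mul_squarefree F
    have hFkm : ((n : ℤ) ^ 4 - (B : ℤ) ^ 2).natAbs = k ^ 2 * m := by rw [← hFd, hkm]
    have hmF : m ∣ F := ⟨k ^ 2, by rw [← hkm]; ring⟩
    have hmle : m ≤ F := Nat.le_of_dvd (Nat.pos_of_ne_zero hF0) hmF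
    have hodd : ¬ (2 : ℤ) ∣ (n : ℤ) ^ 4 - (B : ℤ) ^ 2 := by
      intro hd
      have h5 := hG.2 2 Nat.prime_two (by exact_mod_cast hd)
      push_cast at h5
      linarith
    refine ⟨m, ?_, ?_, ?_, ?_, ?_, ?_⟩
    · rw [Nat.squarefree_mul (cop_of B n m k hsq hmsq hFkm)]
      exact ⟨hsq, hmsq⟩
    · have h6 : (m : ℝ) ≤ F := by exact_mod_cast hmle
      refine h6.trans ?_
      rw [hFd]
      refine hsize.trans (Real.rpow_le_rpow_of_exponent_le hBr ?_)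
      have := min_le_left ε (1 / 2 : ℝ)
      linarith
    · refine le_trans ?_ (by simpa using hG.1)
      rw [← hFd]
      exact (Nat.primeFactorsList_sublist_of_dvd hmF hF0).length_le
    · intro p hp hpm
      have h7 : (p : ℤ) ∣ (n : ℤ) ^ 4 - (B : ℤ) ^ 2 := by
        rw [← Int.natCast_dvd_natCast] at hpm
        rw [Int.natCast_dvd, ← hFd]
        exact_mod_cast (Int.natCast_dvd_natCast.1 hpm).trans hmF
      refine lt_of_le_of_lt ?_ (hG.2 p hp h7)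
      apply Real.rpow_le_rpow_of_exponent_le hBr
      push_cast
      apply one_div_le_one_div_of_le hrpos
      linarith
    · refine mod8_of B n m k σ h4B hodd hσ ?_
      rw [hFz, ← hkm]
      push_cast
      ring
    · refine cong_of' B n k (B * m) hn (by omega) (by rw [← hFd]; exact hF0) ?_
      rw [hFkm]
      ring
  rcases Nat.even_or_odd B with hBe | hBo
  · obtain ⟨m, m1, m2, m3, m4, m5, m6⟩ := main s hs
    refine ⟨m, m1, m2, m3, m4, ?_, m6⟩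
    push_cast
    exact m5.2 hBe
  · obtain ⟨m, m1, m2, m3, m4, m5, m6⟩ := main (-s) (by rcases hs with rfl | rfl <;> simp)
    refine ⟨m, m1, m2, m3, m4, ?_, m6⟩
    push_cast
    have := m5.1 hBo
    rw [neg_neg] at this
    exact this

end Pool.Agent.Y859.SP.Cg
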