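import Pool.Agent.Y859.SP.UnifU
import Pool.Agent.W123.RU.Poly

set_option autoImplicit false

/-!
# Systems of irreducible polynomials, uniformly in the coefficients
-/

namespace Pool.Agent.Y859.SP.SysU

open Polynomial Finset Filter
open Pool.Agent.W123.RP Pool.Agent.H373R2.T7 Pool.Agent.W123.RU Pool.Agent.W123.RU.Poly
open Pool.Agent.TH464.PW Pool.Agent.TH464.PO Pool.Agent.Y859.SP

/-- number of roots modulo `p` -/
lemma rho_le_deg (F : ℤ[X]) (p : ℕ) (hp : p.Prime) (m : ℕ) (hm : ¬ (p : ℤ) ∣ F.eval (m : ℤ)) :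
    Pool.Agent.H474R2.PG.rho F p ≤ F.natDegree := by
  classical
  have : Fact p.Prime := ⟨hp⟩
  obtain ⟨G, hG⟩ : ∃ G, G = F.map (Int.castRingHom (ZMod p)) := ⟨_, rfl⟩
  have key : ∀ r : ℕ, (p : ℤ) ∣ F.eval (r : ℤ) ↔ G.eval ((r : ℕ) : ZMod p) = 0 := by
    intro r
    have e : G.eval ((r : ℕ) : ZMod p) = ((F.eval (r : ℤ) : ℤ) : ZMod p) := by
      rw [hG]
      have := Polynomial.eval_intCast_map (Int.castRingHom (ZMod p)) F (r : ℤ)
      rw [Int.cast_natCast] at this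
      rw [this]
      simp
    rw [e]
    exact (ZMod.intCast_zmod_eq_zero_iff_dvd _ p).symm
  have hG0 : G ≠ 0 := by
    intro h0
    apply hm
    rw [key, h0, eval_zero]
  unfold Pool.Agent.H474R2.PG.rho
  calc ((range p).filter (fun a : ℕ => (p : ℤ) ∣ F.eval (a : ℤ))).card ≤ G.roots.toFinset.card := by
        apply Finset.card_le_card_of_injOn (fun r : ℕ => (r : ZMod p))
        · intro r hr
          have hr' := mem_filter.1 (Finset.mem_coe.1 hr)
          rw [Finset.mem_coe, Multiset.mem_toFinset, mem_roots hG0]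
          exact (key r).1 hr'.2
        · intro a ha b hb hab
          have ha' := mem_range.1 (mem_filter.1 (Finset.mem_coe.1 ha)).1
          have hb' := mem_range.1 (mem_filter.1 (Finset.mem_coe.1 hb)).1
          have h1 := (ZMod.natCast_eq_natCast_iff' a b p).1 hab
          rwa [Nat.mod_eq_of_lt ha', Nat.mod_eq_of_lt hb'] at h1
    _ ≤ Multiset.card G.roots := Multiset.toFinset_card_le _
    _ ≤ G.natDegree := G.card_roots'
    _ ≤ F.natDegree := by
        rw [hG]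
        exact natDegree_map_le

variable {k : ℕ}

/-- the assumptions on the system -/
structure Hyp (f : Fin k → ℤ[X]) (d A X : ℕ) : Prop where
  irr : ∀ i, Irreducible (f i)
  deg : ∀ i, 0 < (f i).natDegree
  degle : ∀ i, (f i).natDegree ≤ d
  lead : ∀ i, 0 < (f i).leadingCoeff
  coef : ∀ i j, |(f i).coeff j| ≤ (X : ℤ) ^ A
  adm : ∀ p : ℕ, p.Prime → ∃ m : ℕ, ∀ i, ¬ (p : ℤ) ∣ (f i).eval (m : ℤ)
  tr : ∀ i j, ∀ t : ℕ, 1 ≤ t → (t : ℝ) ≤ Real.log X ^ (k * d + 1) →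
    f i ≠ (f j).comp (Polynomial.X + C (t : ℤ))

lemma perB_sys (f : Fin k → ℤ[X]) (d : ℕ) (hd : ∀ i, (f i).natDegree ≤ d)
    (hadm : ∀ p : ℕ, p.Prime → ∃ m : ℕ, ∀ i, ¬ (p : ℤ) ∣ (f i).eval (m : ℤ)) :
    PerB (Q f) (k * d) where
  per := fun p n => per f p n
  few := by
    intro p hp
    obtain ⟨m, hm⟩ := hadm p hp
    calc nuB (Q f) p ≤ ∑ i, Pool.Agent.H474R2.PG.rho (f i) p := nuB_le_sum f p
      _ ≤ ∑ _i : Fin k, d := Finset.sum_le_sum fun i _ => (rho_le_deg (f i) p hp m (hm i)).trans (hd i)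
      _ = k * d := by simp

open Classical in
lemma adm_sys (f : Fin k → ℤ[X])
    (hadm : ∀ p : ℕ, p.Prime → ∃ m : ℕ, ∀ i, ¬ (p : ℤ) ∣ (f i).eval (m : ℤ)) (p : ℕ) (hp : p.Prime) :
    nuB (Q f) p < p := by
  obtain ⟨m, hm⟩ := hadm p hp
  have h1 : (range p).filter (fun r => Q f p r) ⊂ range p := by
    rw [Finset.filter_ssubset]
    refine ⟨m % p, mem_range.2 (Nat.mod_lt _ hp.pos), ?_⟩
    intro h
    obtain ⟨i, hi⟩ := (per f p m).2 h
    exact hm i hi
  have h2 := card_lt_card h1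
  rw [card_range] at h2
  refine lt_of_le_of_lt (le_of_eq ?_) h2
  unfold nuB
  congr

/-! ### Resultants -/

lemma coeff_comp_le (g : ℤ[X]) (d t : ℕ) (M : ℤ) (hd : g.natDegree ≤ d) (hM : ∀ j, |g.coeff j| ≤ M)
    (ht : 1 ≤ t) (j : ℕ) :
    |(g.comp (Polynomial.X + C (t : ℤ))).coeff j| ≤ (d + 1) * (2 ^ d * M * (t : ℤ) ^ d) := by
  have hM0 : 0 ≤ M := (abs_nonneg _).trans (hM 0)
  have ht1 : (1 : ℤ) ≤ t := by exact_mod_cast ht
  rw [← taylor_apply, taylor_coeff, eval_eq_sum_range' (n := d + 1) (by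
    have := natDegree_hasseDeriv_le g j
    omega)]
  refine (Finset.abs_sum_le_sum_abs _ _).trans ?_
  calc ∑ i ∈ range (d + 1), |(hasseDeriv j g).coeff i * (t : ℤ) ^ i| ≤
      ∑ _i ∈ range (d + 1), 2 ^ d * M * (t : ℤ) ^ d := by
        apply Finset.sum_le_sum
        intro i hi
        rw [mem_range] at hi
        rw [hasseDeriv_coeff]
        by_cases hij : i + j ≤ d
        · rw [abs_mul, abs_mul, abs_of_nonneg (by positivity : (0 : ℤ) ≤ (t : ℤ) ^ i),
            abs_of_nonneg (by positivity : (0 : ℤ) ≤ (((i + j).choose j : ℕ) : ℤ))]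
          have h1 : (((i + j).choose j : ℕ) : ℤ) ≤ 2 ^ d := by
            have h2 : (i + j).choose j ≤ 2 ^ d :=
              (Nat.choose_le_two_pow (i + j) j).trans (Nat.pow_le_pow_right (by norm_num) hij)
            exact_mod_cast h2
          have h3 : (t : ℤ) ^ i ≤ (t : ℤ) ^ d := pow_le_pow_right₀ ht1 (by omega)
          have h4 := hM (i + j)
          gcongr
        · rw [coeff_eq_zero_of_natDegree_lt (by omega)]
          simp only [mul_zero, zero_mul, abs_zero]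
          positivity
    _ = (d + 1) * (2 ^ d * M * (t : ℤ) ^ d) := by
        rw [Finset.sum_const, card_range, nsmul_eq_mul]
        push_cast
        ring

lemma abs_res_le (f g : ℤ[X]) (d : ℕ) (M : ℤ) (hM : 1 ≤ M) (hf : f.natDegree ≤ d)
    (hg : g.natDegree ≤ d) (hcf : ∀ j, |f.coeff j| ≤ M) (hcg : ∀ j, |g.coeff j| ≤ M) :
    |resultant f g| ≤ ((2 * d).factorial : ℤ) * M ^ (2 * d) := by
  have h0 : (0 : ℤ) ≤ M := by linarith
  have h1 := Matrix.det_le (A := sylvester f g f.natDegree g.natDegree)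
    (abv := AbsoluteValue.abs) (x := M) (by
      intro i j
      rw [AbsoluteValue.abs_apply]
      unfold sylvester
      rw [Matrix.of_apply]
      refine Fin.addCases (fun j₁ => ?_) (fun j₁ => ?_) j
      · rw [Fin.addCases_left]
        split_ifs
        · exact hcg _
        · simpa using h0
      · rw [Fin.addCases_right]
        split_ifs
        · exact hcf _
        · simpa using h0)
  rw [AbsoluteValue.abs_apply, Fintype.card_fin, nsmul_eq_mul] at h1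
  refine h1.trans ?_
  have h2 : ((f.natDegree + g.natDegree).factorial : ℤ) ≤ ((2 * d).factorial : ℤ) := by
    exact_mod_cast Nat.factorial_le (by omega)
  have h3 : M ^ (f.natDegree + g.natDegree) ≤ M ^ (2 * d) := pow_le_pow_right₀ hM (by omega)
  gcongr

lemma res_ne (f g : ℤ[X]) (hf : Irreducible f) (hg : Irreducible g) (hfd : 0 < f.natDegree)
    (hgd : 0 < g.natDegree) (hfl : 0 < f.leadingCoeff) (hgl : 0 < g.leadingCoeff) (h : f ≠ g) :
    resultant f g ≠ 0 := by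
  have hcop := Pool.Agent.W149.CS.coprime_of_ne f g hf hg hfd hgd hfl hgl h
  have h2 := resultant_ne_zero (f.map (Int.castRingHom ℚ)) (g.map (Int.castRingHom ℚ)) hcop
  have hinj : Function.Injective (Int.castRingHom ℚ) := RingHom.injective_int _
  rw [natDegree_map_eq_of_injective hinj, natDegree_map_eq_of_injective hinj] at h2
  rw [resultant_map_map f g f.natDegree g.natDegree (Int.castRingHom ℚ)] at h2
  intro h0
  apply h2
  rw [h0, map_zero]

lemma dvd_res (f g : ℤ[X]) (hfd : 0 < f.natDegree) (p x : ℤ) (hf : p ∣ f.eval x)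
    (hg : p ∣ g.eval x) : p ∣ resultant f g := by
  obtain ⟨u, v, -, -, huv⟩ := exists_mul_add_mul_eq_C_resultant f g le_rfl le_rfl (Or.inl hfd.ne')
  have h := congrArg (Polynomial.eval x) huv
  rw [eval_add, eval_mul, eval_mul, eval_C] at h
  rw [← h]
  exact dvd_add (hf.mul_right _) (hg.mul_right _)

/-- **the control of the coincidences** -/
lemma ctl_sys (d A : ℕ) : ∀ᶠ X : ℕ in atTop, ∀ f : Fin k → ℤ[X], Hyp f d A X →
    CtlU (Q f) (k * d) (k ^ 2 * (1 + 2 * d * (A + 1)) + 1) (Real.log X) := by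
  filter_upwards [logpow_rpow ((k * d + 1) * d) ((d + 1) * 2 ^ d) 1 (by positivity) one_pos,
    eventually_ge_atTop (3 + (2 * d).factorial)] with X h1 hX
  intro f hf
  have hX3 : 3 ≤ X := by omega
  have hXr : (3 : ℝ) ≤ X := by exact_mod_cast hX3
  have hL : 0 < Real.log X := Real.log_pos (by linarith)
  rw [Real.rpow_one] at h1
  refine ⟨perB_sys f d hf.degle hf.adm, adm_sys f hf.adm, ?_⟩
  intro t ht1 ht2
  have hXz : (1 : ℤ) ≤ X := by exact_mod_cast (by omega : 1 ≤ X)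
  have hres : ∀ i j, resultant (f i) ((f j).comp (Polynomial.X + C (t : ℤ))) ≠ 0 := by
    intro i j
    exact res_ne _ _ (hf.irr i) (Pool.Agent.W149.CS.comp_irred _ (hf.irr j) t) (hf.deg i)
      (by rw [Pool.Agent.W149.CS.comp_natDegree]; exact hf.deg j) (hf.lead i)
      (by rw [Pool.Agent.W149.CS.comp_lc]; exact hf.lead j) (hf.tr i j t ht1 ht2)
  obtain ⟨R, hR⟩ : ∃ R : Fin k × Fin k → ℕ, ∀ x : Fin k × Fin k,
    R x = (resultant (f x.1) ((f x.2).comp (Polynomial.X + C (t : ℤ)))).natAbs := ⟨_, fun _ => rfl⟩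
  have hne : ∀ x ∈ (Finset.univ : Finset (Fin k × Fin k)), R x ≠ 0 := by
    intro x _
    rw [hR, Int.natAbs_ne_zero]
    exact hres x.1 x.2
  have hbd : ∀ x ∈ (Finset.univ : Finset (Fin k × Fin k)), R x ≤ X ^ (1 + 2 * d * (A + 1)) := by
    intro x _
    have h2 : ∀ j, |(f x.1).coeff j| ≤ (X : ℤ) ^ (A + 1) := by
      intro j
      refine (hf.coef x.1 j).trans ?_
      exact pow_le_pow_right₀ hXz (by omega)
    have h3 : ((d : ℤ) + 1) * 2 ^ d * (t : ℤ) ^ d ≤ X := by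
      have h4 : ((d : ℝ) + 1) * 2 ^ d * (t : ℝ) ^ d ≤ X := by
        refine le_trans ?_ h1
        apply mul_le_mul_of_nonneg_left _ (by positivity)
        rw [pow_mul]
        exact pow_le_pow_left₀ (Nat.cast_nonneg _) ht2 _
      exact_mod_cast h4
    have h5 : ∀ j, |((f x.2).comp (Polynomial.X + C (t : ℤ))).coeff j| ≤ (X : ℤ) ^ (A + 1) := by
      intro j
      refine (coeff_comp_le (f x.2) d t ((X : ℤ) ^ A) (hf.degle x.2) (hf.coef x.2) ht1 j).trans ?_
      calc ((d : ℤ) + 1) * (2 ^ d * (X : ℤ) ^ A * (t : ℤ) ^ d) =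
          (((d : ℤ) + 1) * 2 ^ d * (t : ℤ) ^ d) * (X : ℤ) ^ A := by ring
        _ ≤ X * (X : ℤ) ^ A := mul_le_mul_of_nonneg_right h3 (by positivity)
        _ = (X : ℤ) ^ (A + 1) := by ring
    have h6 := abs_res_le (f x.1) ((f x.2).comp (Polynomial.X + C (t : ℤ))) d ((X : ℤ) ^ (A + 1))
      (one_le_pow₀ hXz) (hf.degle x.1)
      (by rw [Pool.Agent.W149.CS.comp_natDegree]; exact hf.degle x.2) h2 h5
    have h7 : ((2 * d).factorial : ℤ) ≤ X := by exact_mod_cast (by omega : (2 * d).factorial ≤ X)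
    have h8 : ((R x : ℕ) : ℤ) ≤ ((X ^ (1 + 2 * d * (A + 1)) : ℕ) : ℤ) := by
      rw [hR, Int.natCast_natAbs]
      refine h6.trans ?_
      push_cast
      calc ((2 * d).factorial : ℤ) * ((X : ℤ) ^ (A + 1)) ^ (2 * d) ≤
          X * ((X : ℤ) ^ (A + 1)) ^ (2 * d) := mul_le_mul_of_nonneg_right h7 (by positivity)
        _ = (X : ℤ) ^ (1 + 2 * d * (A + 1)) := by
          rw [← pow_mul, pow_add, pow_one]
          congr 2
          ring
    exact_mod_cast h8
  refine ⟨∏ x : Fin k × Fin k, R x, ?_, ?_, ?_⟩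
  · rw [Finset.prod_ne_zero_iff]
    exact hne
  · have h9 : (∏ x : Fin k × Fin k, R x) ≤ X ^ ((1 + 2 * d * (A + 1)) * k ^ 2) := by
      calc (∏ x : Fin k × Fin k, R x) ≤ ∏ _x : Fin k × Fin k, X ^ (1 + 2 * d * (A + 1)) :=
            Finset.prod_le_prod' hbd
        _ = X ^ ((1 + 2 * d * (A + 1)) * k ^ 2) := by
          rw [Finset.prod_const, Finset.card_univ, Fintype.card_prod, Fintype.card_fin, ← pow_mul]
          congr 1
          ring
    have h10 : 0 < ∏ x : Fin k × Fin k, R x :=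
      Finset.prod_pos fun i hi => Nat.pos_of_ne_zero (hne i hi)
    calc Real.log ((∏ x : Fin k × Fin k, R x : ℕ) : ℝ) ≤
        Real.log ((X ^ ((1 + 2 * d * (A + 1)) * k ^ 2) : ℕ) : ℝ) :=
          Real.log_le_log (Nat.cast_pos.2 h10) (Nat.cast_le.2 h9)
      _ = k ^ 2 * (1 + 2 * d * (A + 1)) * Real.log X := by
          push_cast
          rw [Real.log_pow]
          push_cast
          ring
      _ ≤ _ := by
          apply mul_le_mul_of_nonneg_right _ hL.le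
          linarith
  · rintro p hp htp ⟨m, ⟨i, hi⟩, ⟨j, hj⟩⟩
    have h11 : (p : ℤ) ∣ resultant (f i) ((f j).comp (Polynomial.X + C (t : ℤ))) := by
      apply dvd_res _ _ (hf.deg i) _ (m : ℤ) hi
      rw [eval_comp, eval_add, eval_X, eval_C]
      push_cast at hj
      exact hj
    have h12 : p ∣ R (i, j) := by
      rw [hR]
      exact Int.natCast_dvd.1 h11
    exact h12.trans (Finset.dvd_prod_of_mem R (mem_univ (i, j)))

/-! ### The good integers -/

/-- all `f i (m)` have at most `D r` prime factors, all of them larger than `X ^ (1 / r)` -/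
def Good (f : Fin k → ℤ[X]) (D r X m : ℕ) : Prop :=
  ∀ i, ((f i).eval (m : ℤ)).natAbs.primeFactorsList.length ≤ D * r ∧
    ∀ p : ℕ, p.Prime → (p : ℤ) ∣ (f i).eval (m : ℤ) → (X : ℝ) ^ (1 / (r : ℝ)) < (p : ℝ)

lemma eval_le (F : ℤ[X]) (d : ℕ) (M : ℤ) (hd : F.natDegree ≤ d) (hM : ∀ j, |F.coeff j| ≤ M) (m : ℕ)
    (hm : (m : ℤ) ≤ M) (hM1 : 1 ≤ M) : |F.eval (m : ℤ)| ≤ (d + 1) * M ^ (d + 1) := by
  have hM0 : 0 ≤ M := by linarith
  rw [eval_eq_sum_range' (n := d + 1) (by omega)]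
  refine (Finset.abs_sum_le_sum_abs _ _).trans ?_
  calc ∑ i ∈ range (d + 1), |F.coeff i * (m : ℤ) ^ i| ≤ ∑ _i ∈ range (d + 1), M * M ^ d := by
        apply Finset.sum_le_sum
        intro i hi
        rw [mem_range] at hi
        rw [abs_mul, abs_of_nonneg (by positivity : (0 : ℤ) ≤ (m : ℤ) ^ i)]
        have h1 : (m : ℤ) ^ i ≤ M ^ d :=
          (pow_le_pow_left₀ (by positivity) hm i).trans (pow_le_pow_right₀ hM1 (by omega))
        exact mul_le_mul (hM i) h1 (by positivity) hM0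
    _ = (d + 1) * M ^ (d + 1) := by
        rw [Finset.sum_const, card_range, nsmul_eq_mul]
        push_cast
        ring

lemma sf_Good (d A r : ℕ) (hr : 1 ≤ r) : ∀ᶠ X : ℕ in atTop, ∀ f : Fin k → ℤ[X],
    (∀ i, (f i).natDegree ≤ d) → (∀ i j, |(f i).coeff j| ≤ (X : ℤ) ^ A) → ∀ m : ℕ, m ≤ X ^ A →
    (Sf (Q f) ⌊(X : ℝ) ^ (1 / (r : ℝ))⌋₊ m ↔ Good f (A * (d + 1)) r X m) := by
  have hr0 : (r : ℝ) ≠ 0 := by exact_mod_cast (by omega : r ≠ 0)
  have hrpos : (0 : ℝ) < r := by exact_mod_cast (by omega : 0 < r)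
  have hpow1 : Tendsto (fun X : ℕ => (X : ℝ) ^ (1 / (r : ℝ))) atTop atTop :=
    (tendsto_rpow_atTop (by positivity)).comp tendsto_natCast_atTop_atTop
  filter_upwards [hpow1.eventually_ge_atTop ((d : ℝ) + 2), eventually_ge_atTop 2] with X hX hX2
  intro f hd hco m hm
  have hXpos : (0 : ℝ) < X := by exact_mod_cast (by omega : 0 < X)
  have hXz : (1 : ℤ) ≤ X := by exact_mod_cast (by omega : 1 ≤ X)
  have hd0 : (0 : ℝ) ≤ d := Nat.cast_nonneg d
  have h1 : ((X : ℝ) ^ (1 / (r : ℝ))) ^ r = X := by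
    rw [← Real.rpow_natCast, ← Real.rpow_mul hXpos.le, one_div_mul_cancel hr0, Real.rpow_one]
  have hval : ∀ i, ((((f i).eval (m : ℤ)).natAbs : ℕ) : ℝ) ≤
      ((X : ℝ) ^ (1 / (r : ℝ))) ^ (A * (d + 1) * r + 1) := by
    intro i
    have h2 := eval_le (f i) d ((X : ℤ) ^ A) (hd i) (hco i) m (by exact_mod_cast hm)
      (one_le_pow₀ hXz)
    have h3 : ((((f i).eval (m : ℤ)).natAbs : ℕ) : ℤ) ≤ (d + 1) * ((X : ℤ) ^ A) ^ (d + 1) := by
      rw [Int.natCast_natAbs]
      exact h2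
    have h4 : ((((f i).eval (m : ℤ)).natAbs : ℕ) : ℝ) ≤ (d + 1) * ((X : ℝ) ^ A) ^ (d + 1) := by
      exact_mod_cast h3
    refine h4.trans ?_
    have h5 : ((X : ℝ) ^ (1 / (r : ℝ))) ^ (A * (d + 1) * r) = ((X : ℝ) ^ A) ^ (d + 1) := by
      rw [mul_comm (A * (d + 1)) r, pow_mul, h1, pow_mul]
    rw [pow_succ ((X : ℝ) ^ (1 / (r : ℝ))), h5]
    have h6 : (0 : ℝ) < ((X : ℝ) ^ A) ^ (d + 1) := by positivity
    nlinarith
  constructor
  · intro hS i
    have h3 : ∀ p : ℕ, p.Prime → (p : ℤ) ∣ (f i).eval (m : ℤ) → (X : ℝ) ^ (1 / (r : ℝ)) < (p : ℝ) := by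
      intro p hp hd
      apply not_mem_pz hp
      intro hmem
      exact hS p hmem ⟨i, hd⟩
    have h4 : ((f i).eval (m : ℤ)).natAbs ≠ 0 := by
      intro h0
      rw [Int.natAbs_eq_zero] at h0
      have h5 := h3 2 Nat.prime_two (h0 ▸ dvd_zero _)
      have h6 : ((2 : ℕ) : ℝ) = 2 := by norm_num
      rw [h6] at h5
      linarith
    exact ⟨length_le _ _ h4 _ (fun p hp hd => h3 p hp (Int.natCast_dvd.2 hd)) (hval i)
      (by linarith), h3⟩
  · intro hG p hp hq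
    obtain ⟨i, hi⟩ := hq
    have hpp := (mem_pz.1 hp).2
    have h2 := (hG i).2 p hpp hi
    have h4 := mem_pz' (by positivity) hp
    linarith

open Classical in
/-- the sieve density -/
lemma V_sys (f : Fin k → ℤ[X]) (y : ℕ) : Vq (Q f) y =
    ∏ p ∈ (Finset.range (y + 1)).filter Nat.Prime,
      (1 - (((Finset.range p).filter (fun m : ℕ => ∃ i, (p : ℤ) ∣ (f i).eval (m : ℤ))).card : ℝ) /
        (p : ℝ)) := by
  unfold Vq
  have h1 : ∀ p ∈ pz y, (1 - (nuB (Q f) p : ℝ) / p) =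
      (1 - (((Finset.range p).filter (fun m : ℕ => ∃ i, (p : ℤ) ∣ (f i).eval (m : ℤ))).card : ℝ) /
        (p : ℝ)) := by
    intro p _
    have h2 : nuB (Q f) p =
        ((Finset.range p).filter (fun m : ℕ => ∃ i, (p : ℤ) ∣ (f i).eval (m : ℤ))).card := by
      unfold nuB
      exact congrArg Finset.card (Finset.filter_congr (fun _ _ => Iff.rfl))
    rw [h2]
  rw [Finset.prod_congr rfl h1]
  apply Finset.prod_congr _ (fun _ _ => rfl)
  ext p
  simp only [mem_filter, mem_pz, mem_range]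
  constructor
  · rintro ⟨a, b⟩
    exact ⟨by omega, b⟩
  · rintro ⟨a, b⟩
    exact ⟨by omega, b⟩

open Classical in
/-- the number of the good `m` in `(Z, Z + Y]` with fewer than `l` good integers in `[m - T, m)` -/
noncomputable def Near (f : Fin k → ℤ[X]) (D r X l T Z Y : ℕ) : ℕ :=
  ((Finset.Ioc Z (Z + Y)).filter (fun m => Good f D r X m ∧
    ((Finset.Ico (m - T) m).filter (fun n => Good f D r X n)).card < l)).card

/-- **The gap laws for all systems of small density.** -/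
theorem gap_sys (hk : 1 ≤ k) (d : ℕ) (hd : 1 ≤ d) (A : ℕ) (θ : ℝ) (hθ : 0 < θ) (l0 : ℕ) (x0 ε : ℝ)
    (hε : 0 < ε) :
    ∃ r0 B : ℕ, ∀ r : ℕ, r0 ≤ r → ∀ᶠ X : ℕ in atTop, ∀ f : Fin k → ℤ[X], Hyp f d A X →
      Real.log (Real.log X) ^ B * Vq (Q f) ⌊(X : ℝ) ^ (1 / (r : ℝ))⌋₊ ≤ 1 →
      ∀ Z Y : ℕ, (X : ℝ) ^ θ ≤ Y → Z + Y ≤ X ^ A →
      ∀ l T : ℕ, (l ≤ l0 ∨ T * Vq (Q f) ⌊(X : ℝ) ^ (1 / (r : ℝ))⌋₊ ≤ x0) →
        |(Near f (A * (d + 1)) r X l T Z Y : ℝ) -
          Y * Vq (Q f) ⌊(X : ℝ) ^ (1 / (r : ℝ))⌋₊ * Ck l (T * Vq (Q f) ⌊(X : ℝ) ^ (1 / (r : ℝ))⌋₊)| ≤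
          ε * (Y * Vq (Q f) ⌊(X : ℝ) ^ (1 / (r : ℝ))⌋₊) := by
  have hkd : 1 ≤ k * d := Nat.mul_pos hk hd
  obtain ⟨r0, B, h0⟩ := gap_unif_all (k * d) hkd (k ^ 2 * (1 + 2 * d * (A + 1)) + 1) θ
    (by positivity) hθ l0 x0 ε hε
  classical
  refine ⟨max r0 1, B, ?_⟩
  intro r hr
  filter_upwards [h0 r ((le_max_left _ _).trans hr), sf_Good (k := k) d A r ((le_max_right _ _).trans hr),
    ctl_sys (k := k) d A] with X hX hap hctl
  intro f hf hV Z Y hY hZY l T hlT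
  have h1 := hX (Q f) (hctl f hf) hV Z Y hY l T hlT
  have hN : Near f (A * (d + 1)) r X l T Z Y = Pk (Sf (Q f) ⌊(X : ℝ) ^ (1 / (r : ℝ))⌋₊) l T Z Y := by
    unfold Near Pk
    congr 1
    apply Finset.filter_congr
    intro n hn
    rw [mem_Ioc] at hn
    have e1 : Sf (Q f) ⌊(X : ℝ) ^ (1 / (r : ℝ))⌋₊ n ↔ Good f (A * (d + 1)) r X n :=
      hap f hf.degle hf.coef n (hn.2.trans hZY)
    have e2 : (Finset.Ico (n - T) n).filter (fun m => Good f (A * (d + 1)) r X m) =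
        (Finset.Ico (n - T) n).filter (Sf (Q f) ⌊(X : ℝ) ^ (1 / (r : ℝ))⌋₊) := by
      apply Finset.filter_congr
      intro m hm
      rw [mem_Ico] at hm
      exact (hap f hf.degle hf.coef m (hm.2.le.trans (hn.2.trans hZY))).symm
    rw [e1, e2]
  rw [hN]
  exact h1

end Pool.Agent.Y859.SP.SysU
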