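import Pool.Agent.TH464.PO.PolyExact
import Pool.Agent.TH977.PW.Inst

set_option autoImplicit false

/-!
# The system `6 m - 1`, `6 m + 1`
-/

namespace Pool.Agent.Y859.SP.Tw

open Polynomial Finset Filter
open Pool.Agent.W123.RP Pool.Agent.H373R2.T7 Pool.Agent.W123.RU Pool.Agent.W123.RU.Poly
open Pool.Agent.TH464.PW Pool.Agent.TH464.PO Pool.Agent.W182.PW

/-- the constants -/
def ct (i : Fin 2) : ℤ := if i = 0 then -1 else 1

/-- the system -/
noncomputable def tw : Fin 2 → ℤ[X] := fun i => lin 6 (ct i)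

lemma ct_zero : ct 0 = -1 := by simp [ct]

lemma ct_one : ct 1 = 1 := by simp [ct]

lemma tw_eval (i : Fin 2) (m : ℤ) : (tw i).eval m = 6 * m + ct i := by
  unfold tw
  rw [lin_eval]
  norm_num

lemma tw_sys : Sys tw := by
  refine Pool.Agent.TH977.PW.sys_lin (fun _ : Fin 2 => 6) ct (fun _ => by norm_num) ?_ ?_ ?_
  · intro i
    fin_cases i
    · change IsCoprime ((6 : ℕ) : ℤ) (ct 0)
      rw [ct_zero]
      exact isCoprime_one_right.neg_right
    · change IsCoprime ((6 : ℕ) : ℤ) (ct 1)
      rw [ct_one]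
      exact isCoprime_one_right
  · intro i j _ h
    fin_cases i <;> fin_cases j <;> simp [ct] at h ⊢
  · intro p hp
    refine ⟨0, fun i hd => ?_⟩
    have h1 : (p : ℤ) ∣ ct i := by simpa using hd
    have h2 : (p : ℤ) ∣ ((1 : ℕ) : ℤ) := by
      fin_cases i
      · change (p : ℤ) ∣ ct 0 at h1
        rw [ct_zero] at h1
        simpa using h1
      · change (p : ℤ) ∣ ct 1 at h1
        rw [ct_one] at h1
        simpa using h1
    rw [Int.natCast_dvd_natCast] at h2
    exact hp.one_lt.ne' (Nat.dvd_one.1 h2)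

lemma tw_noTr : NoTr tw := by
  intro i j t ht h
  have h0 := congrArg (Polynomial.eval 0) h
  rw [eval_comp, eval_add, eval_X, eval_C, tw_eval, tw_eval] at h0
  have ht' : (1 : ℤ) ≤ t := by exact_mod_cast ht
  fin_cases i <;> fin_cases j <;> simp [ct] at h0 <;> omega

lemma tw_Q (p m : ℕ) (hp : p.Prime) : Q tw p m ↔ (p : ℤ) ∣ (6 * (m : ℤ) - 1) * (6 * m + 1) := by
  have hpi : Prime (p : ℤ) := Nat.prime_iff_prime_int.1 hp
  unfold Q
  rw [hpi.dvd_mul]
  constructor
  · rintro ⟨i, hi⟩
    rw [tw_eval] at hi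
    fin_cases i
    · left
      change (p : ℤ) ∣ 6 * (m : ℤ) + ct 0 at hi
      rw [ct_zero] at hi
      exact hi
    · right
      change (p : ℤ) ∣ 6 * (m : ℤ) + ct 1 at hi
      rw [ct_one] at hi
      exact hi
  · rintro (h | h)
    · refine ⟨0, ?_⟩
      rw [tw_eval, ct_zero]
      exact h
    · refine ⟨1, ?_⟩
      rw [tw_eval, ct_one]
      exact h

open Classical in
/-- the number of classes -/
lemma tw_nu (p : ℕ) (hp : p.Prime) : nuB (Q tw) p = if p ≤ 3 then 0 else 2 := by
  unfold nuB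
  have hpi : Prime (p : ℤ) := Nat.prime_iff_prime_int.1 hp
  split_ifs with h3
  · rw [Finset.card_eq_zero, Finset.filter_eq_empty_iff]
    intro m _ hQ
    rw [tw_Q p m hp] at hQ
    have hd : (p : ℤ) ∣ 6 := by
      have h2 := hp.two_le
      interval_cases p
      · norm_num
      · norm_num
    have h1 : (p : ℤ) ∣ 1 := by
      have e : (1 : ℤ) = 6 * (6 * (m : ℤ) ^ 2) - (6 * (m : ℤ) - 1) * (6 * m + 1) := by ring
      rw [e]
      exact dvd_sub (hd.mul_right _) hQ
    exact hpi.not_dvd_one h1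
  · rw [not_le] at h3
    have hcop : Nat.Coprime 6 p := by
      rw [Nat.coprime_comm, hp.coprime_iff_not_dvd]
      intro hd
      have := Nat.le_of_dvd (by norm_num) hd
      interval_cases p
      · norm_num at hp
      · norm_num at hd
      · norm_num at hp
    have : Fact p.Prime := ⟨hp⟩
    have h6 : (6 : ZMod p) ≠ 0 := by
      intro h
      have : ((6 : ℕ) : ZMod p) = 0 := by exact_mod_cast h
      rw [ZMod.natCast_eq_zero_iff] at this
      exact hp.one_lt.ne' (Nat.dvd_one.1 (hcop ▸ Nat.dvd_gcd this dvd_rfl))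
    obtain ⟨u, hu⟩ : ∃ u : ZMod p, u = (6 : ZMod p)⁻¹ := ⟨_, rfl⟩
    have hu6 : 6 * u = 1 := by rw [hu]; exact mul_inv_cancel₀ h6
    have hune : u ≠ -u := by
      intro h
      have h1 : 12 * u = 0 := by
        have : 12 * u = 6 * (u + u) := by ring
        rw [this]
        nth_rewrite 2 [h]
        ring
      have h2 : (2 : ZMod p) = 0 := by
        calc (2 : ZMod p) = 2 * (6 * u) := by rw [hu6, mul_one]
          _ = 12 * u := by ring
          _ = 0 := h1
      have h3' : ((2 : ℕ) : ZMod p) = 0 := by exact_mod_cast h2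
      rw [ZMod.natCast_eq_zero_iff] at h3'
      have := Nat.le_of_dvd (by norm_num) h3'
      omega
    have key : ((range p).filter (fun m => Q tw p m)) =
        ({u.val, (-u).val} : Finset ℕ) := by
      ext m
      rw [mem_filter, mem_range, mem_insert, mem_singleton]
      constructor
      · rintro ⟨hm, hQ⟩
        rw [tw_Q p m hp] at hQ
        have h1 : ((6 * (m : ZMod p) - 1) * (6 * m + 1)) = 0 := by
          have := (ZMod.intCast_zmod_eq_zero_iff_dvd ((6 * (m : ℤ) - 1) * (6 * m + 1)) p).2 hQ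
          push_cast at this
          exact this
        rcases mul_eq_zero.1 h1 with h2 | h2
        · left
          have h3 : (m : ZMod p) = u := by
            have : 6 * ((m : ZMod p) - u) = 0 := by
              rw [mul_sub, hu6]
              exact h2
            have h4 := (mul_eq_zero.1 this).resolve_left h6
            exact sub_eq_zero.1 h4
          rw [← h3, ZMod.val_natCast_of_lt hm]
        · right
          have h3 : (m : ZMod p) = -u := by
            have : 6 * ((m : ZMod p) + u) = 0 := by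
              rw [mul_add, hu6]
              exact h2
            have h4 := (mul_eq_zero.1 this).resolve_left h6
            exact eq_neg_of_add_eq_zero_left h4
          rw [← h3, ZMod.val_natCast_of_lt hm]
      · intro h
        have hlt : m < p := by
          rcases h with h | h
          · rw [h]; exact ZMod.val_lt u
          · rw [h]; exact ZMod.val_lt (-u)
        refine ⟨hlt, ?_⟩
        rw [tw_Q p m hp, ← ZMod.intCast_zmod_eq_zero_iff_dvd]
        push_cast
        rcases h with h | h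
        · have hm : (m : ZMod p) = u := by rw [h, ZMod.natCast_zmod_val]
          rw [hm, hu6, sub_self, zero_mul]
        · have hm : (m : ZMod p) = -u := by rw [h, ZMod.natCast_zmod_val]
          have : 6 * (-u) + 1 = 0 := by rw [mul_neg, hu6]; ring
          rw [hm, this, mul_zero]
    rw [key, card_insert_of_notMem, card_singleton]
    rw [mem_singleton]
    intro h
    exact hune (ZMod.val_injective p h)

open Classical in
lemma tw_V (y : ℕ) : Vq (Q tw) y = ∏ p ∈ (Finset.range (y + 1)).filter (fun p => p.Prime ∧ 3 < p),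
    (1 - 2 / (p : ℝ)) := by
  unfold Vq
  have h1 : ∀ p ∈ pz y, (1 - (nuB (Q tw) p : ℝ) / p) = if 3 < p then (1 - 2 / (p : ℝ)) else 1 := by
    intro p hp
    rw [tw_nu p (mem_pz.1 hp).2]
    by_cases h : 3 < p
    · rw [if_pos h, if_neg (by omega)]
      norm_num
    · rw [if_neg h, if_pos (by omega)]
      norm_num
  rw [Finset.prod_congr rfl h1, ← Finset.prod_filter]
  apply Finset.prod_congr _ (fun _ _ => rfl)
  ext p
  simp only [mem_filter, mem_pz, mem_range]
  constructor
  · rintro ⟨⟨a, b⟩, c⟩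
    exact ⟨by omega, b, c⟩
  · rintro ⟨a, b, c⟩
    exact ⟨⟨by omega, b⟩, c⟩

/-- `6 m - 1` and `6 m + 1` have at most `r` prime factors each, all of them larger than `X ^ (1 / r)` -/
def Good (r X m : ℕ) : Prop :=
  0 < m ∧ (6 * m - 1).primeFactorsList.length ≤ r ∧ (6 * m + 1).primeFactorsList.length ≤ r ∧
    ∀ p : ℕ, p.Prime → p ∣ (6 * m - 1) * (6 * m + 1) → (X : ℝ) ^ (1 / (r : ℝ)) < (p : ℝ)

lemma cast_eq (m : ℕ) (hm : 0 < m) :
    (((6 * m - 1) * (6 * m + 1) : ℕ) : ℤ) = (6 * (m : ℤ) - 1) * (6 * m + 1) := by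
  have : 1 ≤ 6 * m := by omega
  push_cast [this]
  ring

lemma sf_Good (r : ℕ) (hr : 1 ≤ r) : ∀ᶠ X : ℕ in atTop, ∀ m : ℕ, 0 < m → m ≤ 3 * X →
    (Sf (Q tw) ⌊(X : ℝ) ^ (1 / (r : ℝ))⌋₊ m ↔ Good r X m) := by
  have hr0 : (r : ℝ) ≠ 0 := by exact_mod_cast (by omega : r ≠ 0)
  have hrpos : (0 : ℝ) < r := by exact_mod_cast (by omega : 0 < r)
  have hpow1 : Tendsto (fun X : ℕ => (X : ℝ) ^ (1 / (r : ℝ))) atTop atTop :=
    (tendsto_rpow_atTop (by positivity)).comp tendsto_natCast_atTop_atTop
  filter_upwards [hpow1.eventually_ge_atTop 19, eventually_ge_atTop 1] with X hX hX1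
  intro m hm0 hm
  have hXpos : (0 : ℝ) < X := by exact_mod_cast (by omega : 0 < X)
  have hX1' : (1 : ℝ) ≤ X := by exact_mod_cast hX1
  have hpow : ((X : ℝ) ^ (1 / (r : ℝ))) ^ (r + 1) = X * (X : ℝ) ^ (1 / (r : ℝ)) := by
    rw [pow_succ]
    congr 1
    rw [← Real.rpow_natCast, ← Real.rpow_mul hXpos.le, one_div_mul_cancel hr0, Real.rpow_one]
  have hmr : (m : ℝ) ≤ 3 * X := by exact_mod_cast hm
  have hbound : (6 * (m : ℝ) + 1) ≤ ((X : ℝ) ^ (1 / (r : ℝ))) ^ (r + 1) := by
    rw [hpow]
    nlinarith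
  constructor
  · intro h
    have h3 : ∀ p : ℕ, p.Prime → p ∣ (6 * m - 1) * (6 * m + 1) → (X : ℝ) ^ (1 / (r : ℝ)) < (p : ℝ) := by
      intro p hp hd
      apply not_mem_pz hp
      intro hmem
      apply h p hmem
      rw [tw_Q p m hp, ← cast_eq m hm0]
      exact Int.natCast_dvd_natCast.2 hd
    refine ⟨hm0, ?_, ?_, h3⟩
    · apply length_le _ r (by omega) _ (fun p hp hd => h3 p hp (hd.mul_right _)) _ (by linarith)
      refine le_trans ?_ hbound
      have : ((6 * m - 1 : ℕ) : ℝ) ≤ ((6 * m : ℕ) : ℝ) := by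
        exact_mod_cast Nat.sub_le _ _
      push_cast at this ⊢
      linarith
    · apply length_le _ r (by omega) _ (fun p hp hd => h3 p hp (hd.mul_left _)) _ (by linarith)
      refine le_trans (le_of_eq ?_) hbound
      push_cast
      ring
  · rintro ⟨-, -, -, h3⟩ p hp hq
    have hpp := (mem_pz.1 hp).2
    rw [tw_Q p m hpp, ← cast_eq m hm0, Int.natCast_dvd_natCast] at hq
    have h1 := h3 p hpp hq
    have h2 := mem_pz' (by positivity) hp
    linarith

end Pool.Agent.Y859.SP.Tw
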