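import Pool.Agent.Y859.SP.VCmp
import Pool.Agent.Y859.SP.Twin
import Pool.Agent.TH464.PO.QuadAP

set_option autoImplicit false

/-!
# Two residue classes modulo the primes `p ≡ 3 mod 4`: a sieve of dimension one
-/

namespace Pool.Agent.Y859.SP.Thr

open Polynomial Finset Filter
open Pool.Agent.W123.RP Pool.Agent.H373R2.T7 Pool.Agent.W123.RU Pool.Agent.W123.RU.Poly
open Pool.Agent.TH464.PW Pool.Agent.TH464.PO

/-- two classes modulo the primes `p ≡ 3 mod 4`, `p > 3` -/
def Q3 (p n : ℕ) : Prop := p % 4 = 3 ∧ 5 ≤ p ∧ n % p < 2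

open Classical in
lemma nu3 (p : ℕ) : nuB Q3 p = if p % 4 = 3 ∧ 5 ≤ p then 2 else 0 := by
  unfold nuB
  split_ifs with h
  · have : (range p).filter (fun r => Q3 p r) = range 2 := by
      ext r
      rw [mem_filter, mem_range, mem_range]
      unfold Q3
      constructor
      · rintro ⟨h1, -, -, h2⟩
        rwa [Nat.mod_eq_of_lt h1] at h2
      · intro h1
        have h2 : r < p := by omega
        refine ⟨h2, h.1, h.2, ?_⟩
        rwa [Nat.mod_eq_of_lt h2]
    have h3 := congrArg Finset.card this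
    rw [card_range] at h3
    exact (congrArg Finset.card (Finset.filter_congr (fun _ _ => Iff.rfl))).trans h3
  · rw [Finset.card_eq_zero, Finset.filter_eq_empty_iff]
    rintro r _ ⟨h1, h2, _⟩
    exact h ⟨h1, h2⟩

lemma perB3 : PerB Q3 2 where
  per := by
    intro p n
    unfold Q3
    rw [Nat.mod_mod]
  few := by
    intro p _
    rw [nu3]
    split_ifs <;> norm_num

/-- solutions of `m ^ 2 = a` modulo `p` -/
lemma card_sq (p : ℕ) [Fact p.Prime] (a : ℤ) :
    ((range p).filter (fun m : ℕ => (p : ℤ) ∣ (m : ℤ) ^ 2 - a)).card =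
      {x : ZMod p | x ^ 2 = (a : ZMod p)}.toFinset.card := by
  classical
  apply Finset.card_nbij' (fun m : ℕ => (m : ZMod p)) (fun x : ZMod p => x.val)
  · intro m hm
    have hm' := mem_filter.1 (Finset.mem_coe.1 hm)
    rw [Finset.mem_coe, Set.mem_toFinset, Set.mem_ofPred_eq]
    have h1 := (ZMod.intCast_zmod_eq_zero_iff_dvd _ p).2 hm'.2
    push_cast at h1
    linear_combination h1
  · intro x hx
    have hx' : x ^ 2 = (a : ZMod p) := by
      rw [Finset.mem_coe, Set.mem_toFinset, Set.mem_ofPred_eq] at hx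
      exact hx
    rw [Finset.mem_coe, mem_filter, mem_range]
    refine ⟨ZMod.val_lt _, ?_⟩
    rw [← ZMod.intCast_zmod_eq_zero_iff_dvd]
    push_cast
    rw [ZMod.natCast_zmod_val]
    linear_combination hx'
  · intro m hm
    have hm' := mem_range.1 (mem_filter.1 (Finset.mem_coe.1 hm)).1
    exact ZMod.val_cast_of_lt hm'
  · intro x _
    exact ZMod.natCast_zmod_val x

open Classical in
lemma nu1 (p : ℕ) (hp : p.Prime) : nuB (Q (qs 1 0 1)) p =
    if p = 2 then 1 else if p % 4 = 1 then 2 else 0 := by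
  have : Fact p.Prime := ⟨hp⟩
  have e : nuB (Q (qs 1 0 1)) p =
      ((range p).filter (fun m : ℕ => (p : ℤ) ∣ (m : ℤ) ^ 2 - (-1 : ℤ))).card := by
    unfold nuB
    apply congrArg Finset.card
    apply Finset.filter_congr
    intro m _
    rw [qs_Q]
    ring_nf
  rw [e]
  by_cases h2 : p = 2
  · rw [if_pos h2]
    subst h2
    decide
  · rw [if_neg h2, card_sq]
    have hodd := hp.eq_two_or_odd.resolve_left h2
    have hchar : ringChar (ZMod p) ≠ 2 := by
      rw [ZMod.ringChar_zmod_n]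
      exact h2
    have h3 := quadraticChar_card_sqrts hchar ((-1 : ℤ) : ZMod p)
    have h5 : ((-1 : ℤ) : ZMod p) = -1 := by push_cast; ring
    rw [h5] at h3 ⊢
    by_cases h4 : p % 4 = 1
    · rw [if_pos h4]
      have hs : IsSquare (-1 : ZMod p) := by
        rw [ZMod.exists_sq_eq_neg_one_iff]
        omega
      have h6 : quadraticChar (ZMod p) (-1) = 1 :=
        (quadraticChar_one_iff_isSquare (neg_ne_zero.2 one_ne_zero)).2 hs
      rw [h6] at h3
      have : (({x : ZMod p | x ^ 2 = -1}.toFinset.card : ℕ) : ℤ) = 2 := by rw [h3]; norm_num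
      exact_mod_cast this
    · rw [if_neg h4]
      have hs : ¬ IsSquare (-1 : ZMod p) := by
        rw [ZMod.exists_sq_eq_neg_one_iff]
        omega
      have h6 : quadraticChar (ZMod p) (-1) = -1 :=
        quadraticChar_neg_one_iff_not_isSquare.2 hs
      rw [h6] at h3
      have : (({x : ZMod p | x ^ 2 = -1}.toFinset.card : ℕ) : ℤ) = 0 := by rw [h3]; norm_num
      exact_mod_cast this

/-- the identity of the products -/
lemma V_id (y : ℕ) (hy : 2 ≤ y) : Vq Q3 y * Vq (Q (qs 1 0 1)) y * 2 = Vq (Q Tw.tw) y := by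
  classical
  have h2 : (∏ p ∈ pz y, (if p = 2 then (2 : ℝ) else 1)) = 2 := by
    rw [Finset.prod_ite_eq' (pz y) 2 (fun _ => (2 : ℝ)), if_pos (mem_pz.2 ⟨hy, Nat.prime_two⟩)]
  rw [← h2]
  unfold Vq
  rw [← Finset.prod_mul_distrib, ← Finset.prod_mul_distrib]
  apply Finset.prod_congr rfl
  intro p hp
  have hpp := (mem_pz.1 hp).2
  rw [nu3, nu1 p hpp, Tw.tw_nu p hpp]
  by_cases hp2 : p = 2
  · subst hp2
    norm_num
  · rw [if_neg hp2, if_neg hp2]
    have hodd := hpp.eq_two_or_odd.resolve_left hp2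
    have h2p := hpp.two_le
    by_cases hp3 : p ≤ 3
    · have : p = 3 := by omega
      subst this
      norm_num
    · rw [if_neg hp3]
      by_cases h4 : p % 4 = 1
      · have h5 : ¬ (p % 4 = 3 ∧ 5 ≤ p) := by omega
        rw [if_neg h5, if_pos h4]
        push_cast
        ring
      · have h5 : p % 4 = 3 ∧ 5 ≤ p := by omega
        rw [if_pos h5, if_neg h4]
        push_cast
        ring

lemma qs1_sys : Sys (qs 1 0 1) := by
  refine qs_sys 1 0 1 one_pos ?_ ?_ ?_
  · rintro p hp ⟨h, -⟩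
    have h1 : p ∣ 1 := by exact_mod_cast h
    exact hp.one_lt.ne' (Nat.dvd_one.1 h1)
  · rintro ⟨h, -⟩
    exact absurd h (by decide)
  · rintro ⟨x, hx⟩
    have := mul_self_nonneg x
    linarith

/-- two-sided bounds -/
lemma V3_bounds : ∃ v Cv : ℝ, 0 < v ∧ 0 < Cv ∧ ∀ y : ℕ, 3 ≤ y →
    v / Real.log y ≤ Vq Q3 y ∧ Vq Q3 y ≤ Cv / Real.log y := by
  obtain ⟨v1, C1, hv1, hC1, h1⟩ := V_bounds (qs 1 0 1) qs1_sys
  obtain ⟨v2, C2, hv2, hC2, h2⟩ := V_bounds Tw.tw Tw.tw_sys
  refine ⟨v2 / (2 * C1), C2 / (2 * v1), by positivity, by positivity, ?_⟩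
  intro y hy
  have g1 := h1 y hy
  have g2 := h2 y hy
  rw [Fintype.card_fin] at g1 g2
  rw [pow_one] at g1
  have hly : 0 < Real.log y := Real.log_pos (by exact_mod_cast (by omega : 1 < y))
  have hid := V_id y (by omega)
  have hV1 : 0 < Vq (Q (qs 1 0 1)) y := lt_of_lt_of_le (by positivity) g1.1
  have hV3 : Vq Q3 y = Vq (Q Tw.tw) y / (2 * Vq (Q (qs 1 0 1)) y) := by
    rw [eq_div_iff (by positivity), ← hid]
    ring
  rw [hV3]
  constructor
  · rw [le_div_iff₀ (by positivity)]
    calc v2 / (2 * C1) / Real.log y * (2 * Vq (Q (qs 1 0 1)) y) ≤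
        v2 / (2 * C1) / Real.log y * (2 * (C1 / Real.log y)) := by
          apply mul_le_mul_of_nonneg_left _ (by positivity)
          linarith [g1.2]
      _ = v2 / Real.log y ^ 2 := by
          field_simp
      _ ≤ _ := g2.1
  · rw [div_le_iff₀ (by positivity)]
    calc Vq (Q Tw.tw) y ≤ C2 / Real.log y ^ 2 := g2.2
      _ = C2 / (2 * v1) / Real.log y * (2 * (v1 / Real.log y)) := by
          field_simp
      _ ≤ _ := by
          apply mul_le_mul_of_nonneg_left _ (by positivity)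
          linarith [g1.1]

end Pool.Agent.Y859.SP.Thr
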