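import Pool.Agent.Y859.SP.Thr
import Pool.Agent.Y859.SP.SysU

set_option autoImplicit false

/-!
# The values `n ^ 4 - c ^ 2`, uniformly in `c`
-/

namespace Pool.Agent.Y859.SP.Cg

open Polynomial Finset Filter
open Pool.Agent.W123.RP Pool.Agent.H373R2.T7 Pool.Agent.W123.RU Pool.Agent.W123.RU.Poly
open Pool.Agent.TH464.PW Pool.Agent.TH464.PO Pool.Agent.Y859.SP

/-- the constants -/
def ct (c : ℕ) (i : Fin 2) : ℤ := if i = 0 then -(c : ℤ) else c

/-- the system `n ^ 2 - c`, `n ^ 2 + c` -/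
noncomputable def cf (c : ℕ) : Fin 2 → ℤ[X] := fun i => quad 1 0 (ct c i)

lemma cf_eval (c : ℕ) (i : Fin 2) (m : ℤ) : (cf c i).eval m = m ^ 2 + ct c i := by
  unfold cf
  rw [quad_eval]
  ring

lemma ct_zero (c : ℕ) : ct c 0 = -(c : ℤ) := by simp [ct]

lemma ct_one (c : ℕ) : ct c 1 = (c : ℤ) := by simp [ct]

lemma abs_ct (c : ℕ) (i : Fin 2) : |ct c i| = c := by
  unfold ct
  split_ifs
  · rw [abs_neg, abs_of_nonneg (Int.natCast_nonneg c)]
  · rw [abs_of_nonneg (Int.natCast_nonneg c)]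

lemma cf_Q (c p m : ℕ) (hp : p.Prime) : Q (cf c) p m ↔ (p : ℤ) ∣ (m : ℤ) ^ 4 - (c : ℤ) ^ 2 := by
  have e : (m : ℤ) ^ 4 - (c : ℤ) ^ 2 = ((m : ℤ) ^ 2 + ct c 0) * ((m : ℤ) ^ 2 + ct c 1) := by
    rw [ct_zero, ct_one]
    ring
  rw [e, (Nat.prime_iff_prime_int.1 hp).dvd_mul]
  unfold Q
  constructor
  · rintro ⟨i, hi⟩
    rw [cf_eval] at hi
    fin_cases i
    · exact Or.inl hi
    · exact Or.inr hi
  · rintro (h | h)
    · exact ⟨0, by rw [cf_eval]; exact h⟩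
    · exact ⟨1, by rw [cf_eval]; exact h⟩

lemma hyp_cf (c A X : ℕ) (hc : ¬ IsSquare c) (hX : 1 ≤ X) (hcX : c ≤ X ^ A) :
    SysU.Hyp (cf c) 2 A X := by
  have hc0 : 0 < c := by
    rcases Nat.eq_zero_or_pos c with h | h
    · exact absurd (h ▸ IsSquare.zero) hc
    · exact h
  have hcz : (0 : ℤ) < c := by exact_mod_cast hc0
  have hXz : (1 : ℤ) ≤ (X : ℤ) ^ A := one_le_pow₀ (by exact_mod_cast hX)
  have hcXz : (c : ℤ) ≤ (X : ℤ) ^ A := by exact_mod_cast hcX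
  refine ⟨?_, ?_, ?_, ?_, ?_, ?_, ?_⟩
  · intro i
    unfold cf
    refine quad_irr _ _ _ one_ne_zero ?_ ?_
    · rintro p hp ⟨h, -⟩
      have h1 : p ∣ 1 := by exact_mod_cast h
      exact hp.one_lt.ne' (Nat.dvd_one.1 h1)
    · rintro ⟨x, hx⟩
      fin_cases i
      · change (0 : ℤ) ^ 2 - 4 * 1 * ct c 0 = x * x at hx
        rw [ct_zero] at hx
        have h1 : x * x = 4 * (c : ℤ) := by linarith
        have h2 : (2 : ℤ) ∣ x := by
          have h3 : (2 : ℤ) ∣ x * x := ⟨2 * c, by rw [h1]; ring⟩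
          rcases Int.prime_two.dvd_mul.1 h3 with h | h <;> exact h
        obtain ⟨y, rfl⟩ := h2
        have h4 : y * y = (c : ℤ) := by nlinarith
        apply hc
        refine ⟨y.natAbs, ?_⟩
        have h5 := congrArg Int.natAbs h4
        rw [Int.natAbs_mul, Int.natAbs_natCast] at h5
        exact h5.symm
      · change (0 : ℤ) ^ 2 - 4 * 1 * ct c 1 = x * x at hx
        rw [ct_one] at hx
        nlinarith [mul_self_nonneg x]
  · intro i
    unfold cf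
    rw [quad_deg _ _ _ one_ne_zero]
    norm_num
  · intro i
    unfold cf
    rw [quad_deg _ _ _ one_ne_zero]
  · intro i
    unfold cf
    rw [quad_lead _ _ _ one_ne_zero]
    exact one_pos
  · intro i j
    unfold cf quad
    simp only [C_1, one_mul, C_0, zero_mul, add_zero, coeff_add, coeff_X_pow, coeff_C]
    have h1 := abs_ct c i
    split_ifs with h2 h3 h3
    · omega
    · simpa using hXz
    · rw [zero_add, h1]
      exact hcXz
    · simp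
  · intro p hp
    by_cases hpc : p ∣ c
    · refine ⟨1, fun i hd => ?_⟩
      rw [cf_eval] at hd
      have h1 : (p : ℤ) ∣ ct c i := by
        rw [← dvd_abs, abs_ct]
        exact_mod_cast hpc
      have h2 : (p : ℤ) ∣ 1 := by
        have h3 := dvd_sub hd h1
        simpa using h3
      have h4 : p ∣ 1 := by exact_mod_cast h2
      exact hp.one_lt.ne' (Nat.dvd_one.1 h4)
    · refine ⟨0, fun i hd => ?_⟩
      rw [cf_eval] at hd
      have h1 : (p : ℤ) ∣ ct c i := by simpa using hd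
      rw [← dvd_abs, abs_ct] at h1
      exact hpc (by exact_mod_cast h1)
  · intro i j t ht _ h
    have h1 := congrArg (Polynomial.eval 1) h
    have h2 := congrArg (Polynomial.eval (-1)) h
    rw [eval_comp, cf_eval, cf_eval, eval_add, eval_X, eval_C] at h1 h2
    have h3 : (1 : ℤ) ≤ t := by exact_mod_cast ht
    nlinarith

/-- at least two classes modulo the primes `p ≡ 3 mod 4` -/
lemma nu_cmp (c p : ℕ) (hp : p.Prime) (hpc : ¬ p ∣ c) : nuB Thr.Q3 p ≤ nuB (Q (cf c)) p := by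
  classical
  rw [Thr.nu3]
  split_ifs with h
  swap
  · exact Nat.zero_le _
  have : Fact p.Prime := ⟨hp⟩
  obtain ⟨h4, h5⟩ := h
  have hc0 : (c : ZMod p) ≠ 0 := by
    intro h0
    exact hpc ((ZMod.natCast_eq_zero_iff c p).1 h0)
  have hneg : (-1 : ZMod p) ^ (p / 2) = -1 := by
    have h6 : Odd (p / 2) := by
      rw [Nat.odd_iff]
      omega
    exact h6.neg_one_pow
  have hsq : ∃ s : ZMod p, s ≠ 0 ∧ s ^ 4 = (c : ZMod p) ^ 2 := by
    rcases ZMod.pow_div_two_eq_neg_one_or_one p hc0 with h1 | h1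
    · obtain ⟨s, hs⟩ := (ZMod.euler_criterion p hc0).2 h1
      refine ⟨s, ?_, ?_⟩
      · rintro rfl
        apply hc0
        rw [hs]
        ring
      · rw [hs]
        ring
    · have h2 : (-(c : ZMod p)) ^ (p / 2) = 1 := by
        rw [neg_pow, hneg, h1]
        ring
      obtain ⟨s, hs⟩ := (ZMod.euler_criterion p (neg_ne_zero.2 hc0)).2 h2
      refine ⟨s, ?_, ?_⟩
      · rintro rfl
        apply hc0
        have h3 : (c : ZMod p) = -(0 * 0) := by rw [← hs]; ring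
        rw [h3]
        ring
      · have h3 : (c : ZMod p) = -(s * s) := by rw [← hs]; ring
        rw [h3]
        ring
  obtain ⟨s, hs0, hs⟩ := hsq
  have hne : s.val ≠ (-s).val := by
    intro he
    have h6 := ZMod.val_injective p he
    have h7 : (2 : ZMod p) * s = 0 := by linear_combination h6
    rcases mul_eq_zero.1 h7 with h8 | h8
    · have h9 : ((2 : ℕ) : ZMod p) = 0 := by exact_mod_cast h8
      have h10 := (ZMod.natCast_eq_zero_iff 2 p).1 h9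
      have := Nat.le_of_dvd (by norm_num) h10
      omega
    · exact hs0 h8
  have hmem : ∀ x : ZMod p, x ^ 4 = (c : ZMod p) ^ 2 → x.val ∈ (range p).filter
      (fun r => Q (cf c) p r) := by
    intro x hx
    rw [mem_filter, mem_range]
    refine ⟨ZMod.val_lt _, ?_⟩
    rw [cf_Q c p _ hp, ← ZMod.intCast_zmod_eq_zero_iff_dvd]
    push_cast
    rw [ZMod.natCast_zmod_val]
    linear_combination hx
  have h8 : ({s.val, (-s).val} : Finset ℕ) ⊆ (range p).filter (fun r => Q (cf c) p r) := by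
    intro x hx
    rw [mem_insert, mem_singleton] at hx
    rcases hx with rfl | rfl
    · exact hmem s hs
    · exact hmem (-s) (by rw [← hs]; ring)
  have h9 := card_le_card h8
  rw [Finset.card_pair hne] at h9
  unfold nuB
  refine h9.trans (le_of_eq ?_)
  congr

/-- the density is small, uniformly -/
lemma V_cf (A B r : ℕ) (hr : 2 ≤ r) : ∀ᶠ X : ℕ in atTop, ∀ c : ℕ, 1 ≤ c → c ≤ X ^ A →
    Real.log (Real.log X) ^ B * Vq (Q (cf c)) ⌊(X : ℝ) ^ (1 / (r : ℝ))⌋₊ ≤ 1 := by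
  obtain ⟨v, Cv, hv, hCv, hV⟩ := Thr.V3_bounds
  filter_upwards [V_tiny 2 Thr.Q3 Thr.perB3 v Cv hv hCv hV ((A : ℝ) + 1) (by positivity) B r hr,
    eventually_ge_atTop 1] with X hX hX1
  intro c hc1 hcX
  refine hX (Q (cf c)) c (by omega) ?_ (fun p hp hd => nu_cmp c p hp hd)
  have hc0 : (0 : ℝ) < c := by exact_mod_cast hc1
  have hXr : (1 : ℝ) ≤ X := by exact_mod_cast hX1
  have hL := Real.log_nonneg hXr
  calc Real.log (c : ℝ) ≤ Real.log ((X : ℝ) ^ A) := Real.log_le_log hc0 (by exact_mod_cast hcX)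
    _ = A * Real.log X := Real.log_pow _ _
    _ ≤ (A + 1) * Real.log X := by nlinarith

/-- `n ^ 4 - c ^ 2` has at most `4 A r` prime factors, all larger than `X ^ (1 / r)` -/
def Good (c A r X n : ℕ) : Prop :=
  ((n : ℤ) ^ 4 - (c : ℤ) ^ 2).natAbs.primeFactorsList.length ≤ 4 * A * r ∧
    ∀ p : ℕ, p.Prime → (p : ℤ) ∣ (n : ℤ) ^ 4 - (c : ℤ) ^ 2 → (X : ℝ) ^ (1 / (r : ℝ)) < (p : ℝ)

lemma sf_cf (A r : ℕ) (hr : 1 ≤ r) : ∀ᶠ X : ℕ in atTop, ∀ c : ℕ, c ≤ X ^ A → ∀ m : ℕ, m ≤ X ^ A →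
    (Sf (Q (cf c)) ⌊(X : ℝ) ^ (1 / (r : ℝ))⌋₊ m ↔ Good c A r X m) := by
  have hr0 : (r : ℝ) ≠ 0 := by exact_mod_cast (by omega : r ≠ 0)
  have hrpos : (0 : ℝ) < r := by exact_mod_cast (by omega : 0 < r)
  have hpow1 : Tendsto (fun X : ℕ => (X : ℝ) ^ (1 / (r : ℝ))) atTop atTop :=
    (tendsto_rpow_atTop (by positivity)).comp tendsto_natCast_atTop_atTop
  filter_upwards [hpow1.eventually_ge_atTop 4, eventually_ge_atTop 2] with X hX hX2
  intro c hc m hm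
  have hXpos : (0 : ℝ) < X := by exact_mod_cast (by omega : 0 < X)
  have hX1 : (1 : ℝ) ≤ X := by exact_mod_cast (by omega : 1 ≤ X)
  have hpow : ((X : ℝ) ^ (1 / (r : ℝ))) ^ r = X := by
    rw [← Real.rpow_natCast, ← Real.rpow_mul hXpos.le, one_div_mul_cancel hr0, Real.rpow_one]
  have hval : ((((m : ℤ) ^ 4 - (c : ℤ) ^ 2).natAbs : ℕ) : ℝ) ≤
      ((X : ℝ) ^ (1 / (r : ℝ))) ^ (4 * A * r + 1) := by
    have hmr : (m : ℝ) ≤ (X : ℝ) ^ A := by exact_mod_cast hm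
    have hcr : (c : ℝ) ≤ (X : ℝ) ^ A := by exact_mod_cast hc
    have hm0 : (0 : ℝ) ≤ m := Nat.cast_nonneg m
    have hc0 : (0 : ℝ) ≤ c := Nat.cast_nonneg c
    have hXA : (1 : ℝ) ≤ (X : ℝ) ^ A := one_le_pow₀ hX1
    have g1 : (m : ℝ) ^ 4 ≤ ((X : ℝ) ^ A) ^ 4 := pow_le_pow_left₀ hm0 hmr 4
    have g2 : (c : ℝ) ^ 2 ≤ ((X : ℝ) ^ A) ^ 4 :=
      (pow_le_pow_left₀ hc0 hcr 2).trans (pow_le_pow_right₀ hXA (by norm_num))
    have g3 : ((((m : ℤ) ^ 4 - (c : ℤ) ^ 2).natAbs : ℕ) : ℝ) = |(m : ℝ) ^ 4 - (c : ℝ) ^ 2| := by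
      rw [Nat.cast_natAbs]
      push_cast
      rfl
    have g4 : |(m : ℝ) ^ 4 - (c : ℝ) ^ 2| ≤ ((X : ℝ) ^ A) ^ 4 + ((X : ℝ) ^ A) ^ 4 := by
      rw [abs_le]
      constructor
      · nlinarith [pow_nonneg hm0 4, pow_nonneg hc0 2]
      · nlinarith [pow_nonneg hm0 4, pow_nonneg hc0 2]
    rw [g3]
    have h5 : ((X : ℝ) ^ (1 / (r : ℝ))) ^ (4 * A * r) = ((X : ℝ) ^ A) ^ 4 := by
      rw [mul_comm (4 * A) r, pow_mul, hpow, mul_comm 4 A, pow_mul]
    rw [pow_succ ((X : ℝ) ^ (1 / (r : ℝ))), h5]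
    have h6 : (0 : ℝ) < ((X : ℝ) ^ A) ^ 4 := by positivity
    nlinarith
  constructor
  · intro hS
    have h3 : ∀ p : ℕ, p.Prime → (p : ℤ) ∣ (m : ℤ) ^ 4 - (c : ℤ) ^ 2 →
        (X : ℝ) ^ (1 / (r : ℝ)) < (p : ℝ) := by
      intro p hp hd
      apply not_mem_pz hp
      intro hmem
      exact hS p hmem ((cf_Q c p m hp).2 hd)
    have h4 : ((m : ℤ) ^ 4 - (c : ℤ) ^ 2).natAbs ≠ 0 := by
      intro h0
      rw [Int.natAbs_eq_zero] at h0
      have h5 := h3 2 Nat.prime_two (h0 ▸ dvd_zero _)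
      have h6 : ((2 : ℕ) : ℝ) = 2 := by norm_num
      rw [h6] at h5
      linarith
    exact ⟨length_le _ _ h4 _ (fun p hp hd => h3 p hp (Int.natCast_dvd.2 hd)) hval
      (by linarith), h3⟩
  · intro hG p hp hq
    have hpp := (mem_pz.1 hp).2
    have h2 := hG.2 p hpp ((cf_Q c p m hpp).1 hq)
    have h4 := mem_pz' (by positivity) hp
    linarith

open Classical in
/-- the sieve density -/
lemma V_eq (c y : ℕ) : Vq (Q (cf c)) y =
    ∏ p ∈ (Finset.range (y + 1)).filter Nat.Prime,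
      (1 - (((Finset.range p).filter (fun n : ℕ => (p : ℤ) ∣ (n : ℤ) ^ 4 - (c : ℤ) ^ 2)).card : ℝ) /
        (p : ℝ)) := by
  unfold Vq
  have h1 : ∀ p ∈ pz y, (1 - (nuB (Q (cf c)) p : ℝ) / p) =
      (1 - (((Finset.range p).filter (fun n : ℕ => (p : ℤ) ∣ (n : ℤ) ^ 4 - (c : ℤ) ^ 2)).card : ℝ) /
        (p : ℝ)) := by
    intro p hp
    have hpp := (mem_pz.1 hp).2
    have h2 : nuB (Q (cf c)) p =
        ((Finset.range p).filter (fun n : ℕ => (p : ℤ) ∣ (n : ℤ) ^ 4 - (c : ℤ) ^ 2)).card := by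
      unfold nuB
      exact congrArg Finset.card (Finset.filter_congr (fun m _ => cf_Q c p m hpp))
    rw [h2]
  rw [Finset.prod_congr rfl h1]
  apply Finset.prod_congr _ (fun _ _ => rfl)
  ext p
  simp only [mem_filter, mem_pz, mem_range]
  constructor
  · rintro ⟨a, b⟩
    exact ⟨by omega, b⟩
  · rintro ⟨a, b⟩
    exact ⟨by omega, b⟩

open Classical in
/-- the number of the good `n` in `(Z, Z + Y]` with fewer than `l` good integers in `[n - T, n)` -/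
noncomputable def Near (c A r X l T Z Y : ℕ) : ℕ :=
  ((Finset.Ioc Z (Z + Y)).filter (fun n => Good c A r X n ∧
    ((Finset.Ico (n - T) n).filter (fun m => Good c A r X m)).card < l)).card

open Classical in
/-- density and gap laws, uniformly in `c` -/
theorem gap_cf : ∃ v : ℝ, 0 < v ∧ ∀ (A : ℕ) (θ : ℝ), 0 < θ →
    ∀ (l0 : ℕ) (x0 ε : ℝ), 0 < ε → ∃ r0 : ℕ, ∀ r : ℕ, r0 ≤ r → ∀ᶠ X : ℕ in atTop,
      ∀ c : ℕ, ¬ IsSquare c → c ≤ X ^ A →
      v / Real.log X ^ 4 ≤ Vq (Q (cf c)) ⌊(X : ℝ) ^ (1 / (r : ℝ))⌋₊ ∧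
      ∀ Z Y : ℕ, (X : ℝ) ^ θ ≤ Y → Z + Y ≤ X ^ A →
      ∀ l T : ℕ, (l ≤ l0 ∨ T * Vq (Q (cf c)) ⌊(X : ℝ) ^ (1 / (r : ℝ))⌋₊ ≤ x0) →
        |(Near c A r X l T Z Y : ℝ) - Y * Vq (Q (cf c)) ⌊(X : ℝ) ^ (1 / (r : ℝ))⌋₊ *
          Ck l (T * Vq (Q (cf c)) ⌊(X : ℝ) ^ (1 / (r : ℝ))⌋₊)| ≤
          ε * (Y * Vq (Q (cf c)) ⌊(X : ℝ) ^ (1 / (r : ℝ))⌋₊) := by
  obtain ⟨v, hv, hVlo⟩ := V_lower_unif 4
  refine ⟨v, hv, ?_⟩
  intro A θ hθ l0 x0 ε hε
  obtain ⟨r0, B, h0⟩ := gap_unif_all (2 * 2) (by norm_num)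
    (((2 : ℕ) : ℝ) ^ 2 * (1 + 2 * ((2 : ℕ) : ℝ) * ((A : ℝ) + 1)) + 1) θ
    (by positivity) hθ l0 x0 ε hε
  refine ⟨max r0 2, ?_⟩
  intro r hr
  have hr2 : 2 ≤ r := (le_max_right _ _).trans hr
  have hrr : (2 : ℝ) ≤ r := by exact_mod_cast hr2
  have hpow2 : Tendsto (fun X : ℕ => (X : ℝ) ^ (1 / (2 * r : ℝ))) atTop atTop :=
    (tendsto_rpow_atTop (by positivity)).comp tendsto_natCast_atTop_atTop
  filter_upwards [h0 r ((le_max_left _ _).trans hr), SysU.ctl_sys (k := 2) 2 A,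
    sf_cf A r (by omega), V_cf A B r hr2, hpow2.eventually_ge_atTop 3,
    eventually_ge_atTop 16] with X hX hctl hap hVs hX3 hX16
  intro c hc hcX
  have hc1 : 1 ≤ c := by
    rcases Nat.eq_zero_or_pos c with h | h
    · exact absurd (h ▸ IsSquare.zero) hc
    · exact h
  have hcc := hctl (cf c) (hyp_cf c A X hc (by omega) hcX)
  refine ⟨?_, ?_⟩
  · obtain ⟨hy1, hy2, hy3, hy4⟩ := level_low r hr2 X (by omega) (by linarith)
    have hX16r : (16 : ℝ) ≤ X := by exact_mod_cast hX16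
    have hL0 : 0 < Real.log X := Real.log_pos (by linarith)
    have hlogy : 0 < Real.log ⌊(X : ℝ) ^ (1 / (r : ℝ))⌋₊ := lt_of_lt_of_le (by positivity) hy2
    refine le_trans ?_ (hVlo (Q (cf c)) hcc.per hcc.adm _ hy4)
    apply div_le_div_of_nonneg_left hv.le (by positivity)
    exact pow_le_pow_left₀ hlogy.le hy3 4
  intro Z Y hY hZY l T hlT
  have g1 := hX (Q (cf c)) hcc (hVs c hc1 hcX) Z Y hY l T hlT
  have hN : Near c A r X l T Z Y = Pk (Sf (Q (cf c)) ⌊(X : ℝ) ^ (1 / (r : ℝ))⌋₊) l T Z Y := by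
    unfold Near Pk
    congr 1
    apply Finset.filter_congr
    intro n hn
    rw [mem_Ioc] at hn
    have e1 : Sf (Q (cf c)) ⌊(X : ℝ) ^ (1 / (r : ℝ))⌋₊ n ↔ Good c A r X n :=
      hap c hcX n (hn.2.trans hZY)
    have e2 : (Finset.Ico (n - T) n).filter (fun m => Good c A r X m) =
        (Finset.Ico (n - T) n).filter (Sf (Q (cf c)) ⌊(X : ℝ) ^ (1 / (r : ℝ))⌋₊) := by
      apply Finset.filter_congr
      intro m hm
      rw [mem_Ico] at hm
      exact (hap c hcX m (hm.2.le.trans (hn.2.trans hZY))).symm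
    rw [e1, e2]
  rw [hN]
  exact g1

end Pool.Agent.Y859.SP.Cg
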