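import Pool.Agent.TH464.PO.Law
import Pool.Agent.TH464.PO.Gen

set_option autoImplicit false

/-!
# The average of the singular series with a few exceptional differences
-/

namespace Pool.Agent.Y859.SP

open Finset Filter
open Pool.Agent.H373R2.T7 Pool.Agent.W123.RP Pool.Agent.W123.RU
open Pool.Agent.TH464.PO

/-- no difference lies in `D` -/
def Gd (D H : Finset ℕ) : Prop := ∀ a ∈ H, ∀ b ∈ H, a < b → b - a ∉ D

/-- the collisions outside `D` -/
def CoX (Q : ℕ → ℕ → Prop) (D : Finset ℕ) (T p n : ℕ) : Prop := CoG Q p n ∧ (p ≤ T ∨ n % p ∉ D)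

open Classical in
lemma collX (Q : ℕ → ℕ → Prop) (c : ℕ) (hQ : PerB Q c) (p0 : ℕ) (D : Finset ℕ) (T : ℕ) :
    Coll (CoX Q D T) p0 (c ^ 2) where
  per := by
    intro p n
    unfold CoX
    rw [(coll_gen Q c hQ p0).per p n, Nat.mod_mod]
  few := by
    intro p hp h0
    refine le_trans (card_le_card ?_) ((coll_gen Q c hQ p0).few p hp h0)
    intro r hr
    rw [mem_filter] at hr ⊢
    exact ⟨hr.1, hr.2.1⟩

open Classical in
/-- **The average of the singular series**, with exceptional differences. -/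
theorem sing_exc (c k : ℕ) (η : ℝ) (hη : 0 < η) (hη1 : η ≤ 1) :
    ∃ (w : ℕ) (η' : ℝ) (T0 : ℕ), 0 < η' ∧ ∀ T : ℕ, T0 ≤ T → ∀ Q : ℕ → ℕ → Prop, PerB Q c →
      (∀ p : ℕ, p.Prime → nuB Q p < p) → ∀ y : ℕ, w ≤ y → ∀ D : Finset ℕ,
      (∀ t ∈ Icc 1 T, t ∉ D →
        ((((pz y).filter (fun p : ℕ => T < p ∧ CoG Q p t)).card : ℕ) : ℝ) ≤ η' * T) →
      (1 - η) * ((T * Vq Q y) ^ (k + 1) / (k + 1).factorial) ≤
        ∑ H ∈ powersetCard (k + 1) (Icc 1 T), Vq (QH Q H) y ∧
      ∑ H ∈ (powersetCard (k + 1) (Icc 1 T)).filter (Gd D), Vq (QH Q H) y ≤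
        (1 + η) * ((T * Vq Q y) ^ (k + 1) / (k + 1).factorial) := by
  obtain ⟨c1, B, w1, hc1, hw12, hW⟩ := W_low c
  obtain ⟨K, hK⟩ : ∃ K : ℕ, K = (1 + 2 * ((k + 1) * c)) ^ ((k + 1) ^ 2) - 1 := ⟨_, rfl⟩
  obtain ⟨A, hA⟩ : ∃ A : ℕ, A = 12 * (K * c ^ 2 + 1) * (k + 1).factorial + ((k + 1) * c) ^ 2 :=
    ⟨_, rfl⟩
  obtain ⟨w, hw0, hw2, hAw, hAw'⟩ := exists_w A B (k + 1) c1 (η / 4) hc1 (by positivity)
    (max w1 (2 * ((k + 1) * c)))
  have hww1 : w1 ≤ w := (le_max_left _ _).trans hw0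
  have hwc : 2 * ((k + 1) * c) ≤ w := (le_max_right _ _).trans hw0
  have hwr : (0 : ℝ) < w := by exact_mod_cast (by omega : 0 < w)
  obtain ⟨η1, hη1def⟩ : ∃ η1 : ℝ, η1 = ((K * c ^ 2 + 1 : ℕ) : ℝ) / w := ⟨_, rfl⟩
  have hη10 : 0 < η1 := by rw [hη1def]; positivity
  have hfac : (1 : ℝ) ≤ (k + 1).factorial := by
    exact_mod_cast Nat.factorial_pos (k + 1)
  have hAge : 12 * η1 * (k + 1).factorial ≤ (A : ℝ) / w := by
    rw [hη1def, le_div_iff₀ hwr]
    have : ((12 * (K * c ^ 2 + 1) * (k + 1).factorial : ℕ) : ℝ) ≤ A := by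
      exact_mod_cast (by omega : 12 * (K * c ^ 2 + 1) * (k + 1).factorial ≤ A)
    refine le_trans (le_of_eq ?_) this
    push_cast
    field_simp
  have hAge2 : (((k + 1) * c : ℕ) : ℝ) ^ 2 / w ≤ η / 4 := by
    refine le_trans ?_ hAw'
    apply div_le_div_of_nonneg_right _ hwr.le
    exact_mod_cast (by omega : ((k + 1) * c) ^ 2 ≤ A)
  have hη1le : η1 ≤ 1 := by nlinarith
  obtain ⟨T1, hT1, havg⟩ := avg_sharp K (c ^ 2) w (by omega) η1 hη10 (by
    rw [hη1def]
    apply div_le_div_of_nonneg_right _ hwr.le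
    push_cast
    linarith)
  obtain ⟨T2, hsmall⟩ := small_avg (k + 1) w (η / 4) (by positivity)
  refine ⟨w, η1 / (K + 1), max T1 T2, by positivity, ?_⟩
  intro T hT Q hQ hadm y hwy D hlarge
  have hT1' : T1 ≤ T := (le_max_left _ _).trans hT
  have hT2' : T2 ≤ T := (le_max_right _ _).trans hT
  obtain ⟨s1, s2⟩ := hsmall T hT2' Q c hQ hadm
  have hWpos := Vq_pos Q hadm w
  obtain ⟨W, hWdef⟩ : ∃ W, W = Vq Q w := ⟨_, rfl⟩
  obtain ⟨V, hV⟩ : ∃ V, V = Vt Q w y := ⟨_, rfl⟩
  have hV0 : 0 ≤ V := by rw [hV]; exact Vt_nonneg Q w y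
  rw [← hWdef] at s1 s2 hWpos
  rw [Vq_split Q w y hwy, ← hWdef, ← hV]
  have hT0 : (0 : ℝ) ≤ T := Nat.cast_nonneg T
  have e1 : ((T : ℝ) * (W * V)) ^ (k + 1) / (k + 1).factorial =
      V ^ (k + 1) * ((T * W) ^ (k + 1) / (k + 1).factorial) := by
    rw [← mul_assoc, mul_pow ((T : ℝ) * W) V]
    ring
  rw [e1]
  have hterm : ∀ H : Finset ℕ, Vq (QH Q H) y = Vq (QH Q H) w * Vt (QH Q H) w y :=
    fun H => Vq_split _ w y hwy
  have hX0 : 0 ≤ (T * W) ^ (k + 1) / ((k + 1).factorial : ℝ) := by positivity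
  have hVk : 0 ≤ V ^ (k + 1) := by positivity
  constructor
  · -- lower bound
    have h1 : ∀ H ∈ powersetCard (k + 1) (Icc 1 T),
        V ^ (k + 1) * (1 - η / 4) * Vq (QH Q H) w ≤ Vq (QH Q H) y := by
      intro H hH
      rw [hterm H]
      rw [mem_powersetCard] at hH
      have h2 := tail_lo Q c hQ H w y (by omega) (by rw [hH.2]; exact hwc)
      rw [hH.2, ← hV] at h2
      have h3 : V ^ (k + 1) * (1 - η / 4) ≤ Vt (QH Q H) w y := by
        refine le_trans ?_ h2
        apply mul_le_mul_of_nonneg_left _ hVk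
        linarith
      calc V ^ (k + 1) * (1 - η / 4) * Vq (QH Q H) w ≤ Vt (QH Q H) w y * Vq (QH Q H) w :=
            mul_le_mul_of_nonneg_right h3 (Vq_nonneg _ w)
        _ = _ := mul_comm _ _
    have h2 := Finset.sum_le_sum h1
    rw [← Finset.mul_sum] at h2
    refine le_trans ?_ h2
    calc (1 - η) * (V ^ (k + 1) * ((T * W) ^ (k + 1) / (k + 1).factorial)) ≤
        V ^ (k + 1) * (1 - η / 4) * ((1 - η / 4) * ((T * W) ^ (k + 1) / (k + 1).factorial)) := by
          have h3 : 1 - η ≤ (1 - η / 4) * (1 - η / 4) := by nlinarith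
          have h4 := mul_le_mul_of_nonneg_right h3 (mul_nonneg hVk hX0)
          calc (1 - η) * (V ^ (k + 1) * ((T * W) ^ (k + 1) / (k + 1).factorial)) ≤ _ := h4
            _ = _ := by ring
      _ ≤ _ := mul_le_mul_of_nonneg_left s1 (mul_nonneg hVk (by linarith))
  · -- upper bound
    obtain ⟨g, hg⟩ : ∃ g : ℕ → ℝ, g = fun t => if t ∈ D then 0 else Fp Q K w y t - 1 := ⟨_, rfl⟩
    have hg0 : ∀ t, 0 ≤ g t := by
      intro t
      rw [hg]
      simp only
      split_ifs
      · exact le_rfl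
      · have := Fp_ge Q K w y t
        linarith
    have h1 : ∀ H ∈ (powersetCard (k + 1) (Icc 1 T)).filter (Gd D), Vq (QH Q H) y ≤
        V ^ (k + 1) * (Vq (QH Q H) w + ∑ x ∈ prs H, g (x.2 - x.1)) := by
      intro H hH
      rw [hterm H]
      rw [mem_filter, mem_powersetCard] at hH
      have hgd : ∑ x ∈ prs H, (Fp Q K w y (x.2 - x.1) - 1) = ∑ x ∈ prs H, g (x.2 - x.1) := by
        apply Finset.sum_congr rfl
        intro x hx
        unfold prs at hx
        rw [mem_filter, mem_product] at hx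
        rw [hg]
        simp only
        rw [if_neg (hH.2 x.1 hx.1.1 x.2 hx.1.2 hx.2)]
      have h2 := tail_up Q c hQ H w y (by rw [hH.1.2]; exact hwc)
      rw [hH.1.2, ← hV, ← hK, hgd] at h2
      have h3 : 0 ≤ ∑ x ∈ prs H, g (x.2 - x.1) := Finset.sum_nonneg fun x _ => hg0 _
      have h4 := Vq_nonneg (QH Q H) w
      have h5 := Vq_le_one (QH Q H) w
      calc Vq (QH Q H) w * Vt (QH Q H) w y ≤ Vq (QH Q H) w * (V ^ (k + 1) *
            (1 + ∑ x ∈ prs H, g (x.2 - x.1))) := mul_le_mul_of_nonneg_left h2 h4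
        _ = V ^ (k + 1) * (Vq (QH Q H) w +
            Vq (QH Q H) w * ∑ x ∈ prs H, g (x.2 - x.1)) := by ring
        _ ≤ _ := by
          apply mul_le_mul_of_nonneg_left _ hVk
          have := mul_le_mul_of_nonneg_right h5 h3
          linarith
    have h2 := Finset.sum_le_sum h1
    have h2' : ∑ H ∈ (powersetCard (k + 1) (Icc 1 T)).filter (Gd D),
        V ^ (k + 1) * (Vq (QH Q H) w + ∑ x ∈ prs H, g (x.2 - x.1)) ≤
        ∑ H ∈ powersetCard (k + 1) (Icc 1 T),
          V ^ (k + 1) * (Vq (QH Q H) w + ∑ x ∈ prs H, g (x.2 - x.1)) := by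
      apply Finset.sum_le_sum_of_subset_of_nonneg (filter_subset _ _)
      intro H _ _
      exact mul_nonneg hVk (add_nonneg (Vq_nonneg _ _) (Finset.sum_nonneg fun x _ => hg0 _))
    replace h2 := h2.trans h2'
    rw [← Finset.mul_sum, Finset.sum_add_distrib] at h2
    refine h2.trans ?_
    have h3 := sum_prs k T g hg0
    have h4 := havg T hT1' (CoX Q D T) (collX Q c hQ w D T) y (η1 / (K + 1)) (by positivity) (by
      rw [← mul_div_assoc, div_le_iff₀ (by positivity)]
      have : (0 : ℝ) ≤ K := Nat.cast_nonneg K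
      nlinarith) (by
      intro t ht
      by_cases htD : t ∈ D
      · have he : (pz y).filter (fun p : ℕ => T < p ∧ CoX Q D T p t) = ∅ := by
          rw [Finset.filter_eq_empty_iff]
          rintro p _ ⟨h1, h2⟩
          rw [mem_Icc] at ht
          rcases h2.2 with h3 | h3
          · omega
          · rw [Nat.mod_eq_of_lt (by omega)] at h3
            exact h3 htD
        rw [he, card_empty, Nat.cast_zero]
        positivity
      · refine le_trans ?_ (hlarge t ht htD)
        have : ((pz y).filter (fun p : ℕ => T < p ∧ CoX Q D T p t)).card ≤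
            ((pz y).filter (fun p : ℕ => T < p ∧ CoG Q p t)).card := by
          apply card_le_card
          intro p hp
          rw [mem_filter] at hp ⊢
          exact ⟨hp.1, hp.2.1, hp.2.2.1⟩
        exact_mod_cast this)
    have h5 : ∑ t ∈ Icc 1 T, g t ≤ 12 * η1 * T := by
      have h51 : ∀ t ∈ Icc 1 T, g t ≤
          ∏ p ∈ (pz y).filter (fun p : ℕ => w < p ∧ CoX Q D T p t), (1 + (K : ℝ) / p) - 1 := by
        intro t ht
        rw [mem_Icc] at ht
        have hge : (1 : ℝ) ≤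
            ∏ p ∈ (pz y).filter (fun p : ℕ => w < p ∧ CoX Q D T p t), (1 + (K : ℝ) / p) := by
          apply Finset.one_le_prod
          intro p _
          have : 0 ≤ (K : ℝ) / p := by positivity
          linarith
        rw [hg]
        simp only
        split_ifs with htD
        · linarith
        · apply sub_le_sub_right
          apply le_of_eq
          unfold Fp
          apply Finset.prod_congr _ (fun _ _ => rfl)
          apply Finset.filter_congr
          intro p _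
          apply and_congr_right
          intro _
          unfold CoX
          constructor
          · intro h
            refine ⟨h, ?_⟩
            rcases Nat.lt_or_ge T p with h6 | h6
            · right
              rwa [Nat.mod_eq_of_lt (by omega)]
            · exact Or.inl h6
          · exact fun h => h.1
      refine (Finset.sum_le_sum h51).trans ?_
      rw [Finset.sum_sub_distrib, Finset.sum_const, Nat.card_Icc, Nat.add_sub_cancel, nsmul_eq_mul,
        mul_one]
      have h6 := exp_bound η1 hη10.le hη1le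
      have h7 := mul_le_mul_of_nonneg_right h6 hT0
      linarith
    have h6 : ∑ H ∈ powersetCard (k + 1) (Icc 1 T), ∑ x ∈ prs H, g (x.2 - x.1) ≤
        η / 4 * ((T * W) ^ (k + 1) / (k + 1).factorial) := by
      calc _ ≤ (T : ℝ) ^ k * ∑ t ∈ Icc 1 T, g t := h3
        _ ≤ (T : ℝ) ^ k * (12 * η1 * T) := mul_le_mul_of_nonneg_left h5 (by positivity)
        _ = 12 * η1 * (k + 1).factorial * (T ^ (k + 1) / (k + 1).factorial) := by
          rw [pow_succ]
          field_simp
        _ ≤ (η / 4 * (c1 / Real.log w ^ B) ^ (k + 1)) * (T ^ (k + 1) / (k + 1).factorial) := by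
          apply mul_le_mul_of_nonneg_right (hAge.trans hAw) (by positivity)
        _ ≤ (η / 4 * W ^ (k + 1)) * (T ^ (k + 1) / (k + 1).factorial) := by
          apply mul_le_mul_of_nonneg_right _ (by positivity)
          apply mul_le_mul_of_nonneg_left _ (by positivity)
          have hlog : 0 < Real.log w := Real.log_pos (by exact_mod_cast (by omega : 1 < w))
          apply pow_le_pow_left₀ (by positivity)
          rw [hWdef]
          exact hW w hww1 Q hQ hadm
        _ = _ := by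
          rw [mul_pow]
          ring
    calc V ^ (k + 1) * (∑ H ∈ powersetCard (k + 1) (Icc 1 T), Vq (QH Q H) w +
        ∑ H ∈ powersetCard (k + 1) (Icc 1 T), ∑ x ∈ prs H, g (x.2 - x.1)) ≤
        V ^ (k + 1) * ((1 + η / 4) * ((T * W) ^ (k + 1) / (k + 1).factorial) +
          η / 4 * ((T * W) ^ (k + 1) / (k + 1).factorial)) := by
          apply mul_le_mul_of_nonneg_left _ hVk
          linarith
      _ = (1 + η / 2) * (V ^ (k + 1) * ((T * W) ^ (k + 1) / (k + 1).factorial)) := by ring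
      _ ≤ (1 + η) * (V ^ (k + 1) * ((T * W) ^ (k + 1) / (k + 1).factorial)) := by
        apply mul_le_mul_of_nonneg_right (by linarith) (mul_nonneg hVk hX0)

/-- adding an element to a good set lowers the density by a factor `δ` -/
def Inc (Q : ℕ → ℕ → Prop) (y T : ℕ) (D : Finset ℕ) (R : ℕ) (δ : ℝ) : Prop :=
  ∀ H : Finset ℕ, H ⊆ Icc 1 T → H.card ≤ R → Gd D H → ∀ b ∈ Icc 1 T, b ∉ H →
    Vq (QH Q (insert b H)) y ≤ δ * Vq (QH Q H) y

open Classical in
lemma Vq_anti (Q : ℕ → ℕ → Prop) (y : ℕ) (H H' : Finset ℕ) (h : H' ⊆ H) :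
    Vq (QH Q H) y ≤ Vq (QH Q H') y := by
  unfold Vq
  apply Finset.prod_le_prod
  · intro p hp
    exact one_sub_nonneg _ p (mem_pz.1 hp).2
  · intro p _
    apply sub_le_sub_left
    apply div_le_div_of_nonneg_right _ (Nat.cast_nonneg _)
    have : nuB (QH Q H') p ≤ nuB (QH Q H) p := by
      unfold nuB
      apply card_le_card
      intro r hr
      rw [mem_filter] at hr ⊢
      obtain ⟨h1, a, ha, h2⟩ := hr
      exact ⟨h1, a, h ha, h2⟩
    exact_mod_cast this

open Classical in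
/-- a maximal good subset -/
lemma exists_max_good (D H : Finset ℕ) : ∃ S : Finset ℕ, S ⊆ H ∧ Gd D S ∧
    ∀ b ∈ H, b ∉ S → ∃ a ∈ S, (a < b ∧ b - a ∈ D) ∨ (b < a ∧ a - b ∈ D) := by
  have hne : (H.powerset.filter (Gd D)).Nonempty := by
    refine ⟨∅, ?_⟩
    rw [mem_filter, mem_powerset]
    exact ⟨empty_subset _, fun a ha => absurd ha (Finset.notMem_empty a)⟩
  obtain ⟨S, hS, hmax⟩ := Finset.exists_max_image _ Finset.card hne
  rw [mem_filter, mem_powerset] at hS
  refine ⟨S, hS.1, hS.2, ?_⟩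
  intro b hb hbS
  by_contra hcon
  push Not at hcon
  have hgd : Gd D (insert b S) := by
    intro u hu v hv huv
    rw [mem_insert] at hu hv
    rcases hu with hu | hu <;> rcases hv with hv | hv
    · omega
    · rw [hu] at huv ⊢
      exact (hcon v hv).2 huv
    · rw [hv] at huv ⊢
      exact (hcon u hu).1 huv
    · exact hS.2 u hu v hv huv
  have h1 := hmax (insert b S) (by
    rw [mem_filter, mem_powerset]
    exact ⟨insert_subset hb hS.1, hgd⟩)
  rw [card_insert_of_notMem hbS] at h1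
  omega

/-- the neighbours of `S` -/
def Nb (D S : Finset ℕ) : Finset ℕ :=
  (S ×ˢ D).image (fun x => x.1 + x.2) ∪ (S ×ˢ D).image (fun x => x.1 - x.2)

lemma Nb_card (D S : Finset ℕ) : (Nb D S).card ≤ 2 * (S.card * D.card) := by
  unfold Nb
  refine (card_union_le _ _).trans ?_
  have h1 := card_image_le (s := S ×ˢ D) (f := fun x : ℕ × ℕ => x.1 + x.2)
  have h2 := card_image_le (s := S ×ˢ D) (f := fun x : ℕ × ℕ => x.1 - x.2)
  rw [card_product] at h1 h2
  omega

open Classical in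
/-- **The bad sets contribute little.** -/
theorem bad_sum (Q : ℕ → ℕ → Prop) (y T : ℕ) (D : Finset ℕ) (j d : ℕ) (hd : D.card ≤ d)
    (δ : ℝ) (hδ : 0 ≤ δ) (hinc : Inc Q y T D j δ) :
    ∑ H ∈ (powersetCard j (Icc 1 T)).filter (fun H => ¬ Gd D H), Vq (QH Q H) y ≤
      2 ^ (2 * (j * d)) * δ * ∑ i ∈ range j, ∑ S ∈ (powersetCard i (Icc 1 T)).filter (Gd D),
        Vq (QH Q S) y := by
  choose φ hφ1 hφ2 hφ3 using exists_max_good D
  obtain ⟨B, hB⟩ : ∃ B, B = (powersetCard j (Icc 1 T)).filter (fun H => ¬ Gd D H) := ⟨_, rfl⟩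
  obtain ⟨P, hP⟩ : ∃ P : Finset (Finset ℕ), P = (range j).biUnion
    (fun i => (powersetCard i (Icc 1 T)).filter (Gd D)) := ⟨_, rfl⟩
  have hBm : ∀ H ∈ B, H ⊆ Icc 1 T ∧ H.card = j ∧ ¬ Gd D H := by
    intro H hH
    rw [hB, mem_filter, mem_powersetCard] at hH
    exact ⟨hH.1.1, hH.1.2, hH.2⟩
  have hlt : ∀ H ∈ B, ∃ b ∈ H, b ∉ φ H := by
    intro H hH
    by_contra hcon
    push Not at hcon
    have : φ H = H := Finset.Subset.antisymm (hφ1 H) hcon
    apply (hBm H hH).2.2
    rw [← this]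
    exact hφ2 H
  have hφP : ∀ H ∈ B, φ H ∈ P := by
    intro H hH
    obtain ⟨b, hb, hb'⟩ := hlt H hH
    rw [hP, mem_biUnion]
    refine ⟨(φ H).card, ?_, ?_⟩
    · rw [mem_range, ← (hBm H hH).2.1]
      apply card_lt_card
      exact ⟨hφ1 H, fun h => hb' (h hb)⟩
    · rw [mem_filter, mem_powersetCard]
      exact ⟨⟨(hφ1 H).trans (hBm H hH).1, rfl⟩, hφ2 H⟩
  have hval : ∀ H ∈ B, Vq (QH Q H) y ≤ δ * Vq (QH Q (φ H)) y := by
    intro H hH
    obtain ⟨b, hb, hb'⟩ := hlt H hH
    have h1 : Vq (QH Q H) y ≤ Vq (QH Q (insert b (φ H))) y :=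
      Vq_anti Q y H _ (insert_subset hb (hφ1 H))
    refine h1.trans (hinc (φ H) ((hφ1 H).trans (hBm H hH).1) ?_ (hφ2 H) b ((hBm H hH).1 hb) hb')
    rw [← (hBm H hH).2.1]
    exact card_le_card (hφ1 H)
  have hfib : ∀ S ∈ P, ((B.filter (fun H => φ H = S)).card : ℝ) ≤ 2 ^ (2 * (j * d)) := by
    intro S hS
    have hSj : S.card ≤ j := by
      rw [hP, mem_biUnion] at hS
      obtain ⟨i, hi, hi2⟩ := hS
      rw [mem_filter, mem_powersetCard] at hi2
      rw [mem_range] at hi
      rw [hi2.1.2]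
      exact hi.le
    have hmaps : (B.filter (fun H => φ H = S)).card ≤ ((Nb D S).powerset).card := by
      apply Finset.card_le_card_of_injOn (fun H => H \ S)
      · intro H hH
        rw [Finset.mem_coe, mem_filter] at hH
        rw [Finset.mem_coe, mem_powerset]
        intro b hb
        change b ∈ H \ S at hb
        rw [Finset.mem_sdiff] at hb
        have h3 := hφ3 H b hb.1 (by rw [hH.2]; exact hb.2)
        rw [hH.2] at h3
        obtain ⟨a, ha, h4⟩ := h3
        unfold Nb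
        rw [mem_union, mem_image, mem_image]
        rcases h4 with ⟨h5, h6⟩ | ⟨h5, h6⟩
        · left
          exact ⟨(a, b - a), mem_product.2 ⟨ha, h6⟩, by simp only; omega⟩
        · right
          exact ⟨(a, a - b), mem_product.2 ⟨ha, h6⟩, by simp only; omega⟩
      · intro H hH H' hH' h
        rw [Finset.mem_coe, mem_filter] at hH hH'
        simp only at h
        have e1 : S ⊆ H := by
          rw [← hH.2]
          exact hφ1 H
        have e2 : S ⊆ H' := by
          rw [← hH'.2]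
          exact hφ1 H'
        rw [← Finset.sdiff_union_of_subset e1, h, Finset.sdiff_union_of_subset e2]
    rw [card_powerset] at hmaps
    have h2 : 2 ^ (Nb D S).card ≤ 2 ^ (2 * (j * d)) := by
      apply Nat.pow_le_pow_right (by norm_num)
      refine (Nb_card D S).trans ?_
      apply Nat.mul_le_mul_left
      exact Nat.mul_le_mul hSj hd
    exact_mod_cast hmaps.trans h2
  have hPdisj : ∑ S ∈ P, Vq (QH Q S) y =
      ∑ i ∈ range j, ∑ S ∈ (powersetCard i (Icc 1 T)).filter (Gd D), Vq (QH Q S) y := by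
    rw [hP, Finset.sum_biUnion]
    intro i _ i' _ hii
    rw [Function.onFun, Finset.disjoint_left]
    intro S hS hS'
    rw [mem_filter, mem_powersetCard] at hS hS'
    exact hii (hS.1.2.symm.trans hS'.1.2)
  rw [← hB, ← hPdisj]
  calc ∑ H ∈ B, Vq (QH Q H) y ≤ ∑ H ∈ B, δ * Vq (QH Q (φ H)) y := Finset.sum_le_sum hval
    _ = ∑ H ∈ B, ∑ S ∈ P, if φ H = S then δ * Vq (QH Q S) y else 0 := by
        apply Finset.sum_congr rfl
        intro H hH
        rw [Finset.sum_ite_eq, if_pos (hφP H hH)]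
    _ = ∑ S ∈ P, ∑ H ∈ B, if φ H = S then δ * Vq (QH Q S) y else 0 := Finset.sum_comm
    _ = ∑ S ∈ P, ((B.filter (fun H => φ H = S)).card : ℝ) * (δ * Vq (QH Q S) y) := by
        apply Finset.sum_congr rfl
        intro S _
        rw [← Finset.sum_filter, Finset.sum_const, nsmul_eq_mul]
    _ ≤ ∑ S ∈ P, 2 ^ (2 * (j * d)) * (δ * Vq (QH Q S) y) := by
        apply Finset.sum_le_sum
        intro S hS
        exact mul_le_mul_of_nonneg_right (hfib S hS) (mul_nonneg hδ (Vq_nonneg _ _))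
    _ = 2 ^ (2 * (j * d)) * δ * ∑ S ∈ P, Vq (QH Q S) y := by
        rw [Finset.mul_sum]
        apply Finset.sum_congr rfl
        intro S _
        ring

end Pool.Agent.Y859.SP
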