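import Pool.Agent.Y859.SP.Unif

set_option autoImplicit false

/-!
# Several linear forms, uniformly in their coefficients
-/

namespace Pool.Agent.Y859.SP.Frm

open Finset Filter
open Pool.Agent.W123.RP Pool.Agent.H373R2.T7 Pool.Agent.W123.RU
open Pool.Agent.TH464.PW Pool.Agent.TH464.PO

variable {k : ℕ}

/-- `p` divides some `a i * m + b i` -/
def QF (a b : Fin k → ℕ) (p m : ℕ) : Prop := ∃ i, p ∣ a i * m + b i

/-- admissible sets of forms -/
structure Adm (a b : Fin k → ℕ) : Prop where
  lt : ∀ i, 1 ≤ b i ∧ b i < a i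
  loc : ∀ p : ℕ, p.Prime → ∃ n : ℤ, ∀ i, ¬ (p : ℤ) ∣ a i * n + b i

lemma dvd_mod (p u v m : ℕ) : p ∣ u * m + v ↔ p ∣ u * (m % p) + v := by
  rw [← Nat.modEq_zero_iff_dvd, ← Nat.modEq_zero_iff_dvd]
  have h : u * m + v ≡ u * (m % p) + v [MOD p] :=
    ((Nat.mod_modEq m p).symm.mul_left u).add_right v
  exact ⟨fun h1 => h.symm.trans h1, fun h1 => h.trans h1⟩

lemma coprime_of_adm (a b : Fin k → ℕ) (h : Adm a b) (i : Fin k) (p : ℕ) (hp : p.Prime)
    (ha : p ∣ a i) : ¬ p ∣ b i := by
  intro hb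
  obtain ⟨n, hn⟩ := h.loc p hp
  apply hn i
  exact dvd_add ((Int.natCast_dvd_natCast.2 ha).mul_right _) (Int.natCast_dvd_natCast.2 hb)

lemma root_unique (u v p m m' : ℕ) (hp : p.Prime) (hu : ¬ p ∣ u) (hm : m < p) (hm' : m' < p)
    (h : p ∣ u * m + v) (h' : p ∣ u * m' + v) : m = m' := by
  have h1 : u * m + v ≡ u * m' + v [MOD p] :=
    ((Nat.modEq_zero_iff_dvd).2 h).trans ((Nat.modEq_zero_iff_dvd).2 h').symm
  have h2 : u * m ≡ u * m' [MOD p] := Nat.ModEq.add_right_cancel' v h1
  have h3 : m ≡ m' [MOD p] := Nat.ModEq.cancel_left_of_coprime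
    ((hp.coprime_iff_not_dvd).2 hu) h2
  have h4 := h3
  unfold Nat.ModEq at h4
  rwa [Nat.mod_eq_of_lt hm, Nat.mod_eq_of_lt hm'] at h4

lemma root_exists (u v p : ℕ) (hp : p.Prime) (hu : ¬ p ∣ u) : ∃ m : ℕ, m < p ∧ p ∣ u * m + v := by
  have : Fact p.Prime := ⟨hp⟩
  have hu' : (u : ZMod p) ≠ 0 := by
    intro h
    rw [ZMod.natCast_eq_zero_iff] at h
    exact hu h
  refine ⟨(-(v : ZMod p) / u).val, ZMod.val_lt _, ?_⟩
  rw [← ZMod.natCast_eq_zero_iff]
  push_cast
  rw [ZMod.natCast_zmod_val, mul_div_cancel₀ _ hu']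
  ring

lemma perB_QF (a b : Fin k → ℕ) (h : Adm a b) : PerB (QF a b) k where
  per := by
    intro p n
    unfold QF
    exact exists_congr (fun i => dvd_mod p (a i) (b i) n)
  few := by
    classical
    intro p hp
    unfold nuB
    have hsub : (range p).filter (fun r => QF a b p r) ⊆
        (Finset.univ : Finset (Fin k)).biUnion
          (fun i => (range p).filter (fun r => p ∣ a i * r + b i)) := by
      intro r hr
      rw [mem_filter] at hr
      obtain ⟨h1, i, hi⟩ := hr
      rw [mem_biUnion]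
      exact ⟨i, mem_univ _, mem_filter.2 ⟨h1, hi⟩⟩
    refine (card_le_card hsub).trans (card_biUnion_le.trans ?_)
    calc ∑ i : Fin k, ((range p).filter (fun r => p ∣ a i * r + b i)).card ≤ ∑ _i : Fin k, 1 := by
          apply Finset.sum_le_sum
          intro i _
          rw [card_le_one]
          intro m hm m' hm'
          rw [mem_filter, mem_range] at hm hm'
          by_cases ha : p ∣ a i
          · exfalso
            apply coprime_of_adm a b h i p hp ha
            exact (Nat.dvd_add_right (ha.mul_right m)).1 hm.2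
          · exact root_unique _ _ p m m' hp ha hm.1 hm'.1 hm.2 hm'.2
      _ = k := by simp

lemma adm_QF (a b : Fin k → ℕ) (h : Adm a b) (p : ℕ) (hp : p.Prime) : nuB (QF a b) p < p := by
  classical
  obtain ⟨n, hn⟩ := h.loc p hp
  unfold nuB
  have hpz : (p : ℤ) ≠ 0 := by exact_mod_cast hp.pos.ne'
  obtain ⟨m, hm⟩ : ∃ m : ℕ, (m : ℤ) = n % p :=
    ⟨(n % p).toNat, Int.toNat_of_nonneg (Int.emod_nonneg _ hpz)⟩
  have hmp : m < p := by
    have : (m : ℤ) < p := by
      rw [hm]
      exact Int.emod_lt_of_pos _ (by exact_mod_cast hp.pos)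
    exact_mod_cast this
  have hnot : m ∉ (range p).filter (fun r => QF a b p r) := by
    rw [mem_filter]
    rintro ⟨-, i, hi⟩
    apply hn i
    have h1 : (p : ℤ) ∣ a i * (m : ℤ) + b i := by exact_mod_cast Int.natCast_dvd_natCast.2 hi
    have h2 : (a i : ℤ) * n + b i = (a i * (m : ℤ) + b i) + a i * (p * (n / p)) := by
      rw [hm]
      have := Int.emod_add_mul_ediv n p
      calc (a i : ℤ) * n + b i = a i * (n % p + p * (n / p)) + b i := by rw [this]
        _ = _ := by ring
    rw [h2]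
    exact dvd_add h1 (((dvd_mul_right _ _)).mul_left _)
  calc ((range p).filter (fun r => QF a b p r)).card < (range p).card := by
        apply card_lt_card
        refine ⟨filter_subset _ _, fun hsub => hnot (hsub (mem_range.2 hmp))⟩
    _ = p := card_range p

lemma cross_ne (a b : Fin k → ℕ) (h : Adm a b) (hinj : Function.Injective (fun i => (a i, b i)))
    (i j : Fin k) (hij : i ≠ j) : a i * b j ≠ a j * b i := by
  intro he
  have hc : ∀ l, Nat.Coprime (a l) (b l) := by
    intro l
    rw [Nat.coprime_iff_gcd_eq_one]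
    by_contra hne
    obtain ⟨p, hp, hd⟩ := Nat.exists_prime_and_dvd hne
    exact coprime_of_adm a b h l p hp (hd.trans (Nat.gcd_dvd_left _ _)) (hd.trans (Nat.gcd_dvd_right _ _))
  have h1 : a i ∣ a j := by
    have : a i ∣ a j * b i := ⟨b j, he.symm⟩
    exact (hc i).dvd_of_dvd_mul_right this
  have h2 : a j ∣ a i := by
    have : a j ∣ a i * b j := ⟨b i, he⟩
    exact (hc j).dvd_of_dvd_mul_right this
  have h3 : a i = a j := Nat.dvd_antisymm h1 h2
  have h4 : b i = b j := by
    rw [h3] at he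
    have hpos : 0 < a j := by
      have := (h.lt j).2
      omega
    exact (Nat.eq_of_mul_eq_mul_left hpos he).symm
  apply hij
  apply hinj
  simp only [Prod.mk.injEq]
  exact ⟨h3, h4⟩

/-- the resultants -/
def E (a b : Fin k → ℕ) (t : ℕ) (i j : Fin k) : ℕ := a i * a j * t + a i * b j - a j * b i

lemma E_cast (a b : Fin k → ℕ) (h : Adm a b) (t : ℕ) (ht : 1 ≤ t) (i j : Fin k) :
    a j * b i < a i * a j * t + a i * b j := by
  have h1 := h.lt i
  have h2 := h.lt j
  have hpos : 0 < a j := by omega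
  calc a j * b i < a j * a i := Nat.mul_lt_mul_of_pos_left h1.2 hpos
    _ = a i * a j * 1 := by ring
    _ ≤ a i * a j * t := Nat.mul_le_mul_left _ ht
    _ ≤ _ := Nat.le_add_right _ _

lemma ctl_QF (hk : 2 ≤ k) (A : ℕ) : ∀ᶠ X : ℕ in atTop, ∀ a b : Fin k → ℕ, Adm a b →
    Function.Injective (fun i => (a i, b i)) → (∀ i, a i ≤ X ^ A) →
      Ctl (QF a b) k (4 * A + 1 + k ^ 2 * (2 * A + 2)) (Real.log X) := by
  filter_upwards [logpow_rpow (k + 1) 1 1 one_pos one_pos, eventually_ge_atTop 3] with X h1 hX3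
  intro a b h hinj hA
  have hXr : (3 : ℝ) ≤ X := by exact_mod_cast hX3
  have hL : 0 < Real.log X := Real.log_pos (by linarith)
  have hX0 : 0 < X := by omega
  rw [Real.rpow_one, one_mul] at h1
  have hkr : (0 : ℝ) ≤ (k : ℝ) ^ 2 * (2 * A + 2) := by positivity
  have hAr : (0 : ℝ) ≤ 4 * A + 1 := by positivity
  refine ⟨perB_QF a b h, adm_QF a b h, ?_, ?_⟩
  · obtain ⟨i, j, hij⟩ : ∃ i j : Fin k, i ≠ j := by
      refine ⟨⟨0, by omega⟩, ⟨1, by omega⟩, ?_⟩
      intro he
      rw [Fin.mk.injEq] at he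
      omega
    have hi := h.lt i
    have hj := h.lt j
    have hcr := cross_ne a b h hinj i j hij
    refine ⟨a i * a j * ((a i : ℤ) * b j - a j * b i).natAbs, ?_, ?_, ?_⟩
    · apply Nat.mul_ne_zero (Nat.mul_ne_zero (by omega) (by omega))
      rw [Int.natAbs_ne_zero, sub_ne_zero]
      exact_mod_cast hcr
    · have hb : ((a i : ℤ) * b j - a j * b i).natAbs ≤ X ^ A * X ^ A := by
        have e1 : ((a i * b j : ℕ) : ℤ) ≤ ((X ^ A * X ^ A : ℕ) : ℤ) := by
          exact_mod_cast Nat.mul_le_mul (hA i) (hj.2.le.trans (hA j))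
        have e2 : ((a j * b i : ℕ) : ℤ) ≤ ((X ^ A * X ^ A : ℕ) : ℤ) := by
          exact_mod_cast Nat.mul_le_mul (hA j) (hi.2.le.trans (hA i))
        have e3 : (0 : ℤ) ≤ ((a i * b j : ℕ) : ℤ) := Int.natCast_nonneg _
        have e4 : (0 : ℤ) ≤ ((a j * b i : ℕ) : ℤ) := Int.natCast_nonneg _
        have e5 : (((a i : ℤ) * b j - a j * b i).natAbs : ℤ) ≤ ((X ^ A * X ^ A : ℕ) : ℤ) := by
          rw [Int.natCast_natAbs, abs_le]
          push_cast at e1 e2 e3 e4 ⊢
          constructor <;> linarith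
        exact_mod_cast e5
      have hD : a i * a j * ((a i : ℤ) * b j - a j * b i).natAbs ≤ X ^ (4 * A) := by
        calc _ ≤ X ^ A * X ^ A * (X ^ A * X ^ A) := Nat.mul_le_mul (Nat.mul_le_mul (hA i) (hA j)) hb
          _ = X ^ (4 * A) := by ring
      have hDpos : 0 < a i * a j * ((a i : ℤ) * b j - a j * b i).natAbs := by
        apply Nat.mul_pos (Nat.mul_pos (by omega) (by omega))
        rw [Int.natAbs_pos, sub_ne_zero]
        exact_mod_cast hcr
      have h3 : Real.log ((a i * a j * ((a i : ℤ) * b j - a j * b i).natAbs : ℕ) : ℝ) ≤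
          Real.log (((X ^ (4 * A) : ℕ)) : ℝ) :=
        Real.log_le_log (by exact_mod_cast hDpos) (by exact_mod_cast hD)
      refine h3.trans ?_
      push_cast
      rw [Real.log_pow]
      push_cast
      nlinarith
    · intro p hp hd
      classical
      have hpi : ¬ p ∣ a i := fun hh => hd ((hh.mul_right _).mul_right _)
      have hpj : ¬ p ∣ a j := fun hh => hd ((hh.mul_left _).mul_right _)
      have hpc : ¬ (p : ℤ) ∣ ((a i : ℤ) * b j - a j * b i) := by
        intro hh
        apply hd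
        apply Dvd.dvd.mul_left
        exact Int.natCast_dvd.1 hh
      obtain ⟨m, hm, hm2⟩ := root_exists (a i) (b i) p hp hpi
      obtain ⟨m', hm', hm2'⟩ := root_exists (a j) (b j) p hp hpj
      have hne : m ≠ m' := by
        intro he
        apply hpc
        rw [← he] at hm2'
        have e1 : (p : ℤ) ∣ a i * (m : ℤ) + b i := by exact_mod_cast Int.natCast_dvd_natCast.2 hm2
        have e2 : (p : ℤ) ∣ a j * (m : ℤ) + b j := by exact_mod_cast Int.natCast_dvd_natCast.2 hm2'
        have e3 : (a i : ℤ) * b j - a j * b i = a i * (a j * (m : ℤ) + b j) - a j * (a i * (m : ℤ) + b i) := by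
          ring
        rw [e3]
        exact dvd_sub (e2.mul_left _) (e1.mul_left _)
      unfold nuB
      have hsub : ({m, m'} : Finset ℕ) ⊆ (range p).filter (fun r => QF a b p r) := by
        intro x hx
        rw [mem_insert, mem_singleton] at hx
        rw [mem_filter, mem_range]
        rcases hx with hx | hx
        · rw [hx]
          exact ⟨hm, i, hm2⟩
        · rw [hx]
          exact ⟨hm', j, hm2'⟩
      have := card_le_card hsub
      rwa [card_pair hne] at this
  · intro t ht1 ht2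
    have htX : t ≤ X := by
      have : (t : ℝ) ≤ X := ht2.trans h1
      exact_mod_cast this
    refine ⟨∏ i : Fin k, ∏ j : Fin k, E a b t i j, ?_, ?_, ?_⟩
    · rw [Finset.prod_ne_zero_iff]
      intro i _
      rw [Finset.prod_ne_zero_iff]
      intro j _
      have := E_cast a b h t ht1 i j
      unfold E
      omega
    · have hE : ∀ i j : Fin k, E a b t i j ≤ X ^ (2 * A + 2) := by
        intro i j
        have hj := h.lt j
        unfold E
        calc a i * a j * t + a i * b j - a j * b i ≤ a i * a j * t + a i * b j := Nat.sub_le _ _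
          _ ≤ X ^ A * X ^ A * X + X ^ A * X ^ A := by
              apply Nat.add_le_add
              · exact Nat.mul_le_mul (Nat.mul_le_mul (hA i) (hA j)) htX
              · exact Nat.mul_le_mul (hA i) (hj.2.le.trans (hA j))
          _ = X ^ (2 * A) * (X + 1) := by ring
          _ ≤ X ^ (2 * A) * X ^ 2 := by
              apply Nat.mul_le_mul_left
              nlinarith
          _ = X ^ (2 * A + 2) := by ring
      have hF : ∏ i : Fin k, ∏ j : Fin k, E a b t i j ≤ X ^ ((2 * A + 2) * k ^ 2) := by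
        calc ∏ i : Fin k, ∏ j : Fin k, E a b t i j ≤ ∏ _i : Fin k, ∏ _j : Fin k, X ^ (2 * A + 2) :=
              Finset.prod_le_prod' (fun i _ => Finset.prod_le_prod' (fun j _ => hE i j))
          _ = X ^ ((2 * A + 2) * k ^ 2) := by
              simp only [Finset.prod_const, Finset.card_univ, Fintype.card_fin]
              rw [← pow_mul, ← pow_mul]
              congr 1
              ring
      have hFpos : 0 < ∏ i : Fin k, ∏ j : Fin k, E a b t i j := by
        apply Finset.prod_pos
        intro i _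
        apply Finset.prod_pos
        intro j _
        have := E_cast a b h t ht1 i j
        unfold E
        omega
      have h3 : Real.log ((∏ i : Fin k, ∏ j : Fin k, E a b t i j : ℕ) : ℝ) ≤
          Real.log (((X ^ ((2 * A + 2) * k ^ 2) : ℕ)) : ℝ) :=
        Real.log_le_log (by exact_mod_cast hFpos) (by exact_mod_cast hF)
      refine h3.trans ?_
      push_cast
      rw [Real.log_pow]
      push_cast
      nlinarith
    · rintro p hp htp ⟨m, ⟨i, hi⟩, ⟨j, hj⟩⟩
      have hE : p ∣ E a b t i j := by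
        have hlt := E_cast a b h t ht1 i j
        have e1 : (p : ℤ) ∣ a i * (m : ℤ) + b i := by exact_mod_cast Int.natCast_dvd_natCast.2 hi
        have e2 : (p : ℤ) ∣ a j * ((m : ℤ) + t) + b j := by exact_mod_cast Int.natCast_dvd_natCast.2 hj
        have e3 : ((E a b t i j : ℕ) : ℤ) = a i * (a j * ((m : ℤ) + t) + b j) - a j * (a i * (m : ℤ) + b i) := by
          unfold E
          rw [Nat.cast_sub hlt.le]
          push_cast
          ring
        have e4 : (p : ℤ) ∣ ((E a b t i j : ℕ) : ℤ) := by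
          rw [e3]
          exact dvd_sub (e2.mul_left _) (e1.mul_left _)
        exact Int.natCast_dvd_natCast.1 e4
      exact (hE.trans (Finset.dvd_prod_of_mem _ (mem_univ j))).trans
        (Finset.dvd_prod_of_mem (fun i => ∏ j : Fin k, E a b t i j) (mem_univ i))

/-- every `a i * m + b i` has at most `(2 A + 1) r` prime factors, all of them larger than
`X ^ (1 / r)` -/
def Good (a b : Fin k → ℕ) (A r X m : ℕ) : Prop :=
  ∀ i, (a i * m + b i).primeFactorsList.length ≤ (2 * A + 1) * r ∧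
    ∀ p : ℕ, p.Prime → p ∣ a i * m + b i → (X : ℝ) ^ (1 / (r : ℝ)) < (p : ℝ)

lemma sf_Good (A r : ℕ) (hr : 1 ≤ r) : ∀ᶠ X : ℕ in atTop, ∀ a b : Fin k → ℕ, Adm a b →
    (∀ i, a i ≤ X ^ A) → ∀ m : ℕ, m ≤ X ^ A →
    (Sf (QF a b) ⌊(X : ℝ) ^ (1 / (r : ℝ))⌋₊ m ↔ Good a b A r X m) := by
  have hr0 : (r : ℝ) ≠ 0 := by exact_mod_cast (by omega : r ≠ 0)
  have hrpos : (0 : ℝ) < r := by exact_mod_cast (by omega : 0 < r)
  have hpow1 : Tendsto (fun X : ℕ => (X : ℝ) ^ (1 / (r : ℝ))) atTop atTop :=
    (tendsto_rpow_atTop (by positivity)).comp tendsto_natCast_atTop_atTop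
  filter_upwards [hpow1.eventually_ge_atTop 1, eventually_ge_atTop 2] with X hX hX2
  intro a b h hA m hm
  have hXpos : (0 : ℝ) < X := by exact_mod_cast (by omega : 0 < X)
  have hX2' : (2 : ℝ) ≤ X := by exact_mod_cast hX2
  have h1 : ((X : ℝ) ^ (1 / (r : ℝ))) ^ r = X := by
    rw [← Real.rpow_natCast, ← Real.rpow_mul hXpos.le, one_div_mul_cancel hr0, Real.rpow_one]
  have hval : ∀ i, ((a i * m + b i : ℕ) : ℝ) ≤
      ((X : ℝ) ^ (1 / (r : ℝ))) ^ ((2 * A + 1) * r + 1) := by
    intro i
    have hb := h.lt i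
    have h2 : a i * m + b i ≤ X ^ (2 * A + 1) := by
      calc a i * m + b i ≤ X ^ A * X ^ A + X ^ A * X ^ A := by
            apply Nat.add_le_add
            · exact Nat.mul_le_mul (hA i) hm
            · calc b i ≤ X ^ A := hb.2.le.trans (hA i)
                _ = X ^ A * 1 := (mul_one _).symm
                _ ≤ X ^ A * X ^ A := Nat.mul_le_mul_left _ (Nat.one_le_pow _ _ (by omega))
        _ = X ^ (2 * A) * 2 := by ring
        _ ≤ X ^ (2 * A) * X := Nat.mul_le_mul_left _ hX2
        _ = X ^ (2 * A + 1) := by ring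
    have h3 : ((a i * m + b i : ℕ) : ℝ) ≤ (X : ℝ) ^ (2 * A + 1) := by exact_mod_cast h2
    refine h3.trans ?_
    have h4 : ((X : ℝ) ^ (1 / (r : ℝ))) ^ ((2 * A + 1) * r) = (X : ℝ) ^ (2 * A + 1) := by
      rw [mul_comm (2 * A + 1) r, pow_mul, h1]
    rw [pow_succ ((X : ℝ) ^ (1 / (r : ℝ))), h4]
    have h5 : (0 : ℝ) < (X : ℝ) ^ (2 * A + 1) := by positivity
    nlinarith
  constructor
  · intro hS i
    have hb := h.lt i
    have h3 : ∀ p : ℕ, p.Prime → p ∣ a i * m + b i → (X : ℝ) ^ (1 / (r : ℝ)) < (p : ℝ) := by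
      intro p hp hd
      apply not_mem_pz hp
      intro hmem
      exact hS p hmem ⟨i, hd⟩
    exact ⟨length_le _ _ (by omega) _ h3 (hval i) hX, h3⟩
  · intro hG p hp hq
    obtain ⟨i, hi⟩ := hq
    have hpp := (mem_pz.1 hp).2
    have h2 := (hG i).2 p hpp hi
    have h4 := mem_pz' (by positivity) hp
    linarith

open Classical in
lemma V_QF (a b : Fin k → ℕ) (y : ℕ) : Vq (QF a b) y =
    ∏ p ∈ (Finset.range (y + 1)).filter Nat.Prime,
      (1 - (((Finset.range p).filter (fun m => ∃ i, p ∣ a i * m + b i)).card : ℝ) / (p : ℝ)) := by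
  unfold Vq
  have h1 : ∀ p ∈ pz y, (1 - (nuB (QF a b) p : ℝ) / p) =
      (1 - (((Finset.range p).filter (fun m => ∃ i, p ∣ a i * m + b i)).card : ℝ) / (p : ℝ)) := by
    intro p _
    have h2 : nuB (QF a b) p = ((Finset.range p).filter (fun m => ∃ i, p ∣ a i * m + b i)).card := by
      unfold nuB
      exact congrArg Finset.card (Finset.filter_congr (fun _ _ => Iff.rfl))
    rw [h2]
  rw [Finset.prod_congr rfl h1]
  apply Finset.prod_congr _ (fun _ _ => rfl)
  ext p
  simp only [mem_filter, mem_pz, mem_range]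
  constructor
  · rintro ⟨a, b⟩
    exact ⟨by omega, b⟩
  · rintro ⟨a, b⟩
    exact ⟨by omega, b⟩

end Pool.Agent.Y859.SP.Frm
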