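import Pool.Agent.Y859.SP.UnifU

set_option autoImplicit false

/-!
# Comparison of sieve densities
-/

namespace Pool.Agent.Y859.SP

open Finset Filter
open Pool.Agent.W123.RP Pool.Agent.H373R2.T7 Pool.Agent.W123.RU
open Pool.Agent.TH464.PW Pool.Agent.TH464.PO

lemma exp_le_one_sub (x : ℝ) (h0 : 0 ≤ x) (h1 : x ≤ 1 / 2) : Real.exp (-(2 * x)) ≤ 1 - x := by
  have h4 : 1 + 2 * x ≤ Real.exp (2 * x) := by
    have := Real.add_one_le_exp (2 * x)
    linarith
  have h5 : 1 ≤ (1 - x) * Real.exp (2 * x) := by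
    have h6 : 1 ≤ (1 - x) * (1 + 2 * x) := by nlinarith
    exact h6.trans (mul_le_mul_of_nonneg_left h4 (by linarith))
  rw [Real.exp_neg, inv_eq_one_div, div_le_iff₀ (Real.exp_pos _)]
  exact h5

/-- comparison with a fixed system `Q1` of dimension one -/
theorem V_cmp (k : ℕ) (Q1 : ℕ → ℕ → Prop) (hQ1 : PerB Q1 k)
    (v Cv : ℝ) (hv : 0 < v) (hCv : 0 < Cv)
    (hV1 : ∀ y : ℕ, 3 ≤ y → v / Real.log y ≤ Vq Q1 y ∧ Vq Q1 y ≤ Cv / Real.log y)
    (Q : ℕ → ℕ → Prop) (E : ℕ) (hE0 : E ≠ 0)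
    (hcmp : ∀ p : ℕ, p.Prime → ¬ p ∣ E → nuB Q1 p ≤ nuB Q p) (z y : ℕ) (hz3 : 3 ≤ z)
    (hzk : 2 * k ≤ z) (hzy : z ≤ y) (hEz : Real.log E ≤ z) :
    Vq Q y ≤ (Cv / v * Real.exp (4 * k)) * (Real.log z / Real.log y) := by
  have hz0 : (0 : ℝ) < z := by exact_mod_cast (by omega : 0 < z)
  have hlz : 0 < Real.log z := Real.log_pos (by exact_mod_cast (by omega : 1 < z))
  have hly : 0 < Real.log y := Real.log_pos (by exact_mod_cast (by omega : 1 < y))
  obtain ⟨P, hP⟩ : ∃ P : ℝ, P = ∏ p ∈ (pz y).filter (fun p => z < p ∧ p ∣ E),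
    (1 - (nuB Q1 p : ℝ) / p) := ⟨_, rfl⟩
  have hprod : Vq Q y * (Vq Q1 z * P) ≤ Vq Q1 y := by
    have e1 : Vq Q1 z = ∏ p ∈ (pz y).filter (fun p => p ≤ z), (1 - (nuB Q1 p : ℝ) / p) := by
      unfold Vq
      apply Finset.prod_congr _ (fun _ _ => rfl)
      ext p
      rw [mem_filter, mem_pz, mem_pz]
      constructor
      · rintro ⟨h1, h2⟩
        exact ⟨⟨by omega, h2⟩, h1⟩
      · rintro ⟨⟨_, h2⟩, h1⟩
        exact ⟨h1, h2⟩
    rw [e1, hP, Finset.prod_filter, Finset.prod_filter, ← Finset.prod_mul_distrib]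
    unfold Vq
    rw [← Finset.prod_mul_distrib]
    apply Finset.prod_le_prod
    · intro p hp
      have h3 := one_sub_nonneg Q p (mem_pz.1 hp).2
      have h4 := one_sub_nonneg Q1 p (mem_pz.1 hp).2
      apply mul_nonneg h3
      split_ifs <;> positivity
    · intro p hp
      have hpp := (mem_pz.1 hp).2
      have h3 := one_sub_nonneg Q p hpp
      have h4 := one_sub_nonneg Q1 p hpp
      have h5 : 1 - (nuB Q p : ℝ) / p ≤ 1 := by
        have : 0 ≤ (nuB Q p : ℝ) / p := by positivity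
        linarith
      by_cases ha : p ≤ z
      · rw [if_pos ha, if_neg (by omega), mul_one]
        nlinarith
      · rw [if_neg ha]
        by_cases hb : p ∣ E
        · rw [if_pos ⟨by omega, hb⟩, one_mul]
          nlinarith
        · rw [if_neg (fun h => hb h.2), mul_one, mul_one]
          have h6 : (nuB Q1 p : ℝ) ≤ nuB Q p := by exact_mod_cast hcmp p hpp hb
          have hp0 : (0 : ℝ) < p := by exact_mod_cast hpp.pos
          have h7 : (nuB Q1 p : ℝ) / p ≤ (nuB Q p : ℝ) / p := by gcongr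
          linarith
  have hPlow : Real.exp (-(4 * k)) ≤ P := by
    have hcard : (((pz y).filter (fun p => z < p ∧ p ∣ E)).card : ℝ) ≤ 2 * z := by
      have h3 := card_le_log ((pz y).filter (fun p => z < p ∧ p ∣ E)) E hE0 (fun p hp => by
        rw [mem_filter, mem_pz] at hp
        exact ⟨hp.1.2, hp.2.2⟩)
      have h4 := Real.log_two_gt_d9
      have h5 : (0 : ℝ) ≤ (((pz y).filter (fun p => z < p ∧ p ∣ E)).card : ℝ) := Nat.cast_nonneg _
      nlinarith
    have hk0 : (0 : ℝ) ≤ k := Nat.cast_nonneg k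
    calc Real.exp (-(4 * k)) ≤
        Real.exp (-(2 * ((k : ℝ) / z))) ^ ((pz y).filter (fun p => z < p ∧ p ∣ E)).card := by
          rw [← Real.exp_nat_mul]
          apply Real.exp_le_exp.2
          have h1 : (((pz y).filter (fun p => z < p ∧ p ∣ E)).card : ℝ) * (2 * ((k : ℝ) / z)) ≤
              2 * z * (2 * ((k : ℝ) / z)) := mul_le_mul_of_nonneg_right hcard (by positivity)
          have h2 : 2 * (z : ℝ) * (2 * ((k : ℝ) / z)) = 4 * k := by
            field_simp
            ring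
          linarith
      _ = ∏ p ∈ (pz y).filter (fun p => z < p ∧ p ∣ E), Real.exp (-(2 * ((k : ℝ) / z))) := by
          rw [Finset.prod_const]
      _ ≤ P := by
          rw [hP]
          apply Finset.prod_le_prod
          · intro p _
            exact (Real.exp_pos _).le
          · intro p hp
            rw [mem_filter] at hp
            have hpp := (mem_pz.1 hp.1).2
            have hzp : (z : ℝ) ≤ p := by exact_mod_cast hp.2.1.le
            have hp0 : (0 : ℝ) < p := by linarith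
            have hnk : (nuB Q1 p : ℝ) ≤ k := by exact_mod_cast hQ1.few p hpp
            have h6 : (nuB Q1 p : ℝ) / p ≤ (k : ℝ) / z := by gcongr
            have h7 : (k : ℝ) / z ≤ 1 / 2 := by
              rw [div_le_div_iff₀ hz0 (by norm_num)]
              have : ((2 * k : ℕ) : ℝ) ≤ z := by exact_mod_cast hzk
              push_cast at this
              linarith
            have h8 : 0 ≤ (nuB Q1 p : ℝ) / p := by positivity
            calc Real.exp (-(2 * ((k : ℝ) / z))) ≤ Real.exp (-(2 * ((nuB Q1 p : ℝ) / p))) := by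
                  apply Real.exp_le_exp.2
                  linarith
              _ ≤ 1 - (nuB Q1 p : ℝ) / p := exp_le_one_sub _ h8 (h6.trans h7)
  have hz1 := (hV1 z hz3).1
  have hy1 := (hV1 y (by omega)).2
  have hVq0 : 0 ≤ Vq Q y := Vq_nonneg Q y
  have h3 : Vq Q y * (v / Real.log z * Real.exp (-(4 * k))) ≤ Cv / Real.log y := by
    have hP0 : 0 ≤ P := (Real.exp_pos _).le.trans hPlow
    calc Vq Q y * (v / Real.log z * Real.exp (-(4 * k))) ≤ Vq Q y * (Vq Q1 z * P) := by
          apply mul_le_mul_of_nonneg_left _ hVq0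
          exact mul_le_mul hz1 hPlow (Real.exp_pos _).le (by
            have : 0 < v / Real.log z := by positivity
            linarith)
      _ ≤ Vq Q1 y := hprod
      _ ≤ Cv / Real.log y := hy1
  have he : Real.exp (-(4 * (k : ℝ))) * Real.exp (4 * k) = 1 := by rw [← Real.exp_add]; simp
  have e5 : Vq Q y = Vq Q y * (v / Real.log z * Real.exp (-(4 * k))) *
      (Real.exp (4 * k) * (Real.log z / v)) := by
    have : v / Real.log z * Real.exp (-(4 * (k : ℝ))) * (Real.exp (4 * k) * (Real.log z / v)) =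
        (Real.exp (-(4 * (k : ℝ))) * Real.exp (4 * k)) * (v / Real.log z * (Real.log z / v)) := by ring
    rw [mul_assoc, this, he]
    field_simp
  rw [e5]
  calc _ ≤ (Cv / Real.log y) * (Real.exp (4 * k) * (Real.log z / v)) := by gcongr
    _ = _ := by
      field_simp

/-- the density is small at the level `X ^ (1 / r)`, uniformly -/
theorem V_tiny (k : ℕ) (Q1 : ℕ → ℕ → Prop) (hQ1 : PerB Q1 k)
    (v Cv : ℝ) (hv : 0 < v) (hCv : 0 < Cv)
    (hV1 : ∀ y : ℕ, 3 ≤ y → v / Real.log y ≤ Vq Q1 y ∧ Vq Q1 y ≤ Cv / Real.log y)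
    (C : ℝ) (hC : 0 < C) (B r : ℕ) (hr : 2 ≤ r) : ∀ᶠ X : ℕ in atTop, ∀ Q : ℕ → ℕ → Prop,
      ∀ E : ℕ, E ≠ 0 → Real.log E ≤ C * Real.log X →
      (∀ p : ℕ, p.Prime → ¬ p ∣ E → nuB Q1 p ≤ nuB Q p) →
      Real.log (Real.log X) ^ B * Vq Q ⌊(X : ℝ) ^ (1 / (r : ℝ))⌋₊ ≤ 1 := by
  have hrr : (2 : ℝ) ≤ r := by exact_mod_cast hr
  have hrpos : (0 : ℝ) < r := by linarith
  have hXr : Tendsto (fun X : ℕ => (X : ℝ)) atTop atTop := tendsto_natCast_atTop_atTop
  have hpow2 : Tendsto (fun X : ℕ => (X : ℝ) ^ (1 / (2 * r : ℝ))) atTop atTop :=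
    (tendsto_rpow_atTop (by positivity)).comp hXr
  have hlogX : Tendsto (fun X : ℕ => Real.log (X : ℝ)) atTop atTop :=
    Real.tendsto_log_atTop.comp hXr
  obtain ⟨C0, hC0⟩ : ∃ C0 : ℝ, C0 = Cv / v * Real.exp (4 * k) := ⟨_, rfl⟩
  have hC00 : 0 < C0 := by rw [hC0]; positivity
  have hlo := ((Real.isLittleO_pow_log_id_atTop (n := B + 1)).comp_tendsto hlogX).bound
    (by positivity : (0 : ℝ) < 1 / (C0 * 2 * (2 * r)))
  filter_upwards [hpow2.eventually_ge_atTop 3, eventually_ge_atTop 16,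
    hlogX.eventually_ge_atTop (C + 2 * k + 5), hlo,
    logpow_rpow 2 1 (1 / (2 * r)) one_pos (by positivity)] with X hX1 hX16 hX3 hX4 hX5
  intro Q E hE0 hEL hcmp
  have hk0 : (0 : ℝ) ≤ k := Nat.cast_nonneg k
  obtain ⟨hy1, hy2, hy3, hy4⟩ := level_low r hr X (by omega) (by linarith)
  obtain ⟨y, hy⟩ : ∃ y, y = ⌊(X : ℝ) ^ (1 / (r : ℝ))⌋₊ := ⟨_, rfl⟩
  rw [← hy] at hy1 hy2 hy3 hy4 ⊢
  have hL5 : 5 ≤ Real.log X := by linarith
  have hL0 : 0 < Real.log X := by linarith
  have hly : 0 < Real.log y := lt_of_lt_of_le (by positivity) hy2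
  obtain ⟨z, hz⟩ : ∃ z, z = ⌈C * Real.log X⌉₊ + (2 * k + 3) := ⟨_, rfl⟩
  have hzr : C * Real.log X ≤ z := by
    rw [hz]
    push_cast
    have := Nat.le_ceil (C * Real.log X)
    linarith
  have hz2 : (z : ℝ) ≤ Real.log X ^ 2 := by
    have h4 : (⌈C * Real.log X⌉₊ : ℝ) < C * Real.log X + 1 := Nat.ceil_lt_add_one (by positivity)
    rw [hz]
    push_cast
    nlinarith
  have hzy : z ≤ y := by
    rw [one_mul] at hX5
    have h6 : (z : ℝ) ≤ y := (hz2.trans hX5).trans hy1
    exact_mod_cast h6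
  have hz0 : (0 : ℝ) < z := by exact_mod_cast (by omega : 0 < z)
  have h1 := V_cmp k Q1 hQ1 v Cv hv hCv hV1 Q E hE0 hcmp z y (by omega) (by omega) hzy
    (hEL.trans hzr)
  rw [← hC0] at h1
  have hll : 0 < Real.log (Real.log X) := Real.log_pos (by linarith)
  have hlz : Real.log z ≤ 2 * Real.log (Real.log X) := by
    calc Real.log z ≤ Real.log (Real.log X ^ 2) := Real.log_le_log hz0 hz2
      _ = 2 * Real.log (Real.log X) := by
        rw [Real.log_pow]
        norm_num
  have hX4' : Real.log (Real.log X) ^ (B + 1) ≤ 1 / (C0 * 2 * (2 * r)) * Real.log X := by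
    simp only [Function.comp_def, id] at hX4
    rwa [Real.norm_of_nonneg (by positivity), Real.norm_of_nonneg hL0.le] at hX4
  calc Real.log (Real.log X) ^ B * Vq Q y ≤
      Real.log (Real.log X) ^ B * (C0 * (2 * Real.log (Real.log X) / (Real.log X / (2 * r)))) := by
        apply mul_le_mul_of_nonneg_left _ (by positivity)
        refine h1.trans ?_
        apply mul_le_mul_of_nonneg_left _ hC00.le
        apply div_le_div₀ (by positivity) hlz (by positivity) hy2
    _ = C0 * 2 * (2 * r) * Real.log (Real.log X) ^ (B + 1) / Real.log X := by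
        rw [pow_succ]
        field_simp
    _ ≤ 1 := by
        rw [div_le_one hL0]
        calc C0 * 2 * (2 * r) * Real.log (Real.log X) ^ (B + 1) ≤
            C0 * 2 * (2 * r) * (1 / (C0 * 2 * (2 * r)) * Real.log X) :=
              mul_le_mul_of_nonneg_left hX4' (by positivity)
          _ = Real.log X := by
              field_simp

end Pool.Agent.Y859.SP
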