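import Pool.Agent.Y859.SP.SysU
import Pool.Agent.Y859.SP.VCmp
import Pool.Agent.TH464.PO.QuadAP

set_option autoImplicit false

/-!
# Lines in quadratic orders: the norms `(a₁ m + b₁) ^ 2 - Δ (a₂ m + b₂) ^ 2`
-/

namespace Pool.Agent.Y859.SP.GL

open Polynomial Finset Filter
open Pool.Agent.W123.RP Pool.Agent.H373R2.T7 Pool.Agent.W123.RU Pool.Agent.W123.RU.Poly
open Pool.Agent.TH464.PW Pool.Agent.TH464.PO Pool.Agent.Y859.SP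

/-- the norm of `(a₁ m + b₁) + (a₂ m + b₂) √Δ` -/
def nm (Δ a₁ b₁ a₂ b₂ m : ℤ) : ℤ := (a₁ * m + b₁) ^ 2 - Δ * (a₂ * m + b₂) ^ 2

/-- leading coefficient -/
def ca (Δ a₁ a₂ : ℤ) : ℤ := a₁ ^ 2 - Δ * a₂ ^ 2

/-- the system, with a sign -/
noncomputable def gl (s Δ a₁ b₁ a₂ b₂ : ℤ) : Fin 1 → ℤ[X] :=
  qs (s * ca Δ a₁ a₂) (s * (2 * (a₁ * b₁ - Δ * (a₂ * b₂)))) (s * (b₁ ^ 2 - Δ * b₂ ^ 2))

lemma gl_eval (s Δ a₁ b₁ a₂ b₂ : ℤ) (i : Fin 1) (m : ℤ) :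
    (gl s Δ a₁ b₁ a₂ b₂ i).eval m = s * nm Δ a₁ b₁ a₂ b₂ m := by
  unfold gl qs ca
  rw [quad_eval]
  unfold nm
  ring

lemma gl_Q (s Δ a₁ b₁ a₂ b₂ : ℤ) (hs : IsUnit s) (p m : ℕ) :
    Q (gl s Δ a₁ b₁ a₂ b₂) p m ↔ (p : ℤ) ∣ nm Δ a₁ b₁ a₂ b₂ m := by
  unfold Q
  constructor
  · rintro ⟨i, hi⟩
    rw [gl_eval, hs.dvd_mul_left] at hi
    exact hi
  · intro h
    refine ⟨0, ?_⟩
    rw [gl_eval, hs.dvd_mul_left]
    exact h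

lemma sq_of_eq (Δ x y : ℤ) (hy : y ≠ 0) (h : x ^ 2 = Δ * y ^ 2) : IsSquare Δ := by
  have h1 : y ^ 2 ∣ x ^ 2 := ⟨Δ, by rw [h]; ring⟩
  have h2 : y ∣ x := (Int.pow_dvd_pow_iff (by norm_num)).1 h1
  obtain ⟨w, hw⟩ := h2
  refine ⟨w, ?_⟩
  have h3 : y ^ 2 ≠ 0 := pow_ne_zero 2 hy
  apply mul_right_cancel₀ h3
  rw [← h, hw]
  ring

lemma ca_ne (Δ a₁ b₁ a₂ b₂ : ℤ) (hΔ : ¬ IsSquare Δ) (h : a₁ * b₂ - a₂ * b₁ ≠ 0) : ca Δ a₁ a₂ ≠ 0 := by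
  unfold ca
  intro h0
  by_cases h2 : a₂ = 0
  · have h1 : a₁ = 0 := by
      rw [h2] at h0
      have : a₁ ^ 2 = 0 := by linarith
      exact pow_eq_zero_iff (two_ne_zero) |>.1 this
    apply h
    rw [h1, h2]
    ring
  · exact hΔ (sq_of_eq Δ a₁ a₂ h2 (by linarith))

lemma abs_quad_coeff (a b c : ℤ) (M : ℤ) (ha : |a| ≤ M) (hb : |b| ≤ M) (hc : |c| ≤ M) (j : ℕ) :
    |(quad a b c).coeff j| ≤ M := by
  have hM : 0 ≤ M := (abs_nonneg a).trans ha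
  unfold quad
  rw [coeff_add, coeff_add, coeff_C_mul, coeff_C_mul, coeff_X_pow, coeff_X, coeff_C]
  rcases j with _ | _ | _ | j
  · simpa using hc
  · simpa using hb
  · simpa using ha
  · simpa using hM

/-- a bound for a norm-like combination -/
lemma comb_le (Δ x y z w M : ℤ) (hM : 0 ≤ M) (hx : |x| ≤ M) (hy : |y| ≤ M) (hz : |z| ≤ M)
    (hw : |w| ≤ M) : |x * y - Δ * (z * w)| ≤ (1 + |Δ|) * (M * M) := by
  have h1 : |x * y| ≤ M * M := by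
    rw [abs_mul]
    exact mul_le_mul hx hy (abs_nonneg _) hM
  have h2 : |z * w| ≤ M * M := by
    rw [abs_mul]
    exact mul_le_mul hz hw (abs_nonneg _) hM
  have h3 : |Δ * (z * w)| ≤ |Δ| * (M * M) := by
    rw [abs_mul]
    exact mul_le_mul_of_nonneg_left h2 (abs_nonneg _)
  have h4 := abs_sub (x * y) (Δ * (z * w))
  linarith

/-- the assumptions are satisfied -/
lemma hyp_gl (s Δ : ℤ) (hs : s = 1 ∨ s = -1) (hΔ : ¬ IsSquare Δ) (A X : ℕ)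
    (hX : 2 * (1 + |Δ|) ≤ X) (a₁ b₁ a₂ b₂ : ℤ) (h1 : |a₁| ≤ (X : ℤ) ^ A)
    (h2 : |b₁| ≤ (X : ℤ) ^ A) (h3 : |a₂| ≤ (X : ℤ) ^ A) (h4 : |b₂| ≤ (X : ℤ) ^ A)
    (hdet : a₁ * b₂ - a₂ * b₁ ≠ 0) (hpos : 0 < s * ca Δ a₁ a₂)
    (hadm : ∀ p : ℕ, p.Prime → ∃ m : ℕ, ¬ (p : ℤ) ∣ nm Δ a₁ b₁ a₂ b₂ m) :
    SysU.Hyp (gl s Δ a₁ b₁ a₂ b₂) 2 (2 * A + 1) X := by
  have hsu : IsUnit s := by
    rcases hs with h | h
    · rw [h]; exact isUnit_one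
    · rw [h]; exact isUnit_one.neg
  have hs1 : |s| = 1 := by
    rcases hs with h | h
    · rw [h]; norm_num
    · rw [h]; norm_num
  have hs2 : s * s = 1 := by
    rcases hs with h | h
    · rw [h]; norm_num
    · rw [h]; norm_num
  have hXA : (0 : ℤ) ≤ (X : ℤ) ^ A := by positivity
  have hM : 2 * ((1 + |Δ|) * ((X : ℤ) ^ A * (X : ℤ) ^ A)) ≤ (X : ℤ) ^ (2 * A + 1) := by
    have e : (X : ℤ) ^ (2 * A + 1) = X * ((X : ℤ) ^ A * (X : ℤ) ^ A) := by ring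
    rw [e, ← mul_assoc]
    exact mul_le_mul_of_nonneg_right hX (by positivity)
  have hnn : (0 : ℤ) ≤ (1 + |Δ|) * ((X : ℤ) ^ A * (X : ℤ) ^ A) := by
    have := abs_nonneg Δ
    positivity
  refine ⟨?_, ?_, ?_, ?_, ?_, ?_, ?_⟩
  · intro i
    unfold gl qs
    refine quad_irr _ _ _ hpos.ne' ?_ ?_
    · rintro p hp ⟨g1, g2, g3⟩
      obtain ⟨m, hm⟩ := hadm p hp
      apply hm
      have e : s * nm Δ a₁ b₁ a₂ b₂ m = (s * ca Δ a₁ a₂) * (m : ℤ) ^ 2 +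
          (s * (2 * (a₁ * b₁ - Δ * (a₂ * b₂)))) * m + (s * (b₁ ^ 2 - Δ * b₂ ^ 2)) := by
        unfold nm ca
        ring
      rw [← hsu.dvd_mul_left (a := (p : ℤ)), e]
      exact dvd_add (dvd_add (g1.mul_right _) (g2.mul_right _)) g3
    · rintro ⟨x, hx⟩
      have e : (s * (2 * (a₁ * b₁ - Δ * (a₂ * b₂)))) ^ 2 -
          4 * (s * ca Δ a₁ a₂) * (s * (b₁ ^ 2 - Δ * b₂ ^ 2)) =
          (s * s) * (Δ * (2 * (a₁ * b₂ - a₂ * b₁)) ^ 2) := by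
        unfold ca
        ring
      rw [e, hs2, one_mul] at hx
      exact hΔ (sq_of_eq Δ x (2 * (a₁ * b₂ - a₂ * b₁)) (mul_ne_zero two_ne_zero hdet)
        (by rw [hx]; ring))
  · intro i
    unfold gl qs
    rw [quad_deg _ _ _ hpos.ne']
    norm_num
  · intro i
    unfold gl qs
    rw [quad_deg _ _ _ hpos.ne']
  · intro i
    unfold gl qs
    rw [quad_lead _ _ _ hpos.ne']
    exact hpos
  · intro i j
    unfold gl qs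
    refine (abs_quad_coeff _ _ _ (2 * ((1 + |Δ|) * ((X : ℤ) ^ A * (X : ℤ) ^ A))) ?_ ?_ ?_ j).trans hM
    · rw [abs_mul, hs1, one_mul]
      unfold ca
      have := comb_le Δ a₁ a₁ a₂ a₂ _ hXA h1 h1 h3 h3
      rw [← pow_two, ← pow_two] at this
      linarith
    · rw [abs_mul, hs1, one_mul, abs_mul, abs_of_nonneg (by norm_num : (0 : ℤ) ≤ 2)]
      have := comb_le Δ a₁ b₁ a₂ b₂ _ hXA h1 h2 h3 h4
      linarith
    · rw [abs_mul, hs1, one_mul]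
      have := comb_le Δ b₁ b₁ b₂ b₂ _ hXA h2 h2 h4 h4
      rw [← pow_two, ← pow_two] at this
      linarith
  · intro p hp
    obtain ⟨m, hm⟩ := hadm p hp
    exact ⟨m, fun i => by rw [gl_eval, hsu.dvd_mul_left]; exact hm⟩
  · intro i j t ht _
    exact qs_noTr _ _ _ hpos i j t ht

/-- the roots modulo `p` -/
lemma nuB_cmp (s Δ a₁ b₁ a₂ b₂ : ℤ) (hs : IsUnit s) (p : ℕ) (hp : p.Prime)
    (hE : ¬ p ∣ (ca Δ a₁ a₂ * (a₁ * b₂ - a₂ * b₁)).natAbs) :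
    nuB (Q (qs 1 0 (-Δ))) p ≤ nuB (Q (gl s Δ a₁ b₁ a₂ b₂)) p := by
  classical
  have : Fact p.Prime := ⟨hp⟩
  obtain ⟨a, ha⟩ : ∃ a : ZMod p, a = ((ca Δ a₁ a₂ : ℤ) : ZMod p) := ⟨_, rfl⟩
  obtain ⟨δ, hδ⟩ : ∃ δ : ZMod p, δ = ((a₁ * b₂ - a₂ * b₁ : ℤ) : ZMod p) := ⟨_, rfl⟩
  obtain ⟨e, he⟩ : ∃ e : ZMod p, e = ((a₁ * b₁ - Δ * (a₂ * b₂) : ℤ) : ZMod p) := ⟨_, rfl⟩
  have haδ : a ≠ 0 ∧ δ ≠ 0 := by
    rw [← mul_ne_zero_iff]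
    intro h0
    apply hE
    apply Int.natCast_dvd.1
    rw [← ZMod.intCast_zmod_eq_zero_iff_dvd]
    push_cast
    rw [ha, hδ] at h0
    push_cast at h0
    exact h0
  obtain ⟨ha0, hδ0⟩ := haδ
  unfold nuB
  apply Finset.card_le_card_of_injOn (fun s : ℕ => ((δ * (s : ZMod p) - e) / a).val)
  · intro u hu
    have hu' := mem_filter.1 (Finset.mem_coe.1 hu)
    have hs1 : ((u : ZMod p)) ^ 2 - (Δ : ZMod p) = 0 := by
      have h1 := (qs_Q 1 0 (-Δ) p u).1 hu'.2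
      rw [← ZMod.intCast_zmod_eq_zero_iff_dvd] at h1
      push_cast at h1
      linear_combination h1
    rw [Finset.mem_coe, mem_filter]
    refine ⟨mem_range.2 (ZMod.val_lt _), ?_⟩
    rw [gl_Q _ _ _ _ _ _ hs, ← ZMod.intCast_zmod_eq_zero_iff_dvd]
    unfold nm
    push_cast
    rw [ZMod.natCast_zmod_val]
    apply mul_left_cancel₀ ha0
    rw [mul_zero]
    have hm : a * ((δ * (u : ZMod p) - e) / a) = δ * (u : ZMod p) - e := by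
      field_simp
    obtain ⟨w, hw⟩ : ∃ w : ZMod p, w = (δ * (u : ZMod p) - e) / a := ⟨_, rfl⟩
    rw [← hw] at hm ⊢
    have ha' : a = (a₁ : ZMod p) ^ 2 - (Δ : ZMod p) * (a₂ : ZMod p) ^ 2 := by
      rw [ha]
      unfold ca
      push_cast
      ring
    have hδ' : δ = (a₁ : ZMod p) * b₂ - (a₂ : ZMod p) * b₁ := by
      rw [hδ]
      push_cast
      ring
    have he' : e = (a₁ : ZMod p) * b₁ - (Δ : ZMod p) * ((a₂ : ZMod p) * b₂) := by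
      rw [he]
      push_cast
      ring
    have key : a * (((a₁ : ZMod p) * w + b₁) ^ 2 - (Δ : ZMod p) * ((a₂ : ZMod p) * w + b₂) ^ 2) =
        (a * w + e) ^ 2 - (Δ : ZMod p) * δ ^ 2 := by
      rw [ha', hδ', he']
      ring
    rw [key, hm]
    linear_combination δ ^ 2 * hs1
  · intro u hu u' hu' huu
    have h1 := mem_range.1 (mem_filter.1 (Finset.mem_coe.1 hu)).1
    have h2 := mem_range.1 (mem_filter.1 (Finset.mem_coe.1 hu')).1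
    have h3 := ZMod.val_injective p huu
    have h4 : δ * (u : ZMod p) - e = δ * (u' : ZMod p) - e := by
      have := congrArg (fun x => x * a) h3
      simpa [div_mul_cancel₀ _ ha0] using this
    have h5 : (u : ZMod p) = (u' : ZMod p) := by
      apply mul_left_cancel₀ hδ0
      linear_combination h4
    have h6 := (ZMod.natCast_eq_natCast_iff' u u' p).1 h5
    rwa [Nat.mod_eq_of_lt h1, Nat.mod_eq_of_lt h2] at h6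

/-- the density is small -/
lemma V_gl (Δ : ℤ) (hΔ : ¬ IsSquare Δ) (A B r : ℕ) (hr : 2 ≤ r) : ∀ᶠ X : ℕ in atTop,
    ∀ s a₁ b₁ a₂ b₂ : ℤ, IsUnit s →
    |a₁| ≤ (X : ℤ) ^ A → |b₁| ≤ (X : ℤ) ^ A → |a₂| ≤ (X : ℤ) ^ A → |b₂| ≤ (X : ℤ) ^ A →
    a₁ * b₂ - a₂ * b₁ ≠ 0 →
    Real.log (Real.log X) ^ B * Vq (Q (gl s Δ a₁ b₁ a₂ b₂)) ⌊(X : ℝ) ^ (1 / (r : ℝ))⌋₊ ≤ 1 := by
  have hs : Sys (qs 1 0 (-Δ)) := by
    refine qs_sys 1 0 (-Δ) one_pos ?_ ?_ ?_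
    · rintro p hp ⟨h, -⟩
      have h1 : p ∣ 1 := by exact_mod_cast h
      exact hp.one_lt.ne' (Nat.dvd_one.1 h1)
    · rintro ⟨h, -⟩
      exact absurd h (by decide)
    · rintro ⟨x, hx⟩
      exact hΔ (sq_of_eq Δ x 2 two_ne_zero (by linarith))
  obtain ⟨c, hc, hper⟩ := exists_c (qs 1 0 (-Δ)) hs
  obtain ⟨v, Cv, hv, hCv, hV⟩ := V_bounds (qs 1 0 (-Δ)) hs
  filter_upwards [V_tiny c (Q (qs 1 0 (-Δ))) hper v Cv hv hCv (by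
      intro y hy
      have := hV y hy
      rwa [Fintype.card_fin, pow_one] at this) (4 * A + 2) (by positivity) B r hr,
    eventually_ge_atTop (2 * (1 + Δ.natAbs))] with X hX hX2
  intro s a₁ b₁ a₂ b₂ hsu h1 h2 h3 h4 hdet
  have ha := ca_ne Δ a₁ b₁ a₂ b₂ hΔ hdet
  have hE0 : (ca Δ a₁ a₂ * (a₁ * b₂ - a₂ * b₁)).natAbs ≠ 0 := by
    rw [Int.natAbs_ne_zero]
    exact mul_ne_zero ha hdet
  refine hX (Q (gl s Δ a₁ b₁ a₂ b₂)) _ hE0 ?_ (fun p hp hd => nuB_cmp s Δ a₁ b₁ a₂ b₂ hsu p hp hd)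
  have hX2z : 2 * (1 + |Δ|) ≤ (X : ℤ) := by
    rw [← Int.natCast_natAbs]
    exact_mod_cast hX2
  have hXA : (0 : ℤ) ≤ (X : ℤ) ^ A := by positivity
  have hXX : (0 : ℤ) ≤ (X : ℤ) ^ A * (X : ℤ) ^ A := by positivity
  have hΔ0 := abs_nonneg Δ
  have g1 : |ca Δ a₁ a₂| ≤ (1 + |Δ|) * ((X : ℤ) ^ A * (X : ℤ) ^ A) := by
    unfold ca
    have := comb_le Δ a₁ a₁ a₂ a₂ _ hXA h1 h1 h3 h3
    rwa [← pow_two, ← pow_two] at this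
  have g2 : |a₁ * b₂ - a₂ * b₁| ≤ 2 * ((X : ℤ) ^ A * (X : ℤ) ^ A) := by
    have := comb_le 1 a₁ b₂ a₂ b₁ _ hXA h1 h4 h3 h2
    rw [one_mul, abs_one] at this
    linarith
  have g3 : |ca Δ a₁ a₂ * (a₁ * b₂ - a₂ * b₁)| ≤ (X : ℤ) ^ (4 * A + 2) := by
    rw [abs_mul]
    have hX1 : (1 : ℤ) ≤ X := by linarith
    calc |ca Δ a₁ a₂| * |a₁ * b₂ - a₂ * b₁| ≤
        ((1 + |Δ|) * ((X : ℤ) ^ A * (X : ℤ) ^ A)) * (2 * ((X : ℤ) ^ A * (X : ℤ) ^ A)) :=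
          mul_le_mul g1 g2 (abs_nonneg _) (by positivity)
      _ = (2 * (1 + |Δ|)) * (X : ℤ) ^ (4 * A) := by ring
      _ ≤ (X : ℤ) * (X : ℤ) ^ (4 * A) := mul_le_mul_of_nonneg_right hX2z (by positivity)
      _ = (X : ℤ) ^ (4 * A + 1) := by ring
      _ ≤ (X : ℤ) ^ (4 * A + 2) := pow_le_pow_right₀ hX1 (by omega)
  have g4 : (ca Δ a₁ a₂ * (a₁ * b₂ - a₂ * b₁)).natAbs ≤ X ^ (4 * A + 2) := by
    have : (((ca Δ a₁ a₂ * (a₁ * b₂ - a₂ * b₁)).natAbs : ℕ) : ℤ) ≤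
        ((X ^ (4 * A + 2) : ℕ) : ℤ) := by
      rw [Int.natCast_natAbs]
      push_cast
      exact g3
    exact_mod_cast this
  calc Real.log (((ca Δ a₁ a₂ * (a₁ * b₂ - a₂ * b₁)).natAbs : ℕ) : ℝ) ≤
      Real.log ((X ^ (4 * A + 2) : ℕ) : ℝ) :=
        Real.log_le_log (Nat.cast_pos.2 (Nat.pos_of_ne_zero hE0)) (Nat.cast_le.2 g4)
    _ = (4 * A + 2) * Real.log X := by
        push_cast
        rw [Real.log_pow]
        push_cast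
        ring

/-- at most `4 A r` prime factors, all larger than `X ^ (1 / r)` -/
def Good (Δ a₁ b₁ a₂ b₂ : ℤ) (A r X m : ℕ) : Prop :=
  (nm Δ a₁ b₁ a₂ b₂ m).natAbs.primeFactorsList.length ≤ 4 * A * r ∧
    ∀ p : ℕ, p.Prime → (p : ℤ) ∣ nm Δ a₁ b₁ a₂ b₂ m → (X : ℝ) ^ (1 / (r : ℝ)) < (p : ℝ)

lemma sf_gl (Δ : ℤ) (A r : ℕ) (hr : 1 ≤ r) : ∀ᶠ X : ℕ in atTop, ∀ s a₁ b₁ a₂ b₂ : ℤ, IsUnit s →
    |a₁| ≤ (X : ℤ) ^ A → |b₁| ≤ (X : ℤ) ^ A → |a₂| ≤ (X : ℤ) ^ A → |b₂| ≤ (X : ℤ) ^ A →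
    ∀ m : ℕ, m ≤ X ^ A →
    (Sf (Q (gl s Δ a₁ b₁ a₂ b₂)) ⌊(X : ℝ) ^ (1 / (r : ℝ))⌋₊ m ↔ Good Δ a₁ b₁ a₂ b₂ A r X m) := by
  have hr0 : (r : ℝ) ≠ 0 := by exact_mod_cast (by omega : r ≠ 0)
  have hrpos : (0 : ℝ) < r := by exact_mod_cast (by omega : 0 < r)
  have hpow1 : Tendsto (fun X : ℕ => (X : ℝ) ^ (1 / (r : ℝ))) atTop atTop :=
    (tendsto_rpow_atTop (by positivity)).comp tendsto_natCast_atTop_atTop
  filter_upwards [hpow1.eventually_ge_atTop (4 * (1 + |(Δ : ℝ)|)), eventually_ge_atTop 2] with X hX hX2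
  intro s a₁ b₁ a₂ b₂ hsu h1 h2 h3 h4 m hm
  have hXpos : (0 : ℝ) < X := by exact_mod_cast (by omega : 0 < X)
  have hXz : (1 : ℤ) ≤ X := by exact_mod_cast (by omega : 1 ≤ X)
  have hΔ0 : 0 ≤ |(Δ : ℝ)| := abs_nonneg _
  have hX1A : (1 : ℤ) ≤ (X : ℤ) ^ A := one_le_pow₀ hXz
  have hpow : ((X : ℝ) ^ (1 / (r : ℝ))) ^ r = X := by
    rw [← Real.rpow_natCast, ← Real.rpow_mul hXpos.le, one_div_mul_cancel hr0, Real.rpow_one]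
  have hlin : ∀ x y : ℤ, |x| ≤ (X : ℤ) ^ A → |y| ≤ (X : ℤ) ^ A →
      |x * (m : ℤ) + y| ≤ 2 * ((X : ℤ) ^ A * (X : ℤ) ^ A) := by
    intro x y hx hy
    have hmz : |(m : ℤ)| ≤ (X : ℤ) ^ A := by
      rw [abs_of_nonneg (by positivity)]
      exact_mod_cast hm
    have g1 : |x * (m : ℤ)| ≤ (X : ℤ) ^ A * (X : ℤ) ^ A := by
      rw [abs_mul]
      exact mul_le_mul hx hmz (abs_nonneg _) (by positivity)
    have g2 := abs_add_le (x * (m : ℤ)) y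
    nlinarith
  have hvz : |nm Δ a₁ b₁ a₂ b₂ m| ≤ 4 * (1 + |Δ|) * (X : ℤ) ^ (4 * A) := by
    have g1 := hlin a₁ b₁ h1 h2
    have g2 := hlin a₂ b₂ h3 h4
    have g3 := comb_le Δ _ _ _ _ _ (by positivity) g1 g1 g2 g2
    unfold nm
    rw [← pow_two, ← pow_two] at g3
    refine g3.trans (le_of_eq ?_)
    ring
  have hval : (((nm Δ a₁ b₁ a₂ b₂ m).natAbs : ℕ) : ℝ) ≤
      ((X : ℝ) ^ (1 / (r : ℝ))) ^ (4 * A * r + 1) := by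
    have g4 : (((nm Δ a₁ b₁ a₂ b₂ m).natAbs : ℕ) : ℝ) ≤ 4 * (1 + |(Δ : ℝ)|) * (X : ℝ) ^ (4 * A) := by
      have g5 := (Int.cast_le (R := ℝ)).2 hvz
      rw [Nat.cast_natAbs]
      push_cast at g5 ⊢
      exact g5
    refine g4.trans ?_
    have h5 : ((X : ℝ) ^ (1 / (r : ℝ))) ^ (4 * A * r) = (X : ℝ) ^ (4 * A) := by
      rw [mul_comm (4 * A) r, pow_mul, hpow]
    rw [pow_succ ((X : ℝ) ^ (1 / (r : ℝ))), h5, mul_comm]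
    exact mul_le_mul_of_nonneg_left hX (by positivity)
  have h2X : 2 ≤ (X : ℝ) ^ (1 / (r : ℝ)) := by linarith
  constructor
  · intro hS
    have h3 : ∀ p : ℕ, p.Prime → (p : ℤ) ∣ nm Δ a₁ b₁ a₂ b₂ m → (X : ℝ) ^ (1 / (r : ℝ)) < (p : ℝ) := by
      intro p hp hd
      apply not_mem_pz hp
      intro hmem
      exact hS p hmem ((gl_Q _ _ _ _ _ _ hsu p m).2 hd)
    have h4 : (nm Δ a₁ b₁ a₂ b₂ m).natAbs ≠ 0 := by
      intro h0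
      rw [Int.natAbs_eq_zero] at h0
      have h5 := h3 2 Nat.prime_two (h0 ▸ dvd_zero _)
      have h6 : ((2 : ℕ) : ℝ) = 2 := by norm_num
      rw [h6] at h5
      linarith
    exact ⟨length_le _ _ h4 _ (fun p hp hd => h3 p hp (Int.natCast_dvd.2 hd)) hval (by linarith), h3⟩
  · intro hG p hp hq
    have hpp := (mem_pz.1 hp).2
    have h2 := hG.2 p hpp ((gl_Q _ _ _ _ _ _ hsu p m).1 hq)
    have h4 := mem_pz' (by positivity) hp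
    linarith

open Classical in
/-- the sieve density -/
lemma V_eq (s Δ a₁ b₁ a₂ b₂ : ℤ) (hs : IsUnit s) (y : ℕ) : Vq (Q (gl s Δ a₁ b₁ a₂ b₂)) y =
    ∏ p ∈ (Finset.range (y + 1)).filter Nat.Prime,
      (1 - (((Finset.range p).filter (fun m : ℕ => (p : ℤ) ∣ nm Δ a₁ b₁ a₂ b₂ m)).card : ℝ) /
        (p : ℝ)) := by
  unfold Vq
  have h1 : ∀ p ∈ pz y, (1 - (nuB (Q (gl s Δ a₁ b₁ a₂ b₂)) p : ℝ) / p) =
      (1 - (((Finset.range p).filter (fun m : ℕ => (p : ℤ) ∣ nm Δ a₁ b₁ a₂ b₂ m)).card : ℝ) /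
        (p : ℝ)) := by
    intro p _
    have h2 : nuB (Q (gl s Δ a₁ b₁ a₂ b₂)) p =
        ((Finset.range p).filter (fun m : ℕ => (p : ℤ) ∣ nm Δ a₁ b₁ a₂ b₂ m)).card := by
      unfold nuB
      exact congrArg Finset.card (Finset.filter_congr (fun m _ => gl_Q _ _ _ _ _ _ hs p m))
    rw [h2]
  rw [Finset.prod_congr rfl h1]
  apply Finset.prod_congr _ (fun _ _ => rfl)
  ext p
  simp only [mem_filter, mem_pz, mem_range]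
  constructor
  · rintro ⟨a, b⟩
    exact ⟨by omega, b⟩
  · rintro ⟨a, b⟩
    exact ⟨by omega, b⟩

end Pool.Agent.Y859.SP.GL
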