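import Pool.Agent.Y859.SP.Unif

set_option autoImplicit false

/-!
# The conditions of the binary Goldbach problem
-/

namespace Pool.Agent.Y859.SP.Gb

open Finset Filter
open Pool.Agent.W123.RP Pool.Agent.H373R2.T7 Pool.Agent.W123.RU
open Pool.Agent.TH464.PW Pool.Agent.TH464.PO

/-- `p` divides `m` or `N - m` -/
def QG (N p m : ℕ) : Prop := p ∣ m ∨ N % p = m % p

lemma dvd_sub_iff (N p m : ℕ) (h : m ≤ N) : p ∣ N - m ↔ N % p = m % p := by
  rw [← Nat.modEq_iff_dvd' h]
  exact ⟨fun h => h.symm, fun h => h.symm⟩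

open Classical in
lemma nuB_QG (N p : ℕ) (hp : p.Prime) : nuB (QG N) p = if p ∣ N then 1 else 2 := by
  unfold nuB
  have hN : N % p < p := Nat.mod_lt _ hp.pos
  have key : (range p).filter (fun m => QG N p m) = ({0, N % p} : Finset ℕ) := by
    ext m
    rw [mem_filter, mem_range, mem_insert, mem_singleton]
    unfold QG
    constructor
    · rintro ⟨hm, h | h⟩
      · left
        exact Nat.eq_zero_of_dvd_of_lt h hm
      · right
        rw [Nat.mod_eq_of_lt hm] at h
        exact h.symm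
    · rintro (h | h)
      · rw [h]
        exact ⟨hp.pos, Or.inl (dvd_zero _)⟩
      · rw [h]
        exact ⟨hN, Or.inr (Nat.mod_mod _ _).symm⟩
  rw [key]
  split_ifs with h
  · rw [Nat.mod_eq_zero_of_dvd h]
    simp
  · rw [card_insert_of_notMem, card_singleton]
    rw [mem_singleton]
    intro h0
    exact h (Nat.dvd_of_mod_eq_zero h0.symm)

lemma perB_QG (N : ℕ) : PerB (QG N) 2 where
  per := by
    intro p n
    unfold QG
    rw [Nat.mod_mod]
    have : p ∣ n ↔ p ∣ n % p := (Nat.dvd_mod_iff dvd_rfl).symm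
    rw [this]
  few := by
    intro p hp
    classical
    rw [nuB_QG N p hp]
    split_ifs <;> omega

lemma adm_QG (N : ℕ) (hN : Even N) (p : ℕ) (hp : p.Prime) : nuB (QG N) p < p := by
  classical
  rw [nuB_QG N p hp]
  have h2 := hp.two_le
  split_ifs with h
  · omega
  · rcases Nat.lt_or_ge 2 p with h3 | h3
    · exact h3
    · exfalso
      have : p = 2 := by omega
      rw [this] at h
      exact h hN.two_dvd

lemma ctl_QG : ∀ᶠ N : ℕ in atTop, Even N → Ctl (QG N) 2 3 (Real.log N) := by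
  filter_upwards [logpow_rpow 3 2 1 two_pos one_pos, eventually_ge_atTop 3] with N h1 hN3 hN
  have hNr : (3 : ℝ) ≤ N := by exact_mod_cast hN3
  have hL : 0 < Real.log N := Real.log_pos (by linarith)
  rw [Real.rpow_one] at h1
  refine ⟨perB_QG N, adm_QG N hN, ⟨N, by omega, by linarith, ?_⟩, ?_⟩
  · intro p hp hd
    classical
    rw [nuB_QG N p hp, if_neg hd]
  · intro t ht1 ht2
    have htN : (2 * t : ℝ) ≤ N := by
      rw [show 2 + 1 = 3 from rfl] at ht2
      linarith
    have htN' : 2 * t ≤ N := by exact_mod_cast htN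
    refine ⟨(N - t) * (N + t), ?_, ?_, ?_⟩
    · apply Nat.mul_ne_zero <;> omega
    · have h2 : (((N - t) * (N + t) : ℕ) : ℝ) ≤ (N : ℝ) ^ 3 := by
        have h3 : (N - t) * (N + t) ≤ N ^ 3 := by
          calc (N - t) * (N + t) ≤ N * (N + N) := Nat.mul_le_mul (Nat.sub_le _ _) (by omega)
            _ = 2 * (N * N) := by ring
            _ ≤ N * (N * N) := Nat.mul_le_mul_right _ (by omega)
            _ = N ^ 3 := by ring
        exact_mod_cast h3
      calc Real.log (((N - t) * (N + t) : ℕ) : ℝ) ≤ Real.log ((N : ℝ) ^ 3) := by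
            apply Real.log_le_log _ h2
            have : 0 < (N - t) * (N + t) := Nat.mul_pos (by omega) (by omega)
            exact_mod_cast this
        _ = 3 * Real.log N := by
            rw [Real.log_pow]
            norm_num
    · rintro p hp htp ⟨m, h | h, h' | h'⟩
      · exfalso
        have h2 : p ∣ t := (Nat.dvd_add_right h).1 h'
        exact absurd (Nat.le_of_dvd (by omega) h2) (by omega)
      · -- `p ∣ m`, `N ≡ m + t`
        apply Dvd.dvd.mul_right
        rw [dvd_sub_iff N p t (by omega), h', Nat.add_mod, Nat.mod_eq_zero_of_dvd h, zero_add,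
          Nat.mod_mod]
      · apply Dvd.dvd.mul_left
        have h2 : (m + t) % p = 0 := Nat.mod_eq_zero_of_dvd h'
        apply Nat.dvd_of_mod_eq_zero
        rw [Nat.add_mod, h, ← Nat.add_mod, h2]
      · exfalso
        have h2 : (m + t) % p = (m + 0) % p := by rw [← h', h, add_zero]
        have h3 : t % p = 0 % p := Nat.ModEq.add_left_cancel' m h2
        rw [Nat.zero_mod, Nat.mod_eq_of_lt htp] at h3
        omega

/-- `0 < m < N`, and `m` and `N - m` have at most `r` prime factors each, all of them larger than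
`N ^ (1 / r)` -/
def Rep (r N m : ℕ) : Prop :=
  0 < m ∧ m < N ∧ m.primeFactorsList.length ≤ r ∧ (N - m).primeFactorsList.length ≤ r ∧
    ∀ p : ℕ, p.Prime → p ∣ m * (N - m) → (N : ℝ) ^ (1 / (r : ℝ)) < (p : ℝ)

lemma sf_Rep (r : ℕ) (hr : 1 ≤ r) : ∀ᶠ N : ℕ in atTop, ∀ m : ℕ, m ≤ N →
    (Sf (QG N) ⌊(N : ℝ) ^ (1 / (r : ℝ))⌋₊ m ↔ Rep r N m) := by
  have hr0 : (r : ℝ) ≠ 0 := by exact_mod_cast (by omega : r ≠ 0)
  have hrpos : (0 : ℝ) < r := by exact_mod_cast (by omega : 0 < r)
  have hpow1 : Tendsto (fun N : ℕ => (N : ℝ) ^ (1 / (r : ℝ))) atTop atTop :=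
    (tendsto_rpow_atTop (by positivity)).comp tendsto_natCast_atTop_atTop
  filter_upwards [hpow1.eventually_ge_atTop 2, eventually_ge_atTop 1] with N hN hN1
  intro m hm
  have hNpos : (0 : ℝ) < N := by exact_mod_cast (by omega : 0 < N)
  have hN1' : (1 : ℝ) ≤ N := by exact_mod_cast hN1
  have hpow : (N : ℝ) ≤ ((N : ℝ) ^ (1 / (r : ℝ))) ^ (r + 1) := by
    have h1 : ((N : ℝ) ^ (1 / (r : ℝ))) ^ r = N := by
      rw [← Real.rpow_natCast, ← Real.rpow_mul hNpos.le, one_div_mul_cancel hr0, Real.rpow_one]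
    rw [pow_succ, h1]
    nlinarith
  have hmr : (m : ℝ) ≤ N := by exact_mod_cast hm
  have h2mem : 2 ∈ pz ⌊(N : ℝ) ^ (1 / (r : ℝ))⌋₊ := by
    rw [mem_pz]
    exact ⟨Nat.le_floor (by exact_mod_cast hN), Nat.prime_two⟩
  constructor
  · intro h
    have hm0 : 0 < m := by
      rcases Nat.eq_zero_or_pos m with h0 | h0
      · exfalso
        apply h 2 h2mem
        left
        rw [h0]
        exact dvd_zero _
      · exact h0
    have hmN : m < N := by
      rcases Nat.lt_or_ge m N with h0 | h0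
      · exact h0
      · exfalso
        apply h 2 h2mem
        right
        rw [le_antisymm hm h0]
    have h3 : ∀ p : ℕ, p.Prime → p ∣ m * (N - m) → (N : ℝ) ^ (1 / (r : ℝ)) < (p : ℝ) := by
      intro p hp hd
      apply not_mem_pz hp
      intro hmem
      apply h p hmem
      rcases (hp.dvd_mul).1 hd with h4 | h4
      · exact Or.inl h4
      · exact Or.inr ((dvd_sub_iff N p m hm).1 h4)
    refine ⟨hm0, hmN, ?_, ?_, h3⟩
    · exact length_le _ r (by omega) _ (fun p hp hd => h3 p hp (hd.mul_right _))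
        (hmr.trans hpow) (by linarith)
    · refine length_le _ r (by omega) _ (fun p hp hd => h3 p hp (hd.mul_left _))
        (le_trans ?_ hpow) (by linarith)
      exact_mod_cast Nat.sub_le _ _
  · rintro ⟨-, -, -, -, h3⟩ p hp hq
    have hpp := (mem_pz.1 hp).2
    have h1 : p ∣ m * (N - m) := by
      rcases hq with h4 | h4
      · exact h4.mul_right _
      · exact ((dvd_sub_iff N p m hm).2 h4).mul_left _
    have h2 := h3 p hpp h1
    have h4 := mem_pz' (by positivity) hp
    linarith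

open Classical in
lemma V_QG (N y : ℕ) : Vq (QG N) y = ∏ p ∈ (Finset.range (y + 1)).filter Nat.Prime,
    (1 - (if p ∣ N then 1 else 2) / (p : ℝ)) := by
  unfold Vq
  have h1 : ∀ p ∈ pz y, (1 - (nuB (QG N) p : ℝ) / p) = 1 - (if p ∣ N then 1 else 2) / (p : ℝ) := by
    intro p hp
    rw [nuB_QG N p (mem_pz.1 hp).2]
    split_ifs <;> norm_num
  rw [Finset.prod_congr rfl h1]
  apply Finset.prod_congr _ (fun _ _ => rfl)
  ext p
  simp only [mem_filter, mem_pz, mem_range]
  constructor
  · rintro ⟨a, b⟩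
    exact ⟨by omega, b⟩
  · rintro ⟨a, b⟩
    exact ⟨by omega, b⟩

end Pool.Agent.Y859.SP.Gb
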