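import Pool.Agent.Y859.SP.Gb

set_option autoImplicit false

/-!
# The order of the density
-/

namespace Pool.Agent.Y859.SP.Gb

open Finset Filter
open Pool.Agent.W123.RP Pool.Agent.H373R2.T7 Pool.Agent.W123.RU
open Pool.Agent.TH464.PW Pool.Agent.TH464.PO

lemma one_sub_sum_le (S : Finset ℕ) (f : ℕ → ℝ) (h0 : ∀ p ∈ S, 0 ≤ f p) (h1 : ∀ p ∈ S, f p ≤ 1) :
    1 - ∑ p ∈ S, f p ≤ ∏ p ∈ S, (1 - f p) := by
  classical
  induction S using Finset.induction_on with
  | empty => simp
  | insert a S ha ih =>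
    rw [sum_insert ha, prod_insert ha]
    have ih' := ih (fun p hp => h0 p (mem_insert_of_mem hp)) (fun p hp => h1 p (mem_insert_of_mem hp))
    have ha0 := h0 a (mem_insert_self _ _)
    have ha1 := h1 a (mem_insert_self _ _)
    have hs0 : 0 ≤ ∑ p ∈ S, f p := sum_nonneg (fun p hp => h0 p (mem_insert_of_mem hp))
    have h2 : (1 - f a) * (1 - ∑ p ∈ S, f p) ≤ (1 - f a) * ∏ p ∈ S, (1 - f p) :=
      mul_le_mul_of_nonneg_left ih' (by linarith)
    nlinarith [mul_nonneg ha0 hs0]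

lemma tele (y : ℕ) : (1 / 2 : ℝ) * ((y + 2 : ℝ) / (y + 1)) =
    ∏ n ∈ Finset.Icc 3 (y + 2), (1 - 1 / ((n : ℝ) - 1) ^ 2) := by
  induction y with
  | zero => simp
  | succ y ih =>
    rw [show y + 1 + 2 = (y + 2) + 1 by ring, Finset.prod_Icc_succ_top (by omega), ← ih]
    push_cast
    have h1 : ((y : ℝ) + 1) ≠ 0 := by positivity
    have h2 : ((y : ℝ) + 2) ≠ 0 := by positivity
    have h3 : ((y : ℝ) + 2 + 1 - 1) ≠ 0 := by
      have : ((y : ℝ) + 2 + 1 - 1) = y + 2 := by ring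
      rw [this]
      exact h2
    have h4 : ((y : ℝ) + 1 + 1) ≠ 0 := by positivity
    field_simp
    ring

/-- the product over the odd primes of `1 - 1 / (p - 1) ^ 2` is at least `1 / 2` -/
lemma twin_prod (S : Finset ℕ) (hS : ∀ p ∈ S, 3 ≤ p) :
    (1 / 2 : ℝ) ≤ ∏ p ∈ S, (1 - 1 / ((p : ℝ) - 1) ^ 2) := by
  obtain ⟨y, hy⟩ : ∃ y, y = S.sup id := ⟨_, rfl⟩
  have hsub : S ⊆ Finset.Icc 3 (y + 2) := by
    intro p hp
    rw [Finset.mem_Icc]
    have : p ≤ S.sup id := Finset.le_sup (f := id) hp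
    exact ⟨hS p hp, by omega⟩
  have hfac : ∀ n ∈ Finset.Icc 3 (y + 2), (0 : ℝ) ≤ 1 - 1 / ((n : ℝ) - 1) ^ 2 ∧
      1 - 1 / ((n : ℝ) - 1) ^ 2 ≤ 1 := by
    intro n hn
    rw [Finset.mem_Icc] at hn
    have h3 : (3 : ℝ) ≤ n := by exact_mod_cast hn.1
    have h4 : (1 : ℝ) ≤ ((n : ℝ) - 1) ^ 2 := by nlinarith
    constructor
    · rw [sub_nonneg, div_le_one (by linarith)]
      exact h4
    · have : 0 ≤ 1 / ((n : ℝ) - 1) ^ 2 := by positivity
      linarith
  have h1 : ∏ n ∈ Finset.Icc 3 (y + 2), (1 - 1 / ((n : ℝ) - 1) ^ 2) ≤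
      ∏ p ∈ S, (1 - 1 / ((p : ℝ) - 1) ^ 2) := by
    rw [← Finset.prod_sdiff hsub]
    have h2 : ∏ n ∈ Finset.Icc 3 (y + 2) \ S, (1 - 1 / ((n : ℝ) - 1) ^ 2) ≤ 1 :=
      Finset.prod_le_one (fun n hn => (hfac n (Finset.mem_sdiff.1 hn).1).1)
        (fun n hn => (hfac n (Finset.mem_sdiff.1 hn).1).2)
    have h3 : 0 ≤ ∏ p ∈ S, (1 - 1 / ((p : ℝ) - 1) ^ 2) :=
      Finset.prod_nonneg (fun n hn => (hfac n (hsub hn)).1)
    calc _ ≤ 1 * ∏ p ∈ S, (1 - 1 / ((p : ℝ) - 1) ^ 2) := mul_le_mul_of_nonneg_right h2 h3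
      _ = _ := one_mul _
  refine le_trans ?_ h1
  rw [← tele]
  have : (1 : ℝ) ≤ ((y + 2 : ℝ) / (y + 1)) := by
    rw [le_div_iff₀ (by positivity)]
    linarith
  linarith

lemma totient_real (N : ℕ) : (N.totient : ℝ) = N * ∏ p ∈ N.primeFactors, (1 - 1 / (p : ℝ)) := by
  have h := Nat.totient_eq_mul_prod_factors N
  have h2 : ((N.totient : ℚ) : ℝ) = ((N * ∏ p ∈ N.primeFactors, (1 - (p : ℚ)⁻¹) : ℚ) : ℝ) := by
    rw [h]
  push_cast at h2
  rw [h2]
  congr 1
  apply Finset.prod_congr rfl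
  intro p _
  rw [one_div]

lemma fac_nonneg (p : ℕ) (hp : p.Prime) : (0 : ℝ) < 1 - 1 / (p : ℝ) ∧ 1 - 1 / (p : ℝ) ≤ 1 := by
  have h2 : (2 : ℝ) ≤ p := by exact_mod_cast hp.two_le
  constructor
  · rw [sub_pos, div_lt_one (by linarith)]
    linarith
  · have : 0 ≤ 1 / (p : ℝ) := by positivity
    linarith

open Classical in
/-- `V φ(N) / N` -/
lemma V_mul (N y : ℕ) (hN : 0 < N) :
    Vq (QG N) y * (N.totient / N) =
      (∏ p ∈ pz y, ((1 - (if p ∣ N then 1 else 2) / (p : ℝ)) * (if p ∣ N then 1 - 1 / (p : ℝ) else 1))) *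
        ∏ p ∈ N.primeFactors.filter (fun p => y < p), (1 - 1 / (p : ℝ)) := by
  have hNr : (N : ℝ) ≠ 0 := by exact_mod_cast hN.ne'
  have e1 : (N.totient : ℝ) / N = ∏ p ∈ N.primeFactors, (1 - 1 / (p : ℝ)) := by
    rw [totient_real]
    field_simp
  have e2 : Vq (QG N) y = ∏ p ∈ pz y, (1 - (if p ∣ N then 1 else 2) / (p : ℝ)) := by
    unfold Vq
    apply Finset.prod_congr rfl
    intro p hp
    rw [nuB_QG N p (mem_pz.1 hp).2]
    split_ifs <;> norm_num
  rw [e1, e2, Finset.prod_mul_distrib, mul_assoc]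
  congr 1
  rw [← Finset.prod_filter, ← Finset.prod_filter_mul_prod_filter_not N.primeFactors (fun p => p ≤ y)]
  congr 1
  · apply Finset.prod_congr _ (fun _ _ => rfl)
    ext p
    rw [mem_filter, mem_filter, mem_pz, Nat.mem_primeFactors]
    constructor
    · rintro ⟨⟨a, b, _⟩, d⟩
      exact ⟨⟨d, a⟩, b⟩
    · rintro ⟨⟨a, b⟩, c⟩
      exact ⟨⟨b, c, hN.ne'⟩, a⟩
  · apply Finset.prod_congr _ (fun _ _ => rfl)
    ext p
    simp only [mem_filter, not_le]

open Classical in
/-- **The order of the density.** -/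
theorem V_order : ∃ c C : ℝ, 0 < c ∧ 0 < C ∧ ∀ r : ℕ, 2 ≤ r → ∀ᶠ N : ℕ in atTop, Even N →
    c * (N / (N.totient * Real.log N ^ 2)) ≤ Vq (QG N) ⌊(N : ℝ) ^ (1 / (r : ℝ))⌋₊ ∧
    Vq (QG N) ⌊(N : ℝ) ^ (1 / (r : ℝ))⌋₊ ≤ C * r ^ 2 * (N / (N.totient * Real.log N ^ 2)) := by
  obtain ⟨c, C, hc, hC, hV⟩ := Vz_bounds
  refine ⟨c ^ 2 / 4, 4 * C ^ 2, by positivity, by positivity, ?_⟩
  intro r hr2
  have hrr : (2 : ℝ) ≤ r := by exact_mod_cast hr2
  have hrpos : (0 : ℝ) < r := by linarith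
  have hpow2 : Tendsto (fun X : ℕ => (X : ℝ) ^ (1 / (2 * r : ℝ))) atTop atTop :=
    (tendsto_rpow_atTop (by positivity)).comp tendsto_natCast_atTop_atTop
  filter_upwards [hpow2.eventually_ge_atTop 3, eventually_ge_atTop 16,
    logpow_rpow 1 4 (1 / (2 * r)) (by norm_num) (by positivity)] with N hN1 hN16 hN2 hN
  have hN16r : (16 : ℝ) ≤ N := by exact_mod_cast hN16
  have hNpos : (0 : ℝ) < N := by linarith
  obtain ⟨hy1, hy2, hy3, hy4⟩ := level_low r hr2 N (by omega) (by linarith)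
  obtain ⟨y, hy⟩ : ∃ y, y = ⌊(N : ℝ) ^ (1 / (r : ℝ))⌋₊ := ⟨_, rfl⟩
  rw [← hy] at hy1 hy2 hy3 hy4 ⊢
  have hL0 : 0 < Real.log N := Real.log_pos (by linarith)
  have hlogy : 0 < Real.log y := lt_of_lt_of_le (by positivity) hy2
  have hφ : (0 : ℝ) < N.totient := by exact_mod_cast Nat.totient_pos.2 (by omega : 0 < N)
  obtain ⟨hVz1, hVz2⟩ := hV y hy4
  have hVz0 : 0 < Vz y := lt_of_lt_of_le (by positivity) hVz1
  have key := V_mul N y (by omega)
  -- the small primes
  have hsm_up : ∏ p ∈ pz y, ((1 - (if p ∣ N then 1 else 2) / (p : ℝ)) *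
      (if p ∣ N then 1 - 1 / (p : ℝ) else 1)) ≤ Vz y ^ 2 := by
    unfold Vz
    rw [← Finset.prod_pow]
    apply Finset.prod_le_prod
    · intro p hp
      have hpp := (mem_pz.1 hp).2
      have h1 := fac_nonneg p hpp
      have h2 : (2 : ℝ) ≤ p := by exact_mod_cast hpp.two_le
      split_ifs
      · nlinarith [h1.1]
      · rw [mul_one, sub_nonneg, div_le_one (by linarith)]
        exact h2
    · intro p hp
      split_ifs
      · rw [sq]
      · have h9 : (0 : ℝ) ≤ (1 / p) ^ 2 := by positivity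
        have h8 : (1 - 1 / (p : ℝ)) ^ 2 = 1 - 2 / p + (1 / p) ^ 2 := by ring
        rw [mul_one, h8]
        linarith
  have hsm_lo : Vz y ^ 2 * (1 / 2) ≤ ∏ p ∈ pz y, ((1 - (if p ∣ N then 1 else 2) / (p : ℝ)) *
      (if p ∣ N then 1 - 1 / (p : ℝ) else 1)) := by
    have h1 : (1 / 2 : ℝ) ≤ ∏ p ∈ (pz y).filter (fun p => 3 ≤ p), (1 - 1 / ((p : ℝ) - 1) ^ 2) :=
      twin_prod _ (fun p hp => (mem_filter.1 hp).2)
    calc Vz y ^ 2 * (1 / 2) ≤ Vz y ^ 2 *
          ∏ p ∈ (pz y).filter (fun p => 3 ≤ p), (1 - 1 / ((p : ℝ) - 1) ^ 2) :=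
          mul_le_mul_of_nonneg_left h1 (by positivity)
      _ = ∏ p ∈ pz y, ((1 - 1 / (p : ℝ)) ^ 2 *
          (if 3 ≤ p then (1 - 1 / ((p : ℝ) - 1) ^ 2) else 1)) := by
          rw [Finset.prod_mul_distrib, Finset.prod_filter]
          unfold Vz
          rw [← Finset.prod_pow]
      _ ≤ _ := by
          apply Finset.prod_le_prod
          · intro p hp
            have hpp := (mem_pz.1 hp).2
            apply mul_nonneg (sq_nonneg _)
            split_ifs with h
            · have h3 : (3 : ℝ) ≤ p := by exact_mod_cast h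
              have h4 : (1 : ℝ) ≤ ((p : ℝ) - 1) ^ 2 := by nlinarith
              rw [sub_nonneg, div_le_one (by linarith)]
              exact h4
            · exact zero_le_one
          · intro p hp
            have hpp := (mem_pz.1 hp).2
            have h1 := fac_nonneg p hpp
            have h2 : (2 : ℝ) ≤ p := by exact_mod_cast hpp.two_le
            by_cases hd : p ∣ N
            · rw [if_pos hd, if_pos hd, ← sq]
              have h5 : (if 3 ≤ p then (1 - 1 / ((p : ℝ) - 1) ^ 2) else 1) ≤ 1 := by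
                split_ifs with h
                · have : 0 ≤ 1 / ((p : ℝ) - 1) ^ 2 := by positivity
                  linarith
                · exact le_rfl
              calc _ ≤ (1 - 1 / (p : ℝ)) ^ 2 * 1 := mul_le_mul_of_nonneg_left h5 (sq_nonneg _)
                _ = _ := mul_one _
            · rw [if_neg hd, if_neg hd, mul_one]
              have hp2 : p ≠ 2 := by
                intro h
                rw [h] at hd
                exact hd hN.two_dvd
              have hp3 : 3 ≤ p := by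
                have := hpp.two_le
                omega
              have h3 : (3 : ℝ) ≤ p := by exact_mod_cast hp3
              rw [if_pos hp3]
              apply le_of_eq
              have h6 : (p : ℝ) ≠ 0 := by linarith
              have h7 : (p : ℝ) - 1 ≠ 0 := by linarith
              field_simp
              ring
  -- the large primes
  have hbig0 : 0 ≤ ∏ p ∈ N.primeFactors.filter (fun p => y < p), (1 - 1 / (p : ℝ)) :=
    Finset.prod_nonneg (fun p hp =>
      (fac_nonneg p (Nat.prime_of_mem_primeFactors (mem_filter.1 hp).1)).1.le)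
  have hbig1 : ∏ p ∈ N.primeFactors.filter (fun p => y < p), (1 - 1 / (p : ℝ)) ≤ 1 :=
    Finset.prod_le_one (fun p hp =>
      (fac_nonneg p (Nat.prime_of_mem_primeFactors (mem_filter.1 hp).1)).1.le) (fun p hp =>
      (fac_nonneg p (Nat.prime_of_mem_primeFactors (mem_filter.1 hp).1)).2)
  have hbig2 : (1 / 2 : ℝ) ≤ ∏ p ∈ N.primeFactors.filter (fun p => y < p), (1 - 1 / (p : ℝ)) := by
    have h1 := one_sub_sum_le (N.primeFactors.filter (fun p => y < p)) (fun p => 1 / (p : ℝ))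
      (fun p _ => by positivity) (fun p hp => by
        have h2 := (Nat.prime_of_mem_primeFactors (mem_filter.1 hp).1).two_le
        have h3 : (2 : ℝ) ≤ p := by exact_mod_cast h2
        rw [div_le_one (by linarith)]
        linarith)
    refine le_trans ?_ h1
    have hcard := card_le_log (N.primeFactors.filter (fun p => y < p)) N (by omega) (fun p hp => by
      rw [mem_filter, Nat.mem_primeFactors] at hp
      exact ⟨hp.1.1, hp.1.2.1⟩)
    have h4 := Real.log_two_gt_d9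
    have hyL : 4 * Real.log N ≤ y := by
      rw [pow_one] at hN2
      exact hN2.trans hy1
    have hypos : (0 : ℝ) < y := by linarith
    have h5 : ∑ p ∈ N.primeFactors.filter (fun p => y < p), 1 / (p : ℝ) ≤
        ∑ _p ∈ N.primeFactors.filter (fun p => y < p), 1 / (y : ℝ) := by
      apply Finset.sum_le_sum
      intro p hp
      have : (y : ℝ) ≤ p := by exact_mod_cast (mem_filter.1 hp).2.le
      apply one_div_le_one_div_of_le hypos this
    rw [Finset.sum_const, nsmul_eq_mul] at h5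
    have h6 : (0 : ℝ) ≤ ((N.primeFactors.filter (fun p => y < p)).card : ℝ) := Nat.cast_nonneg _
    have h7 : ((N.primeFactors.filter (fun p => y < p)).card : ℝ) ≤ 2 * Real.log N := by nlinarith
    have h8 : ((N.primeFactors.filter (fun p => y < p)).card : ℝ) * (1 / (y : ℝ)) ≤ 1 / 2 := by
      rw [mul_one_div, div_le_iff₀ hypos]
      linarith
    linarith
  have hV0 : 0 ≤ Vq (QG N) y := Vq_nonneg _ _
  constructor
  · -- lower bound
    have h1 : (c / Real.log y) ^ 2 * (1 / 4) ≤ Vq (QG N) y * (N.totient / N) := by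
      rw [key]
      calc (c / Real.log y) ^ 2 * (1 / 4) ≤ Vz y ^ 2 * (1 / 4) := by gcongr
        _ = (Vz y ^ 2 * (1 / 2)) * (1 / 2) := by ring
        _ ≤ _ := mul_le_mul hsm_lo hbig2 (by norm_num) (le_trans (by positivity) hsm_lo)
    have h2 : c ^ 2 / 4 / Real.log N ^ 2 ≤ (c / Real.log y) ^ 2 * (1 / 4) := by
      rw [div_pow, div_mul_eq_mul_div, mul_one_div]
      apply div_le_div_of_nonneg_left (by positivity) (by positivity)
      exact pow_le_pow_left₀ hlogy.le hy3 2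
    have h3 := h2.trans h1
    calc c ^ 2 / 4 * (N / (N.totient * Real.log N ^ 2)) =
          (c ^ 2 / 4 / Real.log N ^ 2) * (N / N.totient) := by field_simp
      _ ≤ (Vq (QG N) y * (N.totient / N)) * (N / N.totient) :=
          mul_le_mul_of_nonneg_right h3 (by positivity)
      _ = Vq (QG N) y := by field_simp
  · have h1 : Vq (QG N) y * (N.totient / N) ≤ (C / Real.log y) ^ 2 := by
      rw [key]
      calc _ ≤ Vz y ^ 2 * 1 := mul_le_mul hsm_up hbig1 hbig0 (by positivity)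
        _ = Vz y ^ 2 := mul_one _
        _ ≤ _ := by gcongr
    have h2 : (C / Real.log y) ^ 2 ≤ 4 * C ^ 2 * r ^ 2 / Real.log N ^ 2 := by
      rw [div_pow, div_le_div_iff₀ (by positivity) (by positivity)]
      have h3 : Real.log N ≤ 2 * r * Real.log y := by
        rw [div_le_iff₀ (by positivity)] at hy2
        linarith
      calc C ^ 2 * Real.log N ^ 2 ≤ C ^ 2 * (2 * r * Real.log y) ^ 2 := by gcongr
        _ = _ := by ring
    have h3 := h1.trans h2
    calc Vq (QG N) y = (Vq (QG N) y * (N.totient / N)) * (N / N.totient) := by field_simp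
      _ ≤ (4 * C ^ 2 * r ^ 2 / Real.log N ^ 2) * (N / N.totient) :=
          mul_le_mul_of_nonneg_right h3 (by positivity)
      _ = _ := by field_simp

end Pool.Agent.Y859.SP.Gb
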