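import Pool.Agent.TH464.PO.Gen
import Pool.Agent.TH464.PO.PolyExact

set_option autoImplicit false

/-!
# The gap laws for sifted sets of small density

The files `TH464.PO` of the starting library require that there are few collision primes above the
length `T` of the window. Here only the collision primes above `U` matter, where `U` can be as large
as `exp (T ^ c)`: the primes between `T` and `U` are treated on average over the shifts.
-/

namespace Pool.Agent.Y859.SP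

open Finset Filter
open Pool.Agent.H373R2.T7 Pool.Agent.W123.RP Pool.Agent.W123.RU
open Pool.Agent.TH464.PW Pool.Agent.TH464.PO

open Classical in
/-- **Average over the shifts** of the products over the collision primes above `w`. -/
theorem avg_sharp3 (K D w : ℕ) (hw : 1 ≤ w) (η : ℝ) (hη : 0 < η)
    (hKD : (K * D : ℕ) / (w : ℝ) ≤ η) : ∃ T0 B0 : ℕ, 2 ≤ T0 ∧ ∀ T U : ℕ, T0 ≤ T → T ≤ U →
    Real.log U ^ B0 ≤ T →
    ∀ Co : ℕ → ℕ → Prop, Coll Co w D → ∀ y : ℕ, ∀ η' : ℝ, 0 ≤ η' → K * η' ≤ η →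
    (∀ h ∈ Icc 1 T, ∑ p ∈ (pz y).filter (fun p : ℕ => U < p ∧ Co p h), 1 / (p : ℝ) ≤ η') →
    ∑ h ∈ Icc 1 T, ∏ p ∈ (pz y).filter (fun p : ℕ => w < p ∧ Co p h), (1 + (K : ℝ) / p) ≤
      Real.exp η * (Real.exp η + η) * T := by
  obtain ⟨C1, hC1, B, T1, hT1, hlogp⟩ := prod_one_add_le (K * D)
  obtain ⟨T2, hT2⟩ : ∃ T2 : ℕ, C1 * (C1 / η) ^ B / η ≤ T2 := exists_nat_ge _
  refine ⟨max (max T1 T2) 2, B + 1, by omega, ?_⟩
  intro T U hT hTU hUB Co hR y η' hη' hKη hE2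
  have hTT1 : T1 ≤ T := by omega
  have hTT2 : T2 ≤ T := by omega
  have hT2' : 2 ≤ T := by omega
  have hTr : (2 : ℝ) ≤ T := by exact_mod_cast hT2'
  have hU2 : (2 : ℝ) ≤ U := by exact_mod_cast hT2'.trans hTU
  have hlogU : 0 ≤ Real.log (U : ℝ) := Real.log_nonneg (by linarith)
  have hlo : C1 * Real.log (U : ℝ) ^ B ≤ η * T := by
    by_cases hc : C1 / η ≤ Real.log (U : ℝ)
    · rw [div_le_iff₀ hη] at hc
      calc C1 * Real.log (U : ℝ) ^ B ≤ Real.log U * η * Real.log (U : ℝ) ^ B := by gcongr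
        _ = η * Real.log (U : ℝ) ^ (B + 1) := by ring
        _ ≤ η * T := by gcongr
    · rw [not_le] at hc
      have h1 : C1 * Real.log (U : ℝ) ^ B ≤ C1 * (C1 / η) ^ B := by gcongr
      have h2 : (T2 : ℝ) ≤ T := by exact_mod_cast hTT2
      have h3 := hT2.trans h2
      rw [div_le_iff₀ hη] at h3
      linarith
  set PS : Finset ℕ := (pz U).filter (fun p => w < p) with hPS
  have hPSp : ∀ p ∈ PS, p.Prime ∧ w < p := fun p hp => by
    rw [hPS, mem_filter] at hp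
    exact ⟨(mem_pz.1 hp.1).2, hp.2⟩
  -- step 1: split off the primes above U
  have hstep : ∀ h ∈ Icc 1 T, ∏ p ∈ (pz y).filter (fun p : ℕ => w < p ∧ Co p h), (1 + (K : ℝ) / p) ≤
      Real.exp η * ∏ p ∈ PS.filter (fun p : ℕ => Co p h), (1 + (K : ℝ) / p) := by
    intro h hh
    set F := (pz y).filter (fun p : ℕ => w < p ∧ Co p h) with hF
    have hsplit := Finset.prod_filter_mul_prod_filter_not F (fun p => p ≤ U) (fun p => (1 + (K : ℝ) / p))
    rw [← hsplit, mul_comm]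
    apply mul_le_mul
    · -- large primes
      set FL := F.filter (fun p => ¬ p ≤ U) with hFL
      have hsum : ∑ p ∈ FL, 1 / (p : ℝ) ≤ η' := by
        refine le_trans ?_ (hE2 h hh)
        apply Finset.sum_le_sum_of_subset_of_nonneg
        · intro p hp
          rw [hFL, mem_filter, hF, mem_filter] at hp
          rw [mem_filter]
          exact ⟨hp.1.1, not_le.1 hp.2, hp.1.2.2⟩
        · intro p _ _
          positivity
      calc ∏ p ∈ FL, (1 + (K : ℝ) / p) ≤ ∏ p ∈ FL, Real.exp ((K : ℝ) * (1 / p)) := by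
            apply Finset.prod_le_prod
            · intro p _; positivity
            · intro p hp
              have h3 := Real.add_one_le_exp ((K : ℝ) * (1 / p))
              have h4 : (K : ℝ) / p = K * (1 / p) := by ring
              rw [h4]
              linarith
        _ = Real.exp (K * ∑ p ∈ FL, 1 / (p : ℝ)) := by
            rw [← Real.exp_sum, ← Finset.mul_sum]
        _ ≤ Real.exp η := by
            apply Real.exp_le_exp.2
            calc (K : ℝ) * ∑ p ∈ FL, 1 / (p : ℝ) ≤ K * η' := by gcongr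
              _ ≤ η := hKη
    · apply Finset.prod_le_prod_of_subset_of_one_le
      · intro p hp
        rw [mem_filter, hF, mem_filter, mem_pz] at hp
        rw [mem_filter, hPS, mem_filter, mem_pz]
        exact ⟨⟨⟨hp.2, hp.1.1.2⟩, hp.1.2.1⟩, hp.1.2.2⟩
      · intro p _; positivity
      · intro p _ _
        have : 0 ≤ (K : ℝ) / p := by positivity
        linarith
    · exact Finset.prod_nonneg fun p _ => by positivity
    · positivity
  -- step 2: expand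
  have hexp : ∀ h, ∏ p ∈ PS.filter (fun p : ℕ => Co p h), (1 + (K : ℝ) / p) =
      ∑ S ∈ PS.powerset, if ∀ p ∈ S, Co p h then ∏ p ∈ S, ((K : ℝ) / p) else 0 := by
    intro h
    have e1 : ∏ p ∈ PS.filter (fun p : ℕ => Co p h), (1 + (K : ℝ) / p) =
        ∏ p ∈ PS, ((if Co p h then (K : ℝ) / (p : ℝ) else 0) + 1) := by
      rw [Finset.prod_filter]
      apply Finset.prod_congr rfl
      intro p _
      split_ifs
      · ring
      · ring
    rw [e1, Finset.prod_add_one]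
    apply Finset.sum_congr rfl
    intro S _
    by_cases hS : ∀ p ∈ S, Co p h
    · rw [if_pos hS]
      apply Finset.prod_congr rfl
      intro p hp
      rw [if_pos (hS p hp)]
    · rw [if_neg hS]
      push Not at hS
      obtain ⟨p, hp, hpn⟩ := hS
      exact Finset.prod_eq_zero hp (if_neg hpn)
  -- step 3: count
  have hcount : ∀ S ∈ PS.powerset, (((Icc 1 T).filter (fun h => ∀ p ∈ S, Co p h)).card : ℝ) ≤
      T * ∏ p ∈ S, ((D : ℝ) / p) + ∏ _p ∈ S, (D : ℝ) := by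
    intro S hS
    have hSP : ∀ p ∈ S, p.Prime ∧ w < p := fun p hp => hPSp p (Finset.mem_powerset.1 hS hp)
    have hc := count_sys (fun p a => Co p a) T S (fun p hp => (hSP p hp).1) 1 le_rfl
      (fun p hp hd => (hSP p hp).1.one_lt.ne' (Nat.dvd_one.1 hd)) 0
    have hsub : (Icc 1 T).filter (fun h => ∀ p ∈ S, Co p h) ⊆
        (Icc 1 T).filter (fun n => n ≡ 0 [MOD 1] ∧ ∀ p ∈ S, Co p (n % p)) := by
      intro n hn
      rw [mem_filter] at hn ⊢
      exact ⟨hn.1, Nat.modEq_one, fun p hp => (hR.per p n).1 (hn.2 p hp)⟩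
    have h1 : (((Icc 1 T).filter (fun h => ∀ p ∈ S, Co p h)).card : ℝ) ≤
        (((Icc 1 T).filter (fun n => n ≡ 0 [MOD 1] ∧ ∀ p ∈ S, Co p (n % p))).card : ℝ) := by
      exact_mod_cast Finset.card_le_card hsub
    have h2 := (abs_le.1 hc).2
    have h3 : (T : ℝ) / ((1 : ℕ) : ℝ) * ∏ p ∈ S, ((((range p).filter (fun a => Co p a)).card : ℝ) / p) ≤
        T * ∏ p ∈ S, ((D : ℝ) / p) := by
      rw [Nat.cast_one, div_one]
      apply mul_le_mul_of_nonneg_left _ (Nat.cast_nonneg _)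
      apply Finset.prod_le_prod
      · intro p _; positivity
      · intro p hp
        apply div_le_div_of_nonneg_right _ (Nat.cast_nonneg _)
        exact_mod_cast hR.few p (hSP p hp).1 (hSP p hp).2
    have h4 : ∏ p ∈ S, (((range p).filter (fun a => Co p a)).card : ℝ) ≤ ∏ _p ∈ S, (D : ℝ) := by
      apply Finset.prod_le_prod
      · intro p _; positivity
      · intro p hp
        exact_mod_cast hR.few p (hSP p hp).1 (hSP p hp).2
    linarith
  -- step 4: sum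
  have hPST : PS ⊆ pz U := Finset.filter_subset _ _
  have hfin : ∑ h ∈ Icc 1 T, ∏ p ∈ PS.filter (fun p : ℕ => Co p h), (1 + (K : ℝ) / p) ≤
      (Real.exp η + η) * T := by
    simp_rw [hexp]
    rw [Finset.sum_comm]
    have e2 : ∀ S ∈ PS.powerset, ∑ h ∈ Icc 1 T, (if ∀ p ∈ S, Co p h then ∏ p ∈ S, ((K : ℝ) / p) else 0) ≤
        T * ∏ p ∈ S, (((K * D : ℕ) : ℝ) / (p : ℝ) ^ 2) + ∏ p ∈ S, (((K * D : ℕ) : ℝ) / p) := by
      intro S hS
      rw [← Finset.sum_filter, Finset.sum_const, nsmul_eq_mul]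
      have h5 := mul_le_mul_of_nonneg_right (hcount S hS)
        (Finset.prod_nonneg (s := S) (f := fun p : ℕ => (K : ℝ) / p) fun p _ => by positivity)
      refine h5.trans (le_of_eq ?_)
      rw [add_mul, mul_assoc, ← Finset.prod_mul_distrib, ← Finset.prod_mul_distrib]
      congr 1
      · congr 1
        apply Finset.prod_congr rfl
        intro p _
        push_cast
        ring
      · apply Finset.prod_congr rfl
        intro p _
        push_cast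
        ring
    refine (Finset.sum_le_sum e2).trans ?_
    rw [Finset.sum_add_distrib, ← Finset.mul_sum, ← Finset.prod_add_one, ← Finset.prod_add_one]
    have e3 : ∏ p ∈ PS, (((K * D : ℕ) : ℝ) / (p : ℝ) ^ 2 + 1) ≤ Real.exp η := by
      calc ∏ p ∈ PS, (((K * D : ℕ) : ℝ) / (p : ℝ) ^ 2 + 1) =
          ∏ p ∈ PS, (1 + ((K * D : ℕ) : ℝ) / (p : ℝ) ^ 2) :=
            Finset.prod_congr rfl fun p _ => add_comm _ _
        _ ≤ Real.exp (((K * D : ℕ) : ℝ) / w) := prod_sq_tail (K * D) w U hw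
        _ ≤ _ := Real.exp_le_exp.2 hKD
    have e4 : ∏ p ∈ PS, (((K * D : ℕ) : ℝ) / p + 1) ≤ η * T := by
      calc ∏ p ∈ PS, (((K * D : ℕ) : ℝ) / p + 1) =
          ∏ p ∈ PS, (1 + ((K * D : ℕ) : ℝ) / p) :=
            Finset.prod_congr rfl fun p _ => add_comm _ _
        _ ≤ ∏ p ∈ pz U, (1 + ((K * D : ℕ) : ℝ) / p) := by
          apply Finset.prod_le_prod_of_subset_of_one_le hPST
          · intro p _; positivity
          · intro p _ _
            have : 0 ≤ ((K * D : ℕ) : ℝ) / p := by positivity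
            linarith
        _ ≤ C1 * Real.log U ^ B := hlogp U (hTT1.trans hTU)
        _ ≤ η * T := hlo
    have hT0 : (0 : ℝ) ≤ T := Nat.cast_nonneg T
    nlinarith [mul_le_mul_of_nonneg_left e3 hT0]
  calc ∑ h ∈ Icc 1 T, ∏ p ∈ (pz y).filter (fun p : ℕ => w < p ∧ Co p h), (1 + (K : ℝ) / p) ≤
      ∑ h ∈ Icc 1 T, Real.exp η * ∏ p ∈ PS.filter (fun p : ℕ => Co p h), (1 + (K : ℝ) / p) :=
        Finset.sum_le_sum hstep
    _ = Real.exp η * ∑ h ∈ Icc 1 T, ∏ p ∈ PS.filter (fun p : ℕ => Co p h), (1 + (K : ℝ) / p) := by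
        rw [Finset.mul_sum]
    _ ≤ Real.exp η * ((Real.exp η + η) * T) := mul_le_mul_of_nonneg_left hfin (by positivity)
    _ = _ := by ring

open Classical in
/-- **The average of the singular series.** -/
theorem sing_avg3 (c k : ℕ) (η : ℝ) (hη : 0 < η) (hη1 : η ≤ 1) :
    ∃ (w : ℕ) (η' : ℝ) (T0 B0 : ℕ), 0 < η' ∧ ∀ T U : ℕ, T0 ≤ T → T ≤ U → Real.log U ^ B0 ≤ T →
      ∀ Q : ℕ → ℕ → Prop, PerB Q c →
      (∀ p : ℕ, p.Prime → nuB Q p < p) → ∀ y : ℕ, w ≤ y →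
      (∀ t ∈ Icc 1 T, ∑ p ∈ (pz y).filter (fun p : ℕ => U < p ∧ CoG Q p t), 1 / (p : ℝ) ≤ η') →
      (1 - η) * ((T * Vq Q y) ^ (k + 1) / (k + 1).factorial) ≤
        ∑ H ∈ powersetCard (k + 1) (Icc 1 T), Vq (QH Q H) y ∧
      ∑ H ∈ powersetCard (k + 1) (Icc 1 T), Vq (QH Q H) y ≤
        (1 + η) * ((T * Vq Q y) ^ (k + 1) / (k + 1).factorial) := by
  obtain ⟨c1, B, w1, hc1, hw12, hW⟩ := W_low c
  obtain ⟨K, hK⟩ : ∃ K : ℕ, K = (1 + 2 * ((k + 1) * c)) ^ ((k + 1) ^ 2) - 1 := ⟨_, rfl⟩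
  obtain ⟨A, hA⟩ : ∃ A : ℕ, A = 12 * (K * c ^ 2 + 1) * (k + 1).factorial + ((k + 1) * c) ^ 2 :=
    ⟨_, rfl⟩
  obtain ⟨w, hw0, hw2, hAw, hAw'⟩ := exists_w A B (k + 1) c1 (η / 4) hc1 (by positivity)
    (max w1 (2 * ((k + 1) * c)))
  have hww1 : w1 ≤ w := (le_max_left _ _).trans hw0
  have hwc : 2 * ((k + 1) * c) ≤ w := (le_max_right _ _).trans hw0
  have hwr : (0 : ℝ) < w := by exact_mod_cast (by omega : 0 < w)
  obtain ⟨η1, hη1def⟩ : ∃ η1 : ℝ, η1 = ((K * c ^ 2 + 1 : ℕ) : ℝ) / w := ⟨_, rfl⟩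
  have hη10 : 0 < η1 := by rw [hη1def]; positivity
  have hfac : (1 : ℝ) ≤ (k + 1).factorial := by
    exact_mod_cast Nat.factorial_pos (k + 1)
  have hAge : 12 * η1 * (k + 1).factorial ≤ (A : ℝ) / w := by
    rw [hη1def, le_div_iff₀ hwr]
    have : ((12 * (K * c ^ 2 + 1) * (k + 1).factorial : ℕ) : ℝ) ≤ A := by
      exact_mod_cast (by omega : 12 * (K * c ^ 2 + 1) * (k + 1).factorial ≤ A)
    refine le_trans (le_of_eq ?_) this
    push_cast
    field_simp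
  have hAge2 : (((k + 1) * c : ℕ) : ℝ) ^ 2 / w ≤ η / 4 := by
    refine le_trans ?_ hAw'
    apply div_le_div_of_nonneg_right _ hwr.le
    exact_mod_cast (by omega : ((k + 1) * c) ^ 2 ≤ A)
  have hη1le : η1 ≤ 1 := by nlinarith
  obtain ⟨T1, B1, hT1, havg⟩ := avg_sharp3 K (c ^ 2) w (by omega) η1 hη10 (by
    rw [hη1def]
    apply div_le_div_of_nonneg_right _ hwr.le
    push_cast
    linarith)
  obtain ⟨T2, hsmall⟩ := small_avg (k + 1) w (η / 4) (by positivity)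
  refine ⟨w, η1 / (K + 1), max T1 T2, B1, by positivity, ?_⟩
  intro T U hT hTU hUB Q hQ hadm y hwy hlarge
  have hT1' : T1 ≤ T := (le_max_left _ _).trans hT
  have hT2' : T2 ≤ T := (le_max_right _ _).trans hT
  obtain ⟨s1, s2⟩ := hsmall T hT2' Q c hQ hadm
  have hWpos := Vq_pos Q hadm w
  obtain ⟨W, hWdef⟩ : ∃ W, W = Vq Q w := ⟨_, rfl⟩
  obtain ⟨V, hV⟩ : ∃ V, V = Vt Q w y := ⟨_, rfl⟩
  have hV0 : 0 ≤ V := by rw [hV]; exact Vt_nonneg Q w y
  rw [← hWdef] at s1 s2 hWpos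
  rw [Vq_split Q w y hwy, ← hWdef, ← hV]
  have hT0 : (0 : ℝ) ≤ T := Nat.cast_nonneg T
  have e1 : ((T : ℝ) * (W * V)) ^ (k + 1) / (k + 1).factorial =
      V ^ (k + 1) * ((T * W) ^ (k + 1) / (k + 1).factorial) := by
    rw [← mul_assoc, mul_pow ((T : ℝ) * W) V]
    ring
  rw [e1]
  have hterm : ∀ H ∈ powersetCard (k + 1) (Icc 1 T), Vq (QH Q H) y = Vq (QH Q H) w * Vt (QH Q H) w y :=
    fun H _ => Vq_split _ w y hwy
  have hX0 : 0 ≤ (T * W) ^ (k + 1) / ((k + 1).factorial : ℝ) := by positivity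
  have hVk : 0 ≤ V ^ (k + 1) := by positivity
  constructor
  · -- lower bound
    have h1 : ∀ H ∈ powersetCard (k + 1) (Icc 1 T),
        V ^ (k + 1) * (1 - η / 4) * Vq (QH Q H) w ≤ Vq (QH Q H) y := by
      intro H hH
      rw [hterm H hH]
      rw [mem_powersetCard] at hH
      have h2 := tail_lo Q c hQ H w y (by omega) (by rw [hH.2]; exact hwc)
      rw [hH.2, ← hV] at h2
      have h3 : V ^ (k + 1) * (1 - η / 4) ≤ Vt (QH Q H) w y := by
        refine le_trans ?_ h2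
        apply mul_le_mul_of_nonneg_left _ hVk
        linarith
      calc V ^ (k + 1) * (1 - η / 4) * Vq (QH Q H) w ≤ Vt (QH Q H) w y * Vq (QH Q H) w :=
            mul_le_mul_of_nonneg_right h3 (Vq_nonneg _ w)
        _ = _ := mul_comm _ _
    have h2 := Finset.sum_le_sum h1
    rw [← Finset.mul_sum] at h2
    refine le_trans ?_ h2
    calc (1 - η) * (V ^ (k + 1) * ((T * W) ^ (k + 1) / (k + 1).factorial)) ≤
        V ^ (k + 1) * (1 - η / 4) * ((1 - η / 4) * ((T * W) ^ (k + 1) / (k + 1).factorial)) := by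
          have h3 : 1 - η ≤ (1 - η / 4) * (1 - η / 4) := by nlinarith
          have h4 := mul_le_mul_of_nonneg_right h3 (mul_nonneg hVk hX0)
          calc (1 - η) * (V ^ (k + 1) * ((T * W) ^ (k + 1) / (k + 1).factorial)) ≤ _ := h4
            _ = _ := by ring
      _ ≤ _ := mul_le_mul_of_nonneg_left s1 (mul_nonneg hVk (by linarith))
  · -- upper bound
    have h1 : ∀ H ∈ powersetCard (k + 1) (Icc 1 T), Vq (QH Q H) y ≤
        V ^ (k + 1) * (Vq (QH Q H) w + ∑ x ∈ prs H, (Fp Q K w y (x.2 - x.1) - 1)) := by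
      intro H hH
      rw [hterm H hH]
      rw [mem_powersetCard] at hH
      have h2 := tail_up Q c hQ H w y (by rw [hH.2]; exact hwc)
      rw [hH.2, ← hV, ← hK] at h2
      have h3 : 0 ≤ ∑ x ∈ prs H, (Fp Q K w y (x.2 - x.1) - 1) := by
        apply Finset.sum_nonneg
        intro x _
        have := Fp_ge Q K w y (x.2 - x.1)
        linarith
      have h4 := Vq_nonneg (QH Q H) w
      have h5 := Vq_le_one (QH Q H) w
      calc Vq (QH Q H) w * Vt (QH Q H) w y ≤ Vq (QH Q H) w * (V ^ (k + 1) *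
            (1 + ∑ x ∈ prs H, (Fp Q K w y (x.2 - x.1) - 1))) := mul_le_mul_of_nonneg_left h2 h4
        _ = V ^ (k + 1) * (Vq (QH Q H) w +
            Vq (QH Q H) w * ∑ x ∈ prs H, (Fp Q K w y (x.2 - x.1) - 1)) := by ring
        _ ≤ _ := by
          apply mul_le_mul_of_nonneg_left _ hVk
          have := mul_le_mul_of_nonneg_right h5 h3
          linarith
    have h2 := Finset.sum_le_sum h1
    rw [← Finset.mul_sum, Finset.sum_add_distrib] at h2
    refine h2.trans ?_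
    have h3 := sum_prs k T (fun t => Fp Q K w y t - 1) (fun t => by
      have := Fp_ge Q K w y t
      linarith)
    have h4 := havg T U hT1' hTU hUB (CoG Q) (coll_gen Q c hQ w) y (η1 / (K + 1)) (by positivity) (by
      rw [← mul_div_assoc, div_le_iff₀ (by positivity)]
      have : (0 : ℝ) ≤ K := Nat.cast_nonneg K
      nlinarith) hlarge
    have h5 : ∑ t ∈ Icc 1 T, (Fp Q K w y t - 1) ≤ 12 * η1 * T := by
      rw [Finset.sum_sub_distrib, Finset.sum_const, Nat.card_Icc, Nat.add_sub_cancel, nsmul_eq_mul,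
        mul_one]
      have h6 := exp_bound η1 hη10.le hη1le
      have h7 := mul_le_mul_of_nonneg_right h6 hT0
      unfold Fp
      linarith
    have h6 : ∑ H ∈ powersetCard (k + 1) (Icc 1 T), ∑ x ∈ prs H, (Fp Q K w y (x.2 - x.1) - 1) ≤
        η / 4 * ((T * W) ^ (k + 1) / (k + 1).factorial) := by
      calc _ ≤ (T : ℝ) ^ k * ∑ t ∈ Icc 1 T, (Fp Q K w y t - 1) := h3
        _ ≤ (T : ℝ) ^ k * (12 * η1 * T) := mul_le_mul_of_nonneg_left h5 (by positivity)
        _ = 12 * η1 * (k + 1).factorial * (T ^ (k + 1) / (k + 1).factorial) := by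
          rw [pow_succ]
          field_simp
        _ ≤ (η / 4 * (c1 / Real.log w ^ B) ^ (k + 1)) * (T ^ (k + 1) / (k + 1).factorial) := by
          apply mul_le_mul_of_nonneg_right (hAge.trans hAw) (by positivity)
        _ ≤ (η / 4 * W ^ (k + 1)) * (T ^ (k + 1) / (k + 1).factorial) := by
          apply mul_le_mul_of_nonneg_right _ (by positivity)
          apply mul_le_mul_of_nonneg_left _ (by positivity)
          have hlog : 0 < Real.log w := Real.log_pos (by exact_mod_cast (by omega : 1 < w))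
          apply pow_le_pow_left₀ (by positivity)
          rw [hWdef]
          exact hW w hww1 Q hQ hadm
        _ = _ := by
          rw [mul_pow]
          ring
    calc V ^ (k + 1) * (∑ H ∈ powersetCard (k + 1) (Icc 1 T), Vq (QH Q H) w +
        ∑ H ∈ powersetCard (k + 1) (Icc 1 T), ∑ x ∈ prs H, (Fp Q K w y (x.2 - x.1) - 1)) ≤
        V ^ (k + 1) * ((1 + η / 4) * ((T * W) ^ (k + 1) / (k + 1).factorial) +
          η / 4 * ((T * W) ^ (k + 1) / (k + 1).factorial)) := by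
          apply mul_le_mul_of_nonneg_left _ hVk
          linarith
      _ = (1 + η / 2) * (V ^ (k + 1) * ((T * W) ^ (k + 1) / (k + 1).factorial)) := by ring
      _ ≤ (1 + η) * (V ^ (k + 1) * ((T * W) ^ (k + 1) / (k + 1).factorial)) := by
        apply mul_le_mul_of_nonneg_right (by linarith) (mul_nonneg hVk hX0)

open Classical in
/-- **Binomial moments.** -/
theorem moment3 (c k : ℕ) (hc : 1 ≤ c) (η : ℝ) (hη : 0 < η) (hη1 : η ≤ 1) :
    ∃ (K0 y0 T0 B0 : ℕ) (η' : ℝ), 0 < η' ∧ ∀ Y y T U : ℕ, y0 ≤ y → y ^ K0 ≤ Y → T0 ≤ T →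
      T ≤ U → Real.log U ^ B0 ≤ T →
      ∀ Q : ℕ → ℕ → Prop, PerB Q c → (∀ p : ℕ, p.Prime → nuB Q p < p) →
      (∀ t ∈ Icc 1 T, ∑ p ∈ (pz y).filter (fun p : ℕ => U < p ∧ CoG Q p t), 1 / (p : ℝ) ≤ η') →
      |∑ n ∈ Icc 1 Y, ((Nw Q y T n).choose (k + 1) : ℝ) -
        Y * ((T * Vq Q y) ^ (k + 1) / (k + 1).factorial)| ≤
        η * Y * ((T * Vq Q y) ^ (k + 1) / (k + 1).factorial) + T ^ (k + 1) * √(Y : ℝ) := by
  obtain ⟨K0, x0, hK0, hfund⟩ := sys_fund ((k + 1) * c) (Nat.mul_pos (by omega) hc) (η / 4)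
    (by positivity)
  obtain ⟨w, η', T0, B0, hη', hsing⟩ := sing_avg3 c k (η / 4) (by positivity) (by linarith)
  refine ⟨K0, max x0 w, T0, B0, η', hη', ?_⟩
  intro Y y T U hy hyY hT hTU hUB Q hQ hadm hlarge
  obtain ⟨s1, s2⟩ := hsing T U hT hTU hUB Q hQ hadm y ((le_max_right _ _).trans hy) hlarge
  rw [moment_eq]
  obtain ⟨S, hS⟩ : ∃ S, S = ∑ H ∈ powersetCard (k + 1) (Icc 1 T), Vq (QH Q H) y := ⟨_, rfl⟩
  obtain ⟨Z, hZ⟩ : ∃ Z : ℝ, Z = (T * Vq Q y) ^ (k + 1) / (k + 1).factorial := ⟨_, rfl⟩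
  rw [← hS, ← hZ] at s1 s2
  rw [← hZ]
  have hV0 := Vq_nonneg Q y
  have hZ0 : 0 ≤ Z := by rw [hZ]; positivity
  have hY0 : (0 : ℝ) ≤ Y := Nat.cast_nonneg Y
  have h1 : |∑ H ∈ powersetCard (k + 1) (Icc 1 T),
      (((Icc 1 Y).filter (fun n => Sf (QH Q H) y n)).card : ℝ) - Y * S| ≤
      η / 4 * (Y * S) + T ^ (k + 1) * √(Y : ℝ) := by
    have e : Y * S = ∑ H ∈ powersetCard (k + 1) (Icc 1 T), (Y : ℝ) * Vq (QH Q H) y := by
      rw [hS, Finset.mul_sum]
    rw [e, ← Finset.sum_sub_distrib]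
    refine (Finset.abs_sum_le_sum_abs _ _).trans ?_
    have h2 : ∀ H ∈ powersetCard (k + 1) (Icc 1 T),
        |(((Icc 1 Y).filter (fun n => Sf (QH Q H) y n)).card : ℝ) - Y * Vq (QH Q H) y| ≤
        η / 4 * (Y * Vq (QH Q H) y) + √(Y : ℝ) := by
      intro H hH
      rw [mem_powersetCard] at hH
      have hper := perB_QH Q c hQ H
      rw [hH.2] at hper
      have h3 := hfund Y y ((le_max_left _ _).trans hy) hyY (QH Q H) hper Y
      have e1 : ∏ p ∈ pz y, (1 - (nuB (QH Q H) p : ℝ) / p) = Vq (QH Q H) y := rfl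
      rw [e1] at h3
      unfold Sf
      convert h3
    refine (Finset.sum_le_sum h2).trans ?_
    rw [Finset.sum_add_distrib, ← Finset.mul_sum, Finset.sum_const, nsmul_eq_mul]
    have h3 : ((powersetCard (k + 1) (Icc 1 T)).card : ℝ) ≤ (T : ℝ) ^ (k + 1) := by
      rw [card_powersetCard, Nat.card_Icc, Nat.add_sub_cancel]
      exact_mod_cast Nat.choose_le_pow T (k + 1)
    have h4 := mul_le_mul_of_nonneg_right h3 (Real.sqrt_nonneg (Y : ℝ))
    linarith
  have h5 : |Y * S - Y * Z| ≤ η / 4 * (Y * Z) := by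
    rw [← mul_sub, abs_mul, abs_of_nonneg hY0]
    have : |S - Z| ≤ η / 4 * Z := by
      rw [abs_le]
      constructor <;> linarith
    calc (Y : ℝ) * |S - Z| ≤ Y * (η / 4 * Z) := mul_le_mul_of_nonneg_left this hY0
      _ = _ := by ring
  have h6 : Y * S ≤ 2 * (Y * Z) := by
    have h7 := (abs_le.1 h5).2
    have h8 : 0 ≤ Y * Z := mul_nonneg hY0 hZ0
    nlinarith
  have h8 : 0 ≤ Y * Z := mul_nonneg hY0 hZ0
  have h9 := abs_sub_le (∑ H ∈ powersetCard (k + 1) (Icc 1 T),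
      (((Icc 1 Y).filter (fun n => Sf (QH Q H) y n)).card : ℝ)) (Y * S) (Y * Z)
  have h10 : η / 4 * (Y * S) ≤ η / 4 * (2 * (Y * Z)) :=
    mul_le_mul_of_nonneg_left h6 (by positivity)
  have h11 : 0 ≤ η * (Y * Z) := by positivity
  calc _ ≤ _ := h9
    _ ≤ η / 4 * (2 * (Y * Z)) + T ^ (k + 1) * √(Y : ℝ) + η / 4 * (Y * Z) := by linarith
    _ ≤ _ := by linarith

open Classical in
/-- **The Poisson law for sifted sets**, uniform in the system `Q`. -/
theorem law3 (c : ℕ) (hc : 1 ≤ c) (x0 ε : ℝ) (hx0 : 0 ≤ x0) (hε : 0 < ε) :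
    ∃ (K0 y0 T0 R0 B0 : ℕ) (η' : ℝ), 0 < η' ∧ ∀ Y y T U : ℕ, y0 ≤ y → y ^ K0 ≤ Y → T0 ≤ T →
      T ^ R0 ≤ Y → T ≤ U → Real.log U ^ B0 ≤ T →
      ∀ Q : ℕ → ℕ → Prop, PerB Q c → (∀ p : ℕ, p.Prime → nuB Q p < p) → T * Vq Q y ≤ x0 →
      (∀ t ∈ Icc 1 T, ∑ p ∈ (pz y).filter (fun p : ℕ => U < p ∧ CoG Q p t), 1 / (p : ℝ) ≤ η') →
      ∀ A : Finset ℕ, |(((Icc 1 Y).filter (fun n => Nw Q y T n ∈ A)).card : ℝ) -
        Y * ∑ j ∈ A, Real.exp (-(T * Vq Q y)) * (T * Vq Q y) ^ j / j.factorial| ≤ ε * Y := by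
  obtain ⟨R, η, hη, htv⟩ := law_tv x0 ε hx0 hε
  obtain ⟨X1, hX1⟩ : ∃ X1 : ℝ, X1 = (1 + x0) ^ (R + 1) := ⟨_, rfl⟩
  have hX1pos : 1 ≤ X1 := by rw [hX1]; exact one_le_pow₀ (by linarith)
  obtain ⟨η1, hη1⟩ : ∃ η1 : ℝ, η1 = min 1 (η / (2 * X1)) := ⟨_, rfl⟩
  have hη10 : 0 < η1 := by rw [hη1]; positivity
  have hη11 : η1 ≤ 1 := by rw [hη1]; exact min_le_left _ _
  have hη12 : η1 * X1 ≤ η / 2 := by
    have : η1 ≤ η / (2 * X1) := by rw [hη1]; exact min_le_right _ _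
    rw [le_div_iff₀ (by positivity)] at this
    linarith
  choose K0 y0 T0 B0 η' hη' hmom using fun k => moment3 c k hc η1 hη10 hη11
  obtain ⟨y1, hy1⟩ : ∃ y1 : ℕ, (2 / η) ^ 4 ≤ y1 := exists_nat_ge _
  obtain ⟨η0, hη00, hη0⟩ := exists_lower η' hη' R
  refine ⟨(∑ k ∈ range R, K0 k) + 1, (∑ k ∈ range R, y0 k) + y1 + 1, (∑ k ∈ range R, T0 k) + 3,
    4 * (R + 1), ∑ k ∈ range R, B0 k, η0, hη00, ?_⟩
  intro Y y T U hy hyY hT hTR hTU hUB Q hQ hadm hx hlarge A
  obtain ⟨x, hxdef⟩ : ∃ x, x = T * Vq Q y := ⟨_, rfl⟩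
  rw [← hxdef] at hx ⊢
  have hx00 : 0 ≤ x := by
    rw [hxdef]
    exact mul_nonneg (Nat.cast_nonneg _) (Vq_nonneg Q y)
  have hy1' : 1 ≤ y := by omega
  have hT1 : 1 ≤ T := by omega
  have hyY' : y ≤ Y := by
    calc y = y ^ 1 := (pow_one y).symm
      _ ≤ y ^ ((∑ k ∈ range R, K0 k) + 1) := Nat.pow_le_pow_right hy1' (by omega)
      _ ≤ Y := hyY
  have hY1 : (2 / η) ^ 4 ≤ (Y : ℝ) := hy1.trans (by exact_mod_cast (by omega : y1 ≤ Y))
  have hYpos : (0 : ℝ) < Y := lt_of_lt_of_le (by positivity) hY1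
  have hs4 : 2 / η ≤ √(√(Y : ℝ)) := by
    apply Real.le_sqrt_of_sq_le
    apply Real.le_sqrt_of_sq_le
    calc ((2 / η) ^ 2) ^ 2 = (2 / η) ^ 4 := by ring
      _ ≤ (Y : ℝ) := hY1
  have hT4 : (T : ℝ) ^ (R + 1) ≤ √(√(Y : ℝ)) := by
    apply Real.le_sqrt_of_sq_le
    apply Real.le_sqrt_of_sq_le
    calc (((T : ℝ) ^ (R + 1)) ^ 2) ^ 2 = (T : ℝ) ^ (4 * (R + 1)) := by
          rw [← pow_mul, ← pow_mul]
          congr 1
          ring
      _ ≤ Y := by exact_mod_cast hTR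
  have hTY : (T : ℝ) ^ (R + 1) * √(Y : ℝ) ≤ η / 2 * Y := by
    have e1 : √(√(Y : ℝ)) * √(√(Y : ℝ)) = √(Y : ℝ) := Real.mul_self_sqrt (Real.sqrt_nonneg _)
    have e2 : √(Y : ℝ) * √(Y : ℝ) = Y := Real.mul_self_sqrt hYpos.le
    have h1 : (T : ℝ) ^ (R + 1) * (2 / η) ≤ √(Y : ℝ) := by
      rw [← e1]
      exact mul_le_mul hT4 hs4 (by positivity) (Real.sqrt_nonneg _)
    calc (T : ℝ) ^ (R + 1) * √(Y : ℝ) = η / 2 * ((T : ℝ) ^ (R + 1) * (2 / η)) * √(Y : ℝ) := by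
          field_simp
      _ ≤ η / 2 * √(Y : ℝ) * √(Y : ℝ) := by gcongr
      _ = η / 2 * Y := by rw [mul_assoc, e2]
  have hcard : ((Icc 1 Y).card : ℝ) = Y := by
    rw [Nat.card_Icc, Nat.add_sub_cancel]
  have hmain := htv (Icc 1 Y) (Nw Q y T) x hx00 hx (by
    intro k hk
    rw [hcard]
    rcases k with _ | k
    · simp
      positivity
    · have hkR : k ∈ range R := mem_range.2 (by omega)
      have hKk : K0 k ≤ ∑ k ∈ range R, K0 k := Finset.single_le_sum (fun _ _ => Nat.zero_le _) hkR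
      have hyk : y0 k ≤ ∑ k ∈ range R, y0 k := Finset.single_le_sum (fun _ _ => Nat.zero_le _) hkR
      have hTk : T0 k ≤ ∑ k ∈ range R, T0 k := Finset.single_le_sum (fun _ _ => Nat.zero_le _) hkR
      have hBk : B0 k ≤ ∑ k ∈ range R, B0 k := Finset.single_le_sum (fun _ _ => Nat.zero_le _) hkR
      have hlU : 1 ≤ Real.log U := by
        have hU3 : (3 : ℝ) ≤ U := by exact_mod_cast (by omega : 3 ≤ U)
        rw [Real.le_log_iff_exp_le (by linarith)]
        have := Real.exp_one_lt_d9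
        linarith
      have h1 := hmom k Y y T U (by omega)
        ((Nat.pow_le_pow_right hy1' (by omega)).trans hyY) (by omega) hTU
        ((pow_le_pow_right₀ hlU hBk).trans hUB) Q hQ hadm (fun t ht =>
          (hlarge t ht).trans (hη0 k (by omega)))
      rw [← hxdef] at h1
      refine h1.trans ?_
      have h2 : x ^ (k + 1) / ((k + 1).factorial : ℝ) ≤ X1 := by
        have hf1 : (1 : ℝ) ≤ (k + 1).factorial := by exact_mod_cast Nat.factorial_pos (k + 1)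
        calc x ^ (k + 1) / ((k + 1).factorial : ℝ) ≤ x ^ (k + 1) := div_le_self (by positivity) hf1
          _ ≤ (1 + x0) ^ (k + 1) := pow_le_pow_left₀ hx00 (by linarith) _
          _ ≤ (1 + x0) ^ (R + 1) := pow_le_pow_right₀ (by linarith) (by omega)
          _ = X1 := hX1.symm
      have h3 : (T : ℝ) ^ (k + 1) * √(Y : ℝ) ≤ η / 2 * Y := by
        refine le_trans ?_ hTY
        apply mul_le_mul_of_nonneg_right _ (Real.sqrt_nonneg _)
        apply pow_le_pow_right₀ (by exact_mod_cast hT1) (by omega)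
      have h4 : η1 * Y * (x ^ (k + 1) / ((k + 1).factorial : ℝ)) ≤ η / 2 * Y := by
        calc η1 * Y * (x ^ (k + 1) / ((k + 1).factorial : ℝ)) ≤ η1 * Y * X1 :=
              mul_le_mul_of_nonneg_left h2 (by positivity)
          _ = η1 * X1 * Y := by ring
          _ ≤ η / 2 * Y := by gcongr
      linarith) A
  rw [hcard] at hmain
  exact hmain

open Classical in
/-- **The Poisson law** in all intervals and for all windows of bounded mean. -/
theorem gen_law3 (c : ℕ) (hc : 1 ≤ c) (x0 ε : ℝ) (hε : 0 < ε) :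
    ∃ (K0 y0 T0 R0 B0 : ℕ) (η' κ : ℝ), 0 < η' ∧ 0 < κ ∧ κ ≤ 1 / 2 ∧
      ∀ (Q : ℕ → ℕ → Prop) (Z Y y U : ℕ), PerB Q c → (∀ p : ℕ, p.Prime → nuB Q p < p) → y0 ≤ y →
      y ^ K0 ≤ Y → Vq Q y ≤ κ →
      (∀ T : ℕ, κ ≤ T * Vq Q y → T * Vq Q y ≤ max x0 1 → T0 ≤ T ∧ T ^ R0 ≤ Y ∧ T ≤ U ∧
        Real.log U ^ B0 ≤ T ∧ ∀ t ∈ Icc 1 T,
        ∑ p ∈ (pz y).filter (fun p : ℕ => U < p ∧ CoG Q p t), 1 / (p : ℝ) ≤ η') →
      ∀ T : ℕ, T * Vq Q y ≤ x0 → ∀ A : Finset ℕ,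
        |(((Ioc Z (Z + Y)).filter (fun n => Wc (Sf Q y) n T ∈ A)).card : ℝ) -
          Y * ∑ j ∈ A, Real.exp (-(T * Vq Q y)) * (T * Vq Q y) ^ j / j.factorial| ≤ ε * Y := by
  obtain ⟨κ, hκ⟩ : ∃ κ, κ = min (ε / 8) (1 / 2) := ⟨_, rfl⟩
  have hκ0 : 0 < κ := by rw [hκ]; positivity
  have hκ1 : κ ≤ ε / 8 := by rw [hκ]; exact min_le_left _ _
  have hκ2 : κ ≤ 1 / 2 := by rw [hκ]; exact min_le_right _ _
  obtain ⟨K0, y0, T0, R0, B0, η', hη', hlaw⟩ := law3 c hc (max x0 1) (ε / 4) (by positivity) (by positivity)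
  refine ⟨K0, y0, T0, R0, B0, η', κ, hη', hκ0, hκ2, ?_⟩
  intro Q Z Y y U hQ hadm hy hyY hVκ hT T hTx A
  have hV0 : 0 < Vq Q y := Vq_pos Q hadm y
  have hY0 : (0 : ℝ) ≤ Y := Nat.cast_nonneg Y
  have hmain : ∀ T : ℕ, κ ≤ T * Vq Q y → T * Vq Q y ≤ max x0 1 → ∀ A : Finset ℕ,
      |(((Ioc Z (Z + Y)).filter (fun n => Wc (Sf Q y) n T ∈ A)).card : ℝ) -
        Y * ∑ j ∈ A, Real.exp (-(T * Vq Q y)) * (T * Vq Q y) ^ j / j.factorial| ≤ ε / 4 * Y := by
    intro T h1 h2 A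
    obtain ⟨hT0, hTR, hTU, hUB, hlarge⟩ := hT T h1 h2
    have h3 := hlaw Y y T U hy hyY hT0 hTR hTU hUB (Qt Q Z) (perB_Qt Q c hQ Z) (fun p hp => by
      rw [nuB_Qt Q c hQ]
      exact hadm p hp) (by rw [Vq_Qt Q c hQ]; exact h2) (fun t ht => by
        refine le_trans ?_ (hlarge t ht)
        apply Finset.sum_le_sum_of_subset_of_nonneg
        · intro p hp
          rw [mem_filter] at hp ⊢
          obtain ⟨h1, h2, m, h3, h4⟩ := hp
          refine ⟨h1, h2, m + Z, h3, ?_⟩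
          unfold Qt at h4
          rwa [show m + t + Z = m + Z + t by ring] at h4
        · intro p _ _
          positivity) A
    rw [Vq_Qt Q c hQ] at h3
    have hcount : ((Ioc Z (Z + Y)).filter (fun n => Wc (Sf Q y) n T ∈ A)).card =
        ((Icc 1 Y).filter (fun n => Nw (Qt Q Z) y T n ∈ A)).card := by
      symm
      apply Finset.card_bij (fun n _ => n + Z)
      · intro n hn
        rw [mem_filter, mem_Icc, Nw_Qt] at hn
        rw [mem_filter, mem_Ioc]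
        exact ⟨by omega, hn.2⟩
      · intro a _ b _ hab
        omega
      · intro n hn
        rw [mem_filter, mem_Ioc] at hn
        refine ⟨n - Z, ?_, by omega⟩
        rw [mem_filter, mem_Icc, Nw_Qt, show n - Z + Z = n by omega]
        exact ⟨by omega, hn.2⟩
    rw [hcount]
    exact h3
  by_cases hκT : κ ≤ T * Vq Q y
  · refine (hmain T hκT (hTx.trans (le_max_left _ _)) A).trans ?_
    nlinarith
  · rw [not_le] at hκT
    obtain ⟨T', h1, h2, h3⟩ := exists_window (Vq Q y) κ hV0 hVκ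
    have h4 := hmain T' h1 (h2.trans ((by linarith : 2 * κ ≤ 1).trans (le_max_right _ _))) {0}
    have hcard : (Y : ℝ) = ((Ioc Z (Z + Y)).card : ℝ) := by
      rw [Nat.card_Ioc]
      congr 1
      omega
    rw [hcard] at h4 ⊢
    have h5 := extend (Ioc Z (Z + Y)) (fun n => Wc (Sf Q y) n T) (fun n => Wc (Sf Q y) n T')
      (fun n => Wc_mono (Sf Q y) n T T' (h3 T hκT)) (T * Vq Q y) (T' * Vq Q y) (ε / 4)
      (by positivity) (by linarith) h4 A
    refine h5.trans ?_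
    rw [← hcard]
    nlinarith

open Classical in
/-- **The gap laws** in all intervals. -/
theorem gen_gap3 (c : ℕ) (hc : 1 ≤ c) (k0 : ℕ) (x0 ε : ℝ) (hε : 0 < ε) :
    ∃ (K0 y0 T0 R0 B0 : ℕ) (η' κ x1 : ℝ), 0 < η' ∧ 0 < κ ∧ 0 < x1 ∧
      ∀ (Q : ℕ → ℕ → Prop) (Z Y y U : ℕ), PerB Q c → (∀ p : ℕ, p.Prime → nuB Q p < p) → y0 ≤ y →
      y ^ K0 ≤ Y → Vq Q y ≤ κ → √(Y : ℝ) ≤ κ * (Y * Vq Q y) → x1 / Vq Q y ≤ κ * (Y * Vq Q y) →
      (∀ T : ℕ, κ ≤ T * Vq Q y → T * Vq Q y ≤ x1 → T0 ≤ T ∧ T ^ R0 ≤ Y ∧ T ≤ U ∧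
        Real.log U ^ B0 ≤ T ∧ ∀ t ∈ Icc 1 T,
        ∑ p ∈ (pz y).filter (fun p : ℕ => U < p ∧ CoG Q p t), 1 / (p : ℝ) ≤ η') →
      ∀ k T : ℕ, (k ≤ k0 ∨ T * Vq Q y ≤ x0) →
        |(Pk (Sf Q y) k T Z Y : ℝ) - Y * Vq Q y * Ck k (T * Vq Q y)| ≤ ε * (Y * Vq Q y) := by
  obtain ⟨x1, η, hx1, hη, hgap⟩ := gap_all k0 x0 ε hε
  obtain ⟨K0, y0, T0, R0, B0, η', κ, hη', hκ, hκ2, hlaw⟩ := gen_law3 c hc x1 η hη
  obtain ⟨K1, y1, hK1, hfund⟩ := sys_fund c hc (η / 2) (by positivity)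
  have hmin : 0 < min κ (η / 2) := by positivity
  refine ⟨K0 + K1, max y0 (y1 + 1), T0, R0, B0, η', min κ (η / 2), max x1 1, hη', hmin,
    by positivity, ?_⟩
  intro Q Z Y y U hQ hadm hy hyY hVκ hsq hbd hT
  have hV0 : 0 < Vq Q y := Vq_pos Q hadm y
  have hY0 : (0 : ℝ) ≤ Y := Nat.cast_nonneg Y
  have hYV : 0 ≤ Y * Vq Q y := by positivity
  have hy1 : 1 ≤ y := by
    have := (le_max_right y0 (y1 + 1)).trans hy
    omega
  have hyK0 : y ^ K0 ≤ Y := (Nat.pow_le_pow_right hy1 (by omega)).trans hyY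
  have hyK1 : y ^ K1 ≤ Y := (Nat.pow_le_pow_right hy1 (by omega)).trans hyY
  have hm1 : min κ (η / 2) ≤ κ := min_le_left _ _
  have hm2 : min κ (η / 2) ≤ η / 2 := min_le_right _ _
  refine hgap (Sf Q y) Z Y (Vq Q y) hV0 (by linarith) ?_ ?_ ?_
  · exact hlaw Q Z Y y U hQ hadm ((le_max_left _ _).trans hy) hyK0 (hVκ.trans hm1)
      (fun T h1 h2 => hT T (hm1.trans h1) h2)
  · have h1 := hfund Y y (by
      have := (le_max_right y0 (y1 + 1)).trans hy
      omega) hyK1 (Qt Q Z) (perB_Qt Q c hQ Z) Y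
    have e1 : ∏ p ∈ pz y, (1 - (nuB (Qt Q Z) p : ℝ) / p) = Vq Q y := Vq_Qt Q c hQ Z y
    rw [e1] at h1
    have h2 := (abs_le.1 h1).2
    have hcount : ((Ioc Z (Z + Y)).filter (Sf Q y)).card =
        ((Icc 1 Y).filter (fun n : ℕ => ∀ p ∈ pz y, ¬ Qt Q Z p n)).card := by
      symm
      apply Finset.card_bij (fun n _ => n + Z)
      · intro n hn
        rw [mem_filter, mem_Icc] at hn
        rw [mem_filter, mem_Ioc]
        exact ⟨by omega, hn.2⟩
      · intro a _ b _ hab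
        omega
      · intro n hn
        rw [mem_filter, mem_Ioc] at hn
        refine ⟨n - Z, ?_, by omega⟩
        rw [mem_filter, mem_Icc]
        refine ⟨by omega, ?_⟩
        intro p hp
        have := hn.2 p hp
        unfold Qt
        rwa [show n - Z + Z = n by omega]
    rw [hcount]
    have h3 : min κ (η / 2) * (Y * Vq Q y) ≤ η / 2 * (Y * Vq Q y) :=
      mul_le_mul_of_nonneg_right hm2 hYV
    linarith
  · have h3 : min κ (η / 2) * (Y * Vq Q y) ≤ η * (Y * Vq Q y) :=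
      mul_le_mul_of_nonneg_right (by linarith) hYV
    refine le_trans ?_ h3
    refine le_trans ?_ hbd
    exact div_le_div_of_nonneg_right (le_max_left _ _) hV0.le

end Pool.Agent.Y859.SP
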