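import Pool.Agent.TH464.PO.QuadAP
import Pool.Agent.TH464.PO.PolyExact

set_option autoImplicit false

/-!
# The polynomial `m ^ 2 + 1`
-/

namespace Pool.Agent.Y859.SP.Sq

open Polynomial Finset Filter
open Pool.Agent.W123.RP Pool.Agent.H373R2.T7 Pool.Agent.W123.RU Pool.Agent.W123.RU.Poly
open Pool.Agent.TH464.PW Pool.Agent.TH464.PO

/-- the polynomial -/
noncomputable def s1 : Fin 1 → ℤ[X] := qs 1 0 1

lemma s1_sys : Sys s1 := by
  refine qs_sys 1 0 1 one_pos ?_ ?_ ?_
  · rintro p hp ⟨h, -⟩
    have h1 : (p : ℤ) ∣ ((1 : ℕ) : ℤ) := by exact_mod_cast h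
    rw [Int.natCast_dvd_natCast] at h1
    exact hp.one_lt.ne' (Nat.dvd_one.1 h1)
  · rintro ⟨-, h⟩
    exact absurd h (by decide)
  · rintro ⟨x, hx⟩
    nlinarith [mul_self_nonneg x]

lemma s1_noTr : NoTr s1 := qs_noTr 1 0 1 one_pos

lemma s1_Q (p m : ℕ) : Q s1 p m ↔ p ∣ m ^ 2 + 1 := by
  have e1 : (1 * (m : ℤ) ^ 2 + 0 * m + 1) = ((m ^ 2 + 1 : ℕ) : ℤ) := by push_cast; ring
  unfold s1
  rw [qs_Q, e1, Int.natCast_dvd_natCast]

open Classical in
/-- the number of roots -/
lemma s1_nu (p : ℕ) (hp : p.Prime) :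
    (nuB (Q s1) p : ℝ) = if p = 2 then 1 else if p % 4 = 1 then 2 else 0 := by
  have hset : (range p).filter (fun m => Q s1 p m) = (range p).filter (fun m => p ∣ m ^ 2 + 1) := by
    apply Finset.filter_congr
    intro m _
    exact s1_Q p m
  unfold nuB
  rw [hset]
  have : Fact p.Prime := ⟨hp⟩
  split_ifs with h2 h4
  · subst h2
    have : (range 2).filter (fun m => 2 ∣ m ^ 2 + 1) = {1} := by decide
    rw [this, card_singleton, Nat.cast_one]
  · obtain ⟨i, hi⟩ := (ZMod.exists_sq_eq_neg_one_iff (p := p)).2 (by omega)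
    have hp2 : (2 : ZMod p) ≠ 0 := by
      intro h
      have h3 : ((2 : ℕ) : ZMod p) = 0 := by exact_mod_cast h
      rw [ZMod.natCast_eq_zero_iff] at h3
      exact h2 ((Nat.prime_dvd_prime_iff_eq hp Nat.prime_two).1 h3)
    have hi0 : i ≠ 0 := by
      rintro rfl
      rw [mul_zero] at hi
      have : (1 : ZMod p) = 0 := by
        have := congrArg (fun x => -x) hi
        simpa using this
      exact one_ne_zero this
    have hne : i ≠ -i := by
      intro h
      have h5 : 2 * i = 0 := by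
        have : 2 * i = i + i := by ring
        rw [this]
        nth_rewrite 2 [h]
        ring
      exact (mul_ne_zero hp2 hi0) h5
    have key : (range p).filter (fun m => p ∣ m ^ 2 + 1) = ({i.val, (-i).val} : Finset ℕ) := by
      ext m
      rw [mem_filter, mem_range, mem_insert, mem_singleton]
      constructor
      · rintro ⟨hm, hd⟩
        have h1 : (m : ZMod p) ^ 2 + 1 = 0 := by
          have := (ZMod.natCast_eq_zero_iff (m ^ 2 + 1) p).2 hd
          push_cast at this
          exact this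
        have h5 : ((m : ZMod p) - i) * (m + i) = 0 := by
          have : ((m : ZMod p) - i) * (m + i) = m ^ 2 - i * i := by ring
          rw [this, ← hi]
          rw [sub_neg_eq_add]
          exact h1
        rcases mul_eq_zero.1 h5 with h6 | h6
        · left
          rw [← sub_eq_zero.1 h6, ZMod.val_natCast_of_lt hm]
        · right
          rw [← eq_neg_of_add_eq_zero_left h6, ZMod.val_natCast_of_lt hm]
      · intro h
        have hlt : m < p := by
          rcases h with h | h
          · rw [h]; exact ZMod.val_lt i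
          · rw [h]; exact ZMod.val_lt (-i)
        refine ⟨hlt, ?_⟩
        rw [← ZMod.natCast_eq_zero_iff]
        push_cast
        have hm : (m : ZMod p) ^ 2 = -1 := by
          rcases h with h | h
          · have hm : (m : ZMod p) = i := by rw [h, ZMod.natCast_zmod_val]
            rw [hm, sq, ← hi]
          · have hm : (m : ZMod p) = -i := by rw [h, ZMod.natCast_zmod_val]
            rw [hm, sq, neg_mul_neg, ← hi]
        rw [hm]
        ring
    rw [key, card_insert_of_notMem, card_singleton]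
    · norm_num
    · rw [mem_singleton]
      intro h
      exact hne (ZMod.val_injective p h)
  · have h3 : p % 4 = 3 := by
      rcases hp.eq_two_or_odd with h | h
      · exact absurd h h2
      · omega
    have : (range p).filter (fun m => p ∣ m ^ 2 + 1) = ∅ := by
      rw [Finset.filter_eq_empty_iff]
      intro m _ hd
      have h1 : (m : ZMod p) ^ 2 + 1 = 0 := by
        have := (ZMod.natCast_eq_zero_iff (m ^ 2 + 1) p).2 hd
        push_cast at this
        exact this
      have h5 : IsSquare (-1 : ZMod p) := ⟨m, by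
        rw [← sq]
        exact (eq_neg_of_add_eq_zero_left h1).symm⟩
      exact (ZMod.exists_sq_eq_neg_one_iff (p := p)).1 h5 h3
    rw [this, card_empty, Nat.cast_zero]

open Classical in
lemma s1_V (y : ℕ) : Vq (Q s1) y = ∏ p ∈ (Finset.range (y + 1)).filter Nat.Prime,
    (1 - (if p = 2 then 1 else if p % 4 = 1 then 2 else 0) / (p : ℝ)) := by
  unfold Vq
  apply Finset.prod_congr
  · unfold pz
    ext p
    simp only [mem_filter, mem_Icc, mem_range]
    constructor
    · rintro ⟨h1, h2⟩
      exact ⟨by omega, h2⟩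
    · rintro ⟨h1, h2⟩
      exact ⟨⟨h2.one_lt.le, by omega⟩, h2⟩
  · intro p hp
    rw [mem_filter] at hp
    rw [s1_nu p hp.2]

/-- `m ^ 2 + 1` has at most `2 r` prime factors, all of them larger than `X ^ (1 / r)` -/
def Good (r X m : ℕ) : Prop :=
  (m ^ 2 + 1).primeFactorsList.length ≤ 2 * r ∧
    ∀ p : ℕ, p.Prime → p ∣ m ^ 2 + 1 → (X : ℝ) ^ (1 / (r : ℝ)) < (p : ℝ)

lemma sf_Good (r : ℕ) (hr : 1 ≤ r) : ∀ᶠ X : ℕ in atTop, ∀ m : ℕ, m ≤ 3 * X →
    (Sf (Q s1) ⌊(X : ℝ) ^ (1 / (r : ℝ))⌋₊ m ↔ Good r X m) := by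
  filter_upwards [sf_APq 1 0 1 r hr] with X h1 m hm
  have e1 : (1 * (m : ℤ) ^ 2 + 0 * m + 1) = ((m ^ 2 + 1 : ℕ) : ℤ) := by push_cast; ring
  have h1' := h1 m hm
  unfold APq at h1'
  rw [e1, Int.natAbs_natCast] at h1'
  unfold s1
  rw [h1']
  unfold Good
  constructor
  · rintro ⟨a, b⟩
    exact ⟨a, fun p hp hd => b p hp (Int.natCast_dvd_natCast.2 hd)⟩
  · rintro ⟨a, b⟩
    exact ⟨a, fun p hp hd => b p hp (Int.natCast_dvd_natCast.1 hd)⟩

end Pool.Agent.Y859.SP.Sq
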