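import Pool.Agent.TH464.PO.Gen
import Pool.Agent.TH464.PO.PolyExact

set_option autoImplicit false

/-!
# The gap laws, uniformly in the conditions
-/

namespace Pool.Agent.Y859.SP

open Finset Filter
open Pool.Agent.W123.RP Pool.Agent.H373R2.T7 Pool.Agent.W123.RU
open Pool.Agent.TH464.PW Pool.Agent.TH464.PO

/-- uniform control of the conditions at the scale `L = log X` -/
structure Ctl (Q : ℕ → ℕ → Prop) (k : ℕ) (C L : ℝ) : Prop where
  per : PerB Q k
  adm : ∀ p : ℕ, p.Prime → nuB Q p < p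
  disc : ∃ D : ℕ, D ≠ 0 ∧ Real.log D ≤ C * L ∧ ∀ p : ℕ, p.Prime → ¬ p ∣ D → 2 ≤ nuB Q p
  co : ∀ t : ℕ, 1 ≤ t → (t : ℝ) ≤ L ^ (k + 1) → ∃ F : ℕ, F ≠ 0 ∧ Real.log F ≤ C * L ∧
    ∀ p : ℕ, p.Prime → t < p → CoG Q p t → p ∣ F

/-- an auxiliary limit -/
lemma log_sq_small (C M : ℝ) (hC : 0 < C) (hM : 0 < M) :
    ∀ᶠ X : ℕ in atTop, M * Real.log ((⌈C * Real.log X⌉₊ + 2 : ℕ) : ℝ) ^ 2 ≤ Real.log X := by
  have hlog : Tendsto (fun X : ℕ => Real.log (X : ℝ)) atTop atTop :=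
    Real.tendsto_log_atTop.comp tendsto_natCast_atTop_atTop
  have hz : Tendsto (fun X : ℕ => ⌈C * Real.log X⌉₊ + 2) atTop atTop := by
    exact (tendsto_add_atTop_nat 2).comp (tendsto_nat_ceil_atTop.comp (hlog.const_mul_atTop hC))
  filter_upwards [hz.eventually (logpow_rpow 2 M (1 / 2) hM (by norm_num)),
    hlog.eventually_ge_atTop (C + 3)] with X h1 h2
  refine h1.trans ?_
  have hL : 0 < Real.log X := by linarith
  have h3 : ((⌈C * Real.log X⌉₊ + 2 : ℕ) : ℝ) ≤ Real.log X ^ 2 := by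
    push_cast
    have h4 : (⌈C * Real.log X⌉₊ : ℝ) < C * Real.log X + 1 := Nat.ceil_lt_add_one (by positivity)
    nlinarith
  calc ((⌈C * Real.log X⌉₊ + 2 : ℕ) : ℝ) ^ ((1 : ℝ) / 2) ≤ (Real.log X ^ 2) ^ ((1 : ℝ) / 2) :=
        Real.rpow_le_rpow (Nat.cast_nonneg _) h3 (by norm_num)
    _ = Real.log X := by
        rw [← Real.sqrt_eq_rpow, Real.sqrt_sq hL.le]

open Classical in
/-- **The gap laws**, uniformly in the conditions. -/
theorem gap_unif (k : ℕ) (hk : 1 ≤ k) (C θ : ℝ) (hC : 0 < C) (hθ : 0 < θ) (k0 : ℕ) (x0 ε : ℝ)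
    (hε : 0 < ε) :
    ∃ r0 : ℕ, ∀ r : ℕ, r0 ≤ r → ∀ᶠ X : ℕ in atTop, ∀ Q : ℕ → ℕ → Prop, Ctl Q k C (Real.log X) →
      ∀ Z Y : ℕ, (X : ℝ) ^ θ ≤ Y →
      ∀ l T : ℕ, (l ≤ k0 ∨ T * Vq Q ⌊(X : ℝ) ^ (1 / (r : ℝ))⌋₊ ≤ x0) →
        |(Pk (Sf Q ⌊(X : ℝ) ^ (1 / (r : ℝ))⌋₊) l T Z Y : ℝ) -
          Y * Vq Q ⌊(X : ℝ) ^ (1 / (r : ℝ))⌋₊ * Ck l (T * Vq Q ⌊(X : ℝ) ^ (1 / (r : ℝ))⌋₊)| ≤
          ε * (Y * Vq Q ⌊(X : ℝ) ^ (1 / (r : ℝ))⌋₊) := by
  obtain ⟨K0, y0, T0, R0, η', κ, x1, hη', hκ, hx1, hgap⟩ := gen_gap k hk k0 x0 ε hε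
  obtain ⟨v, hv, hVlo⟩ := V_lower_unif k
  obtain ⟨Cu, hCu, hVup⟩ := V_upper_unif
  obtain ⟨R1, hR1⟩ : ∃ R1 : ℕ, (K0 : ℝ) / θ ≤ R1 := exists_nat_ge _
  refine ⟨max R1 2, ?_⟩
  intro r hr
  have hr2 : 2 ≤ r := (le_max_right _ _).trans hr
  have hrr : (2 : ℝ) ≤ r := by exact_mod_cast hr2
  have hrpos : (0 : ℝ) < r := by linarith
  have hrK : (K0 : ℝ) ≤ θ * r := by
    have h1 : (K0 : ℝ) / θ ≤ r := hR1.trans (by exact_mod_cast (le_max_left _ _).trans hr)
    rw [div_le_iff₀ hθ] at h1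
    linarith
  have hXr : Tendsto (fun X : ℕ => (X : ℝ)) atTop atTop := tendsto_natCast_atTop_atTop
  have hpow2 : Tendsto (fun X : ℕ => (X : ℝ) ^ (1 / (2 * r : ℝ))) atTop atTop :=
    (tendsto_rpow_atTop (by positivity)).comp hXr
  have hlogX : Tendsto (fun X : ℕ => Real.log (X : ℝ)) atTop atTop :=
    Real.tendsto_log_atTop.comp hXr
  obtain ⟨M, hM⟩ : ∃ M : ℝ, M = 1 / (κ * v) + (x1 / κ + 1) / v := ⟨_, rfl⟩
  have hM0 : 0 < M := by rw [hM]; positivity
  -- the constant of the upper bound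
  obtain ⟨A, hA⟩ : ∃ A : ℝ, A = Cu * (2 * r) ^ 2 / κ * (2 * C / η' + T0 + 1) := ⟨_, rfl⟩
  have hA0 : 0 < A := by rw [hA]; positivity
  filter_upwards [hpow2.eventually_ge_atTop ((y0 : ℝ) + 3), eventually_ge_atTop 16,
    hlogX.eventually_ge_atTop (x1 / v + 1),
    logpow_rpow ((k + 1) * R0) 1 θ one_pos hθ,
    logpow_rpow k M (θ / 2) hM0 (by positivity),
    log_sq_small C A hC hA0,
    log_sq_small C (Cu * (2 * r) ^ 2 / κ) hC (by positivity),
    (hpow2.eventually_ge_atTop 1).and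
      (logpow_rpow 1 (C + 3) (1 / (2 * r)) (by linarith) (by positivity))] with
    X hX1 hX16 hX3 hX4 hX5 hX6 hX7 hX8
  intro Q hQ Z Y hXY l T hlT
  have hX16r : (16 : ℝ) ≤ X := by exact_mod_cast hX16
  have hXpos : (0 : ℝ) < X := by linarith
  have hXone : (1 : ℝ) ≤ X := by linarith
  have hy0r : (0 : ℝ) ≤ y0 := Nat.cast_nonneg _
  obtain ⟨hy1, hy2, hy3, hy4⟩ := level_low r hr2 X (by omega) (by linarith)
  obtain ⟨y, hy⟩ : ∃ y, y = ⌊(X : ℝ) ^ (1 / (r : ℝ))⌋₊ := ⟨_, rfl⟩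
  rw [← hy] at hy1 hy2 hy3 hy4 hlT ⊢
  have hyr : (y0 : ℝ) + 3 ≤ y := hX1.trans hy1
  have hyy0 : y0 ≤ y := by
    have : (y0 : ℝ) ≤ y := by linarith
    exact_mod_cast this
  have hL0 : 0 < Real.log X := by
    have : 0 < x1 / v := by positivity
    linarith
  have hL1 : 1 ≤ Real.log X := by
    have : 0 < x1 / v := by positivity
    linarith
  have hlogy : 0 < Real.log y := lt_of_lt_of_le (by positivity) hy2
  have hyK : y ^ K0 ≤ Y := by
    have h3 : ((y ^ K0 : ℕ) : ℝ) ≤ Y := by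
      push_cast
      calc (y : ℝ) ^ K0 ≤ ((X : ℝ) ^ (1 / (r : ℝ))) ^ K0 := by
            apply pow_le_pow_left₀ (Nat.cast_nonneg _)
            rw [hy]
            exact Nat.floor_le (by positivity)
        _ = (X : ℝ) ^ (1 / (r : ℝ) * K0) := by
            rw [Real.rpow_mul hXpos.le, Real.rpow_natCast]
        _ ≤ (X : ℝ) ^ θ := by
            apply Real.rpow_le_rpow_of_exponent_le hXone
            rw [one_div, inv_mul_eq_div, div_le_iff₀ hrpos]
            exact hrK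
        _ ≤ Y := hXY
    exact_mod_cast h3
  -- bounds for the density
  have hVpos : 0 < Vq Q y := Vq_pos Q hQ.adm y
  have hVlow : v / Real.log X ^ k ≤ Vq Q y := by
    refine le_trans ?_ (hVlo Q hQ.per hQ.adm y hy4)
    apply div_le_div_of_nonneg_left hv.le (by positivity)
    exact pow_le_pow_left₀ hlogy.le hy3 k
  obtain ⟨z, hz⟩ : ∃ z, z = ⌈C * Real.log X⌉₊ + 2 := ⟨_, rfl⟩
  rw [← hz] at hX6 hX7
  have hz2 : 2 ≤ z := by omega
  have hzr : C * Real.log X ≤ z := by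
    rw [hz]
    push_cast
    have := Nat.le_ceil (C * Real.log X)
    linarith
  have hzy : z ≤ y := by
    have h4 : (⌈C * Real.log X⌉₊ : ℝ) < C * Real.log X + 1 := Nat.ceil_lt_add_one (by positivity)
    have h5 : (z : ℝ) ≤ (C + 3) * Real.log X ^ 1 := by
      rw [hz]
      push_cast
      nlinarith
    have h6 : (z : ℝ) ≤ y := h5.trans (hX8.2.trans hy1)
    exact_mod_cast h6
  obtain ⟨D, hD0, hDL, hD2⟩ := hQ.disc
  have hVu : Vq Q y ≤ Cu * (2 * r) ^ 2 * Real.log z ^ 2 / Real.log X ^ 2 := by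
    refine (hVup Q D hD0 hQ.adm hD2 z y hz2 hzy (hDL.trans hzr)).trans ?_
    rw [div_pow, mul_assoc, mul_div_assoc]
    apply mul_le_mul_of_nonneg_left _ hCu.le
    rw [div_le_div_iff₀ (by positivity) (by positivity)]
    have h1 : Real.log X ≤ 2 * r * Real.log y := by
      rw [div_le_iff₀ (by positivity)] at hy2
      linarith
    have h2 : Real.log X ^ 2 ≤ (2 * r * Real.log y) ^ 2 := pow_le_pow_left₀ hL0.le h1 2
    calc Real.log z ^ 2 * Real.log X ^ 2 ≤ Real.log z ^ 2 * (2 * r * Real.log y) ^ 2 :=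
          mul_le_mul_of_nonneg_left h2 (sq_nonneg _)
      _ = _ := by ring
  have hVκ : Vq Q y ≤ κ := by
    refine hVu.trans ?_
    rw [div_le_iff₀ (by positivity)]
    rw [div_mul_eq_mul_div, div_le_iff₀ hκ] at hX7
    calc Cu * (2 * r) ^ 2 * Real.log z ^ 2 ≤ Real.log X * κ := hX7
      _ = κ * Real.log X * 1 := by ring
      _ ≤ κ * Real.log X * Real.log X := mul_le_mul_of_nonneg_left hL1 (by positivity)
      _ = κ * Real.log X ^ 2 := by ring
  -- the sizes of the squareroots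
  have hsY : (X : ℝ) ^ (θ / 2) ≤ √(Y : ℝ) := by
    apply Real.le_sqrt_of_sq_le
    refine le_trans (le_of_eq ?_) hXY
    rw [← Real.rpow_natCast, ← Real.rpow_mul hXpos.le]
    congr 1
    push_cast
    ring
  have hsY2 : M * Real.log X ^ k ≤ √(Y : ℝ) := hX5.trans hsY
  have hs0 : 0 < √(Y : ℝ) := lt_of_lt_of_le (by positivity) hsY2
  have hsq : √(Y : ℝ) * √(Y : ℝ) = Y := Real.mul_self_sqrt (Nat.cast_nonneg Y)
  have hMv : M * v ≤ √(Y : ℝ) * Vq Q y := by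
    calc M * v = (M * Real.log X ^ k) * (v / Real.log X ^ k) := by field_simp
      _ ≤ √(Y : ℝ) * Vq Q y := mul_le_mul hsY2 hVlow (by positivity) hs0.le
  have hMv2 : M * v = 1 / κ + (x1 / κ + 1) := by
    rw [hM]
    field_simp
  rw [hMv2] at hMv
  have hx1κ : 0 < x1 / κ := by positivity
  have hκ1 : 0 < 1 / κ := by positivity
  refine hgap Q Z Y y hQ.per hQ.adm hyy0 hyK hVκ ?_ ?_ ?_ l T hlT
  · have h1 : 1 / κ ≤ √(Y : ℝ) * Vq Q y := by linarith
    rw [div_le_iff₀ hκ] at h1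
    calc √(Y : ℝ) = √(Y : ℝ) * 1 := (mul_one _).symm
      _ ≤ √(Y : ℝ) * (√(Y : ℝ) * Vq Q y * κ) := mul_le_mul_of_nonneg_left h1 hs0.le
      _ = κ * ((√(Y : ℝ) * √(Y : ℝ)) * Vq Q y) := by ring
      _ = κ * (Y * Vq Q y) := by rw [hsq]
  · have h1 : x1 / κ ≤ (√(Y : ℝ) * Vq Q y) ^ 2 := by nlinarith
    rw [div_le_iff₀ hVpos]
    rw [div_le_iff₀ hκ] at h1
    calc x1 ≤ (√(Y : ℝ) * Vq Q y) ^ 2 * κ := h1
      _ = κ * ((√(Y : ℝ) * √(Y : ℝ)) * Vq Q y) * Vq Q y := by ring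
      _ = κ * (Y * Vq Q y) * Vq Q y := by rw [hsq]
  -- the coincidences
  · intro T hT1 hT2
    have hTr0 : (0 : ℝ) ≤ T := Nat.cast_nonneg _
    have hTup : (T : ℝ) ≤ Real.log X ^ (k + 1) := by
      have h1 : (T : ℝ) * (v / Real.log X ^ k) ≤ x1 :=
        (mul_le_mul_of_nonneg_left hVlow hTr0).trans hT2
      have h2 : (T : ℝ) ≤ x1 / v * Real.log X ^ k := by
        rw [div_mul_eq_mul_div, le_div_iff₀ hv]
        calc (T : ℝ) * v = T * (v / Real.log X ^ k) * Real.log X ^ k := by field_simp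
          _ ≤ x1 * Real.log X ^ k := mul_le_mul_of_nonneg_right h1 (by positivity)
      refine h2.trans ?_
      rw [pow_succ, mul_comm (Real.log (X : ℝ) ^ k)]
      apply mul_le_mul_of_nonneg_right _ (by positivity)
      linarith
    have hTlow : (2 * C / η' + T0 + 1) * Real.log X ≤ T := by
      have h1 : κ ≤ T * (Cu * (2 * r) ^ 2 * Real.log z ^ 2 / Real.log X ^ 2) :=
        hT1.trans (mul_le_mul_of_nonneg_left hVu hTr0)
      have hlz : 0 < Real.log z := Real.log_pos (by exact_mod_cast (by omega : 1 < z))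
      have hq0 : 0 < Cu * (2 * r : ℝ) ^ 2 * Real.log z ^ 2 := by positivity
      have h2 : κ * Real.log X ^ 2 ≤ T * (Cu * (2 * r) ^ 2 * Real.log z ^ 2) := by
        rw [← mul_div_assoc, le_div_iff₀ (by positivity)] at h1
        exact h1
      -- log z ^ 2 is small
      have h3 : Cu * (2 * r) ^ 2 * Real.log z ^ 2 * (2 * C / η' + T0 + 1) ≤ κ * Real.log X := by
        rw [hA] at hX6
        have e : Cu * (2 * (r : ℝ)) ^ 2 / κ * (2 * C / η' + T0 + 1) * Real.log z ^ 2 =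
          (Cu * (2 * r) ^ 2 * Real.log z ^ 2 * (2 * C / η' + T0 + 1)) / κ := by
          field_simp
        rw [e, div_le_iff₀ hκ] at hX6
        linarith
      by_contra hcon
      rw [not_le] at hcon
      have h4 : T * (Cu * (2 * r) ^ 2 * Real.log z ^ 2) <
          (2 * C / η' + T0 + 1) * Real.log X * (Cu * (2 * r) ^ 2 * Real.log z ^ 2) :=
        mul_lt_mul_of_pos_right hcon hq0
      have h5 : (2 * C / η' + T0 + 1) * Real.log X * (Cu * (2 * r) ^ 2 * Real.log z ^ 2) ≤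
          κ * Real.log X * Real.log X := by
        calc _ = Cu * (2 * r) ^ 2 * Real.log z ^ 2 * (2 * C / η' + T0 + 1) * Real.log X := by ring
          _ ≤ _ := mul_le_mul_of_nonneg_right h3 hL0.le
      have h6 : κ * Real.log X ^ 2 = κ * Real.log X * Real.log X := by ring
      linarith
    have hT0 : T0 ≤ T := by
      have h1 : (T0 : ℝ) ≤ T := by
        refine le_trans ?_ hTlow
        have h2 : 0 < 2 * C / η' := by positivity
        have h3 : (0 : ℝ) ≤ T0 := Nat.cast_nonneg _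
        have h4 : (2 * C / η' + T0 + 1) * 1 ≤ (2 * C / η' + T0 + 1) * Real.log X :=
          mul_le_mul_of_nonneg_left hL1 (by positivity)
        linarith
      exact_mod_cast h1
    refine ⟨hT0, ?_, ?_⟩
    · have h3 : ((T ^ R0 : ℕ) : ℝ) ≤ Y := by
        push_cast
        calc (T : ℝ) ^ R0 ≤ (Real.log X ^ (k + 1)) ^ R0 := pow_le_pow_left₀ hTr0 hTup _
          _ = 1 * Real.log X ^ ((k + 1) * R0) := by rw [one_mul, pow_mul]
          _ ≤ (X : ℝ) ^ θ := hX4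
          _ ≤ Y := hXY
      exact_mod_cast h3
    · intro t ht
      rw [mem_Icc] at ht
      have htr : (t : ℝ) ≤ T := by exact_mod_cast ht.2
      obtain ⟨F, hF0, hFL, hFp⟩ := hQ.co t ht.1 (htr.trans hTup)
      have hcard := card_le_log ((pz y).filter (fun p : ℕ => T < p ∧ CoG Q p t)) F hF0 (fun p hp => by
        rw [mem_filter, mem_pz] at hp
        exact ⟨hp.1.2, hFp p hp.1.2 (lt_of_le_of_lt ht.2 hp.2.1) hp.2.2⟩)
      have h4 := Real.log_two_gt_d9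
      have h5 : (0 : ℝ) ≤ (((pz y).filter (fun p : ℕ => T < p ∧ CoG Q p t)).card : ℝ) :=
        Nat.cast_nonneg _
      have h6 : (((pz y).filter (fun p : ℕ => T < p ∧ CoG Q p t)).card : ℝ) ≤ 2 * (C * Real.log X) := by
        nlinarith
      refine h6.trans ?_
      have h7 : η' * ((2 * C / η' + T0 + 1) * Real.log X) ≤ η' * T :=
        mul_le_mul_of_nonneg_left hTlow hη'.le
      refine le_trans ?_ h7
      have h8 : η' * ((2 * C / η' + T0 + 1) * Real.log X) =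
          2 * (C * Real.log X) + η' * (T0 + 1) * Real.log X := by
        field_simp
        ring
      rw [h8]
      have : 0 ≤ η' * (T0 + 1) * Real.log X := by positivity
      linarith

end Pool.Agent.Y859.SP
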