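import Pool.Agent.Y859.SP.Exc2
import Pool.Agent.Y859.SP.Unif

set_option autoImplicit false

/-!
# The gap laws, uniformly in the conditions, with a few exceptional differences
-/

namespace Pool.Agent.Y859.SP

open Finset Filter
open Pool.Agent.W123.RP Pool.Agent.H373R2.T7 Pool.Agent.W123.RU
open Pool.Agent.TH464.PW Pool.Agent.TH464.PO

lemma exp_le_fac (p : ℝ) (hp2 : 2 ≤ p) : Real.exp (-(2 / p)) ≤ 1 - 1 / p := by
  have hp0 : 0 < p := by linarith
  have h3 : 0 ≤ 1 - 1 / p := by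
    rw [sub_nonneg, div_le_one hp0]
    linarith
  have h4 : 1 + 2 / p ≤ Real.exp (2 / p) := by
    have := Real.add_one_le_exp (2 / p)
    linarith
  have h5 : 1 ≤ (1 - 1 / p) * Real.exp (2 / p) := by
    have h6 : 1 ≤ (1 - 1 / p) * (1 + 2 / p) := by
      have e : (1 - 1 / p) * (1 + 2 / p) = 1 + (p - 2) / p ^ 2 := by
        field_simp
        ring
      rw [e]
      have : 0 ≤ (p - 2) / p ^ 2 := div_nonneg (by linarith) (by positivity)
      linarith
    exact h6.trans (mul_le_mul_of_nonneg_left h4 h3)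
  rw [Real.exp_neg, inv_eq_one_div, div_le_iff₀ (Real.exp_pos _)]
  exact h5

open Classical in
/-- a product over the primes not dividing `E` -/
lemma prod_excl : ∃ C : ℝ, 0 < C ∧ ∀ E : ℕ, E ≠ 0 → ∀ z y : ℕ, 2 ≤ z → z ≤ y → Real.log E ≤ z →
    ∏ p ∈ (pz y).filter (fun p => ¬ p ∣ E), (1 - 1 / (p : ℝ)) ≤ C * (Real.log z / Real.log y) := by
  obtain ⟨c, C, hc, hC, hV⟩ := Vz_bounds
  refine ⟨Real.exp 4 * (C / c), by positivity, ?_⟩
  intro E hE z y hz hzy hEz
  have hz0 : (0 : ℝ) < z := by exact_mod_cast (by omega : 0 < z)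
  have hfac : ∀ p ∈ pz y, (0 : ℝ) < 1 - 1 / (p : ℝ) ∧ 1 - 1 / (p : ℝ) ≤ 1 := by
    intro p hp
    have : (2 : ℝ) ≤ p := by exact_mod_cast (mem_pz.1 hp).2.two_le
    constructor
    · rw [sub_pos, div_lt_one (by linarith)]
      linarith
    · have : 0 ≤ 1 / (p : ℝ) := by positivity
      linarith
  obtain ⟨G, hG⟩ : ∃ G : ℝ, G = ∏ p ∈ (pz y).filter (fun p => z < p ∧ p ∣ E), (1 - 1 / (p : ℝ)) :=
    ⟨_, rfl⟩
  have hprod : (∏ p ∈ (pz y).filter (fun p => ¬ p ∣ E), (1 - 1 / (p : ℝ))) * (Vz z * G) ≤ Vz y := by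
    have e1 : Vz z = ∏ p ∈ (pz y).filter (fun p => p ≤ z), (1 - 1 / (p : ℝ)) := by
      unfold Vz
      apply Finset.prod_congr _ (fun _ _ => rfl)
      ext p
      rw [mem_filter, mem_pz, mem_pz]
      constructor
      · rintro ⟨h1, h2⟩
        exact ⟨⟨by omega, h2⟩, h1⟩
      · rintro ⟨⟨_, h2⟩, h1⟩
        exact ⟨h1, h2⟩
    rw [e1, hG, Finset.prod_filter, Finset.prod_filter, Finset.prod_filter,
      ← Finset.prod_mul_distrib, ← Finset.prod_mul_distrib]
    unfold Vz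
    apply Finset.prod_le_prod
    · intro p hp
      have h4 := hfac p hp
      apply mul_nonneg
      · split_ifs <;> linarith [h4.1]
      · apply mul_nonneg <;> split_ifs <;> linarith [h4.1]
    · intro p hp
      have h4 := hfac p hp
      by_cases ha : p ≤ z
      · rw [if_pos ha, if_neg (by omega : ¬ (z < p ∧ p ∣ E)), mul_one]
        have h5 := mul_le_mul_of_nonneg_left h4.2 h4.1.le
        rw [mul_one] at h5
        split_ifs
        · simp
        · linarith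
      · rw [if_neg ha, one_mul]
        by_cases hb : p ∣ E
        · rw [if_neg (not_not.2 hb), if_pos ⟨by omega, hb⟩, one_mul]
        · rw [if_pos hb, if_neg (fun h => hb h.2), mul_one]
  have hGlow : Real.exp (-4) ≤ G := by
    have hcard : (((pz y).filter (fun p => z < p ∧ p ∣ E)).card : ℝ) ≤ 2 * z := by
      have h3 := card_le_log ((pz y).filter (fun p => z < p ∧ p ∣ E)) E hE (fun p hp => by
        rw [mem_filter, mem_pz] at hp
        exact ⟨hp.1.2, hp.2.2⟩)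
      have h4 := Real.log_two_gt_d9
      have h5 : (0 : ℝ) ≤ (((pz y).filter (fun p => z < p ∧ p ∣ E)).card : ℝ) := Nat.cast_nonneg _
      nlinarith
    calc Real.exp (-4) ≤ Real.exp (-(2 / z)) ^ ((pz y).filter (fun p => z < p ∧ p ∣ E)).card := by
          rw [← Real.exp_nat_mul]
          apply Real.exp_le_exp.2
          have : (((pz y).filter (fun p => z < p ∧ p ∣ E)).card : ℝ) * (2 / z) ≤ 4 := by
            rw [← mul_div_assoc, div_le_iff₀ hz0]
            linarith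
          linarith
      _ = ∏ p ∈ (pz y).filter (fun p => z < p ∧ p ∣ E), Real.exp (-(2 / z)) := by
          rw [Finset.prod_const]
      _ ≤ G := by
          rw [hG]
          apply Finset.prod_le_prod
          · intro p _
            exact (Real.exp_pos _).le
          · intro p hp
            rw [mem_filter] at hp
            have hp2 : (2 : ℝ) ≤ p := by exact_mod_cast (mem_pz.1 hp.1).2.two_le
            have hzp : (z : ℝ) ≤ p := by exact_mod_cast hp.2.1.le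
            have hp0 : (0 : ℝ) < p := by linarith
            calc Real.exp (-(2 / z)) ≤ Real.exp (-(2 / p)) := by
                  apply Real.exp_le_exp.2
                  apply neg_le_neg
                  gcongr
              _ ≤ 1 - 1 / (p : ℝ) := exp_le_fac p hp2
  have hlz : 0 < Real.log z := Real.log_pos (by exact_mod_cast (by omega : 1 < z))
  have hly : 0 < Real.log y := Real.log_pos (by exact_mod_cast (by omega : 1 < y))
  have hz1 := (hV z hz).1
  have hy1 := (hV y (by omega)).2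
  obtain ⟨P, hP⟩ : ∃ P, P = ∏ p ∈ (pz y).filter (fun p => ¬ p ∣ E), (1 - 1 / (p : ℝ)) := ⟨_, rfl⟩
  rw [← hP] at hprod ⊢
  have hP0 : 0 ≤ P := by
    rw [hP]
    exact Finset.prod_nonneg fun p hp => (hfac p (mem_filter.1 hp).1).1.le
  have hVz0 : 0 ≤ Vz z := le_trans (by positivity) hz1
  have h3 : P * ((c / Real.log z) * Real.exp (-4)) ≤ C / Real.log y := by
    calc P * ((c / Real.log z) * Real.exp (-4)) ≤ P * (Vz z * G) := by gcongr
      _ ≤ Vz y := hprod
      _ ≤ C / Real.log y := hy1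
  have he : Real.exp (-4) * Real.exp 4 = 1 := by rw [← Real.exp_add]; simp
  calc P = P * ((c / Real.log z) * Real.exp (-4)) * (Real.exp 4 * (Real.log z / c)) := by
        have : (c / Real.log z) * Real.exp (-4) * (Real.exp 4 * (Real.log z / c)) =
          (Real.exp (-4) * Real.exp 4) * ((c / Real.log z) * (Real.log z / c)) := by ring
        rw [mul_assoc, this, he]
        field_simp
    _ ≤ (C / Real.log y) * (Real.exp 4 * (Real.log z / c)) :=
        mul_le_mul_of_nonneg_right h3 (by positivity)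
    _ = _ := by
        field_simp

open Classical in
/-- one more class for most primes -/
lemma Vq_insert_le (Q : ℕ → ℕ → Prop) (H : Finset ℕ) (b y E : ℕ)
    (h : ∀ p : ℕ, p.Prime → ¬ p ∣ E → nuB (QH Q H) p < nuB (QH Q (insert b H)) p) :
    Vq (QH Q (insert b H)) y ≤
      (∏ p ∈ (pz y).filter (fun p => ¬ p ∣ E), (1 - 1 / (p : ℝ))) * Vq (QH Q H) y := by
  rw [Finset.prod_filter]
  unfold Vq
  rw [← Finset.prod_mul_distrib]
  apply Finset.prod_le_prod
  · intro p hp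
    exact one_sub_nonneg _ p (mem_pz.1 hp).2
  · intro p hp
    have hpp := (mem_pz.1 hp).2
    have hp0 : (0 : ℝ) < p := by exact_mod_cast hpp.pos
    have hmono : nuB (QH Q H) p ≤ nuB (QH Q (insert b H)) p := by
      unfold nuB
      apply card_le_card
      intro r hr
      rw [mem_filter] at hr ⊢
      obtain ⟨h1, a, ha, h2⟩ := hr
      exact ⟨h1, a, mem_insert_of_mem ha, h2⟩
    split_ifs with hd
    · rw [one_mul]
      apply sub_le_sub_left
      apply div_le_div_of_nonneg_right _ hp0.le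
      exact_mod_cast hmono
    · have h1 := h p hpp hd
      have h2 : (nuB (QH Q H) p : ℝ) + 1 ≤ nuB (QH Q (insert b H)) p := by exact_mod_cast h1
      have h3 : ((nuB (QH Q H) p : ℝ) + 1) / p ≤ (nuB (QH Q (insert b H)) p : ℝ) / p := by gcongr
      have h4 : (1 - 1 / (p : ℝ)) * (1 - (nuB (QH Q H) p : ℝ) / p) =
          1 - ((nuB (QH Q H) p : ℝ) + 1) / p + (nuB (QH Q H) p : ℝ) / p ^ 2 := by
        field_simp
        ring
      have h5 : 0 ≤ (nuB (QH Q H) p : ℝ) / p ^ 2 := by positivity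
      rw [h4]
      linarith

/-- uniform control of the conditions at the scale `L = log X`, with exceptional differences -/
structure CtlX (Q : ℕ → ℕ → Prop) (k d : ℕ) (C : ℝ) (C1 : ℕ → ℝ) (L : ℝ) : Prop where
  per : PerB Q k
  adm : ∀ p : ℕ, p.Prime → nuB Q p < p
  disc : ∃ D : ℕ, D ≠ 0 ∧ Real.log D ≤ C * L ∧ ∀ p : ℕ, p.Prime → ¬ p ∣ D → 2 ≤ nuB Q p
  exc : ∃ D : Finset ℕ, D.card ≤ d ∧
    (∀ t : ℕ, 1 ≤ t → (t : ℝ) ≤ L ^ (k + 1) → t ∉ D → ∃ F : ℕ, F ≠ 0 ∧ Real.log F ≤ C * L ∧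
      ∀ p : ℕ, p.Prime → t < p → CoG Q p t → p ∣ F) ∧
    ∀ (R : ℕ) (H : Finset ℕ), (∀ h ∈ H, (h : ℝ) ≤ L ^ (k + 1)) → H.card ≤ R → Gd D H →
      ∀ b : ℕ, (b : ℝ) ≤ L ^ (k + 1) → b ∉ H → ∃ E : ℕ, E ≠ 0 ∧ Real.log E ≤ C1 R * L ∧
        ∀ p : ℕ, p.Prime → ¬ p ∣ E → nuB (QH Q H) p < nuB (QH Q (insert b H)) p

open Classical in
/-- **The gap laws**, uniformly in the conditions, with exceptional differences. -/
theorem gap_unif_exc (k d : ℕ) (hk : 1 ≤ k) (C θ : ℝ) (C1 : ℕ → ℝ) (hC : 0 < C)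
    (hC1 : ∀ R, 0 < C1 R) (hθ : 0 < θ) (k0 : ℕ) (x0 ε : ℝ) (hε : 0 < ε) :
    ∃ r0 : ℕ, ∀ r : ℕ, r0 ≤ r → ∀ᶠ X : ℕ in atTop, ∀ Q : ℕ → ℕ → Prop,
      CtlX Q k d C C1 (Real.log X) →
      ∀ Z Y : ℕ, (X : ℝ) ^ θ ≤ Y →
      ∀ l T : ℕ, (l ≤ k0 ∨ T * Vq Q ⌊(X : ℝ) ^ (1 / (r : ℝ))⌋₊ ≤ x0) →
        |(Pk (Sf Q ⌊(X : ℝ) ^ (1 / (r : ℝ))⌋₊) l T Z Y : ℝ) -
          Y * Vq Q ⌊(X : ℝ) ^ (1 / (r : ℝ))⌋₊ * Ck l (T * Vq Q ⌊(X : ℝ) ^ (1 / (r : ℝ))⌋₊)| ≤
          ε * (Y * Vq Q ⌊(X : ℝ) ^ (1 / (r : ℝ))⌋₊) := by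
  obtain ⟨K0, y0, T0, R0, R, η', δ0, κ, x1, hη', hδ0, hκ, hx1, hgap⟩ :=
    gen_gap_exc k d hk k0 x0 ε hε
  obtain ⟨v, hv, hVlo⟩ := V_lower_unif k
  obtain ⟨Cu, hCu, hVup⟩ := V_upper_unif
  obtain ⟨Cp, hCp, hpr⟩ := prod_excl
  obtain ⟨R1, hR1⟩ : ∃ R1 : ℕ, (K0 : ℝ) / θ ≤ R1 := exists_nat_ge _
  refine ⟨max R1 2, ?_⟩
  intro r hr
  have hr2 : 2 ≤ r := (le_max_right _ _).trans hr
  have hrr : (2 : ℝ) ≤ r := by exact_mod_cast hr2
  have hrpos : (0 : ℝ) < r := by linarith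
  have hrK : (K0 : ℝ) ≤ θ * r := by
    have h1 : (K0 : ℝ) / θ ≤ r := hR1.trans (by exact_mod_cast (le_max_left _ _).trans hr)
    rw [div_le_iff₀ hθ] at h1
    linarith
  have hXr : Tendsto (fun X : ℕ => (X : ℝ)) atTop atTop := tendsto_natCast_atTop_atTop
  have hpow2 : Tendsto (fun X : ℕ => (X : ℝ) ^ (1 / (2 * r : ℝ))) atTop atTop :=
    (tendsto_rpow_atTop (by positivity)).comp hXr
  have hlogX : Tendsto (fun X : ℕ => Real.log (X : ℝ)) atTop atTop :=
    Real.tendsto_log_atTop.comp hXr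
  obtain ⟨M, hM⟩ : ∃ M : ℝ, M = 1 / (κ * v) + (x1 / κ + 1) / v := ⟨_, rfl⟩
  have hM0 : 0 < M := by rw [hM]; positivity
  -- the constants of the upper bounds
  obtain ⟨A, hA⟩ : ∃ A : ℝ, A = Cu * (2 * r) ^ 2 / κ * (2 * C / η' + T0 + 1) := ⟨_, rfl⟩
  have hA0 : 0 < A := by rw [hA]; positivity
  obtain ⟨B, hB⟩ : ∃ B : ℝ, B = 2 * (Cp * (2 * r) / δ0) := ⟨_, rfl⟩
  have hB0 : 0 < B := by rw [hB]; positivity
  filter_upwards [hpow2.eventually_ge_atTop ((y0 : ℝ) + 3), eventually_ge_atTop 16,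
    (hlogX.eventually_ge_atTop (x1 / v + 1)).and (hlogX.eventually_ge_atTop B),
    logpow_rpow ((k + 1) * R0) 1 θ one_pos hθ,
    logpow_rpow k M (θ / 2) hM0 (by positivity),
    log_sq_small C A hC hA0,
    log_sq_small C (Cu * (2 * r) ^ 2 / κ) hC (by positivity),
    (logpow_rpow 1 (C + 3) (1 / (2 * r)) (by linarith) (by positivity)).and
      (logpow_rpow 1 (C1 R + 3) (1 / (2 * r)) (by linarith [hC1 R]) (by positivity)),
    log_sq_small (C1 R) B (hC1 R) hB0] with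
    X hX1 hX16 hX3' hX4 hX5 hX6 hX7 hX8 hX9
  obtain ⟨hX3, hXB⟩ := hX3'
  intro Q hQ Z Y hXY l T hlT
  have hX16r : (16 : ℝ) ≤ X := by exact_mod_cast hX16
  have hXpos : (0 : ℝ) < X := by linarith
  have hXone : (1 : ℝ) ≤ X := by linarith
  have hy0r : (0 : ℝ) ≤ y0 := Nat.cast_nonneg _
  obtain ⟨hy1, hy2, hy3, hy4⟩ := level_low r hr2 X (by omega) (by linarith)
  obtain ⟨y, hy⟩ : ∃ y, y = ⌊(X : ℝ) ^ (1 / (r : ℝ))⌋₊ := ⟨_, rfl⟩
  rw [← hy] at hy1 hy2 hy3 hy4 hlT ⊢
  have hyr : (y0 : ℝ) + 3 ≤ y := hX1.trans hy1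
  have hyy0 : y0 ≤ y := by
    have : (y0 : ℝ) ≤ y := by linarith
    exact_mod_cast this
  have hL0 : 0 < Real.log X := by
    have : 0 < x1 / v := by positivity
    linarith
  have hL1 : 1 ≤ Real.log X := by
    have : 0 < x1 / v := by positivity
    linarith
  have hlogy : 0 < Real.log y := lt_of_lt_of_le (by positivity) hy2
  have hLy : Real.log X ≤ 2 * r * Real.log y := by
    rw [div_le_iff₀ (by positivity)] at hy2
    linarith
  have hyK : y ^ K0 ≤ Y := by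
    have h3 : ((y ^ K0 : ℕ) : ℝ) ≤ Y := by
      push_cast
      calc (y : ℝ) ^ K0 ≤ ((X : ℝ) ^ (1 / (r : ℝ))) ^ K0 := by
            apply pow_le_pow_left₀ (Nat.cast_nonneg _)
            rw [hy]
            exact Nat.floor_le (by positivity)
        _ = (X : ℝ) ^ (1 / (r : ℝ) * K0) := by
            rw [Real.rpow_mul hXpos.le, Real.rpow_natCast]
        _ ≤ (X : ℝ) ^ θ := by
            apply Real.rpow_le_rpow_of_exponent_le hXone
            rw [one_div, inv_mul_eq_div, div_le_iff₀ hrpos]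
            exact hrK
        _ ≤ Y := hXY
    exact_mod_cast h3
  -- bounds for the density
  have hVpos : 0 < Vq Q y := Vq_pos Q hQ.adm y
  have hVlow : v / Real.log X ^ k ≤ Vq Q y := by
    refine le_trans ?_ (hVlo Q hQ.per hQ.adm y hy4)
    apply div_le_div_of_nonneg_left hv.le (by positivity)
    exact pow_le_pow_left₀ hlogy.le hy3 k
  have hzprop : ∀ c : ℝ, 0 < c → (c + 3) * Real.log X ^ 1 ≤ (X : ℝ) ^ (1 / (2 * r : ℝ)) →
      2 ≤ ⌈c * Real.log X⌉₊ + 2 ∧ ⌈c * Real.log X⌉₊ + 2 ≤ y ∧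
        c * Real.log X ≤ ((⌈c * Real.log X⌉₊ + 2 : ℕ) : ℝ) := by
    intro c hc h8
    refine ⟨by omega, ?_, ?_⟩
    · have h4 : (⌈c * Real.log X⌉₊ : ℝ) < c * Real.log X + 1 := Nat.ceil_lt_add_one (by positivity)
      have h5 : ((⌈c * Real.log X⌉₊ + 2 : ℕ) : ℝ) ≤ (c + 3) * Real.log X ^ 1 := by
        push_cast
        nlinarith
      exact_mod_cast h5.trans (h8.trans hy1)
    · push_cast
      have := Nat.le_ceil (c * Real.log X)
      linarith
  obtain ⟨z, hz⟩ : ∃ z, z = ⌈C * Real.log X⌉₊ + 2 := ⟨_, rfl⟩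
  have hzz := hzprop C hC hX8.1
  rw [← hz] at hX6 hX7 hzz
  obtain ⟨hz2, hzy, hzr⟩ := hzz
  obtain ⟨D0, hD0, hDL, hD2⟩ := hQ.disc
  have hVu : Vq Q y ≤ Cu * (2 * r) ^ 2 * Real.log z ^ 2 / Real.log X ^ 2 := by
    refine (hVup Q D0 hD0 hQ.adm hD2 z y hz2 hzy (hDL.trans hzr)).trans ?_
    rw [div_pow, mul_assoc, mul_div_assoc]
    apply mul_le_mul_of_nonneg_left _ hCu.le
    rw [div_le_div_iff₀ (by positivity) (by positivity)]
    have h2 : Real.log X ^ 2 ≤ (2 * r * Real.log y) ^ 2 := pow_le_pow_left₀ hL0.le hLy 2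
    calc Real.log z ^ 2 * Real.log X ^ 2 ≤ Real.log z ^ 2 * (2 * r * Real.log y) ^ 2 :=
          mul_le_mul_of_nonneg_left h2 (sq_nonneg _)
      _ = _ := by ring
  have hVκ : Vq Q y ≤ κ := by
    refine hVu.trans ?_
    rw [div_le_iff₀ (by positivity)]
    rw [div_mul_eq_mul_div, div_le_iff₀ hκ] at hX7
    calc Cu * (2 * r) ^ 2 * Real.log z ^ 2 ≤ Real.log X * κ := hX7
      _ = κ * Real.log X * 1 := by ring
      _ ≤ κ * Real.log X * Real.log X := mul_le_mul_of_nonneg_left hL1 (by positivity)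
      _ = κ * Real.log X ^ 2 := by ring
  -- the sizes of the squareroots
  have hsY : (X : ℝ) ^ (θ / 2) ≤ √(Y : ℝ) := by
    apply Real.le_sqrt_of_sq_le
    refine le_trans (le_of_eq ?_) hXY
    rw [← Real.rpow_natCast, ← Real.rpow_mul hXpos.le]
    congr 1
    push_cast
    ring
  have hsY2 : M * Real.log X ^ k ≤ √(Y : ℝ) := hX5.trans hsY
  have hs0 : 0 < √(Y : ℝ) := lt_of_lt_of_le (by positivity) hsY2
  have hsq : √(Y : ℝ) * √(Y : ℝ) = Y := Real.mul_self_sqrt (Nat.cast_nonneg Y)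
  have hMv : M * v ≤ √(Y : ℝ) * Vq Q y := by
    calc M * v = (M * Real.log X ^ k) * (v / Real.log X ^ k) := by field_simp
      _ ≤ √(Y : ℝ) * Vq Q y := mul_le_mul hsY2 hVlow (by positivity) hs0.le
  have hMv2 : M * v = 1 / κ + (x1 / κ + 1) := by
    rw [hM]
    field_simp
  rw [hMv2] at hMv
  have hx1κ : 0 < x1 / κ := by positivity
  have hκ1 : 0 < 1 / κ := by positivity
  obtain ⟨D, hDd, hDco, hDinc⟩ := hQ.exc
  refine hgap Q Z Y y hQ.per hQ.adm hyy0 hyK hVκ ?_ ?_ D hDd ?_ l T hlT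
  · have h1 : 1 / κ ≤ √(Y : ℝ) * Vq Q y := by linarith
    rw [div_le_iff₀ hκ] at h1
    calc √(Y : ℝ) = √(Y : ℝ) * 1 := (mul_one _).symm
      _ ≤ √(Y : ℝ) * (√(Y : ℝ) * Vq Q y * κ) := mul_le_mul_of_nonneg_left h1 hs0.le
      _ = κ * ((√(Y : ℝ) * √(Y : ℝ)) * Vq Q y) := by ring
      _ = κ * (Y * Vq Q y) := by rw [hsq]
  · have h1 : x1 / κ ≤ (√(Y : ℝ) * Vq Q y) ^ 2 := by nlinarith
    rw [div_le_iff₀ hVpos]
    rw [div_le_iff₀ hκ] at h1
    calc x1 ≤ (√(Y : ℝ) * Vq Q y) ^ 2 * κ := h1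
      _ = κ * ((√(Y : ℝ) * √(Y : ℝ)) * Vq Q y) * Vq Q y := by ring
      _ = κ * (Y * Vq Q y) * Vq Q y := by rw [hsq]
  -- the coincidences
  · intro T hT1 hT2
    have hTr0 : (0 : ℝ) ≤ T := Nat.cast_nonneg _
    have hTup : (T : ℝ) ≤ Real.log X ^ (k + 1) := by
      have h1 : (T : ℝ) * (v / Real.log X ^ k) ≤ x1 :=
        (mul_le_mul_of_nonneg_left hVlow hTr0).trans hT2
      have h2 : (T : ℝ) ≤ x1 / v * Real.log X ^ k := by
        rw [div_mul_eq_mul_div, le_div_iff₀ hv]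
        calc (T : ℝ) * v = T * (v / Real.log X ^ k) * Real.log X ^ k := by field_simp
          _ ≤ x1 * Real.log X ^ k := mul_le_mul_of_nonneg_right h1 (by positivity)
      refine h2.trans ?_
      rw [pow_succ, mul_comm (Real.log (X : ℝ) ^ k)]
      apply mul_le_mul_of_nonneg_right _ (by positivity)
      linarith
    have hTlow : (2 * C / η' + T0 + 1) * Real.log X ≤ T := by
      have h1 : κ ≤ T * (Cu * (2 * r) ^ 2 * Real.log z ^ 2 / Real.log X ^ 2) :=
        hT1.trans (mul_le_mul_of_nonneg_left hVu hTr0)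
      have hlz : 0 < Real.log z := Real.log_pos (by exact_mod_cast (by omega : 1 < z))
      have hq0 : 0 < Cu * (2 * r : ℝ) ^ 2 * Real.log z ^ 2 := by positivity
      have h2 : κ * Real.log X ^ 2 ≤ T * (Cu * (2 * r) ^ 2 * Real.log z ^ 2) := by
        rw [← mul_div_assoc, le_div_iff₀ (by positivity)] at h1
        exact h1
      -- log z ^ 2 is small
      have h3 : Cu * (2 * r) ^ 2 * Real.log z ^ 2 * (2 * C / η' + T0 + 1) ≤ κ * Real.log X := by
        rw [hA] at hX6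
        have e : Cu * (2 * (r : ℝ)) ^ 2 / κ * (2 * C / η' + T0 + 1) * Real.log z ^ 2 =
          (Cu * (2 * r) ^ 2 * Real.log z ^ 2 * (2 * C / η' + T0 + 1)) / κ := by
          field_simp
        rw [e, div_le_iff₀ hκ] at hX6
        linarith
      by_contra hcon
      rw [not_le] at hcon
      have h4 : T * (Cu * (2 * r) ^ 2 * Real.log z ^ 2) <
          (2 * C / η' + T0 + 1) * Real.log X * (Cu * (2 * r) ^ 2 * Real.log z ^ 2) :=
        mul_lt_mul_of_pos_right hcon hq0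
      have h5 : (2 * C / η' + T0 + 1) * Real.log X * (Cu * (2 * r) ^ 2 * Real.log z ^ 2) ≤
          κ * Real.log X * Real.log X := by
        calc _ = Cu * (2 * r) ^ 2 * Real.log z ^ 2 * (2 * C / η' + T0 + 1) * Real.log X := by ring
          _ ≤ _ := mul_le_mul_of_nonneg_right h3 hL0.le
      have h6 : κ * Real.log X ^ 2 = κ * Real.log X * Real.log X := by ring
      linarith
    have hT0 : T0 ≤ T := by
      have h1 : (T0 : ℝ) ≤ T := by
        refine le_trans ?_ hTlow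
        have h2 : 0 < 2 * C / η' := by positivity
        have h3 : (0 : ℝ) ≤ T0 := Nat.cast_nonneg _
        have h4 : (2 * C / η' + T0 + 1) * 1 ≤ (2 * C / η' + T0 + 1) * Real.log X :=
          mul_le_mul_of_nonneg_left hL1 (by positivity)
        linarith
      exact_mod_cast h1
    refine ⟨hT0, ?_, ?_, ?_⟩
    · have h3 : ((T ^ R0 : ℕ) : ℝ) ≤ Y := by
        push_cast
        calc (T : ℝ) ^ R0 ≤ (Real.log X ^ (k + 1)) ^ R0 := pow_le_pow_left₀ hTr0 hTup _
          _ = 1 * Real.log X ^ ((k + 1) * R0) := by rw [one_mul, pow_mul]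
          _ ≤ (X : ℝ) ^ θ := hX4
          _ ≤ Y := hXY
      exact_mod_cast h3
    · -- the increments
      intro H hHT hHR hHg b hb hbH
      rw [mem_Icc] at hb
      have hle : ∀ h : ℕ, h ≤ T → (h : ℝ) ≤ Real.log X ^ (k + 1) := by
        intro h hh
        have : (h : ℝ) ≤ T := by exact_mod_cast hh
        exact this.trans hTup
      obtain ⟨E, hE0, hEL, hEp⟩ := hDinc R H (fun h hh => hle h (mem_Icc.1 (hHT hh)).2) hHR hHg b
        (hle b hb.2) hbH
      refine (Vq_insert_le Q H b y E hEp).trans ?_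
      apply mul_le_mul_of_nonneg_right _ (Vq_nonneg _ _)
      obtain ⟨z', hz'⟩ : ∃ z', z' = ⌈C1 R * Real.log X⌉₊ + 2 := ⟨_, rfl⟩
      have hzz' := hzprop (C1 R) (hC1 R) hX8.2
      rw [← hz'] at hX9 hzz'
      obtain ⟨hz2', hzy', hzr'⟩ := hzz'
      refine (hpr E hE0 z' y hz2' hzy' (hEL.trans hzr')).trans ?_
      rw [← mul_div_assoc, div_le_iff₀ hlogy]
      have h4 : B * Real.log z' ≤ 2 * Real.log X := by
        nlinarith [sq_nonneg (Real.log z' - 1)]
      have h5 : Cp * (2 * r) * Real.log z' ≤ δ0 * Real.log X := by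
        rw [hB] at h4
        have e : 2 * (Cp * (2 * (r : ℝ)) / δ0) * Real.log z' =
          2 * ((Cp * (2 * r) * Real.log z') / δ0) := by ring
        rw [e] at h4
        have h6 : (Cp * (2 * (r : ℝ)) * Real.log z') / δ0 ≤ Real.log X := by linarith
        rw [div_le_iff₀ hδ0] at h6
        linarith
      have h6 : δ0 * Real.log X ≤ δ0 * (2 * r * Real.log y) :=
        mul_le_mul_of_nonneg_left hLy hδ0.le
      have h7 : (2 * (r : ℝ)) * (Cp * Real.log z') ≤ (2 * r) * (δ0 * Real.log y) := by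
        calc (2 * (r : ℝ)) * (Cp * Real.log z') = Cp * (2 * r) * Real.log z' := by ring
          _ ≤ δ0 * (2 * r * Real.log y) := h5.trans h6
          _ = _ := by ring
      exact le_of_mul_le_mul_left h7 (by positivity)
    · intro t ht htD
      rw [mem_Icc] at ht
      have htr : (t : ℝ) ≤ T := by exact_mod_cast ht.2
      obtain ⟨F, hF0, hFL, hFp⟩ := hDco t ht.1 (htr.trans hTup) htD
      have hcard := card_le_log ((pz y).filter (fun p : ℕ => T < p ∧ CoG Q p t)) F hF0 (fun p hp => by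
        rw [mem_filter, mem_pz] at hp
        exact ⟨hp.1.2, hFp p hp.1.2 (lt_of_le_of_lt ht.2 hp.2.1) hp.2.2⟩)
      have h4 := Real.log_two_gt_d9
      have h5 : (0 : ℝ) ≤ (((pz y).filter (fun p : ℕ => T < p ∧ CoG Q p t)).card : ℝ) :=
        Nat.cast_nonneg _
      have h6 : (((pz y).filter (fun p : ℕ => T < p ∧ CoG Q p t)).card : ℝ) ≤ 2 * (C * Real.log X) := by
        nlinarith
      refine h6.trans ?_
      have h7 : η' * ((2 * C / η' + T0 + 1) * Real.log X) ≤ η' * T :=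
        mul_le_mul_of_nonneg_left hTlow hη'.le
      refine le_trans ?_ h7
      have h8 : η' * ((2 * C / η' + T0 + 1) * Real.log X) =
          2 * (C * Real.log X) + η' * (T0 + 1) * Real.log X := by
        field_simp
        ring
      rw [h8]
      have : 0 ≤ η' * (T0 + 1) * Real.log X := by positivity
      linarith

end Pool.Agent.Y859.SP
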