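import Pool.Agent.Y859.SP.RecU

set_option autoImplicit false

/-!
# The gap laws, uniformly in all systems of small density
-/

namespace Pool.Agent.Y859.SP

open Finset Filter
open Pool.Agent.W123.RP Pool.Agent.H373R2.T7 Pool.Agent.W123.RU
open Pool.Agent.TH464.PW Pool.Agent.TH464.PO

/-- control of the coincidences at the scale `L = log X` -/
structure CtlU (Q : ℕ → ℕ → Prop) (k : ℕ) (C L : ℝ) : Prop where
  per : PerB Q k
  adm : ∀ p : ℕ, p.Prime → nuB Q p < p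
  co : ∀ t : ℕ, 1 ≤ t → (t : ℝ) ≤ L ^ (k + 1) → ∃ F : ℕ, F ≠ 0 ∧ Real.log F ≤ C * L ∧
    ∀ p : ℕ, p.Prime → t < p → CoG Q p t → p ∣ F

open Classical in
/-- **The gap laws**, uniformly in all systems of density at most `log (log X) ^ (-B)`. -/
theorem gap_unif_all (k : ℕ) (hk : 1 ≤ k) (C θ : ℝ) (hC : 0 < C) (hθ : 0 < θ) (k0 : ℕ) (x0 ε : ℝ)
    (hε : 0 < ε) :
    ∃ r0 B : ℕ, ∀ r : ℕ, r0 ≤ r → ∀ᶠ X : ℕ in atTop, ∀ Q : ℕ → ℕ → Prop, CtlU Q k C (Real.log X) →
      Real.log (Real.log X) ^ B * Vq Q ⌊(X : ℝ) ^ (1 / (r : ℝ))⌋₊ ≤ 1 →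
      ∀ Z Y : ℕ, (X : ℝ) ^ θ ≤ Y →
      ∀ l T : ℕ, (l ≤ k0 ∨ T * Vq Q ⌊(X : ℝ) ^ (1 / (r : ℝ))⌋₊ ≤ x0) →
        |(Pk (Sf Q ⌊(X : ℝ) ^ (1 / (r : ℝ))⌋₊) l T Z Y : ℝ) -
          Y * Vq Q ⌊(X : ℝ) ^ (1 / (r : ℝ))⌋₊ * Ck l (T * Vq Q ⌊(X : ℝ) ^ (1 / (r : ℝ))⌋₊)| ≤
          ε * (Y * Vq Q ⌊(X : ℝ) ^ (1 / (r : ℝ))⌋₊) := by
  obtain ⟨K0, y0, T0, R0, B0, η', κ, x1, hη', hκ, hx1, hgap⟩ := gen_gap3 k hk k0 x0 ε hε
  obtain ⟨v, hv, hVlo⟩ := V_lower_unif k
  obtain ⟨R1, hR1⟩ : ∃ R1 : ℕ, (K0 : ℝ) / θ ≤ R1 := exists_nat_ge _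
  refine ⟨max R1 2, B0 + 1, ?_⟩
  intro r hr
  have hr2 : 2 ≤ r := (le_max_right _ _).trans hr
  have hrr : (2 : ℝ) ≤ r := by exact_mod_cast hr2
  have hrpos : (0 : ℝ) < r := by linarith
  have hrK : (K0 : ℝ) ≤ θ * r := by
    have h1 : (K0 : ℝ) / θ ≤ r := hR1.trans (by exact_mod_cast (le_max_left _ _).trans hr)
    rw [div_le_iff₀ hθ] at h1
    linarith
  have hXr : Tendsto (fun X : ℕ => (X : ℝ)) atTop atTop := tendsto_natCast_atTop_atTop
  have hpow2 : Tendsto (fun X : ℕ => (X : ℝ) ^ (1 / (2 * r : ℝ))) atTop atTop :=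
    (tendsto_rpow_atTop (by positivity)).comp hXr
  have hlogX : Tendsto (fun X : ℕ => Real.log (X : ℝ)) atTop atTop :=
    Real.tendsto_log_atTop.comp hXr
  obtain ⟨M, hM⟩ : ∃ M : ℝ, M = 1 / (κ * v) + (x1 / κ + 1) / v := ⟨_, rfl⟩
  have hM0 : 0 < M := by rw [hM]; positivity
  have hloglog : Tendsto (fun X : ℕ => Real.log (Real.log (X : ℝ))) atTop atTop :=
    Real.tendsto_log_atTop.comp hlogX
  filter_upwards [hpow2.eventually_ge_atTop ((y0 : ℝ) + 3), eventually_ge_atTop 16,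
    hlogX.eventually_ge_atTop (x1 / v + 1),
    logpow_rpow ((k + 1) * R0) 1 θ one_pos hθ,
    logpow_rpow k M (θ / 2) hM0 (by positivity),
    hloglog.eventually_ge_atTop (((k : ℝ) + 3) ^ B0 / κ + T0 / κ + 1 / κ + 1),
    hlogX.eventually_ge_atTop (2 * C / η' + 3)] with
    X hX1 hX16 hX3 hX4 hX5 hX6 hX7
  intro Q hQ hVs Z Y hXY l T hlT
  have hX16r : (16 : ℝ) ≤ X := by exact_mod_cast hX16
  have hXpos : (0 : ℝ) < X := by linarith
  have hXone : (1 : ℝ) ≤ X := by linarith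
  have hy0r : (0 : ℝ) ≤ y0 := Nat.cast_nonneg _
  obtain ⟨hy1, hy2, hy3, hy4⟩ := level_low r hr2 X (by omega) (by linarith)
  obtain ⟨y, hy⟩ : ∃ y, y = ⌊(X : ℝ) ^ (1 / (r : ℝ))⌋₊ := ⟨_, rfl⟩
  rw [← hy] at hy1 hy2 hy3 hy4 hlT hVs ⊢
  have hyr : (y0 : ℝ) + 3 ≤ y := hX1.trans hy1
  have hyy0 : y0 ≤ y := by
    have : (y0 : ℝ) ≤ y := by linarith
    exact_mod_cast this
  have hL0 : 0 < Real.log X := by
    have : 0 < x1 / v := by positivity
    linarith
  have hL1 : 1 ≤ Real.log X := by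
    have : 0 < x1 / v := by positivity
    linarith
  have hlogy : 0 < Real.log y := lt_of_lt_of_le (by positivity) hy2
  have hyK : y ^ K0 ≤ Y := by
    have h3 : ((y ^ K0 : ℕ) : ℝ) ≤ Y := by
      push_cast
      calc (y : ℝ) ^ K0 ≤ ((X : ℝ) ^ (1 / (r : ℝ))) ^ K0 := by
            apply pow_le_pow_left₀ (Nat.cast_nonneg _)
            rw [hy]
            exact Nat.floor_le (by positivity)
        _ = (X : ℝ) ^ (1 / (r : ℝ) * K0) := by
            rw [Real.rpow_mul hXpos.le, Real.rpow_natCast]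
        _ ≤ (X : ℝ) ^ θ := by
            apply Real.rpow_le_rpow_of_exponent_le hXone
            rw [one_div, inv_mul_eq_div, div_le_iff₀ hrpos]
            exact hrK
        _ ≤ Y := hXY
    exact_mod_cast h3
  -- bounds for the density
  have hVpos : 0 < Vq Q y := Vq_pos Q hQ.adm y
  have hVlow : v / Real.log X ^ k ≤ Vq Q y := by
    refine le_trans ?_ (hVlo Q hQ.per hQ.adm y hy4)
    apply div_le_div_of_nonneg_left hv.le (by positivity)
    exact pow_le_pow_left₀ hlogy.le hy3 k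
  have hL3 : 3 ≤ Real.log X := by
    have : 0 < 2 * C / η' := by positivity
    linarith
  obtain ⟨u, hu⟩ : ∃ u : ℝ, u = Real.log (Real.log X) := ⟨_, rfl⟩
  rw [← hu] at hX6 hVs
  have hk3 : (1 : ℝ) ≤ ((k : ℝ) + 3) ^ B0 := one_le_pow₀ (by
    have : (0 : ℝ) ≤ k := Nat.cast_nonneg _
    linarith)
  have hT0r : (0 : ℝ) ≤ T0 := Nat.cast_nonneg _
  have hu1 : 1 ≤ u := by
    have h1 : 0 < ((k : ℝ) + 3) ^ B0 / κ := by positivity
    have h2 : 0 ≤ (T0 : ℝ) / κ := by positivity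
    have h3 : 0 < 1 / κ := by positivity
    linarith
  have hu0 : 0 < u := by linarith
  have huB : 1 ≤ u ^ B0 := one_le_pow₀ hu1
  have huκ : ((k : ℝ) + 3) ^ B0 + T0 + 1 ≤ κ * u := by
    have e : ((k : ℝ) + 3) ^ B0 / κ + T0 / κ + 1 / κ = (((k : ℝ) + 3) ^ B0 + T0 + 1) / κ := by
      rw [add_div, add_div]
    rw [e] at hX6
    have h1 : (((k : ℝ) + 3) ^ B0 + T0 + 1) / κ ≤ u := by linarith
    rw [div_le_iff₀ hκ] at h1
    linarith
  have hVκ : Vq Q y ≤ κ := by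
    have h1 : 1 ≤ κ * u ^ (B0 + 1) := by
      calc (1 : ℝ) ≤ κ * u := by linarith
        _ = κ * u * 1 := (mul_one _).symm
        _ ≤ κ * u * u ^ B0 := mul_le_mul_of_nonneg_left huB (by positivity)
        _ = κ * u ^ (B0 + 1) := by ring
    by_contra hcon
    rw [not_le] at hcon
    have h2 : u ^ (B0 + 1) * κ < u ^ (B0 + 1) * Vq Q y := mul_lt_mul_of_pos_left hcon (by positivity)
    linarith
  obtain ⟨U, hU⟩ : ∃ U, U = ⌈Real.log X ^ (k + 2)⌉₊ := ⟨_, rfl⟩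
  have hU1 : Real.log X ^ (k + 2) ≤ U := by
    rw [hU]
    exact Nat.le_ceil _
  have hLk : 1 ≤ Real.log X ^ (k + 2) := one_le_pow₀ hL1
  have hU0 : (0 : ℝ) < U := by linarith
  have hU2 : (U : ℝ) ≤ Real.log X ^ (k + 3) := by
    have h1 : (U : ℝ) < Real.log X ^ (k + 2) + 1 := by
      rw [hU]
      exact Nat.ceil_lt_add_one (by positivity)
    have h2 : Real.log X ^ (k + 3) = Real.log X ^ (k + 2) * Real.log X := by ring
    rw [h2]
    nlinarith
  have hlogU : Real.log U ≤ (k + 3) * u := by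
    calc Real.log U ≤ Real.log (Real.log X ^ (k + 3)) := Real.log_le_log hU0 hU2
      _ = (k + 3) * u := by
        rw [Real.log_pow, hu]
        push_cast
        ring
  have hlogU0 : 0 ≤ Real.log U := Real.log_nonneg (by linarith)
  have hlogUB : Real.log U ^ B0 ≤ ((k : ℝ) + 3) ^ B0 * u ^ B0 := by
    rw [← mul_pow]
    exact pow_le_pow_left₀ hlogU0 hlogU _
  -- the sizes of the squareroots
  have hsY : (X : ℝ) ^ (θ / 2) ≤ √(Y : ℝ) := by
    apply Real.le_sqrt_of_sq_le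
    refine le_trans (le_of_eq ?_) hXY
    rw [← Real.rpow_natCast, ← Real.rpow_mul hXpos.le]
    congr 1
    push_cast
    ring
  have hsY2 : M * Real.log X ^ k ≤ √(Y : ℝ) := hX5.trans hsY
  have hs0 : 0 < √(Y : ℝ) := lt_of_lt_of_le (by positivity) hsY2
  have hsq : √(Y : ℝ) * √(Y : ℝ) = Y := Real.mul_self_sqrt (Nat.cast_nonneg Y)
  have hMv : M * v ≤ √(Y : ℝ) * Vq Q y := by
    calc M * v = (M * Real.log X ^ k) * (v / Real.log X ^ k) := by field_simp
      _ ≤ √(Y : ℝ) * Vq Q y := mul_le_mul hsY2 hVlow (by positivity) hs0.le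
  have hMv2 : M * v = 1 / κ + (x1 / κ + 1) := by
    rw [hM]
    field_simp
  rw [hMv2] at hMv
  have hx1κ : 0 < x1 / κ := by positivity
  have hκ1 : 0 < 1 / κ := by positivity
  refine hgap Q Z Y y U hQ.per hQ.adm hyy0 hyK hVκ ?_ ?_ ?_ l T hlT
  · have h1 : 1 / κ ≤ √(Y : ℝ) * Vq Q y := by linarith
    rw [div_le_iff₀ hκ] at h1
    calc √(Y : ℝ) = √(Y : ℝ) * 1 := (mul_one _).symm
      _ ≤ √(Y : ℝ) * (√(Y : ℝ) * Vq Q y * κ) := mul_le_mul_of_nonneg_left h1 hs0.le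
      _ = κ * ((√(Y : ℝ) * √(Y : ℝ)) * Vq Q y) := by ring
      _ = κ * (Y * Vq Q y) := by rw [hsq]
  · have h1 : x1 / κ ≤ (√(Y : ℝ) * Vq Q y) ^ 2 := by nlinarith
    rw [div_le_iff₀ hVpos]
    rw [div_le_iff₀ hκ] at h1
    calc x1 ≤ (√(Y : ℝ) * Vq Q y) ^ 2 * κ := h1
      _ = κ * ((√(Y : ℝ) * √(Y : ℝ)) * Vq Q y) * Vq Q y := by ring
      _ = κ * (Y * Vq Q y) * Vq Q y := by rw [hsq]
  -- the coincidences
  · intro T hT1 hT2
    have hTr0 : (0 : ℝ) ≤ T := Nat.cast_nonneg _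
    have hTup : (T : ℝ) ≤ Real.log X ^ (k + 1) := by
      have h1 : (T : ℝ) * (v / Real.log X ^ k) ≤ x1 :=
        (mul_le_mul_of_nonneg_left hVlow hTr0).trans hT2
      have h2 : (T : ℝ) ≤ x1 / v * Real.log X ^ k := by
        rw [div_mul_eq_mul_div, le_div_iff₀ hv]
        calc (T : ℝ) * v = T * (v / Real.log X ^ k) * Real.log X ^ k := by field_simp
          _ ≤ x1 * Real.log X ^ k := mul_le_mul_of_nonneg_right h1 (by positivity)
      refine h2.trans ?_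
      rw [pow_succ, mul_comm (Real.log (X : ℝ) ^ k)]
      apply mul_le_mul_of_nonneg_right _ (by positivity)
      linarith
    have hTlow : κ * u * u ^ B0 ≤ T := by
      have h1 : κ * u ^ (B0 + 1) ≤ T * Vq Q y * u ^ (B0 + 1) :=
        mul_le_mul_of_nonneg_right hT1 (by positivity)
      have h2 : (T : ℝ) * (u ^ (B0 + 1) * Vq Q y) ≤ T * 1 := mul_le_mul_of_nonneg_left hVs hTr0
      calc κ * u * u ^ B0 = κ * u ^ (B0 + 1) := by ring
        _ ≤ T * Vq Q y * u ^ (B0 + 1) := h1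
        _ = T * (u ^ (B0 + 1) * Vq Q y) := by ring
        _ ≤ T * 1 := h2
        _ = T := mul_one _
    have hT0 : T0 ≤ T := by
      have h1 : (T0 : ℝ) ≤ T := by
        refine le_trans ?_ hTlow
        calc (T0 : ℝ) ≤ κ * u := by linarith
          _ = κ * u * 1 := (mul_one _).symm
          _ ≤ κ * u * u ^ B0 := mul_le_mul_of_nonneg_left huB (by positivity)
      exact_mod_cast h1
    refine ⟨hT0, ?_, ?_, ?_, ?_⟩
    · have h3 : ((T ^ R0 : ℕ) : ℝ) ≤ Y := by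
        push_cast
        calc (T : ℝ) ^ R0 ≤ (Real.log X ^ (k + 1)) ^ R0 := pow_le_pow_left₀ hTr0 hTup _
          _ = 1 * Real.log X ^ ((k + 1) * R0) := by rw [one_mul, pow_mul]
          _ ≤ (X : ℝ) ^ θ := hX4
          _ ≤ Y := hXY
      exact_mod_cast h3
    · have h3 : (T : ℝ) ≤ U := by
        refine hTup.trans (le_trans ?_ hU1)
        exact pow_le_pow_right₀ hL1 (by omega)
      exact_mod_cast h3
    · refine le_trans ?_ hTlow
      refine hlogUB.trans ?_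
      apply mul_le_mul_of_nonneg_right _ (by positivity)
      linarith
    · intro t ht
      rw [mem_Icc] at ht
      have htr : (t : ℝ) ≤ T := by exact_mod_cast ht.2
      obtain ⟨F, hF0, hFL, hFp⟩ := hQ.co t ht.1 (htr.trans hTup)
      have hTU : T ≤ U := by
        have h3 : (T : ℝ) ≤ U := by
          refine hTup.trans (le_trans ?_ hU1)
          exact pow_le_pow_right₀ hL1 (by omega)
        exact_mod_cast h3
      have hcard := card_le_log ((pz y).filter (fun p : ℕ => U < p ∧ CoG Q p t)) F hF0 (fun p hp => by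
        rw [mem_filter, mem_pz] at hp
        exact ⟨hp.1.2, hFp p hp.1.2 (lt_of_le_of_lt (ht.2.trans hTU) hp.2.1) hp.2.2⟩)
      have h4 := Real.log_two_gt_d9
      have h5 : (0 : ℝ) ≤ (((pz y).filter (fun p : ℕ => U < p ∧ CoG Q p t)).card : ℝ) :=
        Nat.cast_nonneg _
      have h6 : (((pz y).filter (fun p : ℕ => U < p ∧ CoG Q p t)).card : ℝ) ≤ 2 * (C * Real.log X) := by
        nlinarith
      calc ∑ p ∈ (pz y).filter (fun p : ℕ => U < p ∧ CoG Q p t), 1 / (p : ℝ) ≤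
          ∑ _p ∈ (pz y).filter (fun p : ℕ => U < p ∧ CoG Q p t), 1 / (U : ℝ) := by
            apply Finset.sum_le_sum
            intro p hp
            rw [mem_filter] at hp
            have h7 : (U : ℝ) ≤ p := by exact_mod_cast hp.2.1.le
            exact one_div_le_one_div_of_le hU0 h7
        _ = (((pz y).filter (fun p : ℕ => U < p ∧ CoG Q p t)).card : ℝ) * (1 / U) := by
            rw [Finset.sum_const, nsmul_eq_mul]
        _ ≤ 2 * (C * Real.log X) * (1 / U) := mul_le_mul_of_nonneg_right h6 (by positivity)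
        _ ≤ 2 * (C * Real.log X) * (1 / Real.log X ^ 2) := by
            apply mul_le_mul_of_nonneg_left _ (by positivity)
            apply one_div_le_one_div_of_le (by positivity)
            refine le_trans ?_ hU1
            exact pow_le_pow_right₀ hL1 (by omega)
        _ = 2 * C / Real.log X := by
            field_simp
        _ ≤ η' := by
            rw [div_le_iff₀ hL0]
            have h8 : 2 * C / η' ≤ Real.log X := by linarith
            rw [div_le_iff₀ hη'] at h8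
            linarith

end Pool.Agent.Y859.SP
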